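import Pool.Agent.Helper256.KM.Mertens

/-!
# Smooth sums over the primes in a band (helper278)
-/

set_option autoImplicit false

namespace Pool.Agent.Q278.MX

open Filter Topology Finset MeasureTheory

/-- the primes with `α < log p ≤ β` -/
noncomputable def PB (α β : ℝ) : Finset ℕ :=
  (Finset.Icc 1 ⌊Real.exp β⌋₊).filter fun p => p.Prime ∧ α < Real.log p ∧ Real.log p ≤ β

lemma mem_PB {α β : ℝ} {p : ℕ} : p ∈ PB α β ↔ p.Prime ∧ α < Real.log p ∧ Real.log p ≤ β := by
  unfold PB
  rw [Finset.mem_filter, Finset.mem_Icc]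
  refine ⟨fun h => h.2, fun h => ⟨⟨h.1.one_le, ?_⟩, h⟩⟩
  apply Nat.le_floor
  rw [← Real.log_le_iff_le_exp (by exact_mod_cast h.1.pos)]
  exact h.2.2

lemma PB_mono {α β α' β' : ℝ} (h1 : α' ≤ α) (h2 : β ≤ β') : PB α β ⊆ PB α' β' := by
  intro p hp
  rw [mem_PB] at *
  exact ⟨hp.1, by linarith [hp.2.1], by linarith [hp.2.2]⟩

/-- the distribution function of the primes with weight `log p / p` -/
theorem dist_fun : ∃ C : ℝ, 1 ≤ C ∧ ∀ α v : ℝ, 0 ≤ α → α ≤ v →
    |(∑ p ∈ PB α v, Real.log p / p) - (v - α)| ≤ C := by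
  obtain ⟨C0, hC0⟩ := Pool.Agent.Helper256.KM.mertens_log
  have key : ∀ v : ℝ, 0 ≤ v → |(∑ p ∈ PB 0 v, Real.log p / p) - v| ≤ |C0| + 1 := by
    intro v hv
    have he : 1 ≤ Real.exp v := Real.one_le_exp hv
    set m := ⌊Real.exp v⌋₊ with hm
    have hm1 : 1 ≤ m := Nat.le_floor (by simpa using he)
    have h1 := hC0 m hm1
    have e : ∑ p ∈ PB 0 v, Real.log p / p = ∑ p ∈ (Finset.Icc 1 m).filter Nat.Prime, Real.log p / p := by
      apply Finset.sum_congr _ fun _ _ => rfl
      ext p
      rw [mem_PB, Finset.mem_filter, Finset.mem_Icc]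
      constructor
      · rintro ⟨a, b, c⟩
        refine ⟨⟨a.one_le, ?_⟩, a⟩
        apply Nat.le_floor
        rw [← Real.log_le_iff_le_exp (by exact_mod_cast a.pos)]
        exact c
      · rintro ⟨⟨a, b⟩, c⟩
        refine ⟨c, Real.log_pos (by exact_mod_cast c.one_lt), ?_⟩
        rw [Real.log_le_iff_le_exp (by exact_mod_cast c.pos)]
        exact (Nat.le_floor_iff (by linarith)).1 b
    have h2 : |Real.log m - v| ≤ 1 := by
      have h3 : (m : ℝ) ≤ Real.exp v := Nat.floor_le (by linarith)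
      have h4 : Real.exp v < m + 1 := Nat.lt_floor_add_one _
      have hm0 : (1 : ℝ) ≤ m := by exact_mod_cast hm1
      have h5 : Real.log m ≤ v := by
        rw [Real.log_le_iff_le_exp (by linarith)]; exact h3
      have h6 : v - 1 ≤ Real.log m := by
        rw [Real.le_log_iff_exp_le (by linarith)]
        have h7 : Real.exp (v - 1) = Real.exp v * Real.exp (-1) := by
          rw [← Real.exp_add]; congr 1
        have h8 : Real.exp (-1) ≤ 1 / 2 := by
          rw [Real.exp_neg, one_div]
          apply inv_anti₀ (by norm_num)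
          have := Real.add_one_le_exp 1
          linarith
        rw [h7]
        nlinarith [Real.exp_pos v]
      rw [abs_le]; constructor <;> linarith
    have h9 := le_abs_self C0
    rw [e]
    have h10 : |(∑ p ∈ (Finset.Icc 1 m).filter Nat.Prime, Real.log p / p) - Real.log m| ≤ C0 := h1
    have h11 := abs_sub_le (∑ p ∈ (Finset.Icc 1 m).filter Nat.Prime, Real.log p / p) (Real.log m) v
    linarith
  refine ⟨2 * (|C0| + 1), by linarith [abs_nonneg C0], fun α v hα hv => ?_⟩
  have h1 := key α hα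
  have h2 := key v (hα.trans hv)
  have e : ∑ p ∈ PB 0 v, Real.log p / p = (∑ p ∈ PB 0 α, Real.log p / p) +
      ∑ p ∈ PB α v, (Real.log p / p : ℝ) := by
    rw [← Finset.sum_union]
    · apply Finset.sum_congr _ fun _ _ => rfl
      ext p
      rw [Finset.mem_union, mem_PB, mem_PB, mem_PB]
      constructor
      · rintro ⟨a, b, c⟩
        rcases le_or_gt (Real.log p) α with h | h
        · exact Or.inl ⟨a, b, h⟩
        · exact Or.inr ⟨a, h, c⟩
      · rintro (⟨a, b, c⟩ | ⟨a, b, c⟩)
        · exact ⟨a, b, c.trans hv⟩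
        · exact ⟨a, by linarith, c⟩
    · rw [Finset.disjoint_left]
      intro p hp hp'
      rw [mem_PB] at hp hp'
      linarith [hp.2.2, hp'.2.1]
  have h3 := abs_le.1 h1
  have h4 := abs_le.1 h2
  rw [abs_le]
  constructor <;> linarith [h3.1, h3.2, h4.1, h4.2]

/-- integrals over a part of the band -/
lemma int_part {H' : ℝ → ℝ} {α β c : ℝ} (h1 : α < c) (h2 : c ≤ β) :
    ∫ v in α..β, (Set.Ici c).indicator H' v = ∫ v in c..β, H' v := by
  rw [intervalIntegral.integral_of_le (h1.le.trans h2), intervalIntegral.integral_of_le h2,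
    setIntegral_indicator measurableSet_Ici]
  have e : Set.Ioc α β ∩ Set.Ici c = Set.Icc c β := by
    ext v
    simp only [Set.mem_inter_iff, Set.mem_Ioc, Set.mem_Ici, Set.mem_Icc]
    constructor
    · rintro ⟨⟨_, b⟩, d⟩; exact ⟨d, b⟩
    · rintro ⟨b, d⟩; exact ⟨⟨by linarith, d⟩, b⟩
  rw [e, integral_Icc_eq_integral_Ioc]

/-- smooth sums over a band -/
theorem band_sum : ∃ C : ℝ, 1 ≤ C ∧ ∀ (α β : ℝ) (H H' : ℝ → ℝ), 0 ≤ α → α ≤ β →
    (∀ v ∈ Set.Icc α β, HasDerivAt H (H' v) v) → ContinuousOn H' (Set.Icc α β) →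
    |(∑ p ∈ PB α β, Real.log p / p * H (Real.log p)) - ∫ v in α..β, H v| ≤
      C * (|H β| + ∫ v in α..β, |H' v|) := by
  obtain ⟨C, hC, hd⟩ := dist_fun
  refine ⟨C, hC, fun α β H H' hα hαβ hH hH' => ?_⟩
  have hu : Set.uIcc α β = Set.Icc α β := Set.uIcc_of_le hαβ
  have hi : IntervalIntegrable H' volume α β := by
    apply ContinuousOn.intervalIntegrable
    rwa [hu]
  -- the distribution function
  set S : ℝ → ℝ := fun v => ∑ p ∈ PB α β, Real.log p / p * (Set.Ici (Real.log p)).indicator (fun _ => 1) v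
    with hS
  have hSd : ∀ v ∈ Set.Icc α β, |S v - (v - α)| ≤ C := by
    intro v hv
    have e : S v = ∑ p ∈ PB α v, Real.log p / p := by
      simp only [hS]
      have hsub : PB α v ⊆ PB α β := PB_mono le_rfl hv.2
      rw [← Finset.sum_subset hsub]
      · refine Finset.sum_congr rfl fun p hp => ?_
        rw [mem_PB] at hp
        rw [Set.indicator_of_mem (show v ∈ Set.Ici (Real.log p) from hp.2.2), mul_one]
      · intro p hp hp'
        rw [mem_PB] at hp hp'
        rw [Set.indicator_of_notMem, mul_zero]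
        intro h
        exact hp' ⟨hp.1, hp.2.1, h⟩
    rw [e]
    exact hd α v hα hv.1
  have hSm : Measurable S := by
    simp only [hS]
    refine Finset.measurable_sum _ fun p _ => ?_
    exact (measurable_const.indicator measurableSet_Ici).const_mul _
  -- integration by parts
  have e1 : ∫ v in α..β, H v = H β * (β - α) - ∫ v in α..β, H' v * (v - α) := by
    have h1 := intervalIntegral.integral_mul_deriv_eq_deriv_mul (a := α) (b := β) (u := H)
      (v := fun v => v - α) (u' := H') (v' := fun _ => 1) (fun x hx => hH x (by rwa [hu] at hx))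
      (fun x _ => (hasDerivAt_id x).sub_const α) hi (by simp)
    simp only [mul_one, sub_self, mul_zero, sub_zero] at h1
    exact h1
  -- the sum
  have hterm : ∀ p ∈ PB α β, Real.log p / p * H (Real.log p) = Real.log p / p * H β -
      ∫ v in α..β, H' v * (Real.log p / p * (Set.Ici (Real.log p)).indicator (fun _ => 1) v) := by
    intro p hp
    rw [mem_PB] at hp
    have h1 : ∫ v in (Real.log p)..β, H' v = H β - H (Real.log p) := by
      apply intervalIntegral.integral_eq_sub_of_hasDerivAt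
      · intro x hx
        rw [Set.uIcc_of_le hp.2.2] at hx
        exact hH x ⟨by linarith [hx.1, hp.2.1], hx.2⟩
      · apply ContinuousOn.intervalIntegrable
        rw [Set.uIcc_of_le hp.2.2]
        exact hH'.mono (Set.Icc_subset_Icc_left hp.2.1.le)
    have h2 : ∫ v in α..β, H' v * (Real.log p / p * (Set.Ici (Real.log p)).indicator (fun _ => 1) v) =
        Real.log p / p * ∫ v in α..β, (Set.Ici (Real.log p)).indicator H' v := by
      rw [← intervalIntegral.integral_const_mul]
      congr 1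
      funext v
      by_cases hv : v ∈ Set.Ici (Real.log p)
      · rw [Set.indicator_of_mem hv, Set.indicator_of_mem hv]; ring
      · rw [Set.indicator_of_notMem hv, Set.indicator_of_notMem hv]; ring
    rw [h2, int_part hp.2.1 hp.2.2, h1]
    ring
  have hSb : ∀ v ∈ Set.Icc α β, ‖S v‖ ≤ C + (β - α) := by
    intro v hv
    have h1 := hSd v hv
    have h2 := abs_le.1 h1
    rw [Real.norm_eq_abs, abs_le]
    constructor <;> linarith [h2.1, h2.2, hv.1, hv.2]
  have hint2 : ∀ g : ℝ → ℝ, Measurable g → (∃ B : ℝ, ∀ v ∈ Set.Icc α β, ‖g v‖ ≤ B) →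
      IntervalIntegrable (fun v => H' v * g v) volume α β := by
    intro g hg hB
    obtain ⟨B, hB⟩ := hB
    rw [intervalIntegrable_iff_integrableOn_Ioc_of_le hαβ] at hi ⊢
    refine Integrable.mul_bdd (c := B) hi hg.aestronglyMeasurable ?_
    refine (ae_restrict_iff' measurableSet_Ioc).2 (Eventually.of_forall fun v hv => ?_)
    exact hB v ⟨hv.1.le, hv.2⟩
  have e2 : ∑ p ∈ PB α β, Real.log p / p * H (Real.log p) = H β * S β - ∫ v in α..β, H' v * S v := by
    rw [Finset.sum_congr rfl hterm, Finset.sum_sub_distrib]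
    congr 1
    · simp only [hS]
      rw [Finset.mul_sum]
      refine Finset.sum_congr rfl fun p hp => ?_
      rw [mem_PB] at hp
      rw [Set.indicator_of_mem (show β ∈ Set.Ici (Real.log p) from hp.2.2)]
      ring
    · rw [← intervalIntegral.integral_finsetSum]
      · congr 1
        funext v
        simp only [hS]
        rw [Finset.mul_sum]
      · intro p _
        refine hint2 _ ((measurable_const.indicator measurableSet_Ici).const_mul _)
          ⟨|Real.log p / p|, fun v _ => ?_⟩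
        rw [norm_mul, Real.norm_eq_abs]
        refine mul_le_of_le_one_right (abs_nonneg _) ?_
        by_cases hv : v ∈ Set.Ici (Real.log p)
        · rw [Set.indicator_of_mem hv]; simp
        · rw [Set.indicator_of_notMem hv]; simp
  rw [e2, e1]
  have i1 := hint2 S hSm ⟨_, hSb⟩
  have i2 : IntervalIntegrable (fun v => H' v * (v - α)) volume α β :=
    hint2 (fun v => v - α) (by fun_prop) ⟨β - α, fun v hv => by
      rw [Real.norm_eq_abs, abs_of_nonneg (by linarith [hv.1])]; linarith [hv.2]⟩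
  have e3 : (H β * S β - ∫ v in α..β, H' v * S v) - (H β * (β - α) - ∫ v in α..β, H' v * (v - α)) =
      H β * (S β - (β - α)) - ∫ v in α..β, H' v * (S v - (v - α)) := by
    have : ∫ v in α..β, H' v * (S v - (v - α)) =
        (∫ v in α..β, H' v * S v) - ∫ v in α..β, H' v * (v - α) := by
      rw [← intervalIntegral.integral_sub i1 i2]
      congr 1
      funext v
      ring
    rw [this]
    ring
  rw [e3]
  refine (abs_sub _ _).trans ?_
  rw [mul_add]
  refine add_le_add ?_ ?_
  · rw [abs_mul, mul_comm]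
    exact mul_le_mul_of_nonneg_right (hSd β ⟨hαβ, le_rfl⟩) (abs_nonneg _)
  · rw [← intervalIntegral.integral_const_mul, ← Real.norm_eq_abs]
    refine intervalIntegral.norm_integral_le_of_norm_le hαβ ?_ (hi.abs.const_mul C)
    refine Eventually.of_forall fun v hv => ?_
    rw [norm_mul, Real.norm_eq_abs, Real.norm_eq_abs, mul_comm]
    exact mul_le_mul_of_nonneg_right (hSd v ⟨hv.1.le, hv.2⟩) (abs_nonneg _)

/-- the sum of the squares -/
theorem sum_sq : ∃ C : ℝ, 1 ≤ C ∧ ∀ β : ℝ, 1 ≤ β →
    ∑ p ∈ PB 0 β, Real.log p ^ 2 / p ≤ C * β ^ 2 := by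
  obtain ⟨C, hC, h⟩ := band_sum
  refine ⟨2 * C + 1, by linarith, fun β hβ => ?_⟩
  have h1 := h 0 β (fun v => v) (fun _ => 1) le_rfl (by linarith) (fun v _ => hasDerivAt_id v)
    continuousOn_const
  simp only [abs_one, intervalIntegral.integral_const, smul_eq_mul, mul_one, sub_zero, integral_id] at h1
  have e : ∑ p ∈ PB 0 β, Real.log p / p * Real.log p = ∑ p ∈ PB 0 β, Real.log p ^ 2 / (p : ℝ) :=
    Finset.sum_congr rfl fun p _ => by ring
  rw [e, abs_of_nonneg (by linarith : (0 : ℝ) ≤ β)] at h1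
  have h2 := (abs_le.1 h1).2
  have h3 : β ≤ β ^ 2 := by nlinarith
  have h4 : C * β ≤ C * β ^ 2 := mul_le_mul_of_nonneg_left h3 (by linarith)
  nlinarith

/-- the sum of the reciprocals -/
theorem sum_inv : ∃ C : ℝ, 1 ≤ C ∧ ∀ α β : ℝ, 0 < α → α ≤ β →
    |(∑ p ∈ PB α β, 1 / (p : ℝ)) - Real.log (β / α)| ≤ C / α := by
  obtain ⟨C, hC, h⟩ := band_sum
  refine ⟨C, hC, fun α β hα hβ => ?_⟩
  have hβ0 : 0 < β := by linarith
  have hne : ∀ v ∈ Set.Icc α β, v ≠ 0 := fun v hv => by
    have := hv.1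
    linarith
  have h1 := h α β (fun v => 1 / v) (fun v => -(v ^ 2)⁻¹) hα.le hβ (fun v hv => by
    simp only [one_div]
    exact hasDerivAt_inv (hne v hv)) (by
      apply ContinuousOn.neg
      apply ContinuousOn.inv₀ (by fun_prop)
      intro v hv
      exact pow_ne_zero 2 (hne v hv))
  have e : ∑ p ∈ PB α β, Real.log p / p * (1 / Real.log p) = ∑ p ∈ PB α β, 1 / (p : ℝ) := by
    refine Finset.sum_congr rfl fun p hp => ?_
    rw [mem_PB] at hp
    have h2 : 0 < Real.log p := by linarith [hp.2.1]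
    field_simp
  have e2 : ∫ v in α..β, 1 / v = Real.log (β / α) := by
    rw [integral_one_div_of_pos hα hβ0]
  have e3 : ∫ v in α..β, |-(v ^ 2)⁻¹| = 1 / α - 1 / β := by
    have h3 : ∫ v in α..β, |-(v ^ 2)⁻¹| = ∫ v in α..β, (v ^ 2)⁻¹ := by
      congr 1
      funext v
      rw [abs_neg, abs_of_nonneg (by positivity)]
    rw [h3]
    have h4 : ∀ v ∈ Set.uIcc α β, HasDerivAt (fun v : ℝ => -v⁻¹) ((v ^ 2)⁻¹) v := by
      intro v hv
      rw [Set.uIcc_of_le hβ] at hv
      have := (hasDerivAt_inv (hne v hv)).neg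
      rwa [neg_neg] at this
    rw [intervalIntegral.integral_eq_sub_of_hasDerivAt h4]
    · rw [one_div, one_div]; ring
    · apply ContinuousOn.intervalIntegrable
      rw [Set.uIcc_of_le hβ]
      apply ContinuousOn.inv₀ (by fun_prop)
      intro v hv
      exact pow_ne_zero 2 (hne v hv)
  rw [e, e2, e3, abs_of_pos (by positivity : (0 : ℝ) < 1 / β)] at h1
  refine h1.trans (le_of_eq ?_)
  field_simp
  ring

/-- the sums with a cosine -/
theorem sum_cos : ∃ C : ℝ, 1 ≤ C ∧ ∀ α β κ : ℝ, 0 < α → α ≤ β → 0 < κ →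
    |∑ p ∈ PB α β, Real.cos (κ * Real.log p) / (p : ℝ)| ≤
      C * (1 / α + κ * Real.log (β / α) + 1 / (κ * α)) := by
  obtain ⟨C, hC, h⟩ := band_sum
  refine ⟨C + 3, by linarith, fun α β κ hα hβ hκ => ?_⟩
  have hβ0 : 0 < β := by linarith
  have hne : ∀ v ∈ Set.Icc α β, v ≠ 0 := fun v hv => by
    have := hv.1
    linarith
  have hd : ∀ v ∈ Set.Icc α β, HasDerivAt (fun v => Real.cos (κ * v) / v)
      ((-Real.sin (κ * v) * κ * v - Real.cos (κ * v) * 1) / v ^ 2) v := by
    intro v hv
    have h1 : HasDerivAt (fun v => Real.cos (κ * v)) (-Real.sin (κ * v) * κ) v := by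
      have h2 := ((hasDerivAt_id v).const_mul κ).cos
      simp only [id, mul_one] at h2
      exact h2
    exact h1.div (hasDerivAt_id v) (hne v hv)
  have hc : ContinuousOn (fun v => (-Real.sin (κ * v) * κ * v - Real.cos (κ * v) * 1) / v ^ 2)
      (Set.Icc α β) := by
    apply ContinuousOn.div (by fun_prop) (by fun_prop)
    intro v hv
    exact pow_ne_zero 2 (hne v hv)
  have h1 := h α β _ _ hα.le hβ hd hc
  have e : ∑ p ∈ PB α β, Real.log p / p * (Real.cos (κ * Real.log p) / Real.log p) =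
      ∑ p ∈ PB α β, Real.cos (κ * Real.log p) / (p : ℝ) := by
    refine Finset.sum_congr rfl fun p hp => ?_
    rw [mem_PB] at hp
    have h2 : 0 < Real.log p := by linarith [hp.2.1]
    field_simp
  rw [e] at h1
  have hu : Set.uIcc α β = Set.Icc α β := Set.uIcc_of_le hβ
  have c1 : ContinuousOn (fun v : ℝ => 1 / v) (Set.Icc α β) :=
    ContinuousOn.div continuousOn_const continuousOn_id hne
  have c2 : ContinuousOn (fun v : ℝ => (v ^ 2)⁻¹) (Set.Icc α β) :=
    ContinuousOn.inv₀ (by fun_prop) fun v hv => pow_ne_zero 2 (hne v hv)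
  have i1 : IntervalIntegrable (fun v : ℝ => 1 / v) volume α β :=
    ContinuousOn.intervalIntegrable (by rwa [hu])
  have i2 : IntervalIntegrable (fun v : ℝ => (v ^ 2)⁻¹) volume α β :=
    ContinuousOn.intervalIntegrable (by rwa [hu])
  have v1 : ∫ v in α..β, 1 / v = Real.log (β / α) := integral_one_div_of_pos hα hβ0
  have v2 : ∫ v in α..β, (v ^ 2)⁻¹ = 1 / α - 1 / β := by
    have h4 : ∀ v ∈ Set.uIcc α β, HasDerivAt (fun v : ℝ => -v⁻¹) ((v ^ 2)⁻¹) v := by
      intro v hv
      rw [hu] at hv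
      have := (hasDerivAt_inv (hne v hv)).neg
      rwa [neg_neg] at this
    rw [intervalIntegral.integral_eq_sub_of_hasDerivAt h4 i2]
    rw [one_div, one_div]; ring
  -- the total variation
  have b1 : ∫ v in α..β, |(-Real.sin (κ * v) * κ * v - Real.cos (κ * v) * 1) / v ^ 2| ≤
      κ * Real.log (β / α) + (1 / α - 1 / β) := by
    rw [← v1, ← v2, ← intervalIntegral.integral_const_mul, ← intervalIntegral.integral_add
      (i1.const_mul κ) i2]
    refine intervalIntegral.integral_mono_on hβ ?_ ((i1.const_mul κ).add i2) fun v hv => ?_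
    · apply ContinuousOn.intervalIntegrable
      rw [hu]
      exact hc.abs
    · have hv0 : 0 < v := by linarith [hv.1]
      rw [abs_div, abs_of_pos (by positivity : 0 < v ^ 2), div_le_iff₀ (by positivity)]
      have g1 : |-Real.sin (κ * v) * κ * v - Real.cos (κ * v) * 1| ≤ κ * v + 1 := by
        refine (abs_sub _ _).trans ?_
        rw [mul_one, abs_mul, abs_mul, abs_neg, abs_of_pos hκ, abs_of_pos hv0]
        have g2 := Real.abs_sin_le_one (κ * v)
        have g3 := Real.abs_cos_le_one (κ * v)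
        have g4 : |Real.sin (κ * v)| * κ * v ≤ 1 * κ * v := by gcongr
        linarith
      refine g1.trans (le_of_eq ?_)
      field_simp
  -- the integral
  have b2 : |∫ v in α..β, Real.cos (κ * v) / v| ≤ 3 / (κ * α) := by
    have hs : ∀ v ∈ Set.uIcc α β, HasDerivAt (fun v => Real.sin (κ * v) / κ) (Real.cos (κ * v)) v := by
      intro v _
      have h2 := (((hasDerivAt_id v).const_mul κ).sin).div_const κ
      simp only [id, mul_one] at h2
      refine h2.congr_deriv ?_
      field_simp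
    have hin : ∀ v ∈ Set.uIcc α β, HasDerivAt (fun v : ℝ => v⁻¹) (-(v ^ 2)⁻¹) v := by
      intro v hv
      rw [hu] at hv
      exact hasDerivAt_inv (hne v hv)
    have h5 := intervalIntegral.integral_mul_deriv_eq_deriv_mul (a := α) (b := β)
      (u := fun v : ℝ => v⁻¹) (v := fun v => Real.sin (κ * v) / κ) (u' := fun v => -(v ^ 2)⁻¹)
      (v' := fun v => Real.cos (κ * v)) hin hs i2.neg
      ((Real.continuous_cos.comp (by fun_prop)).intervalIntegrable _ _)
    have e5 : ∫ v in α..β, Real.cos (κ * v) / v = ∫ v in α..β, v⁻¹ * Real.cos (κ * v) := by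
      congr 1
      funext v
      rw [div_eq_mul_inv, mul_comm]
    rw [e5, h5]
    have g5 : |∫ v in α..β, -(v ^ 2)⁻¹ * (Real.sin (κ * v) / κ)| ≤ 1 / κ * (1 / α - 1 / β) := by
      rw [← v2, ← intervalIntegral.integral_const_mul, ← Real.norm_eq_abs]
      refine intervalIntegral.norm_integral_le_of_norm_le hβ ?_ (i2.const_mul _)
      refine Eventually.of_forall fun v hv => ?_
      rw [norm_mul, norm_neg, Real.norm_of_nonneg (by positivity : 0 ≤ (v ^ 2)⁻¹), norm_div,
        Real.norm_eq_abs, Real.norm_eq_abs, abs_of_pos hκ, mul_comm]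
      refine mul_le_mul_of_nonneg_right ?_ (by positivity)
      exact div_le_div_of_nonneg_right (Real.abs_sin_le_one _) hκ.le
    have g6 : ∀ v : ℝ, α ≤ v → |v⁻¹ * (Real.sin (κ * v) / κ)| ≤ 1 / (κ * α) := by
      intro v hv
      have hv0 : 0 < v := by linarith
      rw [abs_mul, abs_div, abs_of_pos hκ, abs_of_pos (inv_pos.2 hv0)]
      calc v⁻¹ * (|Real.sin (κ * v)| / κ) ≤ α⁻¹ * (1 / κ) := by
            gcongr
            exact Real.abs_sin_le_one _
        _ = _ := by field_simp
    have g7 := g6 β hβ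
    have g8 := g6 α le_rfl
    have g9 : 1 / κ * (1 / α - 1 / β) ≤ 1 / (κ * α) := by
      have : 0 ≤ 1 / κ * (1 / β) := by positivity
      have e9 : 1 / (κ * α) = 1 / κ * (1 / α) := by field_simp
      rw [e9, mul_sub]
      linarith
    have g10 := abs_sub (β⁻¹ * (Real.sin (κ * β) / κ) - α⁻¹ * (Real.sin (κ * α) / κ))
      (∫ v in α..β, -(v ^ 2)⁻¹ * (Real.sin (κ * v) / κ))
    have g11 := abs_sub (β⁻¹ * (Real.sin (κ * β) / κ)) (α⁻¹ * (Real.sin (κ * α) / κ))
    have e10 : 3 / (κ * α) = 1 / (κ * α) + 1 / (κ * α) + 1 / (κ * α) := by ring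
    rw [e10]
    linarith
  have b3 : |Real.cos (κ * β) / β| ≤ 1 / β := by
    rw [abs_div, abs_of_pos hβ0]
    exact div_le_div_of_nonneg_right (Real.abs_cos_le_one _) hβ0.le
  have b4 : |∑ p ∈ PB α β, Real.cos (κ * Real.log p) / (p : ℝ)| ≤
      C * (1 / α + κ * Real.log (β / α)) + 3 / (κ * α) := by
    have h6 : |∑ p ∈ PB α β, Real.cos (κ * Real.log p) / (p : ℝ)| ≤
        |(∑ p ∈ PB α β, Real.cos (κ * Real.log p) / (p : ℝ)) - ∫ v in α..β, Real.cos (κ * v) / v| +
          |∫ v in α..β, Real.cos (κ * v) / v| := by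
      have := abs_add_le ((∑ p ∈ PB α β, Real.cos (κ * Real.log p) / (p : ℝ)) -
        ∫ v in α..β, Real.cos (κ * v) / v) (∫ v in α..β, Real.cos (κ * v) / v)
      rwa [sub_add_cancel] at this
    refine h6.trans (add_le_add (h1.trans ?_) b2)
    refine mul_le_mul_of_nonneg_left ?_ (by linarith)
    linarith
  have hl : 0 ≤ Real.log (β / α) := Real.log_nonneg (by rwa [le_div_iff₀ hα, one_mul])
  have g1 : 0 ≤ 1 / α + κ * Real.log (β / α) := by positivity
  have g2 : 0 ≤ 1 / (κ * α) := by positivity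
  have e10 : 3 / (κ * α) = 3 * (1 / (κ * α)) := by ring
  rw [e10] at b4
  nlinarith

end Pool.Agent.Q278.MX
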