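import Pool.Agent.Q278.MX.F

/-!
# The characteristic function and the tail, with explicit error (helper278)
-/

set_option autoImplicit false

namespace Pool.Agent.Q278.MX

open Filter Topology Finset MeasureTheory Complex
open scoped ComplexConjugate
open Pool.Agent.Q278.MC
open Pool.Agent.Q278.KM (SS_zero SS_le dp_mom)

variable {c : ArithmeticFunction ℂ} {P : Finset ℕ} {N : ℕ}

lemma sum_pairs {β : Type*} [AddCommMonoid β] (g : ℕ → β) (r : ℕ) : ∑ n ∈ range (2 * r), g n =
    ∑ k ∈ range r, (g (2 * k) + g (2 * k + 1)) := by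
  induction r with
  | zero => simp
  | succ r ih =>
    rw [sum_range_succ, ← ih, show 2 * (r + 1) = 2 * r + 1 + 1 by ring, sum_range_succ,
      sum_range_succ, add_assoc]

lemma pow_fac_le {V : ℝ} (hV : 0 ≤ V) (n : ℕ) : V ^ n / (n.factorial : ℝ) ≤ Real.exp V := by
  have h1 := Real.sum_le_exp_of_nonneg hV (n + 1)
  refine le_trans ?_ h1
  exact Finset.single_le_sum (f := fun i => V ^ i / (i.factorial : ℝ)) (fun i _ => by positivity)
    (mem_range.2 (Nat.lt_succ_self n))

lemma sqrt_fac_le {V : ℝ} (hV : 0 ≤ V) (n : ℕ) :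
    Real.sqrt (n.factorial * V ^ n) / (n.factorial : ℝ) ≤ Real.exp V := by
  have hf : (0 : ℝ) < n.factorial := by positivity
  have h1 := pow_fac_le hV n
  have h2 : 1 ≤ Real.exp V := Real.one_le_exp hV
  rw [div_le_iff₀ hf, Real.sqrt_le_left (by positivity)]
  rw [div_le_iff₀ hf] at h1
  calc (n.factorial : ℝ) * V ^ n ≤ n.factorial * (Real.exp V * n.factorial) :=
        mul_le_mul_of_nonneg_left h1 hf.le
    _ ≤ (Real.exp V * n.factorial) ^ 2 := by
        have : 0 ≤ Real.exp V * n.factorial * n.factorial := by positivity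
        nlinarith

/-- the diagonal term -/
lemma bk_le (h : Pc c P N) (k : ℕ) : bk (2 * k) * SS c N k / ((2 * k).factorial : ℝ) ≤
    VV c P ^ k / (k.factorial * 4 ^ k) := by
  have hV := VV_nonneg c P
  have hf : (0 : ℝ) < k.factorial := by positivity
  have hf2 : (0 : ℝ) < (2 * k).factorial := by positivity
  have hc : ((2 * k).choose k : ℝ) * (k.factorial * k.factorial) = (2 * k).factorial := by
    have := Nat.choose_mul_factorial_mul_factorial (n := 2 * k) (k := k) (by omega)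
    rw [show 2 * k - k = k by omega] at this
    rw [← mul_assoc]
    exact_mod_cast this
  rw [bk_even, div_le_div_iff₀ hf2 (by positivity), ← hc]
  have h1 := SS_le h k
  have hc0 : (0 : ℝ) ≤ ((2 * k).choose k : ℝ) := Nat.cast_nonneg _
  calc ((2 * k).choose k : ℝ) / 4 ^ k * SS c N k * (k.factorial * 4 ^ k) =
        ((2 * k).choose k : ℝ) * k.factorial * SS c N k := by field_simp
    _ ≤ ((2 * k).choose k : ℝ) * k.factorial * (k.factorial * VV c P ^ k) :=
        mul_le_mul_of_nonneg_left h1 (by positivity)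
    _ = _ := by ring

lemma bk_eq (k : ℕ) (S : ℝ) : bk (2 * k) * S / ((2 * k).factorial : ℝ) =
    S / (k.factorial ^ 2 * 4 ^ k) := by
  have hf : (0 : ℝ) < k.factorial := by positivity
  have hf2 : (0 : ℝ) < (2 * k).factorial := by positivity
  have hc : ((2 * k).choose k : ℝ) * (k.factorial * k.factorial) = (2 * k).factorial := by
    have := Nat.choose_mul_factorial_mul_factorial (n := 2 * k) (k := k) (by omega)
    rw [show 2 * k - k = k by omega] at this
    rw [← mul_assoc]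
    exact_mod_cast this
  rw [bk_even, div_eq_div_iff hf2.ne' (by positivity), ← hc]
  field_simp

/-- the sum of the shifted terms -/
lemma shift_sum {V : ℝ} (hV : 0 ≤ V) (r : ℕ) :
    ∑ k ∈ range r, (k : ℝ) ^ 2 * V ^ (k - 1) / (k.factorial * 4 ^ k) ≤ Real.exp V := by
  cases r with
  | zero => simp; positivity
  | succ r =>
    rw [sum_range_succ']
    have e0 : ((0 : ℕ) : ℝ) ^ 2 * V ^ (0 - 1) / ((0 : ℕ).factorial * 4 ^ 0) = 0 := by simp
    rw [e0, add_zero]
    refine le_trans (Finset.sum_le_sum fun j _ => ?_) (Real.sum_le_exp_of_nonneg hV r)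
    rw [Nat.factorial_succ]
    have h4 : ((j : ℝ) + 1) ≤ 4 ^ (j + 1) := by
      have : j + 1 < 2 ^ (j + 1) := Nat.lt_two_pow_self
      have h5 : ((j : ℝ) + 1) ≤ 2 ^ (j + 1) := by exact_mod_cast this.le
      exact h5.trans (pow_le_pow_left₀ (by norm_num) (by norm_num) _)
    have hf : (0 : ℝ) < j.factorial := by positivity
    push_cast
    try simp only [Nat.add_sub_cancel]
    rw [div_le_div_iff₀ (by positivity) hf]
    have h6 : 0 ≤ ((j : ℝ) + 1) * V ^ j * j.factorial := by positivity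
    calc ((j : ℝ) + 1) ^ 2 * V ^ j * j.factorial = (((j : ℝ) + 1) * V ^ j * j.factorial) * (j + 1) := by
          ring
      _ ≤ (((j : ℝ) + 1) * V ^ j * j.factorial) * 4 ^ (j + 1) := mul_le_mul_of_nonneg_left h4 h6
      _ = _ := by ring

/-- the mass -/
noncomputable def ta (T : ℝ) : ℝ := (T - 2 * Real.log T) / T

lemma ta_mem {T : ℝ} (hT : 1 ≤ T) : 0 ≤ ta T ∧ ta T ≤ 1 := by
  have h := two_log_le hT
  have h0 := Real.log_nonneg hT
  unfold ta
  exact ⟨div_nonneg (by linarith) (by linarith), by rw [div_le_one (by linarith)]; linarith⟩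

lemma mu_univ {T : ℝ} (hT : 1 ≤ T) : (mu T).real Set.univ = ta T := by
  have h := two_log_le hT
  have e := mu_int (E := ℝ) hT (fun _ => (1 : ℝ))
  rw [intervalIntegral.integral_const, integral_const] at e
  simp only [smul_eq_mul, mul_one] at e
  rw [e]
  unfold ta
  ring

/-- the moments for the normalised measure -/
lemma mom_mu (h : Pc c P N) {T δ : ℝ} (hT : 1 ≤ T) (Y n : ℕ) (hN : 1 ≤ N) (hn : N ^ n ≤ Y)
    (hδ : 8 * Y * (1 + Real.log Y) ≤ δ * T) :
    ‖(∫ t, (((DP c N t).re : ℝ) : ℂ) ^ n ∂(mu T)) - ((ta T * (bk n * SS c N (n / 2)) : ℝ) : ℂ)‖ ≤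
      δ * Real.sqrt (n.factorial * VV c P ^ n) := by
  have h2 := two_log_le hT
  have hT0 : 0 < T := by linarith
  have h1 := mom_re h (T1 := T + Real.log T) (T2 := 2 * T - Real.log T) (by linarith) Y n hN hn hδ
  rw [mu_int hT, Complex.real_smul]
  have e : ((1 / T : ℝ) : ℂ) * (∫ t in (T + Real.log T)..(2 * T - Real.log T),
      (((DP c N t).re : ℝ) : ℂ) ^ n) - ((ta T * (bk n * SS c N (n / 2)) : ℝ) : ℂ) =
      ((1 / T : ℝ) : ℂ) * ((∫ t in (T + Real.log T)..(2 * T - Real.log T),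
      (((DP c N t).re : ℝ) : ℂ) ^ n) -
        ((((2 * T - Real.log T) - (T + Real.log T)) * (bk n * SS c N (n / 2)) : ℝ) : ℂ)) := by
    rw [mul_sub, ← Complex.ofReal_mul]
    congr 2
    unfold ta
    field_simp
    ring
  rw [e, norm_mul, Complex.norm_real, Real.norm_of_nonneg (by positivity)]
  calc 1 / T * ‖_‖ ≤ 1 / T * (δ * T * Real.sqrt (n.factorial * VV c P ^ n)) :=
        mul_le_mul_of_nonneg_left h1 (by positivity)
    _ = _ := by field_simp

/-- the characteristic function -/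
theorem char_fun (h : Pc c P N) {T δ M : ℝ} (hT : 1 ≤ T) {r : ℕ} (hN : 1 ≤ N)
    (hM0 : 0 ≤ M) (hM : ∀ p ∈ P, ‖c p‖ ^ 2 ≤ M)
    (hδ : 8 * ((N ^ (2 * r) : ℕ) : ℝ) * (1 + Real.log ((N ^ (2 * r) : ℕ) : ℝ)) ≤ δ * T) :
    ‖(∫ t, cexp (I * (((DP c N t).re : ℝ) : ℂ)) ∂(mu T)) - ((Real.exp (-(VV c P / 4)) : ℝ) : ℂ)‖ ≤
      Real.exp (VV c P) * (δ * (2 * r + 1) + (1 - ta T) + M +
        2 * (VV c P ^ r / (r.factorial : ℝ))) := by
  set V := VV c P with hVd
  have hV : 0 ≤ V := VV_nonneg c P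
  obtain ⟨ht0, ht1⟩ := ta_mem hT
  have hT0 : 0 < T := by linarith
  have hY1 : (1 : ℝ) ≤ ((N ^ (2 * r) : ℕ) : ℝ) := by
    have : 1 ≤ N ^ (2 * r) := Nat.one_le_pow _ _ hN
    exact_mod_cast this
  have hlY := Real.log_nonneg hY1
  have hδ0 : 0 ≤ δ := by
    have : 0 ≤ δ * T := le_trans (by positivity) hδ
    by_contra hc
    push Not at hc
    nlinarith
  have hcont : Continuous fun t => (((DP c N t).re : ℝ) : ℂ) :=
    Complex.continuous_ofReal.comp (Complex.continuous_re.comp (DP_cont _ _))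
  haveI := mu_fin T
  have hle : ∀ n, n ≤ 2 * r → N ^ n ≤ N ^ (2 * r) := fun n hn => Nat.pow_le_pow_right hN hn
  -- Taylor
  have s1 : ‖(∫ t, cexp (I * (((DP c N t).re : ℝ) : ℂ)) ∂(mu T)) -
      ∑ n ∈ range (2 * r), I ^ n / (n.factorial : ℂ) * ∫ t, (((DP c N t).re : ℝ) : ℂ) ^ n ∂(mu T)‖ ≤
      V ^ r / (r.factorial : ℝ) + δ * Real.exp V := by
    have e1 : ∑ n ∈ range (2 * r), I ^ n / (n.factorial : ℂ) * ∫ t, (((DP c N t).re : ℝ) : ℂ) ^ n ∂(mu T) =
        ∫ t, Pool.Agent.Y586.SW.Sm (2 * r) (DP c N t).re ∂(mu T) := by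
      unfold Pool.Agent.Y586.SW.Sm
      rw [integral_finsetSum _ (fun n _ => mu_cont (by fun_prop) T)]
      refine Finset.sum_congr rfl fun n _ => ?_
      rw [← integral_const_mul]
      congr 1
      funext t
      rw [mul_pow]
      ring
    have hSc : Continuous fun t => Pool.Agent.Y586.SW.Sm (2 * r) (DP c N t).re := by
      unfold Pool.Agent.Y586.SW.Sm
      fun_prop
    rw [e1, ← integral_sub (mu_cont (by fun_prop) T) (mu_cont hSc T)]
    have hmom := mom_mu h hT (N ^ (2 * r)) (2 * r) hN le_rfl hδ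
    rw [Nat.mul_div_cancel_left r two_pos, ← hVd] at hmom
    have hfr : (0 : ℝ) < (2 * r).factorial := by positivity
    have e2 : ∫ t, |(DP c N t).re| ^ (2 * r) / ((2 * r).factorial : ℝ) ∂(mu T) ≤
        V ^ r / (r.factorial : ℝ) + δ * Real.exp V := by
      have e3 : ∫ t, |(DP c N t).re| ^ (2 * r) / ((2 * r).factorial : ℝ) ∂(mu T) =
          (∫ t, (((DP c N t).re : ℝ) : ℂ) ^ (2 * r) ∂(mu T)).re / ((2 * r).factorial : ℝ) := by
        rw [integral_div]
        congr 1
        have e4 : ∫ t, (((DP c N t).re : ℝ) : ℂ) ^ (2 * r) ∂(mu T) =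
            ((∫ t, (DP c N t).re ^ (2 * r) ∂(mu T) : ℝ) : ℂ) := by
          have e0 : ∫ t, (((DP c N t).re ^ (2 * r) : ℝ) : ℂ) ∂(mu T) =
            ((∫ t, (DP c N t).re ^ (2 * r) ∂(mu T) : ℝ) : ℂ) := integral_ofReal
          rw [← e0]
          congr 1
          funext t
          push_cast
          rfl
        rw [e4, Complex.ofReal_re]
        congr 1
        funext t
        rw [pow_mul, sq_abs, ← pow_mul]
      rw [e3]
      have h3 := (Complex.abs_re_le_norm _).trans hmom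
      rw [Complex.sub_re, Complex.ofReal_re] at h3
      have h4 := (abs_le.1 h3).2
      have h5 := bk_le h r
      have h6 := sqrt_fac_le hV (2 * r)
      have h7 : 0 ≤ bk (2 * r) * SS c N r := by
        rw [bk_even]
        have := SS_nonneg c N r
        positivity
      calc _ ≤ (ta T * (bk (2 * r) * SS c N r) + δ * Real.sqrt ((2 * r).factorial * V ^ (2 * r))) /
            ((2 * r).factorial : ℝ) := div_le_div_of_nonneg_right (by linarith) hfr.le
        _ = ta T * (bk (2 * r) * SS c N r / ((2 * r).factorial : ℝ)) +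
            δ * (Real.sqrt ((2 * r).factorial * V ^ (2 * r)) / ((2 * r).factorial : ℝ)) := by ring
        _ ≤ 1 * (V ^ r / (r.factorial * 4 ^ r)) + δ * Real.exp V :=
            add_le_add (mul_le_mul ht1 h5 (by positivity) zero_le_one)
              (mul_le_mul_of_nonneg_left h6 hδ0)
        _ ≤ V ^ r / (r.factorial : ℝ) + δ * Real.exp V := by
            have h8 : V ^ r / (r.factorial * 4 ^ r) ≤ V ^ r / (r.factorial : ℝ) := by
              apply div_le_div_of_nonneg_left (by positivity) (by positivity)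
              exact le_mul_of_one_le_right (by positivity) (one_le_pow₀ (by norm_num))
            linarith
    refine le_trans (norm_integral_le_of_norm_le (mu_cont ?_ T) (Eventually.of_forall fun t => ?_)) e2
    · exact ((Complex.continuous_re.comp (DP_cont _ _)).abs.pow _).div_const _
    · exact Pool.Agent.Y586.SW.tay (2 * r) (DP c N t).re
  -- the moments
  have s2 : ‖(∑ n ∈ range (2 * r), I ^ n / (n.factorial : ℂ) *
      ∫ t, (((DP c N t).re : ℝ) : ℂ) ^ n ∂(mu T)) -
      ∑ n ∈ range (2 * r), I ^ n / (n.factorial : ℂ) * ((ta T * (bk n * SS c N (n / 2)) : ℝ) : ℂ)‖ ≤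
      2 * r * (δ * Real.exp V) := by
    rw [← Finset.sum_sub_distrib]
    refine (norm_sum_le _ _).trans ?_
    have : (2 * r : ℝ) * (δ * Real.exp V) = ∑ _n ∈ range (2 * r), δ * Real.exp V := by
      rw [Finset.sum_const, card_range, nsmul_eq_mul]; push_cast; ring
    rw [this]
    refine Finset.sum_le_sum fun n hn => ?_
    rw [mem_range] at hn
    rw [← mul_sub, norm_mul, norm_div, norm_pow, Complex.norm_I, one_pow, Complex.norm_natCast]
    have h3 := mom_mu h hT (N ^ (2 * r)) n hN (hle n hn.le) hδ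
    have hf : (0 : ℝ) < n.factorial := by positivity
    calc 1 / (n.factorial : ℝ) * ‖_‖ ≤ 1 / (n.factorial : ℝ) *
          (δ * Real.sqrt (n.factorial * V ^ n)) := mul_le_mul_of_nonneg_left h3 (by positivity)
      _ = δ * (Real.sqrt (n.factorial * V ^ n) / (n.factorial : ℝ)) := by ring
      _ ≤ δ * Real.exp V := mul_le_mul_of_nonneg_left (sqrt_fac_le hV n) hδ0
  -- the main terms
  have e5 : ∑ n ∈ range (2 * r), I ^ n / (n.factorial : ℂ) * ((ta T * (bk n * SS c N (n / 2)) : ℝ) : ℂ) =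
      ((∑ k ∈ range r, (-1) ^ k * (ta T * (SS c N k / (k.factorial ^ 2 * 4 ^ k))) : ℝ) : ℂ) := by
    rw [sum_pairs]
    push_cast
    refine Finset.sum_congr rfl fun k _ => ?_
    have h3 : bk (2 * k + 1) = 0 := by
      unfold bk
      rw [if_neg (by simp)]
    rw [h3, Nat.mul_div_cancel_left k two_pos]
    have h4 := bk_eq k (SS c N k)
    have h5 : ((bk (2 * k) : ℝ) : ℂ) * ((SS c N k : ℝ) : ℂ) / ((2 * k).factorial : ℂ) =
        ((SS c N k : ℝ) : ℂ) / ((k.factorial : ℂ) ^ 2 * 4 ^ k) := by exact_mod_cast congrArg ((↑) : ℝ → ℂ) h4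
    rw [← h5, pow_mul, Complex.I_sq]
    push_cast
    ring
  have s3 : |(∑ k ∈ range r, (-1) ^ k * (ta T * (SS c N k / (k.factorial ^ 2 * 4 ^ k)))) -
      ∑ k ∈ range r, (-(V / 4)) ^ k / (k.factorial : ℝ)| ≤ ((1 - ta T) + M) * Real.exp V := by
    rw [← Finset.sum_sub_distrib]
    refine (Finset.abs_sum_le_sum_abs _ _).trans ?_
    have hterm : ∀ k ∈ range r, |(-1) ^ k * (ta T * (SS c N k / (k.factorial ^ 2 * 4 ^ k))) -
        (-(V / 4)) ^ k / (k.factorial : ℝ)| ≤ (1 - ta T) * (V ^ k / (k.factorial : ℝ)) +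
        M * ((k : ℝ) ^ 2 * V ^ (k - 1) / (k.factorial * 4 ^ k)) := by
      intro k _
      have hf : (0 : ℝ) < k.factorial := by positivity
      have e6 : (-1 : ℝ) ^ k * (ta T * (SS c N k / (k.factorial ^ 2 * 4 ^ k))) -
          (-(V / 4)) ^ k / (k.factorial : ℝ) = -((-1) ^ k * ((1 - ta T) * (V ^ k / (k.factorial * 4 ^ k)) +
            ta T * ((k.factorial * V ^ k - SS c N k) / (k.factorial ^ 2 * 4 ^ k)))) := by
        rw [neg_eq_neg_one_mul (V / 4), mul_pow, div_pow]
        field_simp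
        ring
      rw [e6, abs_neg, abs_mul, abs_pow, abs_neg, abs_one, one_pow, one_mul]
      have h3 : 0 ≤ k.factorial * V ^ k - SS c N k := by
        have := SS_le h k
        linarith
      have h4 := SS_low h hM0 hM k
      rw [← hVd] at h4
      rw [abs_of_nonneg (by
        have : 0 ≤ 1 - ta T := by linarith
        positivity)]
      refine add_le_add ?_ ?_
      · refine mul_le_mul_of_nonneg_left ?_ (by linarith)
        apply div_le_div_of_nonneg_left (by positivity) hf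
        exact le_mul_of_one_le_right hf.le (one_le_pow₀ (by norm_num))
      · calc ta T * ((k.factorial * V ^ k - SS c N k) / (k.factorial ^ 2 * 4 ^ k)) ≤
              1 * ((k.factorial * ((k : ℝ) ^ 2 * M * V ^ (k - 1))) / (k.factorial ^ 2 * 4 ^ k)) :=
              mul_le_mul ht1 (div_le_div_of_nonneg_right h4 (by positivity)) (by positivity) zero_le_one
          _ = _ := by
              field_simp
    refine (Finset.sum_le_sum hterm).trans ?_
    rw [Finset.sum_add_distrib, ← Finset.mul_sum, ← Finset.mul_sum, add_mul]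
    exact add_le_add (mul_le_mul_of_nonneg_left (Real.sum_le_exp_of_nonneg hV r) (by linarith))
      (mul_le_mul_of_nonneg_left (shift_sum hV r) hM0)
  have s4 : |Real.exp (-(V / 4)) - ∑ k ∈ range r, (-(V / 4)) ^ k / (k.factorial : ℝ)| ≤
      V ^ r / (r.factorial : ℝ) * Real.exp V := by
    refine (exp_neg_rem r (by positivity : 0 ≤ V / 4)).trans ?_
    have h3 : V / 4 ≤ V := by linarith
    gcongr
  -- assembling
  rw [e5] at s2
  set A := ∫ t, cexp (I * (((DP c N t).re : ℝ) : ℂ)) ∂(mu T) with hA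
  set B := ∑ n ∈ range (2 * r), I ^ n / (n.factorial : ℂ) *
      ∫ t, (((DP c N t).re : ℝ) : ℂ) ^ n ∂(mu T) with hB
  set D : ℝ := ∑ k ∈ range r, (-1) ^ k * (ta T * (SS c N k / (k.factorial ^ 2 * 4 ^ k))) with hD
  set E : ℝ := ∑ k ∈ range r, (-(V / 4)) ^ k / (k.factorial : ℝ) with hE
  have e7 : A - ((Real.exp (-(V / 4)) : ℝ) : ℂ) = (A - B) + (B - (D : ℂ)) + ((D - E : ℝ) : ℂ) +
      ((E - Real.exp (-(V / 4)) : ℝ) : ℂ) := by push_cast; ring
  rw [e7]
  have s5 : ‖((D - E : ℝ) : ℂ)‖ ≤ ((1 - ta T) + M) * Real.exp V := by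
    rw [Complex.norm_real, Real.norm_eq_abs]; exact s3
  have s6 : ‖((E - Real.exp (-(V / 4)) : ℝ) : ℂ)‖ ≤ V ^ r / (r.factorial : ℝ) * Real.exp V := by
    rw [Complex.norm_real, Real.norm_eq_abs, abs_sub_comm]; exact s4
  have h9 : V ^ r / (r.factorial : ℝ) ≤ V ^ r / (r.factorial : ℝ) * Real.exp V :=
    le_mul_of_one_le_right (by positivity) (Real.one_le_exp hV)
  refine (norm_add_le _ _).trans ((add_le_add ((norm_add_le _ _).trans (add_le_add
    ((norm_add_le _ _).trans (add_le_add s1 s2)) s5)) s6).trans ?_)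
  nlinarith

/-- the moments of the modulus -/
lemma mom_norm (h : Pc c P N) {T δ : ℝ} (hT : 1 ≤ T) (m : ℕ)
    (hδ : 8 * (N : ℝ) ^ m * (1 + Real.log ((N : ℝ) ^ m)) ≤ δ * T) :
    ∫ t, ‖DP c N t‖ ^ (2 * m) ∂(mu T) ≤ (1 + δ) * (m.factorial * VV c P ^ m) := by
  have h2 := two_log_le hT
  have hT0 : 0 < T := by linarith
  have h1 := dp_mom h m (T1 := T + Real.log T) (T2 := 2 * T - Real.log T) (by linarith)
  have hV := VV_nonneg c P
  have hl := Real.log_nonneg hT
  rw [mu_int hT, smul_eq_mul]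
  calc 1 / T * ∫ t in (T + Real.log T)..(2 * T - Real.log T), ‖DP c N t‖ ^ (2 * m) ≤
      1 / T * ((T + δ * T) * (m.factorial * VV c P ^ m)) := by
        refine mul_le_mul_of_nonneg_left (h1.trans ?_) (by positivity)
        exact mul_le_mul_of_nonneg_right (by linarith) (by positivity)
    _ = _ := by field_simp

/-- the tail of the modulus -/
theorem tail_norm (h : Pc c P N) (hN : 1 ≤ N) {T ε A V : ℝ} (hT : 1 ≤ T) (hε : 0 < ε) (hε1 : ε < 1)
    (hV : 0 < V) (hVV : VV c P ≤ V) {r : ℕ} (hr : 1 ≤ r) (hrA : 4 * ((1 - ε) * A ^ 2 / V) ≤ r)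
    (hA : 0 ≤ A) (hδ : 8 * (N : ℝ) ^ r * (1 + Real.log ((N : ℝ) ^ r)) ≤ T) :
    (mu T).real {t | A ≤ ‖DP c N t‖} ≤ 4 / ε * Real.exp (-((1 - ε) * A ^ 2 / V)) := by
  have hVV0 := VV_nonneg c P
  set s : ℝ := (1 - ε) / V with hs
  have hs0 : 0 ≤ s := div_nonneg (by linarith) hV.le
  haveI := mu_fin T
  have hcont : Continuous (DP c N) := DP_cont _ _
  set W : ℝ → ℝ := fun t => ∑ m ∈ range (r + 1), (s * ‖DP c N t‖ ^ 2) ^ m / (m.factorial : ℝ) with hW
  have hWc : Continuous W := by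
    simp only [hW]
    fun_prop
  have hW0 : ∀ t, 0 ≤ W t := fun t => Finset.sum_nonneg fun m _ => by positivity
  have hN1 : (1 : ℝ) ≤ N := by exact_mod_cast hN
  -- the integral
  have hI : ∫ t, W t ∂(mu T) ≤ 2 / ε := by
    simp only [hW]
    rw [integral_finsetSum _ (fun m _ => mu_cont (by fun_prop) T)]
    have hterm : ∀ m ∈ range (r + 1), ∫ t, (s * ‖DP c N t‖ ^ 2) ^ m / (m.factorial : ℝ) ∂(mu T) ≤
        2 * (1 - ε) ^ m := by
      intro m hm
      rw [mem_range] at hm
      have e1 : ∀ t, (s * ‖DP c N t‖ ^ 2) ^ m / (m.factorial : ℝ) =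
          s ^ m / (m.factorial : ℝ) * ‖DP c N t‖ ^ (2 * m) := by
        intro t
        rw [mul_pow, ← pow_mul]
        ring
      simp_rw [e1]
      rw [integral_const_mul]
      have hpm : (N : ℝ) ^ m ≤ (N : ℝ) ^ r := pow_le_pow_right₀ hN1 (by omega)
      have hp0 : 1 ≤ (N : ℝ) ^ m := one_le_pow₀ hN1
      have h3 := mom_norm h (δ := 1) hT m (by
        rw [one_mul]
        refine le_trans ?_ hδ
        have hl1 : Real.log ((N : ℝ) ^ m) ≤ Real.log ((N : ℝ) ^ r) :=
          Real.log_le_log (by linarith) hpm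
        have hl0 := Real.log_nonneg hp0
        gcongr)
      have hf : (0 : ℝ) < m.factorial := by positivity
      calc s ^ m / (m.factorial : ℝ) * ∫ t, ‖DP c N t‖ ^ (2 * m) ∂(mu T) ≤
            s ^ m / (m.factorial : ℝ) * ((1 + 1) * (m.factorial * V ^ m)) := by
            refine mul_le_mul_of_nonneg_left (h3.trans ?_) (by positivity)
            gcongr
        _ = 2 * (s * V) ^ m := by
            rw [mul_pow]
            field_simp
            ring
        _ = _ := by
            rw [hs, div_mul_cancel₀ _ hV.ne']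
    refine (Finset.sum_le_sum hterm).trans ?_
    rw [← Finset.mul_sum]
    have hg : ∑ m ∈ range (r + 1), (1 - ε) ^ m ≤ 1 / ε := by
      have h4 := geom_sum_mul_neg (1 - ε) (r + 1)
      rw [le_div_iff₀ hε]
      have h5 : 0 ≤ (1 - ε) ^ (r + 1) := pow_nonneg (by linarith) _
      have h6 : 1 - (1 - ε) = ε := by ring
      rw [h6] at h4
      linarith
    calc 2 * ∑ m ∈ range (r + 1), (1 - ε) ^ m ≤ 2 * (1 / ε) := mul_le_mul_of_nonneg_left hg (by norm_num)
      _ = _ := by ring
  -- the lower bound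
  set x : ℝ := (1 - ε) * A ^ 2 / V with hx
  have hx0 : 0 ≤ x := div_nonneg (mul_nonneg (by linarith) (sq_nonneg _)) hV.le
  have hlow : ∀ t, A ≤ ‖DP c N t‖ → Real.exp x / 2 ≤ W t := by
    intro t ht
    have h3 : x ≤ s * ‖DP c N t‖ ^ 2 := by
      have : A ^ 2 ≤ ‖DP c N t‖ ^ 2 := pow_le_pow_left₀ hA ht 2
      rw [hx, hs]
      calc (1 - ε) * A ^ 2 / V = (1 - ε) / V * A ^ 2 := by ring
        _ ≤ _ := mul_le_mul_of_nonneg_left this hs0
    have h4 : ∑ m ∈ range (r + 1), x ^ m / (m.factorial : ℝ) ≤ W t := by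
      simp only [hW]
      refine Finset.sum_le_sum fun m _ => ?_
      gcongr
    have h5 := exp_rem (r + 1) x hx0
    have h6 : x ^ (r + 1) / ((r + 1).factorial : ℝ) ≤ 1 / 2 := by
      have h7 := pow_fac_le (V := 4 * x) (by positivity) (r + 1)
      have h8 : Real.exp (4 * x) ≤ Real.exp 1 ^ (r + 1) := by
        rw [← Real.exp_nat_mul]
        apply Real.exp_le_exp.2
        push_cast
        linarith
      have h9 : x ^ (r + 1) / ((r + 1).factorial : ℝ) = (4 * x) ^ (r + 1) /
          ((r + 1).factorial : ℝ) / 4 ^ (r + 1) := by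
        rw [mul_pow]
        field_simp
      rw [h9]
      calc (4 * x) ^ (r + 1) / ((r + 1).factorial : ℝ) / 4 ^ (r + 1) ≤
            Real.exp 1 ^ (r + 1) / 4 ^ (r + 1) :=
            div_le_div_of_nonneg_right (h7.trans h8) (by positivity)
        _ = (Real.exp 1 / 4) ^ (r + 1) := by rw [div_pow]
        _ ≤ (Real.exp 1 / 4) ^ 2 := by
            apply pow_le_pow_of_le_one (by positivity) _ (by omega)
            have := Real.exp_one_lt_d9
            linarith
        _ ≤ 1 / 2 := by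
            have h10 := Real.exp_one_lt_d9
            have h11 := Real.exp_pos 1
            rw [div_pow]
            rw [div_le_iff₀ (by norm_num)]
            nlinarith
    have h7 := Real.exp_pos x
    nlinarith
  have hmk := mul_meas_ge_le_integral_of_nonneg (μ := mu T) (f := W)
    (Eventually.of_forall hW0) (mu_cont hWc T) (Real.exp x / 2)
  have hsub : (mu T).real {t | A ≤ ‖DP c N t‖} ≤ (mu T).real {t | Real.exp x / 2 ≤ W t} :=
    measureReal_mono (fun t ht => hlow t ht)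
  have hE := Real.exp_pos x
  have h10 : Real.exp x / 2 * (mu T).real {t | A ≤ ‖DP c N t‖} ≤ 2 / ε :=
    (mul_le_mul_of_nonneg_left hsub (by positivity)).trans (hmk.trans hI)
  have h11 : Real.exp (-x) * Real.exp x = 1 := by rw [← Real.exp_add]; simp
  calc (mu T).real {t | A ≤ ‖DP c N t‖} = 2 * Real.exp (-x) *
        (Real.exp x / 2 * (mu T).real {t | A ≤ ‖DP c N t‖}) := by
        have : 2 * Real.exp (-x) * (Real.exp x / 2 * (mu T).real {t | A ≤ ‖DP c N t‖}) =
          (Real.exp (-x) * Real.exp x) * (mu T).real {t | A ≤ ‖DP c N t‖} := by ring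
        rw [this, h11, one_mul]
    _ ≤ 2 * Real.exp (-x) * (2 / ε) := mul_le_mul_of_nonneg_left h10 (by positivity)
    _ = _ := by ring

/-- the tail by one moment -/
theorem tail_mom (h : Pc c P N) {T A : ℝ} (hT : 1 ≤ T) (m : ℕ) (hA : 0 < A)
    (hδ : 8 * (N : ℝ) ^ m * (1 + Real.log ((N : ℝ) ^ m)) ≤ T) :
    (mu T).real {t | A ≤ ‖DP c N t‖} ≤ 2 * (m * VV c P / A ^ 2) ^ m := by
  have hV := VV_nonneg c P
  haveI := mu_fin T
  have h1 := mom_norm h (δ := 1) hT m (by rwa [one_mul])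
  have hmk := mul_meas_ge_le_integral_of_nonneg (μ := mu T) (f := fun t => ‖DP c N t‖ ^ (2 * m))
    (Eventually.of_forall fun t => by positivity) (mu_cont ((DP_cont _ _).norm.pow _) T) (A ^ (2 * m))
  have hsub : (mu T).real {t | A ≤ ‖DP c N t‖} ≤ (mu T).real {t | A ^ (2 * m) ≤ ‖DP c N t‖ ^ (2 * m)} :=
    measureReal_mono (fun t ht => pow_le_pow_left₀ hA.le ht _)
  have hAm : 0 < A ^ (2 * m) := by positivity
  have h3 : A ^ (2 * m) * (mu T).real {t | A ≤ ‖DP c N t‖} ≤ (1 + 1) * (m.factorial * VV c P ^ m) :=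
    (mul_le_mul_of_nonneg_left hsub hAm.le).trans (hmk.trans h1)
  have h4 : (m.factorial : ℝ) ≤ (m : ℝ) ^ m := by exact_mod_cast Nat.factorial_le_pow m
  rw [div_pow, mul_pow, ← pow_mul, ← mul_div_assoc, le_div_iff₀ hAm, mul_comm]
  refine h3.trans ?_
  have : 0 ≤ VV c P ^ m := by positivity
  nlinarith

end Pool.Agent.Q278.MX
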