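import Pool.Agent.Q278.MX.C

/-!
# Band-limited majorants and minorants of an interval (helper278)
-/

set_option autoImplicit false

namespace Pool.Agent.Q278.MX

open Filter Topology MeasureTheory Complex
open scoped ComplexConjugate FourierTransform
open Pool.Agent.Q278.MC

/-- the character -/
noncomputable def ee (y : ℝ) : ℂ := cexp (I * ((2 * Real.pi * y : ℝ) : ℂ))

lemma ee_norm (y : ℝ) : ‖ee y‖ = 1 := by
  unfold ee
  rw [mul_comm, Complex.norm_exp_ofReal_mul_I]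

lemma ee_cont : Continuous ee := by unfold ee; fun_prop

lemma ee_add (x y : ℝ) : ee (x + y) = ee x * ee y := by
  unfold ee
  rw [← Complex.exp_add]
  congr 1
  push_cast
  ring

lemma ee_neg (y : ℝ) : ee (-y) = conj (ee y) := by
  unfold ee
  rw [← Complex.exp_conj, map_mul, Complex.conj_I, Complex.conj_ofReal]
  congr 1
  push_cast
  ring

lemma ee_zero : ee 0 = 1 := by simp [ee]

lemma ee_lip (x y : ℝ) : ‖ee x - ee y‖ ≤ 2 * Real.pi * |x - y| := by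
  have hpi := Real.pi_pos
  have h1 : ee x - ee y = ee y * (ee (x - y) - 1) := by
    rw [mul_sub, ← ee_add, mul_one]
    congr 2
    ring
  rw [h1, norm_mul, ee_norm, one_mul]
  unfold ee
  have h2 := Real.norm_exp_I_mul_ofReal_sub_one_le (x := 2 * Real.pi * (x - y))
  refine h2.trans (le_of_eq ?_)
  rw [Real.norm_eq_abs, abs_mul, abs_of_pos (by positivity : 0 < 2 * Real.pi)]

lemma ftk_ee (p : ℝ → ℂ) (v : ℝ) : ftk p v = ∫ ξ : ℝ, p ξ * ee (ξ * v) := by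
  unfold ftk ee
  congr 1
  funext ξ
  congr 3
  push_cast
  ring

/-- the transform of the interval `[0, x]` -/
noncomputable def ex (x ξ : ℝ) : ℂ := ∫ u in (0 : ℝ)..x, ee (-(ξ * u))

lemma ex_le {x : ℝ} (hx : 0 ≤ x) (ξ : ℝ) : ‖ex x ξ‖ ≤ x := by
  have h := intervalIntegral.norm_integral_le_of_norm_le_const (a := (0 : ℝ)) (b := x)
    (f := fun u => ee (-(ξ * u))) (C := 1) (fun u _ => (ee_norm _).le)
  rw [sub_zero, one_mul, abs_of_nonneg hx] at h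
  exact h

lemma ex_int (x ξ : ℝ) : IntervalIntegrable (fun u => ee (-(ξ * u))) volume 0 x :=
  (ee_cont.comp (by fun_prop)).intervalIntegrable _ _

lemma ex_lip {x : ℝ} (hx : 0 ≤ x) (ξ η : ℝ) : ‖ex x ξ - ex x η‖ ≤ 2 * Real.pi * x ^ 2 * |ξ - η| := by
  have hpi := Real.pi_pos
  unfold ex
  rw [← intervalIntegral.integral_sub (ex_int x ξ) (ex_int x η)]
  have h := intervalIntegral.norm_integral_le_of_norm_le_const (a := (0 : ℝ)) (b := x)
    (f := fun u => ee (-(ξ * u)) - ee (-(η * u))) (C := 2 * Real.pi * (x * |ξ - η|)) (fun u hu => by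
      rw [Set.uIoc_of_le hx] at hu
      refine (ee_lip _ _).trans ?_
      refine mul_le_mul_of_nonneg_left ?_ (by positivity)
      rw [show -(ξ * u) - -(η * u) = -((ξ - η) * u) by ring, abs_neg, abs_mul, abs_of_pos hu.1,
        mul_comm]
      exact mul_le_mul_of_nonneg_right hu.2 (abs_nonneg _))
  rw [sub_zero, abs_of_nonneg hx] at h
  refine h.trans (le_of_eq ?_)
  ring

lemma ex_neg (x ξ : ℝ) : ex x (-ξ) = conj (ex x ξ) := by
  have h : conj (ex x ξ) = ∫ u in (0 : ℝ)..x, conj (ee (-(ξ * u))) := by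
    unfold ex
    rcases le_total 0 x with hx | hx
    · rw [intervalIntegral.integral_of_le hx, intervalIntegral.integral_of_le hx, integral_conj]
    · rw [intervalIntegral.integral_of_ge hx, intervalIntegral.integral_of_ge hx, map_neg,
        integral_conj]
  rw [h]
  unfold ex
  congr 1
  funext u
  rw [← ee_neg]
  congr 1
  ring

lemma ex_zero (x : ℝ) : ex x 0 = x := by
  unfold ex
  have : ∀ u : ℝ, ee (-(0 * u)) = 1 := fun u => by rw [zero_mul, neg_zero, ee_zero]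
  simp_rw [this]
  simp

/-- the closed form -/
lemma ex_form (x ξ : ℝ) : (2 * Real.pi * ξ * I) * ex x ξ = 1 - ee (-(ξ * x)) := by
  have hd : ∀ u : ℝ, HasDerivAt (fun u : ℝ => -ee (-(ξ * u)))
      ((2 * Real.pi * ξ * I) * ee (-(ξ * u))) u := by
    intro u
    have h3 : HasDerivAt (fun u : ℝ => ((2 * Real.pi * (-(ξ * u)) : ℝ) : ℂ))
        ((2 * Real.pi * (-(ξ * 1)) : ℝ) : ℂ) u :=
      ((((hasDerivAt_id u).const_mul ξ).neg).const_mul (2 * Real.pi)).ofReal_comp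
    have h4 := ((h3.const_mul I).cexp).neg
    refine h4.congr_deriv ?_
    unfold ee
    push_cast
    ring
  have h1 := intervalIntegral.integral_eq_sub_of_hasDerivAt (a := (0 : ℝ)) (b := x)
    (fun u _ => hd u) ((continuous_const.mul (ee_cont.comp (by fun_prop))).intervalIntegrable _ _)
  rw [intervalIntegral.integral_const_mul] at h1
  unfold ex
  rw [h1, mul_zero, neg_zero, ee_zero]
  ring

/-! ### the smooth step -/

/-- the smooth step -/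
noncomputable def Gs (y : ℝ) : ℝ := ∫ u in Set.Iic y, ph u

lemma Gs_sub (a b : ℝ) : ∫ u in a..b, ph u = Gs b - Gs a :=
  (intervalIntegral.integral_Iic_sub_Iic ph_int.integrableOn ph_int.integrableOn).symm

lemma tail_le {K : ℝ} (h : ∀ v : ℝ, |ph v| ≤ K * (1 + v ^ 2)⁻¹ ^ 3) {y : ℝ} {S : Set ℝ}
    (hS : MeasurableSet S) (hy : ∀ u ∈ S, |y| ≤ |u|) :
    |∫ u in S, ph u| ≤ K * Real.pi * (1 + y ^ 2)⁻¹ := by
  have hK : 0 ≤ K := by
    have := h 0
    have h0 := abs_nonneg (ph 0)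
    norm_num at this
    linarith
  have hi : Integrable fun u : ℝ => K * (1 + y ^ 2)⁻¹ * (1 + u ^ 2)⁻¹ :=
    integrable_inv_one_add_sq.const_mul _
  calc |∫ u in S, ph u| ≤ ∫ u in S, K * (1 + y ^ 2)⁻¹ * (1 + u ^ 2)⁻¹ := by
        rw [← Real.norm_eq_abs]
        refine norm_integral_le_of_norm_le hi.integrableOn ?_
        refine (ae_restrict_iff' hS).2 (Eventually.of_forall fun u hu => ?_)
        have h1 : y ^ 2 ≤ u ^ 2 := sq_le_sq.2 (hy u hu)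
        have h2 : (1 + u ^ 2)⁻¹ ≤ (1 + y ^ 2)⁻¹ := inv_anti₀ (by positivity) (by linarith)
        have h3 : (1 + u ^ 2)⁻¹ ≤ 1 := inv_le_one_of_one_le₀ (by nlinarith [sq_nonneg u])
        have h4 : 0 ≤ (1 + u ^ 2)⁻¹ := by positivity
        have h5 : 0 ≤ (1 + y ^ 2)⁻¹ := by positivity
        calc ‖ph u‖ ≤ K * (1 + u ^ 2)⁻¹ ^ 3 := h u
          _ = K * ((1 + u ^ 2)⁻¹ * 1) * (1 + u ^ 2)⁻¹ * (1 + u ^ 2)⁻¹ := by ring
          _ ≤ K * ((1 + y ^ 2)⁻¹ * 1) * 1 * (1 + u ^ 2)⁻¹ := by gcongr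
          _ = _ := by ring
    _ ≤ ∫ u : ℝ, K * (1 + y ^ 2)⁻¹ * (1 + u ^ 2)⁻¹ :=
        setIntegral_le_integral hi (Eventually.of_forall fun u => by positivity)
    _ = _ := by rw [integral_const_mul, integral_univ_inv_one_add_sq]; ring

lemma Gs_bound : ∃ C : ℝ, 0 < C ∧ (∀ y : ℝ, 0 ≤ y → |1 - Gs y| ≤ C * (1 + y ^ 2)⁻¹) ∧
    ∀ y : ℝ, y ≤ 0 → |Gs y| ≤ C * (1 + y ^ 2)⁻¹ := by
  obtain ⟨K, hK, h⟩ := ph_bound
  have hpi := Real.pi_pos
  refine ⟨K * Real.pi, by positivity, fun y hy => ?_, fun y hy => ?_⟩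
  · have e := integral_add_compl (measurableSet_Iic (a := y)) ph_int
    rw [ph_one, Set.compl_Iic] at e
    have e2 : 1 - Gs y = ∫ u in Set.Ioi y, ph u := by unfold Gs; linarith
    rw [e2]
    refine tail_le h measurableSet_Ioi fun u hu => ?_
    have hu' : y < u := hu
    rw [abs_of_nonneg hy, abs_of_nonneg (by linarith)]
    exact hu'.le
  · unfold Gs
    refine tail_le h measurableSet_Iic fun u hu => ?_
    have hu' : u ≤ y := hu
    rw [abs_of_nonpos hy, abs_of_nonpos (by linarith)]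
    linarith

/-- the smoothed interval -/
noncomputable def Sx (ℓ x v : ℝ) : ℝ := Gs (v / ℓ) - Gs ((v - x) / ℓ)

/-- the error of the smoothed interval -/
lemma Sx_err : ∃ C : ℝ, 1 ≤ C ∧ ∀ ℓ x v : ℝ, 0 < ℓ → 0 ≤ x →
    |(Set.Icc 0 x).indicator (fun _ => (1 : ℝ)) v - Sx ℓ x v| ≤ C * (ps (v / ℓ) + ps ((v - x) / ℓ)) := by
  obtain ⟨C, hC, h1, h2⟩ := Gs_bound
  refine ⟨20 * C + 1, by linarith, fun ℓ x v hℓ hx => ?_⟩
  have hp : ∀ y : ℝ, C * (1 + y ^ 2)⁻¹ ≤ (20 * C + 1) * ps y := by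
    intro y
    have h3 := ps_low y
    have h4 : 0 < 1 + y ^ 2 := by positivity
    have h5 : 0 ≤ ps y := le_trans (by positivity) h3
    calc C * (1 + y ^ 2)⁻¹ = 20 * C * (1 / (20 * (1 + y ^ 2))) := by field_simp
      _ ≤ 20 * C * ps y := mul_le_mul_of_nonneg_left h3 (by positivity)
      _ ≤ _ := by nlinarith
  have key : ∀ A A' : ℝ, |A| ≤ C * (1 + (v / ℓ) ^ 2)⁻¹ → |A'| ≤ C * (1 + ((v - x) / ℓ) ^ 2)⁻¹ →
      |A + A'| ≤ (20 * C + 1) * (ps (v / ℓ) + ps ((v - x) / ℓ)) := by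
    intro A A' hA hA'
    rw [mul_add]
    exact (abs_add_le _ _).trans (add_le_add (hA.trans (hp _)) (hA'.trans (hp _)))
  unfold Sx
  by_cases hv : v < 0
  · rw [Set.indicator_of_notMem (fun h : v ∈ Set.Icc 0 x => by linarith [h.1])]
    have e : 0 - (Gs (v / ℓ) - Gs ((v - x) / ℓ)) = -Gs (v / ℓ) + Gs ((v - x) / ℓ) := by ring
    rw [e]
    refine key _ _ ?_ ?_
    · rw [abs_neg]
      exact h2 _ (div_nonpos_of_nonpos_of_nonneg hv.le hℓ.le)
    · exact h2 _ (div_nonpos_of_nonpos_of_nonneg (by linarith) hℓ.le)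
  push Not at hv
  by_cases hvx : v ≤ x
  · rw [Set.indicator_of_mem (show v ∈ Set.Icc 0 x from ⟨hv, hvx⟩)]
    have e : 1 - (Gs (v / ℓ) - Gs ((v - x) / ℓ)) = (1 - Gs (v / ℓ)) + Gs ((v - x) / ℓ) := by ring
    rw [e]
    refine key _ _ (h1 _ (div_nonneg hv hℓ.le)) ?_
    exact h2 _ (div_nonpos_of_nonpos_of_nonneg (by linarith) hℓ.le)
  · push Not at hvx
    rw [Set.indicator_of_notMem (fun h : v ∈ Set.Icc 0 x => by linarith [h.2])]
    have e : 0 - (Gs (v / ℓ) - Gs ((v - x) / ℓ)) = (1 - Gs (v / ℓ)) + -(1 - Gs ((v - x) / ℓ)) := by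
      ring
    rw [e]
    refine key _ _ (h1 _ (div_nonneg hv hℓ.le)) ?_
    rw [abs_neg]
    exact h1 _ (div_nonneg (by linarith) hℓ.le)

/-! ### the kernels -/

/-- the main kernel -/
noncomputable def p1 (ℓ x ξ : ℝ) : ℂ := ch (ℓ * ξ) * ex x ξ

/-- the correcting kernel -/
noncomputable def p2 (ℓ x ξ : ℝ) : ℂ := (ℓ : ℂ) * qq (ℓ * ξ) * (1 + ee (-(ξ * x)))

lemma ftk_p1 {ℓ x : ℝ} (hℓ : 0 < ℓ) (hx : 0 ≤ x) (v : ℝ) : ftk (p1 ℓ x) v = ((Sx ℓ x v : ℝ) : ℂ) := by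
  have hch : Integrable fun ξ : ℝ => ch (ℓ * ξ) := ch_cc.int.comp_mul_left' hℓ.ne'
  have hchc : Continuous fun ξ : ℝ => ch (ℓ * ξ) := ch_cc.cont.comp (by fun_prop)
  have e1 : ftk (p1 ℓ x) v = ∫ ξ : ℝ, ∫ u in Set.Ioc 0 x, ch (ℓ * ξ) * ee (ξ * (v - u)) := by
    rw [ftk_ee]
    congr 1
    funext ξ
    unfold p1 ex
    rw [intervalIntegral.integral_of_le hx, mul_assoc, ← integral_mul_const, ← integral_const_mul]
    congr 1
    funext u
    rw [← ee_add]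
    congr 2
    ring
  have hF : Integrable (Function.uncurry fun (ξ u : ℝ) => ch (ℓ * ξ) * ee (ξ * (v - u)))
      (volume.prod (volume.restrict (Set.Ioc 0 x))) := by
    have h1 : Integrable (fun z : ℝ × ℝ => ‖ch (ℓ * z.1)‖ * 1)
        (volume.prod (volume.restrict (Set.Ioc 0 x))) :=
      Integrable.mul_prod (f := fun ξ : ℝ => ‖ch (ℓ * ξ)‖) (g := fun _ : ℝ => (1 : ℝ)) hch.norm
        (integrable_const _)
    refine h1.mono' ?_ (Eventually.of_forall fun z => ?_)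
    · apply Continuous.aestronglyMeasurable
      unfold Function.uncurry
      exact (hchc.comp continuous_fst).mul (ee_cont.comp (by fun_prop))
    · unfold Function.uncurry
      rw [norm_mul, ee_norm]
  rw [e1, integral_integral_swap hF]
  have e2 : ∀ u : ℝ, ∫ ξ : ℝ, ch (ℓ * ξ) * ee (ξ * (v - u)) =
      ((1 / ℓ * ph (v / ℓ - u / ℓ) : ℝ) : ℂ) := by
    intro u
    have h2 := Measure.integral_comp_mul_left (fun y : ℝ => ch y * ee (y * (v / ℓ - u / ℓ))) ℓ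
    rw [← ftk_ee, ph_eq, abs_of_pos (by positivity), Complex.real_smul] at h2
    rw [one_div]
    push_cast
    push_cast at h2
    rw [← h2]
    congr 1
    funext ξ
    congr 2
    field_simp
  simp_rw [e2]
  have e3 : ∫ u in Set.Ioc 0 x, ((1 / ℓ * ph (v / ℓ - u / ℓ) : ℝ) : ℂ) =
      ((∫ u in Set.Ioc 0 x, 1 / ℓ * ph (v / ℓ - u / ℓ) : ℝ) : ℂ) := integral_ofReal
  rw [e3, ← intervalIntegral.integral_of_le hx, intervalIntegral.integral_const_mul,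
    intervalIntegral.integral_comp_sub_div (fun y => ph y) hℓ.ne', smul_eq_mul, Gs_sub]
  unfold Sx
  congr 1
  rw [zero_div, sub_zero, sub_div]
  field_simp

lemma ftk_p2 {ℓ : ℝ} (hℓ : 0 < ℓ) (x v : ℝ) :
    ftk (p2 ℓ x) v = ((ps (v / ℓ) + ps ((v - x) / ℓ) : ℝ) : ℂ) := by
  have hq : Integrable qq := by
    have := qq_kn.int_mul (g := fun _ => (1 : ℂ)) continuous_const
    simpa using this
  have hqc : Continuous fun ξ : ℝ => qq (ℓ * ξ) := qq_kn.cont.comp (by fun_prop)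
  have hqi : Integrable fun ξ : ℝ => qq (ℓ * ξ) := hq.comp_mul_left' hℓ.ne'
  have hi : ∀ w : ℝ, Integrable fun ξ : ℝ => qq (ℓ * ξ) * ee (ξ * w) := fun w =>
    hqi.norm.mono' (hqc.mul (ee_cont.comp (by fun_prop))).aestronglyMeasurable
      (Eventually.of_forall fun ξ => by rw [norm_mul, ee_norm, mul_one])
  have e2 : ∀ w : ℝ, (ℓ : ℂ) * ∫ ξ : ℝ, qq (ℓ * ξ) * ee (ξ * w) = ((ps (w / ℓ) : ℝ) : ℂ) := by
    intro w
    have h2 := Measure.integral_comp_mul_left (fun y : ℝ => qq y * ee (y * (w / ℓ))) ℓ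
    rw [← ftk_ee, ps_eq, abs_of_pos (by positivity), Complex.real_smul] at h2
    have h3 : ∫ ξ : ℝ, qq (ℓ * ξ) * ee (ξ * w) = ∫ x : ℝ, qq (ℓ * x) * ee (ℓ * x * (w / ℓ)) := by
      congr 1
      funext ξ
      congr 2
      field_simp
    rw [h3, h2, ← mul_assoc]
    have hℓ' : (ℓ : ℂ) ≠ 0 := by exact_mod_cast hℓ.ne'
    push_cast
    rw [mul_inv_cancel₀ hℓ', one_mul]
  rw [ftk_ee]
  have e3 : ∀ ξ : ℝ, p2 ℓ x ξ * ee (ξ * v) = (ℓ : ℂ) * (qq (ℓ * ξ) * ee (ξ * v)) +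
      (ℓ : ℂ) * (qq (ℓ * ξ) * ee (ξ * (v - x))) := by
    intro ξ
    unfold p2
    rw [show ξ * (v - x) = ξ * v + -(ξ * x) by ring, ee_add]
    ring
  simp_rw [e3]
  rw [integral_add ((hi v).const_mul _) ((hi (v - x)).const_mul _), integral_const_mul,
    integral_const_mul, e2, e2]
  push_cast
  rfl

/-- the majorant for `σ = 1`, the minorant for `σ = -1`, up to the constant `c` -/
noncomputable def pk (c ℓ x ξ : ℝ) : ℂ := p1 ℓ x ξ + (c : ℂ) * p2 ℓ x ξ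

lemma pk_kn : ∃ D : ℝ, 1 ≤ D ∧ ∀ c ℓ x : ℝ, 1 ≤ ℓ → 0 ≤ x →
    Kn (pk c ℓ x) (2 / ℓ) (D * (1 + |c|) * (ℓ + x)) (D * (1 + |c|) * (ℓ + x) ^ 2) := by
  obtain ⟨Λ, hΛ, hc⟩ := ch_kn
  have hpi := Real.pi_lt_four
  have hpi0 := Real.pi_pos
  refine ⟨Λ + 32, by linarith, fun c ℓ x hℓ hx => ?_⟩
  have hℓ0 : 0 < ℓ := by linarith
  have hc0 := abs_nonneg c
  refine ⟨fun ξ hξ => ?_, fun ξ => ?_, fun ξ η => ?_, fun ξ => ?_⟩
  · have h1 : 2 < |ℓ * ξ| := by
      rw [abs_mul, abs_of_pos hℓ0]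
      rwa [div_lt_iff₀ hℓ0, mul_comm] at hξ
    unfold pk p1 p2
    rw [hc.supp _ h1, qq_kn.supp _ (by linarith)]
    ring
  · have h1 : ‖p1 ℓ x ξ‖ ≤ x := by
      unfold p1
      rw [norm_mul]
      calc ‖ch (ℓ * ξ)‖ * ‖ex x ξ‖ ≤ 1 * x :=
            mul_le_mul (ch_norm _) (ex_le hx ξ) (norm_nonneg _) zero_le_one
        _ = x := one_mul x
    have h2 : ‖p2 ℓ x ξ‖ ≤ 4 * ℓ := by
      unfold p2
      rw [norm_mul, norm_mul, Complex.norm_real, Real.norm_of_nonneg hℓ0.le]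
      have h3 : ‖1 + ee (-(ξ * x))‖ ≤ 2 := by
        refine (norm_add_le _ _).trans ?_
        rw [ee_norm, norm_one]
        norm_num
      calc ℓ * ‖qq (ℓ * ξ)‖ * ‖1 + ee (-(ξ * x))‖ ≤ ℓ * 2 * 2 := by
            gcongr
            exact qq_kn.bd _
        _ = _ := by ring
    unfold pk
    refine (norm_add_le _ _).trans ?_
    rw [norm_mul, Complex.norm_real, Real.norm_eq_abs]
    calc ‖p1 ℓ x ξ‖ + |c| * ‖p2 ℓ x ξ‖ ≤ x + |c| * (4 * ℓ) := by gcongr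
      _ ≤ _ := by
          have g1 : 0 ≤ |c| * ℓ := by positivity
          have g2 : 0 ≤ |c| * x := by positivity
          have g3 : 0 ≤ (Λ - 1) * ((1 + |c|) * (ℓ + x)) := by
            have : 0 ≤ Λ - 1 := by linarith
            positivity
          nlinarith
  · have d1 : ‖p1 ℓ x ξ - p1 ℓ x η‖ ≤ (Λ * ℓ * x + 8 * x ^ 2) * |ξ - η| := by
      unfold p1
      have e : ch (ℓ * ξ) * ex x ξ - ch (ℓ * η) * ex x η =
          (ch (ℓ * ξ) - ch (ℓ * η)) * ex x ξ + ch (ℓ * η) * (ex x ξ - ex x η) := by ring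
      rw [e]
      refine (norm_add_le _ _).trans ?_
      rw [norm_mul, norm_mul]
      have g1 := hc.lip (ℓ * ξ) (ℓ * η)
      rw [← mul_sub, abs_mul, abs_of_pos hℓ0] at g1
      have g2 := ex_lip hx ξ η
      have g3 : 2 * Real.pi * x ^ 2 * |ξ - η| ≤ 8 * x ^ 2 * |ξ - η| := by
        have : 0 ≤ x ^ 2 * |ξ - η| := by positivity
        nlinarith
      calc ‖ch (ℓ * ξ) - ch (ℓ * η)‖ * ‖ex x ξ‖ + ‖ch (ℓ * η)‖ * ‖ex x ξ - ex x η‖ ≤
            (Λ * (ℓ * |ξ - η|)) * x + 1 * (8 * x ^ 2 * |ξ - η|) :=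
            add_le_add (mul_le_mul g1 (ex_le hx ξ) (norm_nonneg _) (by positivity))
              (mul_le_mul (ch_norm _) (g2.trans g3) (norm_nonneg _) zero_le_one)
        _ = _ := by ring
    have d2 : ‖p2 ℓ x ξ - p2 ℓ x η‖ ≤ (12 * ℓ ^ 2 + 16 * ℓ * x) * |ξ - η| := by
      unfold p2
      have e : (ℓ : ℂ) * qq (ℓ * ξ) * (1 + ee (-(ξ * x))) - (ℓ : ℂ) * qq (ℓ * η) * (1 + ee (-(η * x))) =
          (ℓ : ℂ) * ((qq (ℓ * ξ) - qq (ℓ * η)) * (1 + ee (-(ξ * x))) +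
            qq (ℓ * η) * (ee (-(ξ * x)) - ee (-(η * x)))) := by ring
      rw [e, norm_mul, Complex.norm_real, Real.norm_of_nonneg hℓ0.le]
      have g1 := qq_kn.lip (ℓ * ξ) (ℓ * η)
      rw [← mul_sub, abs_mul, abs_of_pos hℓ0] at g1
      have g2 := ee_lip (-(ξ * x)) (-(η * x))
      rw [show -(ξ * x) - -(η * x) = -((ξ - η) * x) by ring, abs_neg, abs_mul, abs_of_nonneg hx] at g2
      have h3 : ‖1 + ee (-(ξ * x))‖ ≤ 2 := by
        refine (norm_add_le _ _).trans ?_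
        rw [ee_norm, norm_one]
        norm_num
      have h4 := norm_add_le ((qq (ℓ * ξ) - qq (ℓ * η)) * (1 + ee (-(ξ * x))))
        (qq (ℓ * η) * (ee (-(ξ * x)) - ee (-(η * x))))
      rw [norm_mul, norm_mul] at h4
      have g3 : 2 * Real.pi * (|ξ - η| * x) ≤ 8 * (|ξ - η| * x) := by
        have : 0 ≤ |ξ - η| * x := by positivity
        nlinarith
      calc ℓ * ‖_‖ ≤ ℓ * ((6 * (ℓ * |ξ - η|)) * 2 + 2 * (8 * (|ξ - η| * x))) := by
            refine mul_le_mul_of_nonneg_left (h4.trans (add_le_add ?_ ?_)) hℓ0.le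
            · exact mul_le_mul g1 h3 (norm_nonneg _) (by positivity)
            · exact mul_le_mul (qq_kn.bd _) (g2.trans g3) (norm_nonneg _) (by norm_num)
        _ = _ := by ring
    have e : pk c ℓ x ξ - pk c ℓ x η = (p1 ℓ x ξ - p1 ℓ x η) + (c : ℂ) * (p2 ℓ x ξ - p2 ℓ x η) := by
      unfold pk; ring
    rw [e]
    refine (norm_add_le _ _).trans ?_
    rw [norm_mul, Complex.norm_real, Real.norm_eq_abs]
    calc ‖p1 ℓ x ξ - p1 ℓ x η‖ + |c| * ‖p2 ℓ x ξ - p2 ℓ x η‖ ≤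
          (Λ * ℓ * x + 8 * x ^ 2) * |ξ - η| + |c| * ((12 * ℓ ^ 2 + 16 * ℓ * x) * |ξ - η|) := by gcongr
      _ = ((Λ * ℓ * x + 8 * x ^ 2) + |c| * (12 * ℓ ^ 2 + 16 * ℓ * x)) * |ξ - η| := by ring
      _ ≤ ((Λ + 32) * (1 + |c|) * (ℓ + x) ^ 2) * |ξ - η| := by
          refine mul_le_mul_of_nonneg_right ?_ (abs_nonneg _)
          have g1 : 0 ≤ ℓ * x := by positivity
          have g2 : 0 ≤ ℓ ^ 2 := by positivity
          have g3 : 0 ≤ x ^ 2 := by positivity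
          have g4 : 0 ≤ Λ := by linarith
          have g5 : (Λ + 32) * (1 + |c|) * (ℓ + x) ^ 2 = Λ * (ℓ ^ 2 + 2 * (ℓ * x) + x ^ 2) +
              32 * (ℓ ^ 2 + 2 * (ℓ * x) + x ^ 2) + |c| * (Λ * (ℓ ^ 2 + 2 * (ℓ * x) + x ^ 2)) +
              |c| * (32 * (ℓ ^ 2 + 2 * (ℓ * x) + x ^ 2)) := by ring
          rw [g5]
          have g6 : Λ * ℓ * x ≤ Λ * (ℓ ^ 2 + 2 * (ℓ * x) + x ^ 2) := by
            rw [mul_assoc]
            exact mul_le_mul_of_nonneg_left (by linarith) g4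
          have g7 : 0 ≤ |c| * (Λ * (ℓ ^ 2 + 2 * (ℓ * x) + x ^ 2)) := by positivity
          have g8 : |c| * (12 * ℓ ^ 2 + 16 * ℓ * x) ≤ |c| * (32 * (ℓ ^ 2 + 2 * (ℓ * x) + x ^ 2)) :=
            mul_le_mul_of_nonneg_left (by nlinarith) hc0
          linarith
  · unfold pk p1 p2
    rw [map_add, map_mul, map_mul, map_mul, map_mul, Complex.conj_ofReal, Complex.conj_ofReal,
      map_add, map_one, ← hc.herm, ← ex_neg, ← qq_kn.herm, ← ee_neg]
    rw [show ℓ * -ξ = -(ℓ * ξ) by ring, show -ξ * x = -(ξ * x) by ring]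

lemma pk_zero (c ℓ x : ℝ) : (pk c ℓ x 0).re = x + 4 * c * ℓ := by
  have h1 : ch 0 = 1 := by
    unfold ch
    rw [chi_one (by simp), Complex.ofReal_one]
  have h2 : qq 0 = 2 := by
    unfold qq tri
    norm_num
  unfold pk p1 p2
  rw [mul_zero, h1, ex_zero, h2, zero_mul, neg_zero, ee_zero]
  have : (1 : ℂ) * (x : ℂ) + (c : ℂ) * ((ℓ : ℂ) * 2 * (1 + 1)) = ((x + 4 * c * ℓ : ℝ) : ℂ) := by
    push_cast; ring
  rw [this, Complex.ofReal_re]

/-- the majorant and the minorant -/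
theorem sandwich : ∃ C : ℝ, 1 ≤ C ∧ ∀ ℓ x v : ℝ, 1 ≤ ℓ → 0 ≤ x →
    (ftk (pk (-C) ℓ x) v).re ≤ (Set.Icc 0 x).indicator (fun _ => (1 : ℝ)) v ∧
    (Set.Icc 0 x).indicator (fun _ => (1 : ℝ)) v ≤ (ftk (pk C ℓ x) v).re := by
  obtain ⟨C, hC, h⟩ := Sx_err
  refine ⟨C, hC, fun ℓ x v hℓ hx => ?_⟩
  have hℓ0 : 0 < ℓ := by linarith
  have h1 := abs_le.1 (h ℓ x v hℓ0 hx)
  obtain ⟨Λ, hΛ, hc⟩ := ch_kn
  have e : ∀ c : ℝ, (ftk (pk c ℓ x) v).re = Sx ℓ x v + c * (ps (v / ℓ) + ps ((v - x) / ℓ)) := by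
    intro c
    have i1 : Integrable fun ξ : ℝ => p1 ℓ x ξ * ee (ξ * v) := by
      obtain ⟨D, hD, hk⟩ := pk_kn
      have h2 := (hk 0 ℓ x hℓ hx).int_mul (g := fun ξ => ee (ξ * v)) (ee_cont.comp (by fun_prop))
      refine h2.congr (Eventually.of_forall fun ξ => ?_)
      simp [pk]
    have i2 : Integrable fun ξ : ℝ => p2 ℓ x ξ * ee (ξ * v) := by
      obtain ⟨D, hD, hk⟩ := pk_kn
      have h2 := (hk 1 ℓ x hℓ hx).int_mul (g := fun ξ => ee (ξ * v)) (ee_cont.comp (by fun_prop))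
      refine (h2.sub i1).congr (Eventually.of_forall fun ξ => ?_)
      simp only [pk, Pi.sub_apply]
      push_cast
      ring
    have e1 : ftk (pk c ℓ x) v = ftk (p1 ℓ x) v + (c : ℂ) * ftk (p2 ℓ x) v := by
      rw [ftk_ee, ftk_ee, ftk_ee, ← integral_const_mul, ← integral_add i1 (i2.const_mul _)]
      congr 1
      funext ξ
      unfold pk
      ring
    rw [e1, ftk_p1 hℓ0 hx, ftk_p2 hℓ0, Complex.add_re, Complex.ofReal_re, Complex.re_ofReal_mul,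
      Complex.ofReal_re]
  rw [e, e]
  constructor
  · linarith [h1.1]
  · linarith [h1.2]

end Pool.Agent.Q278.MX
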