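import Pool.Agent.Q278.KM.A

/-!
# The characteristic function of a Dirichlet polynomial over primes, with explicit error (helper278)
-/

set_option autoImplicit false

namespace Pool.Agent.Q278.MX

open Filter Topology Finset MeasureTheory Complex
open scoped ComplexConjugate
open Pool.Agent.Q278.MC
open Pool.Agent.Q278.KM (SS_zero SS_le)

/-! ### the exponential series -/

lemma sum_deriv (r : ℕ) (x : ℝ) : HasDerivAt (fun x : ℝ => ∑ m ∈ range (r + 1), x ^ m / (m.factorial : ℝ))
    (∑ m ∈ range r, x ^ m / (m.factorial : ℝ)) x := by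
  induction r with
  | zero =>
    have e : (fun x : ℝ => ∑ m ∈ range (0 + 1), x ^ m / (m.factorial : ℝ)) = fun _ => (1 : ℝ) := by
      funext y; simp
    rw [e]
    simpa using hasDerivAt_const x (1 : ℝ)
  | succ r ih =>
    have e : (fun x : ℝ => ∑ m ∈ range (r + 1 + 1), x ^ m / (m.factorial : ℝ)) = fun x =>
        (∑ m ∈ range (r + 1), x ^ m / (m.factorial : ℝ)) + x ^ (r + 1) / ((r + 1).factorial : ℝ) := by
      funext y; rw [sum_range_succ]
    rw [e, sum_range_succ]
    have h1 := (hasDerivAt_pow (r + 1) x).div_const ((r + 1).factorial : ℝ)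
    have h2 := ih.add h1
    refine h2.congr_deriv ?_
    rw [Nat.factorial_succ]
    have : (r.factorial : ℝ) ≠ 0 := by positivity
    push_cast
    try simp only [Nat.add_sub_cancel]
    field_simp

lemma exp_rem (r : ℕ) : ∀ x : ℝ, 0 ≤ x → Real.exp x ≤ (∑ m ∈ range r, x ^ m / (m.factorial : ℝ)) +
    x ^ r / (r.factorial : ℝ) * Real.exp x := by
  induction r with
  | zero => intro x _; simp
  | succ r ih =>
    intro x hx
    set g : ℝ → ℝ := fun x => (∑ m ∈ range (r + 1), x ^ m / (m.factorial : ℝ)) +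
      x ^ (r + 1) / ((r + 1).factorial : ℝ) * Real.exp x - Real.exp x with hg
    have hd : ∀ y : ℝ, HasDerivAt g ((∑ m ∈ range r, y ^ m / (m.factorial : ℝ)) +
        ((((r + 1 : ℕ) : ℝ) * y ^ (r + 1 - 1)) / ((r + 1).factorial : ℝ) * Real.exp y +
          y ^ (r + 1) / ((r + 1).factorial : ℝ) * Real.exp y) - Real.exp y) y := fun y =>
      ((sum_deriv r y).add (((hasDerivAt_pow (r + 1) y).div_const _).mul (Real.hasDerivAt_exp y))).sub
        (Real.hasDerivAt_exp y)
    have hmono : MonotoneOn g (Set.Ici 0) := by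
      refine monotoneOn_of_deriv_nonneg (convex_Ici 0)
        (continuousOn_of_forall_continuousAt fun y _ => (hd y).continuousAt)
        (fun y _ => (hd y).differentiableAt.differentiableWithinAt) fun y hy => ?_
      rw [interior_Ici] at hy
      have hy0 : 0 < y := hy
      rw [(hd y).deriv]
      have h1 := ih y hy0.le
      have h2 : (((r + 1 : ℕ) : ℝ) * y ^ (r + 1 - 1)) / ((r + 1).factorial : ℝ) =
          y ^ r / (r.factorial : ℝ) := by
        rw [Nat.factorial_succ]
        have : (r.factorial : ℝ) ≠ 0 := by positivity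
        push_cast
        try simp only [Nat.add_sub_cancel]
        field_simp
      rw [h2]
      have h3 : 0 ≤ y ^ (r + 1) / ((r + 1).factorial : ℝ) * Real.exp y := by positivity
      linarith
    have h0 : g 0 = 0 := by
      simp only [hg]
      rw [sum_range_succ']
      simp
    have h1 := hmono (Set.mem_Ici.2 le_rfl) (Set.mem_Ici.2 hx) hx
    rw [h0] at h1
    simp only [hg] at h1
    linarith

lemma exp_neg_rem (r : ℕ) {x : ℝ} (hx : 0 ≤ x) :
    |Real.exp (-x) - ∑ m ∈ range r, (-x) ^ m / (m.factorial : ℝ)| ≤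
      x ^ r / (r.factorial : ℝ) * Real.exp x := by
  have h1 := Complex.norm_exp_sub_sum_le_exp_norm_sub_sum ((-x : ℝ) : ℂ) r
  rw [Complex.norm_real, Real.norm_eq_abs, abs_neg, abs_of_nonneg hx] at h1
  have e : Complex.exp ((-x : ℝ) : ℂ) - ∑ m ∈ range r, ((-x : ℝ) : ℂ) ^ m / (m.factorial : ℂ) =
      ((Real.exp (-x) - ∑ m ∈ range r, (-x) ^ m / (m.factorial : ℝ) : ℝ) : ℂ) := by
    push_cast
    rfl
  rw [e, Complex.norm_real, Real.norm_eq_abs] at h1
  have h2 := exp_rem r x hx
  linarith

/-! ### mixed moments -/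

variable {c : ArithmeticFunction ℂ} {P : Finset ℕ} {N : ℕ}

lemma VV_nonneg (c : ArithmeticFunction ℂ) (P : Finset ℕ) : 0 ≤ VV c P :=
  Finset.sum_nonneg fun _ _ => sq_nonneg _

/-- the mixed moments -/
lemma mixed (h : Pc c P N) {T1 T2 : ℝ} (hT : T1 ≤ T2) (Y k l : ℕ) (hk : N ^ k ≤ Y) (hl : N ^ l ≤ Y) :
    ‖(∫ t in T1..T2, DP c N t ^ k * conj (DP c N t) ^ l) -
      (if k = l then (((T2 - T1) * SS c N k : ℝ) : ℂ) else 0)‖ ≤
      8 * Y * (1 + Real.log Y) * (Real.sqrt (SS c N k) * Real.sqrt (SS c N l)) := by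
  have hMV := Pool.Agent.Y840.SW.t_MVB Y T1 T2 hT (fun j => (c ^ k) j) (fun j => (c ^ l) j)
  have hint : ∀ t : ℝ, (∑ j ∈ Finset.Icc 1 Y, (c ^ k) j * (j : ℂ) ^ (-(t : ℂ) * I)) *
      conj (∑ j ∈ Finset.Icc 1 Y, (c ^ l) j * (j : ℂ) ^ (-(t : ℂ) * I)) =
      DP c N t ^ k * conj (DP c N t) ^ l := by
    intro t
    rw [← map_pow, DP_pow_ext h k Y hk, DP_pow_ext h l Y hl]
    rfl
  simp_rw [hint] at hMV
  rw [SS_eq h k Y hk, SS_eq h l Y hl] at hMV
  have e : (((T2 - T1 : ℝ) : ℂ)) * ∑ n ∈ Finset.Icc 1 Y, (c ^ k) n * conj ((c ^ l) n) =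
      (if k = l then (((T2 - T1) * SS c N k : ℝ) : ℂ) else 0) := by
    by_cases hkl : k = l
    · rw [if_pos hkl]
      subst hkl
      rw [← SS_eq h k Y hk]
      push_cast
      congr 1
      refine Finset.sum_congr rfl fun j _ => ?_
      rw [Complex.mul_conj, Complex.normSq_eq_norm_sq]
      push_cast
      rfl
    · rw [if_neg hkl, Finset.sum_eq_zero fun j _ => orth h hkl j, mul_zero]
  rw [e] at hMV
  exact hMV

/-- the lower bound for the norms of the powers -/
lemma SS_low (h : Pc c P N) {M : ℝ} (hM0 : 0 ≤ M) (hM : ∀ p ∈ P, ‖c p‖ ^ 2 ≤ M) (k : ℕ) :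
    k.factorial * VV c P ^ k - SS c N k ≤ k.factorial * ((k : ℝ) ^ 2 * M * VV c P ^ (k - 1)) := by
  have hV := VV_nonneg c P
  induction k with
  | zero => rw [SS_zero]; simp
  | succ k ih =>
    have h1 := SS_lower h hM k
    have h2 := SS_le h k
    have h3 := SS_nonneg c N k
    have e1 : ((k + 1).factorial : ℝ) * VV c P ^ (k + 1) =
        ((k : ℝ) + 1) * (VV c P * (k.factorial * VV c P ^ k)) := by
      rw [Nat.factorial_succ, pow_succ]; push_cast; ring
    have h4 : ((k + 1).factorial : ℝ) * VV c P ^ (k + 1) - SS c N (k + 1) ≤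
        ((k : ℝ) + 1) * (VV c P * (k.factorial * VV c P ^ k - SS c N k) +
          k * M * (k.factorial * VV c P ^ k)) := by
      rw [e1]
      have h5 : (k : ℝ) * M * SS c N k ≤ k * M * (k.factorial * VV c P ^ k) :=
        mul_le_mul_of_nonneg_left h2 (by positivity)
      have h6 : (0 : ℝ) ≤ (k : ℝ) + 1 := by positivity
      calc _ ≤ ((k : ℝ) + 1) * (VV c P * (k.factorial * VV c P ^ k)) -
            (k + 1) * ((VV c P - k * M) * SS c N k) := by linarith
        _ = ((k : ℝ) + 1) * (VV c P * (k.factorial * VV c P ^ k - SS c N k) + k * M * SS c N k) := by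
            ring
        _ ≤ _ := mul_le_mul_of_nonneg_left (by linarith) h6
    refine h4.trans ?_
    rw [Nat.add_sub_cancel, Nat.factorial_succ]
    push_cast
    have h7 : VV c P * (k.factorial * VV c P ^ k - SS c N k) ≤
        k.factorial * ((k : ℝ) ^ 2 * M * VV c P ^ k) := by
      refine (mul_le_mul_of_nonneg_left ih hV).trans ?_
      rcases Nat.eq_zero_or_pos k with hk | hk
      · subst hk; simp
      · have e2 : VV c P ^ k = VV c P * VV c P ^ (k - 1) := by
          rw [← pow_succ', Nat.sub_add_cancel hk]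
        rw [e2]
        exact le_of_eq (by ring)
    have h8 : (0 : ℝ) ≤ (k : ℝ) + 1 := by positivity
    have h9 : 0 ≤ (k.factorial : ℝ) * (M * VV c P ^ k) := by positivity
    calc ((k : ℝ) + 1) * (VV c P * (k.factorial * VV c P ^ k - SS c N k) +
          k * M * (k.factorial * VV c P ^ k)) ≤
        ((k : ℝ) + 1) * (k.factorial * ((k : ℝ) ^ 2 * M * VV c P ^ k) +
          k * M * (k.factorial * VV c P ^ k)) :=
          mul_le_mul_of_nonneg_left (by linarith) h8
      _ = ((k : ℝ) + 1) * ((k.factorial : ℝ) * (M * VV c P ^ k)) * (k ^ 2 + k) := by ring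
      _ ≤ ((k : ℝ) + 1) * ((k.factorial : ℝ) * (M * VV c P ^ k)) * ((k + 1) ^ 2) := by
          refine mul_le_mul_of_nonneg_left ?_ (by positivity)
          nlinarith [Nat.cast_nonneg (α := ℝ) k]
      _ = _ := by ring

/-- the powers of the real part -/
lemma re_pow (z : ℂ) (n : ℕ) : (((z.re : ℝ) : ℂ)) ^ n =
    (1 / 2 : ℂ) ^ n * ∑ j ∈ range (n + 1), z ^ j * conj z ^ (n - j) * (n.choose j : ℂ) := by
  have h1 : ((z.re : ℝ) : ℂ) = (1 / 2 : ℂ) * (z + conj z) := by
    rw [Complex.re_eq_add_conj]; ring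
  rw [h1, mul_pow, add_pow]

/-- the central coefficient -/
noncomputable def bk (n : ℕ) : ℝ := if Even n then (n.choose (n / 2) : ℝ) / 2 ^ n else 0

lemma bk_even (k : ℕ) : bk (2 * k) = ((2 * k).choose k : ℝ) / 4 ^ k := by
  unfold bk
  rw [if_pos (even_two_mul k), Nat.mul_div_cancel_left k two_pos, pow_mul]
  norm_num

/-- the moments of the real part -/
lemma mom_re (h : Pc c P N) {T1 T2 η : ℝ} (hT : T1 ≤ T2) (Y n : ℕ) (hN : 1 ≤ N) (hn : N ^ n ≤ Y)
    (hη : 8 * Y * (1 + Real.log Y) ≤ η) :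
    ‖(∫ t in T1..T2, (((DP c N t).re : ℝ) : ℂ) ^ n) -
      (((T2 - T1) * (bk n * SS c N (n / 2)) : ℝ) : ℂ)‖ ≤ η * Real.sqrt (n.factorial * VV c P ^ n) := by
  have hV := VV_nonneg c P
  have hY1 : 1 ≤ Y := (Nat.one_le_pow _ _ hN).trans hn
  have hlY : 0 ≤ Real.log Y := Real.log_nonneg (by exact_mod_cast hY1)
  have hη0 : 0 ≤ η := le_trans (by positivity) hη
  have hle : ∀ j, j ≤ n → N ^ j ≤ Y := fun j hj => (Nat.pow_le_pow_right hN hj).trans hn
  have hcont : Continuous (DP c N) := DP_cont _ _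
  have e1 : ∫ t in T1..T2, (((DP c N t).re : ℝ) : ℂ) ^ n = (1 / 2 : ℂ) ^ n *
      ∑ j ∈ range (n + 1), (n.choose j : ℂ) * ∫ t in T1..T2, DP c N t ^ j * conj (DP c N t) ^ (n - j) := by
    simp_rw [re_pow]
    rw [intervalIntegral.integral_const_mul, intervalIntegral.integral_finsetSum]
    · congr 1
      refine Finset.sum_congr rfl fun j _ => ?_
      rw [← intervalIntegral.integral_const_mul]
      congr 1
      funext t
      ring
    · intro j _
      apply Continuous.intervalIntegrable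
      exact ((hcont.pow _).mul ((Complex.continuous_conj.comp hcont).pow _)).mul continuous_const
  have e2 : (((T2 - T1) * (bk n * SS c N (n / 2)) : ℝ) : ℂ) = (1 / 2 : ℂ) ^ n *
      ∑ j ∈ range (n + 1), (n.choose j : ℂ) *
        (if j = n - j then (((T2 - T1) * SS c N j : ℝ) : ℂ) else 0) := by
    unfold bk
    by_cases he : Even n
    · obtain ⟨k, hk⟩ := he
      have hk2 : n / 2 = k := by omega
      rw [if_pos ⟨k, hk⟩, hk2, Finset.sum_eq_single k]
      · rw [if_pos (by omega)]
        push_cast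
        rw [one_div, inv_pow]
        ring
      · intro j hj hjk
        rw [mem_range] at hj
        rw [if_neg (by omega), mul_zero]
      · intro hk'
        rw [mem_range] at hk'
        omega
    · rw [if_neg he, Finset.sum_eq_zero]
      · simp
      · intro j hj
        rw [mem_range] at hj
        rw [if_neg, mul_zero]
        intro hj2
        exact he ⟨j, by omega⟩
  have hterm : ∀ j ∈ range (n + 1), ‖(n.choose j : ℂ) *
      ((∫ t in T1..T2, DP c N t ^ j * conj (DP c N t) ^ (n - j)) -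
        (if j = n - j then (((T2 - T1) * SS c N j : ℝ) : ℂ) else 0))‖ ≤
      (n.choose j : ℝ) * (η * Real.sqrt (n.factorial * VV c P ^ n)) := by
    intro j hj
    rw [mem_range] at hj
    rw [norm_mul, Complex.norm_natCast]
    refine mul_le_mul_of_nonneg_left ?_ (Nat.cast_nonneg _)
    refine (mixed h hT Y j (n - j) (hle j (by omega)) (hle _ (by omega))).trans ?_
    refine mul_le_mul hη ?_ (by positivity) hη0
    rw [← Real.sqrt_mul (SS_nonneg _ _ _)]
    apply Real.sqrt_le_sqrt
    calc SS c N j * SS c N (n - j) ≤ (j.factorial * VV c P ^ j) * ((n - j).factorial * VV c P ^ (n - j)) :=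
          mul_le_mul (SS_le h _) (SS_le h _) (SS_nonneg _ _ _) (by positivity)
      _ = ((j.factorial * (n - j).factorial : ℕ) : ℝ) * VV c P ^ n := by
          have : VV c P ^ n = VV c P ^ j * VV c P ^ (n - j) := by
            rw [← pow_add]; congr 1; omega
          rw [this]
          push_cast
          ring
      _ ≤ (n.factorial : ℝ) * VV c P ^ n := by
          refine mul_le_mul_of_nonneg_right ?_ (by positivity)
          have h9 : j.factorial * (n - j).factorial ≤ n.factorial := by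
            have h10 := Nat.choose_mul_factorial_mul_factorial (n := n) (k := j) (by omega)
            rw [← h10, mul_assoc]
            exact Nat.le_mul_of_pos_left _ (Nat.choose_pos (by omega))
          exact_mod_cast h9
  rw [e1, e2, ← mul_sub, ← Finset.sum_sub_distrib, norm_mul]
  have hb : ‖(1 / 2 : ℂ) ^ n‖ = 1 / 2 ^ n := by
    rw [norm_pow, norm_div, norm_one, Complex.norm_ofNat, div_pow, one_pow]
  rw [hb]
  have hs : ‖∑ j ∈ range (n + 1), ((n.choose j : ℂ) * (∫ t in T1..T2, DP c N t ^ j *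
      conj (DP c N t) ^ (n - j)) - (n.choose j : ℂ) *
        (if j = n - j then (((T2 - T1) * SS c N j : ℝ) : ℂ) else 0))‖ ≤
      2 ^ n * (η * Real.sqrt (n.factorial * VV c P ^ n)) := by
    refine (norm_sum_le _ _).trans ?_
    have h2n : (2 : ℝ) ^ n = ∑ j ∈ range (n + 1), (n.choose j : ℝ) := by
      have := Nat.sum_range_choose n
      exact_mod_cast this.symm
    rw [h2n, Finset.sum_mul]
    refine Finset.sum_le_sum fun j hj => ?_
    rw [← mul_sub]
    exact hterm j hj
  calc 1 / 2 ^ n * ‖_‖ ≤ 1 / 2 ^ n * (2 ^ n * (η * Real.sqrt (n.factorial * VV c P ^ n))) :=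
        mul_le_mul_of_nonneg_left hs (by positivity)
    _ = _ := by field_simp

end Pool.Agent.Q278.MX
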