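import Pool.Agent.Q278.MX.B
import Pool.Agent.Q278.MX.D
import Pool.Agent.Q278.MX.F
import Pool.Agent.Q278.MX.H

/-!
# The coefficients of the field (helper278)
-/

set_option autoImplicit false

namespace Pool.Agent.Q278.MX

open Filter Topology Finset MeasureTheory Complex
open scoped ComplexConjugate
open Pool.Agent.Q278.MC

/-- the restriction of a function to a finite set -/
noncomputable def af (S : Finset ℕ) (f : ℕ → ℂ) : ArithmeticFunction ℂ :=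
  ⟨fun n => if n ∈ S ∧ n ≠ 0 then f n else 0, by simp⟩

lemma af_apply {S : Finset ℕ} (hS : ∀ p ∈ S, p.Prime) (f : ℕ → ℂ) (n : ℕ) :
    af S f n = if n ∈ S then f n else 0 := by
  change (if n ∈ S ∧ n ≠ 0 then f n else 0) = _
  by_cases h : n ∈ S
  · rw [if_pos h, if_pos ⟨h, (hS n h).ne_zero⟩]
  · rw [if_neg h, if_neg fun h' => h h'.1]

lemma af_pc {S : Finset ℕ} {N : ℕ} (hS : ∀ p ∈ S, p.Prime) (hN : ∀ p ∈ S, p ≤ N) (f : ℕ → ℂ) :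
    Pc (af S f) S N :=
  ⟨hS, hN, fun n hn => by rw [af_apply hS, if_neg hn]⟩

lemma af_DP {S : Finset ℕ} {N : ℕ} (hS : ∀ p ∈ S, p.Prime) (hN : ∀ p ∈ S, p ≤ N) (f : ℕ → ℂ)
    (t : ℝ) : DP (af S f) N t = ∑ p ∈ S, f p * (p : ℂ) ^ (-(t : ℂ) * I) := by
  unfold DP
  have hsub : S ⊆ Finset.Icc 1 N := fun p hp => Finset.mem_Icc.2 ⟨(hS p hp).one_le, hN p hp⟩
  rw [← Finset.sum_subset hsub]
  · refine Finset.sum_congr rfl fun p hp => ?_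
    rw [af_apply hS, if_pos hp]
  · intro p _ hp
    rw [af_apply hS, if_neg hp, zero_mul]

lemma af_VV {S : Finset ℕ} (hS : ∀ p ∈ S, p.Prime) (f : ℕ → ℂ) :
    VV (af S f) S = ∑ p ∈ S, ‖f p‖ ^ 2 := by
  unfold VV
  refine Finset.sum_congr rfl fun p hp => ?_
  rw [af_apply hS, if_pos hp]

/-- the primes of a band are below the exponential -/
lemma PB_le {α β : ℝ} {p : ℕ} (hp : p ∈ PB α β) : p ≤ ⌊Real.exp β⌋₊ := by
  rw [mem_PB] at hp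
  apply Nat.le_floor
  rw [← Real.log_le_iff_le_exp (by exact_mod_cast hp.1.pos)]
  exact hp.2.2

lemma PB_prime {α β : ℝ} : ∀ p ∈ PB α β, p.Prime := fun _ hp => (mem_PB.1 hp).1

/-- the coefficient of the field -/
noncomputable def yc (w x : ℝ) (p : ℕ) : ℂ :=
  (((Real.sqrt p)⁻¹ : ℝ) : ℂ) * ((Real.pi * I)⁻¹ * ee (-(Real.log p / w * x)))

lemma piI_norm : ‖((Real.pi : ℂ) * I)⁻¹‖ = Real.pi⁻¹ := by
  rw [norm_inv, norm_mul, Complex.norm_I, mul_one, Complex.norm_real,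
    Real.norm_of_nonneg Real.pi_pos.le]

lemma yc_norm (w x : ℝ) (p : ℕ) : ‖yc w x p‖ = (Real.sqrt p)⁻¹ * Real.pi⁻¹ := by
  unfold yc
  rw [norm_mul, norm_mul, ee_norm, mul_one, piI_norm, Complex.norm_real,
    Real.norm_of_nonneg (by positivity)]

lemma yc_sq (w x : ℝ) (p : ℕ) : ‖yc w x p‖ ^ 2 = 1 / (Real.pi ^ 2 * p) := by
  rw [yc_norm, mul_pow, inv_pow, inv_pow, Real.sq_sqrt (Nat.cast_nonneg p), ← mul_inv, mul_comm,
    one_div]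

lemma yc_diff {w x : ℝ} {p : ℕ} : yc w x p - yc w 0 p =
    (((Real.sqrt p)⁻¹ : ℝ) : ℂ) * ((Real.pi * I)⁻¹ * (ee (-(Real.log p / w * x)) - 1)) := by
  unfold yc
  rw [mul_zero, neg_zero, ee_zero]
  ring

lemma yc_diff_one {w x : ℝ} {p : ℕ} : ‖yc w x p - yc w 0 p‖ ≤ (Real.sqrt p)⁻¹ := by
  have hpi := Real.pi_gt_three
  rw [yc_diff, norm_mul, norm_mul, piI_norm, Complex.norm_real, Real.norm_of_nonneg (by positivity)]
  refine mul_le_of_le_one_right (by positivity) ?_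
  have h1 : ‖ee (-(Real.log p / w * x)) - 1‖ ≤ 2 := by
    refine (norm_sub_le _ _).trans ?_
    rw [ee_norm, norm_one]; norm_num
  calc Real.pi⁻¹ * ‖_‖ ≤ Real.pi⁻¹ * 2 := mul_le_mul_of_nonneg_left h1 (by positivity)
    _ ≤ 1 := by
        rw [inv_mul_le_iff₀ (by positivity)]
        linarith

lemma yc_diff_lin {w x : ℝ} {p : ℕ} (hw : 0 < w) (hx : 0 ≤ x) :
    ‖yc w x p - yc w 0 p‖ ≤ (Real.sqrt p)⁻¹ * (2 * (Real.log p / w * x)) := by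
  have hpi := Real.pi_pos
  have hl : 0 ≤ Real.log p := Real.log_natCast_nonneg p
  rw [yc_diff, norm_mul, norm_mul, piI_norm, Complex.norm_real, Real.norm_of_nonneg (by positivity)]
  refine mul_le_mul_of_nonneg_left ?_ (by positivity)
  have h1 := ee_lip (-(Real.log p / w * x)) 0
  rw [ee_zero, sub_zero, abs_neg, abs_of_nonneg (by positivity)] at h1
  calc Real.pi⁻¹ * ‖_‖ ≤ Real.pi⁻¹ * (2 * Real.pi * (Real.log p / w * x)) :=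
        mul_le_mul_of_nonneg_left h1 (by positivity)
    _ = _ := by field_simp

/-- the correcting coefficient -/
noncomputable def cor (c ℓ x w : ℝ) (p : ℕ) : ℂ :=
  (((Real.sqrt p)⁻¹ : ℝ) : ℂ) * (2 * ((Real.log p / w : ℝ) : ℂ)) * ((c : ℂ) * p2 ℓ x (Real.log p / w))

lemma ck_form {c ℓ x w : ℝ} {p : ℕ} (hp : p.Prime) :
    -ck (pk c ℓ x) w p = (yc w x p - yc w 0 p) * ch (ℓ * (Real.log p / w)) - cor c ℓ x w p := by
  have hpi : (Real.pi : ℂ) ≠ 0 := by exact_mod_cast Real.pi_ne_zero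
  unfold ck
  rw [if_pos hp]
  unfold pk p1 cor
  rw [yc_diff]
  set ξ : ℝ := Real.log p / w with hξ
  have h1 := ex_form x ξ
  have h2 : 2 * (ξ : ℂ) * ex x ξ = (Real.pi * I)⁻¹ * (1 - ee (-(ξ * x))) := by
    rw [← h1]
    field_simp
  have h3 : ((2 * (Real.log p * (Real.sqrt p)⁻¹) / w : ℝ) : ℂ) =
      (((Real.sqrt p)⁻¹ : ℝ) : ℂ) * (2 * (ξ : ℂ)) := by
    rw [hξ]
    push_cast
    ring
  rw [h3]
  linear_combination (-(((Real.sqrt p)⁻¹ : ℝ) : ℂ) * ch (ℓ * ξ)) * h2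

lemma cor_bound {c ℓ x w : ℝ} {p : ℕ} (hw : 0 < w) (hℓ : 0 < ℓ) :
    ‖cor c ℓ x w p‖ ≤ (Real.sqrt p)⁻¹ * (8 * |c| * (ℓ * (Real.log p / w))) ∧
    ‖cor c ℓ x w p‖ ≤ (Real.sqrt p)⁻¹ * (8 * |c|) := by
  have hl : 0 ≤ Real.log p := Real.log_natCast_nonneg p
  unfold cor p2
  set ξ : ℝ := Real.log p / w with hξ
  have hξ0 : 0 ≤ ξ := by positivity
  have h1 : ‖(1 : ℂ) + ee (-(ξ * x))‖ ≤ 2 := by
    refine (norm_add_le _ _).trans ?_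
    rw [ee_norm, norm_one]; norm_num
  have h2 : ‖qq (ℓ * ξ)‖ ≤ 2 := qq_kn.bd _
  have h3 : (ℓ * ξ) * ‖qq (ℓ * ξ)‖ ≤ 2 := by
    by_cases h : 1 < |ℓ * ξ|
    · rw [qq_kn.supp _ h]; simp
    · push Not at h
      rw [abs_of_nonneg (by positivity)] at h
      have := norm_nonneg (qq (ℓ * ξ))
      have h4 : 0 ≤ ℓ * ξ := by positivity
      nlinarith
  have e : ‖(((Real.sqrt p)⁻¹ : ℝ) : ℂ) * (2 * (ξ : ℂ)) * ((c : ℂ) * ((ℓ : ℂ) * qq (ℓ * ξ) *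
      (1 + ee (-(ξ * x)))))‖ =
      (Real.sqrt p)⁻¹ * (2 * |c| * (((ℓ * ξ) * ‖qq (ℓ * ξ)‖) * ‖(1 : ℂ) + ee (-(ξ * x))‖)) := by
    simp only [norm_mul, Complex.norm_real, Real.norm_eq_abs]
    rw [abs_of_nonneg (by positivity : 0 ≤ (Real.sqrt p)⁻¹), abs_of_nonneg hξ0, abs_of_pos hℓ]
    norm_num
    ring
  rw [e]
  have hc := abs_nonneg c
  have hq := norm_nonneg (qq (ℓ * ξ))
  constructor
  · refine mul_le_mul_of_nonneg_left ?_ (by positivity)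
    calc 2 * |c| * (((ℓ * ξ) * ‖qq (ℓ * ξ)‖) * ‖(1 : ℂ) + ee (-(ξ * x))‖) ≤
        2 * |c| * (((ℓ * ξ) * 2) * 2) := by gcongr
      _ = _ := by ring
  · refine mul_le_mul_of_nonneg_left ?_ (by positivity)
    calc 2 * |c| * (((ℓ * ξ) * ‖qq (ℓ * ξ)‖) * ‖(1 : ℂ) + ee (-(ξ * x))‖) ≤
        2 * |c| * (2 * 2) := by gcongr
      _ = _ := by ring

/-- the error coefficient -/
noncomputable def er (S : Finset ℕ) (c ℓ x w : ℝ) (p : ℕ) : ℂ :=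
  -ck (pk c ℓ x) w p - if p ∈ S then yc w x p - yc w 0 p else 0

lemma sq_inv_sqrt (p : ℕ) : ((Real.sqrt p)⁻¹) ^ 2 = 1 / (p : ℝ) := by
  rw [inv_pow, Real.sq_sqrt (Nat.cast_nonneg p), one_div]

lemma er_in {S : Finset ℕ} {c ℓ x w : ℝ} {p : ℕ} (hp : p.Prime) (hw : 0 < w) (hℓ : 0 < ℓ)
    (hS : p ∈ S) (h1 : ℓ * (Real.log p / w) ≤ 1) :
    ‖er S c ℓ x w p‖ ^ 2 ≤ 64 * c ^ 2 * ℓ ^ 2 / w ^ 2 * (Real.log p ^ 2 / p) := by
  have hl : 0 ≤ Real.log p := Real.log_natCast_nonneg p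
  have h2 : ch (ℓ * (Real.log p / w)) = 1 := by
    unfold ch
    rw [chi_one (by rw [abs_of_nonneg (by positivity)]; exact h1), Complex.ofReal_one]
  have e : er S c ℓ x w p = -cor c ℓ x w p := by
    unfold er
    rw [ck_form hp, if_pos hS, h2]
    ring
  rw [e, norm_neg]
  have h3 := (cor_bound (c := c) (x := x) (p := p) hw hℓ).1
  calc ‖cor c ℓ x w p‖ ^ 2 ≤ ((Real.sqrt p)⁻¹ * (8 * |c| * (ℓ * (Real.log p / w)))) ^ 2 :=
        pow_le_pow_left₀ (norm_nonneg _) h3 2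
    _ = ((Real.sqrt p)⁻¹) ^ 2 * (64 * |c| ^ 2 * (ℓ * (Real.log p / w)) ^ 2) := by ring
    _ = _ := by
        rw [sq_inv_sqrt, sq_abs]
        field_simp

lemma er_out {S : Finset ℕ} {c ℓ x w : ℝ} {p : ℕ} (hp : p.Prime) (hw : 0 < w) (hℓ : 0 < ℓ)
    (hx : 0 ≤ x) (hS : p ∉ S) :
    ‖er S c ℓ x w p‖ ^ 2 ≤ 2 * (1 / p) + 128 * c ^ 2 * ℓ ^ 2 / w ^ 2 * (Real.log p ^ 2 / p) ∧
    ‖er S c ℓ x w p‖ ^ 2 ≤ 8 * x ^ 2 / w ^ 2 * (Real.log p ^ 2 / p) +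
      128 * c ^ 2 * ℓ ^ 2 / w ^ 2 * (Real.log p ^ 2 / p) ∧
    ‖er S c ℓ x w p‖ ^ 2 ≤ (1 + 8 * |c|) ^ 2 * (1 / p) := by
  have hl : 0 ≤ Real.log p := Real.log_natCast_nonneg p
  have e : er S c ℓ x w p = (yc w x p - yc w 0 p) * ch (ℓ * (Real.log p / w)) - cor c ℓ x w p := by
    unfold er
    rw [ck_form hp, if_neg hS, sub_zero]
  obtain ⟨h3, h4⟩ := cor_bound (c := c) (x := x) (p := p) hw hℓ
  have h5 : ‖(yc w x p - yc w 0 p) * ch (ℓ * (Real.log p / w))‖ ≤ ‖yc w x p - yc w 0 p‖ := by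
    rw [norm_mul]
    exact mul_le_of_le_one_right (norm_nonneg _) (ch_norm _)
  set A := (yc w x p - yc w 0 p) * ch (ℓ * (Real.log p / w)) with hA
  set B := cor c ℓ x w p with hB
  have h6 : ‖A - B‖ ^ 2 ≤ 2 * ‖A‖ ^ 2 + 2 * ‖B‖ ^ 2 := by
    have := norm_sub_le A B
    nlinarith [norm_nonneg (A - B), sq_nonneg (‖A‖ - ‖B‖)]
  have h7 : ‖B‖ ^ 2 ≤ 64 * c ^ 2 * ℓ ^ 2 / w ^ 2 * (Real.log p ^ 2 / p) := by
    calc ‖B‖ ^ 2 ≤ ((Real.sqrt p)⁻¹ * (8 * |c| * (ℓ * (Real.log p / w)))) ^ 2 :=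
          pow_le_pow_left₀ (norm_nonneg _) h3 2
      _ = ((Real.sqrt p)⁻¹) ^ 2 * (64 * |c| ^ 2 * (ℓ * (Real.log p / w)) ^ 2) := by ring
      _ = _ := by
          rw [sq_inv_sqrt, sq_abs]
          field_simp
  have h8 : ‖A‖ ^ 2 ≤ 1 / (p : ℝ) := by
    rw [← sq_inv_sqrt]
    exact pow_le_pow_left₀ (norm_nonneg _) (h5.trans yc_diff_one) 2
  have h9 : ‖A‖ ^ 2 ≤ 4 * x ^ 2 / w ^ 2 * (Real.log p ^ 2 / p) := by
    calc ‖A‖ ^ 2 ≤ ((Real.sqrt p)⁻¹ * (2 * (Real.log p / w * x))) ^ 2 :=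
          pow_le_pow_left₀ (norm_nonneg _) (h5.trans (yc_diff_lin hw hx)) 2
      _ = ((Real.sqrt p)⁻¹) ^ 2 * (4 * (Real.log p / w * x) ^ 2) := by ring
      _ = _ := by
          rw [sq_inv_sqrt]
          field_simp
  rw [e]
  refine ⟨?_, ?_, ?_⟩
  · refine h6.trans ?_
    calc 2 * ‖A‖ ^ 2 + 2 * ‖B‖ ^ 2 ≤ 2 * (1 / p) + 2 * (64 * c ^ 2 * ℓ ^ 2 / w ^ 2 * (Real.log p ^ 2 / p)) := by
          linarith
      _ = _ := by ring
  · refine h6.trans ?_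
    calc 2 * ‖A‖ ^ 2 + 2 * ‖B‖ ^ 2 ≤ 2 * (4 * x ^ 2 / w ^ 2 * (Real.log p ^ 2 / p)) +
          2 * (64 * c ^ 2 * ℓ ^ 2 / w ^ 2 * (Real.log p ^ 2 / p)) := by linarith
      _ = _ := by ring
  · have h10 : ‖A - B‖ ≤ (Real.sqrt p)⁻¹ * (1 + 8 * |c|) := by
      refine (norm_sub_le _ _).trans ?_
      have := h5.trans yc_diff_one
      linarith
    calc ‖A - B‖ ^ 2 ≤ ((Real.sqrt p)⁻¹ * (1 + 8 * |c|)) ^ 2 :=
          pow_le_pow_left₀ (norm_nonneg _) h10 2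
      _ = ((Real.sqrt p)⁻¹) ^ 2 * (1 + 8 * |c|) ^ 2 := by ring
      _ = _ := by rw [sq_inv_sqrt]; ring

lemma ck_zero {c ℓ x w : ℝ} {n : ℕ} (hw : 0 < w) (hℓ : 1 ≤ ℓ) (hx : 0 ≤ x)
    (hn : n ∉ PB 0 (2 * w / ℓ)) : ck (pk c ℓ x) w n = 0 := by
  unfold ck
  by_cases hp : n.Prime
  · rw [if_pos hp]
    have hlog : 0 < Real.log n := Real.log_pos (by exact_mod_cast hp.one_lt)
    have h1 : 2 * w / ℓ < Real.log n := by
      by_contra hc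
      push Not at hc
      exact hn (mem_PB.2 ⟨hp, hlog, hc⟩)
    obtain ⟨D, hD, hk⟩ := pk_kn
    have h2 : 2 / ℓ < |Real.log n / w| := by
      rw [abs_of_pos (by positivity), lt_div_iff₀ hw]
      calc 2 / ℓ * w = 2 * w / ℓ := by ring
        _ < _ := h1
    rw [(hk c ℓ x hℓ hx).supp _ h2, mul_zero]
  · rw [if_neg hp]

end Pool.Agent.Q278.MX
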