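import Pool.Agent.Q278.MC.J
import Pool.Agent.Q278.MC.K
import Pool.Agent.Q278.KA.B

/-!
# The explicit formula for a general band-limited kernel, under RH (helper278)
-/

set_option autoImplicit false

namespace Pool.Agent.Q278.MX

open Filter Topology MeasureTheory Complex
open scoped ComplexConjugate
open H370 (Zf mult mem_Zf good_zeta AA)
open Pool.Agent.Q278.MC
open Pool.Agent.Y750.OM (cfac AA_split GG DD)

/-- Lipschitz kernels on the Fourier side -/
structure Kn (p : ℝ → ℂ) (B K0 Λ : ℝ) : Prop where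
  supp : ∀ ξ, B < |ξ| → p ξ = 0
  bd : ∀ ξ, ‖p ξ‖ ≤ K0
  lip : ∀ ξ η, ‖p ξ - p η‖ ≤ Λ * |ξ - η|
  herm : ∀ ξ, p (-ξ) = conj (p ξ)

/-- the kernel itself -/
noncomputable def ftk (p : ℝ → ℂ) (v : ℝ) : ℂ :=
  ∫ ξ : ℝ, p ξ * cexp (I * ((ξ * (2 * Real.pi * v) : ℝ) : ℂ))

variable {p : ℝ → ℂ} {B K0 Λ : ℝ}

lemma Kn.lip0 (h : Kn p B K0 Λ) : 0 ≤ Λ := by
  have h1 := h.lip 1 0
  rw [sub_zero, abs_one, mul_one] at h1
  exact (norm_nonneg _).trans h1

lemma Kn.bd0 (h : Kn p B K0 Λ) : 0 ≤ K0 := (norm_nonneg _).trans (h.bd 0)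

lemma Kn.cont (h : Kn p B K0 Λ) : Continuous p := by
  have h1 : LipschitzWith ⟨Λ, h.lip0⟩ p := by
    refine LipschitzWith.of_dist_le_mul fun x y => ?_
    rw [dist_eq_norm, Real.dist_eq]
    exact h.lip x y
  exact h1.continuous

lemma Kn.cs (h : Kn p B K0 Λ) : HasCompactSupport p := by
  apply HasCompactSupport.intro (isCompact_Icc (a := -B) (b := B))
  intro x hx
  apply h.supp
  by_contra hc
  push Not at hc
  exact hx (abs_le.1 hc)

lemma Kn.int_mul (h : Kn p B K0 Λ) {g : ℝ → ℂ} (hg : Continuous g) :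
    Integrable fun ξ => p ξ * g ξ :=
  (h.cont.mul hg).integrable_of_hasCompactSupport h.cs.mul_right

/-- the integrand on the zero side -/
noncomputable def Jp (p : ℝ → ℂ) (a A B t ξ : ℝ) : ℂ :=
  p ξ * (cexp (-(I * ((ξ * (2 * Real.pi * a) * t : ℝ) : ℂ))) *
    AA riemannZeta A B (ξ * (2 * Real.pi * a)) t)

lemma Jp_int (h : Kn p B K0 Λ) {a A B' t : ℝ} (hA : 1 ≤ A) : Integrable (Jp p a A B' t) := by
  unfold Jp
  exact h.int_mul (Continuous.mul (by fun_prop) ((AA_cont_u hA t).comp (by fun_prop)))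

lemma Jp_neg (h : Kn p B K0 Λ) {a A B' t : ℝ} (hA : 1 ≤ A) (ξ : ℝ) :
    Jp p a A B' t (-ξ) = conj (Jp p a A B' t ξ) := by
  unfold Jp
  rw [map_mul, map_mul, h.herm, neg_mul, AA_neg hA, ← Complex.exp_conj]
  congr 3
  rw [map_neg, map_mul, Complex.conj_I, Complex.conj_ofReal]
  push_cast
  ring

/-- the zero side -/
theorem zero_side (RH : RiemannHypothesis) (h : Kn p B K0 Λ) {a A B' t : ℝ} (hA : 1 ≤ A) :
    ∫ ξ, Jp p a A B' t ξ = ∑ s ∈ Zf riemannZeta A B', (mz s : ℂ) *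
      ((Real.exp (-(s.im - t) ^ 2 / 2) : ℂ) * ftk p (a * (s.im - t))) := by
  have e1 : ∀ ξ : ℝ, Jp p a A B' t ξ =
      ∑ s ∈ Zf riemannZeta A B', ((mz s : ℂ) * ((Real.exp (-(s.im - t) ^ 2 / 2) : ℂ) *
        (p ξ * cexp (I * ((ξ * (2 * Real.pi * (a * (s.im - t))) : ℝ) : ℂ))))) := by
    intro ξ
    have hD : DD (Zf riemannZeta A B') (fun s => (mult riemannZeta s : ℝ)) (2 * Real.pi * a) ξ t = 0 := by
      unfold DD
      refine Finset.sum_eq_zero fun s hs => ?_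
      have : cfac (s.re - 1 / 2) (s.im - t) (2 * Real.pi * a) ξ = 0 := by
        rw [KA.rh_re RH hA hs]
        unfold cfac
        simp
      rw [this]
      ring
    unfold Jp
    rw [AA_split hA, hD, add_zero]
    unfold GG
    rw [Finset.mul_sum, Finset.mul_sum]
    refine Finset.sum_congr rfl fun s _ => ?_
    have f1 : cexp (I * ((ξ * (2 * Real.pi * (a * (s.im - t))) : ℝ) : ℂ)) =
        cexp (-(I * ((ξ * (2 * Real.pi * a) * t : ℝ) : ℂ))) *
          cexp (I * ((ξ * (2 * Real.pi * a) : ℝ) : ℂ) * (s.im : ℂ)) := by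
      rw [← Complex.exp_add]; congr 1; push_cast; ring
    have f3 : cexp (-((s.im : ℂ) - t) ^ 2 / 2) = ((Real.exp (-(s.im - t) ^ 2 / 2) : ℝ) : ℂ) := by
      push_cast; rfl
    rw [f1, f3]
    unfold mz
    ring
  have i1 : ∀ s : ℂ, Integrable fun ξ : ℝ => p ξ *
      cexp (I * ((ξ * (2 * Real.pi * (a * (s.im - t))) : ℝ) : ℂ)) := fun s =>
    h.int_mul (by fun_prop)
  simp_rw [e1]
  rw [integral_finsetSum]
  swap
  · intro s _
    exact ((i1 s).const_mul _).const_mul _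
  refine Finset.sum_congr rfl fun s _ => ?_
  rw [integral_const_mul, integral_const_mul]
  rfl

/-- half line averages -/
noncomputable def qk (p : ℝ → ℂ) (a v : ℝ) : ℂ :=
  ∫ ξ in Set.Ioi (0 : ℝ), p ξ * ((gw a v ξ : ℝ) : ℂ)

/-- the coefficients of the prime side -/
noncomputable def dk (p : ℝ → ℂ) (a : ℝ) (n : ℕ) : ℂ :=
  ((2 * c0 * (ArithmeticFunction.vonMangoldt n * (Real.sqrt n)⁻¹) : ℝ) : ℂ) * qk p a (Real.log n)

lemma abs_gauss {w : ℝ} (hw : 0 < w) (v : ℝ) :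
    Integrable (fun ξ : ℝ => |ξ - v / w| * Real.exp (-(ξ * w - v) ^ 2 / 2)) ∧
    ∫ ξ : ℝ, |ξ - v / w| * Real.exp (-(ξ * w - v) ^ 2 / 2) ≤ 4 / w ^ 2 := by
  have hb : (0 : ℝ) < w ^ 2 / 4 := by positivity
  have i0 : Integrable (fun y : ℝ => 1 / w * Real.exp (-(w ^ 2 / 4) * y ^ 2)) :=
    (integrable_exp_neg_mul_sq hb).const_mul _
  have i1 := i0.comp_sub_right (v / w)
  have hle : ∀ ξ : ℝ, |ξ - v / w| * Real.exp (-(ξ * w - v) ^ 2 / 2) ≤
      1 / w * Real.exp (-(w ^ 2 / 4) * (ξ - v / w) ^ 2) := by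
    intro ξ
    set y := ξ - v / w with hy
    have e1 : ξ * w - v = y * w := by rw [hy]; field_simp
    rw [e1]
    have h1 : |y * w| ≤ Real.exp ((y * w) ^ 2 / 4) := by
      have h2 := Real.add_one_le_exp ((y * w) ^ 2 / 4)
      have h3 := sq_abs (y * w)
      nlinarith [sq_nonneg (|y * w| / 2 - 1)]
    rw [abs_mul, abs_of_pos hw] at h1
    have h4 : Real.exp (-(y * w) ^ 2 / 2) * Real.exp ((y * w) ^ 2 / 4) =
        Real.exp (-(w ^ 2 / 4) * y ^ 2) := by
      rw [← Real.exp_add]; congr 1; ring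
    rw [← h4]
    have h5 : |y| ≤ 1 / w * Real.exp ((y * w) ^ 2 / 4) := by
      rw [one_div, inv_mul_eq_div, le_div_iff₀ hw]
      exact h1
    calc |y| * Real.exp (-(y * w) ^ 2 / 2) ≤ (1 / w * Real.exp ((y * w) ^ 2 / 4)) *
          Real.exp (-(y * w) ^ 2 / 2) := mul_le_mul_of_nonneg_right h5 (Real.exp_pos _).le
      _ = _ := by ring
  have hm : AEStronglyMeasurable (fun ξ : ℝ => |ξ - v / w| * Real.exp (-(ξ * w - v) ^ 2 / 2)) := by
    apply Continuous.aestronglyMeasurable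
    fun_prop
  have i2 : Integrable (fun ξ : ℝ => |ξ - v / w| * Real.exp (-(ξ * w - v) ^ 2 / 2)) := by
    refine i1.mono' hm (Eventually.of_forall fun ξ => ?_)
    rw [Real.norm_of_nonneg (by positivity)]
    exact hle ξ
  refine ⟨i2, (integral_mono i2 i1 hle).trans ?_⟩
  rw [integral_sub_right_eq_self (fun y : ℝ => 1 / w * Real.exp (-(w ^ 2 / 4) * y ^ 2)) (v / w),
    integral_const_mul, integral_gaussian]
  have h6 : Real.sqrt (Real.pi / (w ^ 2 / 4)) ≤ 4 / w := by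
    rw [Real.sqrt_le_left (by positivity)]
    have h7 := Real.pi_lt_four
    rw [div_pow, div_le_div_iff₀ (by positivity) (by positivity)]
    nlinarith [sq_nonneg w, mul_pos hw hw]
  calc 1 / w * Real.sqrt (Real.pi / (w ^ 2 / 4)) ≤ 1 / w * (4 / w) :=
        mul_le_mul_of_nonneg_left h6 (by positivity)
    _ = _ := by field_simp

lemma gw_def (a v ξ : ℝ) : gw a v ξ = Real.exp (-(ξ * (2 * Real.pi * a) - v) ^ 2 / 2) := rfl

lemma c0_int {a : ℝ} (ha : 0 < a) : c0 * (1 / (a * Real.sqrt (2 * Real.pi))) =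
    1 / (2 * Real.pi * a) := by
  have hpi := Real.pi_pos
  have h7 : Real.sqrt (2 * Real.pi) ^ 2 = 2 * Real.pi := Real.sq_sqrt (by positivity)
  have h8 : 0 < Real.sqrt (2 * Real.pi) := Real.sqrt_pos.2 (by positivity)
  unfold c0
  field_simp
  nlinarith

lemma gk_int (h : Kn p B K0 Λ) (a v : ℝ) : Integrable (fun ξ : ℝ => p ξ * ((gw a v ξ : ℝ) : ℂ)) :=
  h.int_mul (Complex.continuous_ofReal.comp (gw_cont a v))

/-- the Lipschitz error of the average of the kernel -/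
lemma avg_err (h : Kn p B K0 Λ) {a : ℝ} (ha : 0 < a) (v : ℝ) :
    ‖(c0 : ℂ) * (∫ ξ : ℝ, p ξ * ((gw a v ξ : ℝ) : ℂ)) -
      ((1 / (2 * Real.pi * a) : ℝ) : ℂ) * p (v / (2 * Real.pi * a))‖ ≤
      4 * Λ / (2 * Real.pi * a) ^ 2 := by
  have hpi := Real.pi_pos
  have hw : 0 < 2 * Real.pi * a := by positivity
  obtain ⟨i1, h1⟩ := abs_gauss hw v
  have hgI := gw_integral ha v
  have hgi := gw_integrable ha v
  have e1 : ((1 / (2 * Real.pi * a) : ℝ) : ℂ) * p (v / (2 * Real.pi * a)) =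
      (c0 : ℂ) * ∫ ξ : ℝ, p (v / (2 * Real.pi * a)) * ((gw a v ξ : ℝ) : ℂ) := by
    have : ∫ ξ : ℝ, ((gw a v ξ : ℝ) : ℂ) = ((∫ ξ : ℝ, gw a v ξ : ℝ) : ℂ) := integral_ofReal
    rw [integral_const_mul, this, hgI, ← c0_int ha]
    push_cast
    ring
  have i2 : Integrable (fun ξ : ℝ => p (v / (2 * Real.pi * a)) * ((gw a v ξ : ℝ) : ℂ)) :=
    hgi.ofReal.const_mul _
  rw [e1, ← mul_sub, ← integral_sub (gk_int h a v) i2, norm_mul, Complex.norm_real,
    Real.norm_of_nonneg c0_pos.le]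
  have h2 : ‖∫ ξ : ℝ, (p ξ * ((gw a v ξ : ℝ) : ℂ) - p (v / (2 * Real.pi * a)) * ((gw a v ξ : ℝ) : ℂ))‖ ≤
      Λ * (4 / (2 * Real.pi * a) ^ 2) := by
    refine (norm_integral_le_of_norm_le (i1.const_mul Λ) (Eventually.of_forall fun ξ => ?_)).trans ?_
    · rw [← sub_mul, norm_mul, Complex.norm_real, Real.norm_of_nonneg (gw_pos a v ξ).le, gw_def,
        ← mul_assoc Λ]
      exact mul_le_mul_of_nonneg_right (h.lip _ _) (Real.exp_pos _).le
    · rw [integral_const_mul]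
      exact mul_le_mul_of_nonneg_left h1 h.lip0
  have hL := h.lip0
  calc c0 * ‖_‖ ≤ 1 * (Λ * (4 / (2 * Real.pi * a) ^ 2)) :=
        mul_le_mul c0_le h2 (norm_nonneg _) zero_le_one
    _ = _ := by ring

/-- the main term -/
lemma main_term (h : Kn p B K0 Λ) {a : ℝ} (ha : 0 < a) :
    |2 * c0 * (2 * Real.pi * a) * (qk p a 0).re - (p 0).re| ≤ 4 * Λ / (2 * Real.pi * a) := by
  have hpi := Real.pi_pos
  have hw : 0 < 2 * Real.pi * a := by positivity
  have e1 : ∫ ξ, p ξ * ((gw a 0 ξ : ℝ) : ℂ) = ((2 * (qk p a 0).re : ℝ) : ℂ) := by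
    refine herm (gk_int h a 0) (fun ξ => ?_)
    have hgn : gw a 0 (-ξ) = gw a 0 ξ := by
      unfold gw
      congr 1
      ring
    rw [h.herm, map_mul, Complex.conj_ofReal, hgn]
  have h1 := avg_err h ha 0
  rw [zero_div, e1] at h1
  have h2 := (Complex.abs_re_le_norm _).trans h1
  rw [Complex.sub_re, Complex.re_ofReal_mul, Complex.ofReal_re, Complex.re_ofReal_mul] at h2
  have e2 : 2 * c0 * (2 * Real.pi * a) * (qk p a 0).re - (p 0).re =
      (2 * Real.pi * a) * (c0 * (2 * (qk p a 0).re) - 1 / (2 * Real.pi * a) * (p 0).re) := by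
    field_simp
  rw [e2, abs_mul, abs_of_pos hw]
  calc 2 * Real.pi * a * |_| ≤ 2 * Real.pi * a * (4 * Λ / (2 * Real.pi * a) ^ 2) :=
        mul_le_mul_of_nonneg_left h2 hw.le
    _ = _ := by field_simp

/-- the coefficients -/
lemma qk_err (h : Kn p B K0 Λ) {a v : ℝ} (ha : 0 < a) (hv : 0 ≤ v) :
    ‖(c0 : ℂ) * qk p a v - ((1 / (2 * Real.pi * a) : ℝ) : ℂ) * p (v / (2 * Real.pi * a))‖ ≤
      4 * Λ / (2 * Real.pi * a) ^ 2 + K0 * Real.exp (-v ^ 2 / 2) / (2 * Real.pi * a) := by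
  have hpi := Real.pi_pos
  have hw : 0 < 2 * Real.pi * a := by positivity
  have h1 := avg_err h ha v
  have hsplit := integral_add_compl (measurableSet_Iic (a := (0 : ℝ))) (gk_int h a v)
  rw [Set.compl_Iic] at hsplit
  have b1 : ‖∫ ξ in Set.Iic (0 : ℝ), p ξ * ((gw a v ξ : ℝ) : ℂ)‖ ≤
      K0 * Real.exp (-v ^ 2 / 2) * (1 / (a * Real.sqrt (2 * Real.pi))) := by
    have hg0 := gw_integral ha 0
    have hgi0 := gw_integrable ha 0
    have hK := h.bd0
    calc ‖∫ ξ in Set.Iic (0 : ℝ), p ξ * ((gw a v ξ : ℝ) : ℂ)‖ ≤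
        ∫ ξ in Set.Iic (0 : ℝ), K0 * Real.exp (-v ^ 2 / 2) * gw a 0 ξ := by
          refine norm_integral_le_of_norm_le (hgi0.const_mul _).integrableOn ?_
          refine (ae_restrict_iff' measurableSet_Iic).2 (Eventually.of_forall fun ξ hξ => ?_)
          have hξ' : ξ ≤ 0 := hξ
          rw [norm_mul, Complex.norm_real, Real.norm_of_nonneg (gw_pos a v ξ).le]
          have g1 : gw a v ξ ≤ Real.exp (-v ^ 2 / 2) * gw a 0 ξ := by
            unfold gw
            rw [← Real.exp_add]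
            apply Real.exp_le_exp.2
            have : 0 ≤ -ξ * (2 * Real.pi * a) * v := by
              have h9 : 0 ≤ -ξ := by linarith
              positivity
            nlinarith
          calc ‖p ξ‖ * gw a v ξ ≤ K0 * (Real.exp (-v ^ 2 / 2) * gw a 0 ξ) :=
                mul_le_mul (h.bd ξ) g1 (gw_pos a v ξ).le hK
            _ = _ := by ring
      _ ≤ ∫ ξ : ℝ, K0 * Real.exp (-v ^ 2 / 2) * gw a 0 ξ :=
          setIntegral_le_integral (hgi0.const_mul _) (Eventually.of_forall fun ξ => by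
            have := gw_pos a 0 ξ
            positivity)
      _ = _ := by rw [integral_const_mul, hg0]
  have e1 : (c0 : ℂ) * qk p a v - ((1 / (2 * Real.pi * a) : ℝ) : ℂ) * p (v / (2 * Real.pi * a)) =
      ((c0 : ℂ) * (∫ ξ : ℝ, p ξ * ((gw a v ξ : ℝ) : ℂ)) -
        ((1 / (2 * Real.pi * a) : ℝ) : ℂ) * p (v / (2 * Real.pi * a))) -
      (c0 : ℂ) * ∫ ξ in Set.Iic (0 : ℝ), p ξ * ((gw a v ξ : ℝ) : ℂ) := by
    rw [← hsplit]
    unfold qk
    ring
  rw [e1]
  refine (norm_sub_le _ _).trans (add_le_add h1 ?_)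
  rw [norm_mul, Complex.norm_real, Real.norm_of_nonneg c0_pos.le]
  calc c0 * ‖_‖ ≤ c0 * (K0 * Real.exp (-v ^ 2 / 2) * (1 / (a * Real.sqrt (2 * Real.pi)))) :=
        mul_le_mul_of_nonneg_left b1 c0_pos.le
    _ = K0 * Real.exp (-v ^ 2 / 2) * (c0 * (1 / (a * Real.sqrt (2 * Real.pi)))) := by ring
    _ = _ := by rw [c0_int ha]; ring

/-- a trivial bound -/
lemma qk_le (h : Kn p B K0 Λ) {a : ℝ} (ha : 0 < a) (v : ℝ) : c0 * ‖qk p a v‖ ≤ K0 / (2 * Real.pi * a) := by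
  have hg0 := gw_integral ha v
  have hgi0 := gw_integrable ha v
  have hK := h.bd0
  have b1 : ‖qk p a v‖ ≤ K0 * (1 / (a * Real.sqrt (2 * Real.pi))) := by
    unfold qk
    calc _ ≤ ∫ ξ in Set.Ioi (0 : ℝ), K0 * gw a v ξ := by
          refine norm_integral_le_of_norm_le (hgi0.const_mul _).integrableOn
            (Eventually.of_forall fun ξ => ?_)
          rw [norm_mul, Complex.norm_real, Real.norm_of_nonneg (gw_pos a v ξ).le]
          exact mul_le_mul_of_nonneg_right (h.bd ξ) (gw_pos a v ξ).le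
      _ ≤ ∫ ξ : ℝ, K0 * gw a v ξ :=
          setIntegral_le_integral (hgi0.const_mul _) (Eventually.of_forall fun ξ => by
            have := gw_pos a v ξ
            positivity)
      _ = _ := by rw [integral_const_mul, hg0]
  calc c0 * ‖qk p a v‖ ≤ c0 * (K0 * (1 / (a * Real.sqrt (2 * Real.pi)))) :=
        mul_le_mul_of_nonneg_left b1 c0_pos.le
    _ = K0 * (c0 * (1 / (a * Real.sqrt (2 * Real.pi)))) := by ring
    _ = _ := by rw [c0_int ha]; ring

end Pool.Agent.Q278.MX
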