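import Pool.Agent.Q278.MX.Y

/-!
# The good points of a dyadic block (helper278)
-/

set_option autoImplicit false

namespace Pool.Agent.Q278.MX

open Filter Topology Finset MeasureTheory Complex
open scoped ComplexConjugate
open Pool.Agent.Q278.MC
open Pool.Agent.Q278.GF (sc)

lemma Yd_cont (w K μ x : ℝ) : Continuous (Yd w K μ x) := DP_cont _ _

/-- Markov for the number of thick points -/
lemma thick_markov {w K μ A M P T : ℝ} {B : ℕ} (hM : 0 < M)
    (hP : ∀ x ∈ range (B + 1), (mu T).real {t | A ≤ ‖Yd w K μ (x : ℝ) t‖} ≤ P) :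
    (mu T).real {t | M ≤ ((((range (B + 1)).filter fun x : ℕ => A ≤ ‖Yd w K μ (x : ℝ) t‖).card : ℕ) : ℝ)} ≤
      (B + 1) * P / M := by
  classical
  haveI := mu_fin T
  set f : ℝ → ℝ := fun t => ∑ x ∈ range (B + 1), ({t | A ≤ ‖Yd w K μ (x : ℝ) t‖}).indicator (fun _ => (1 : ℝ)) t
    with hf
  have hms : ∀ x : ℕ, MeasurableSet {t | A ≤ ‖Yd w K μ (x : ℝ) t‖} := fun x =>
    (isClosed_le continuous_const (Yd_cont w K μ x).norm).measurableSet
  have e1 : ∀ t, f t = ((((range (B + 1)).filter fun x : ℕ => A ≤ ‖Yd w K μ (x : ℝ) t‖).card : ℕ) : ℝ) := by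
    intro t
    simp only [hf, Set.indicator_apply, Set.mem_setOf_eq]
    rw [Finset.sum_ite, Finset.sum_const_zero, add_zero, Finset.sum_const, nsmul_eq_mul, mul_one]
  have hint : ∀ x ∈ range (B + 1), Integrable (({t | A ≤ ‖Yd w K μ (x : ℝ) t‖}).indicator
      (fun _ => (1 : ℝ))) (mu T) := fun x _ => (integrable_const 1).indicator (hms x)
  have hI : ∫ t, f t ∂(mu T) ≤ (B + 1) * P := by
    simp only [hf]
    rw [integral_finsetSum _ hint]
    have h1 : ∀ x ∈ range (B + 1), ∫ t, ({t | A ≤ ‖Yd w K μ (x : ℝ) t‖}).indicator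
        (fun _ => (1 : ℝ)) t ∂(mu T) ≤ P := by
      intro x hx
      rw [integral_indicator_const _ (hms x), smul_eq_mul, mul_one]
      exact hP x hx
    refine (Finset.sum_le_sum h1).trans (le_of_eq ?_)
    rw [sum_const, card_range, nsmul_eq_mul]
    push_cast
    ring
  have hmk := mul_meas_ge_le_integral_of_nonneg (μ := mu T) (f := f)
    (Eventually.of_forall fun t => Finset.sum_nonneg fun x _ => Set.indicator_nonneg
      (fun _ _ => zero_le_one) _) (integrable_finsetSum _ hint) M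
  have e2 : {t | M ≤ ((((range (B + 1)).filter fun x : ℕ => A ≤ ‖Yd w K μ (x : ℝ) t‖).card : ℕ) : ℝ)} =
      {t | M ≤ f t} := by
    ext t
    rw [Set.mem_setOf_eq, Set.mem_setOf_eq, e1 t]
  rw [e2, le_div_iff₀ hM, mul_comm]
  exact hmk.trans hI

/-- the good points of a dyadic block -/
theorem block_good (RH : RiemannHypothesis) : ∀ ε : ℝ, 0 < ε → ε ≤ 1 → ∀ α : ℝ, 0 ≤ α → α ≤ 1 - ε →
    ∃ c K0 : ℝ, 0 < c ∧ 8 ≤ K0 ∧ ∀ K : ℝ, K0 ≤ K → ∀ T : ℝ, 1 ≤ T →
    (4 * K) ^ 3 ≤ Real.log T → ∃ bad : Set ℝ, (mu T).real bad ≤ K ^ (-c) ∧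
    ∀ t : ℝ, T + Real.log T ≤ t → t ≤ 2 * T - Real.log T → t ∉ bad → (∀ n : ℕ, SG.ord n ≠ t) ∧
    (∀ x : ℕ, (x : ℝ) ≤ 3 * K → |Dc T t x| ≤ (1 / Real.pi + ε) * Real.log K) ∧
    Dc T t 1 ≤ ε * Real.log K ∧
    ((((range (⌊3 * K⌋₊ + 1)).filter fun x : ℕ => α / Real.pi * Real.log K ≤ |Dc T t x|).card : ℕ) : ℝ) ≤
      K ^ (1 - α ^ 2 + ε) ∧
    ∀ σ : ℝ, |σ| = 1 → K ^ (1 - α ^ 2 - ε) ≤
      ((((Finset.Icc 1 ⌊K / 2⌋₊).filter fun x : ℕ => α / Real.pi * Real.log K ≤ σ * Dc T t x).card : ℕ) : ℝ) := by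
  classical
  intro ε hε hε1 α hα hα1
  set δ : ℝ := ε / 256 with hδ
  have hδ0 : 0 < δ := by positivity
  have hδ1 : δ ≤ 1 := by rw [hδ]; linarith
  obtain ⟨μ0, hμ0, hμ04, happ⟩ := approx_all RH δ hδ0 hδ1
  -- the number of bands
  obtain ⟨n, hn'⟩ := exists_nat_gt (1 / min μ0 (ε / 256))
  have hmin : 0 < min μ0 (ε / 256) := lt_min hμ0 (by positivity)
  set μ : ℝ := 1 / ((n : ℝ) + 2) with hμd
  have hn0 : (0 : ℝ) ≤ n := Nat.cast_nonneg n
  have hμ : 0 < μ := by positivity
  have hn : (n + 2 : ℝ) * μ = 1 := by rw [hμd]; field_simp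
  have hμmin : μ ≤ min μ0 (ε / 256) := by
    rw [hμd, one_div_le (by positivity) hmin]
    linarith
  have hμμ0 : μ ≤ μ0 := hμmin.trans (min_le_left _ _)
  have hμε : μ ≤ ε / 256 := hμmin.trans (min_le_right _ _)
  obtain ⟨K1, hK18, happ⟩ := happ μ hμ hμμ0
  obtain ⟨K2, hK28, hft⟩ := field_tail μ hμ (by linarith)
  set γ : ℝ := ε / 8 with hγ
  have hγ0 : 0 < γ := by positivity
  set α' : ℝ := α + 4 * (μ + 2 * δ) with hα'
  have hα'0 : 0 ≤ α' := by positivity
  have hα'1 : α' ≤ α + 3 * ε / 64 := by rw [hα', hδ]; linarith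
  have hα'le : α' ≤ 1 := by linarith
  have hαγ : 4 * γ ≤ 1 - α' ^ 2 := by
    rw [hγ]
    nlinarith
  obtain ⟨K3, hK38, hfth⟩ := field_thick α' γ hα'0 hγ0 hαγ n μ hμ hn
  set c0 : ℝ := min (μ * γ / 2) (δ ^ 2) with hc0
  have hc00 : 0 < c0 := lt_min (by positivity) (by positivity)
  have hc0δ : c0 ≤ δ ^ 2 := min_le_right _ _
  have hc0μ : c0 ≤ μ * γ / 2 := min_le_left _ _
  have hδδ : δ ^ 2 ≤ δ := by nlinarith
  have hδε : δ ≤ ε / 2 := by rw [hδ]; linarith
  set Cc : ℝ := 1 + 32 / δ + 16 + 128 / ε + 2 with hCc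
  obtain ⟨K4, hK4⟩ := ((tendsto_rpow_atTop (show 0 < c0 / 2 by positivity)).eventually_ge_atTop Cc).exists_forall_of_atTop
  refine ⟨c0 / 2, max (max K1 K2) (max K3 K4), by positivity,
    (hK18.trans (le_max_left _ _)).trans (le_max_left _ _), fun K hK T hT hKT => ?_⟩
  have hKK1 : K1 ≤ K := ((le_max_left _ _).trans (le_max_left _ _)).trans hK
  have hKK2 : K2 ≤ K := ((le_max_right _ _).trans (le_max_left _ _)).trans hK
  have hKK3 : K3 ≤ K := ((le_max_left _ _).trans (le_max_right _ _)).trans hK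
  have hKK4 : K4 ≤ K := ((le_max_right _ _).trans (le_max_right _ _)).trans hK
  have hCK := hK4 K hKK4
  have hK8 : 8 ≤ K := hK18.trans hKK1
  have hK0 : 0 < K := by linarith
  have hK1' : 1 ≤ K := by linarith
  obtain ⟨b0, hb0, happ⟩ := happ K hKK1 T hT hKT
  set w := Real.log T with hw
  set L := Real.log K with hL
  have hL1 : 1 ≤ L := by
    rw [hL, Real.le_log_iff_exp_le hK0]
    have := Real.exp_one_lt_d9
    linarith
  have hL0 : 0 < L := by linarith
  have hpi := Real.pi_pos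
  have hpi3 := Real.pi_gt_three
  have hpi4 := Real.pi_lt_four
  set B : ℕ := ⌊3 * K⌋₊ with hB
  have hB1 : (B : ℝ) + 1 ≤ 4 * K := by
    have : (B : ℝ) ≤ 3 * K := Nat.floor_le (by positivity)
    linarith
  have hmono : ∀ a b : ℝ, a ≤ b → K ^ a ≤ K ^ b := fun a b h => Real.rpow_le_rpow_of_exponent_le hK1' h
  have hpos : ∀ a : ℝ, 0 < K ^ a := fun a => Real.rpow_pos_of_pos hK0 a
  haveI := mu_fin T
  -- the bad sets
  set b1 : Set ℝ := ⋃ x ∈ range (B + 1), {t | (1 + δ) * L / Real.pi ≤ ‖Yd w K μ (x : ℝ) t‖} with hb1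
  set b2 : ℝ → Set ℝ := fun x => {t | Real.pi * δ * L / Real.pi ≤ ‖Yd w K μ x t‖} with hb2
  set β : ℝ := max (α - 8 * δ) 0 with hβ
  have hβ0 : 0 ≤ β := le_max_right _ _
  have hβ1 : β ≤ 1 := max_le (by linarith) zero_le_one
  set b4 : Set ℝ := {t | K ^ (1 - α ^ 2 + ε) ≤
    ((((range (B + 1)).filter fun x : ℕ => β * L / Real.pi ≤ ‖Yd w K μ (x : ℝ) t‖).card : ℕ) : ℝ)} with hb4
  set b5 : ℝ → Set ℝ := fun σ => {t | ((((Finset.Icc 1 ⌊K / 2⌋₊).filter fun x : ℕ =>
      |(Yd w K μ x t).re - σ * (α' * L / Real.pi)| ≤ μ * L).card : ℕ) : ℝ) <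
      K ^ (1 - α' ^ 2 - 2 * γ)} with hb5
  have m0 : (mu T).real b0 ≤ K ^ (-c0) := hb0.trans (hmono _ _ (by linarith))
  have m1 : (mu T).real b1 ≤ 32 / δ * K ^ (-c0) := by
    have h1 : (mu T).real b1 ≤ ∑ x ∈ range (B + 1), 4 / (δ / 2) * K ^ (-(1 + δ)) := by
      refine (measureReal_biUnion_finset_le _ _).trans (Finset.sum_le_sum fun x hx => ?_)
      refine (hft K hKK2 T hT hKT x (1 + δ) (δ / 2) (by linarith) (by linarith) (by positivity)
        (by linarith)).trans ?_
      refine mul_le_mul_of_nonneg_left (hmono _ _ ?_) (by positivity)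
      nlinarith [mul_pos hδ0 hδ0]
    rw [sum_const, card_range, nsmul_eq_mul] at h1
    refine h1.trans ?_
    have e1 : K * K ^ (-(1 + δ)) = K ^ (-δ) := by
      nth_rewrite 1 [← Real.rpow_one K]
      rw [← Real.rpow_add hK0]
      congr 1
      ring
    calc ((B + 1 : ℕ) : ℝ) * (4 / (δ / 2) * K ^ (-(1 + δ))) ≤ 4 * K * (4 / (δ / 2) * K ^ (-(1 + δ))) := by
          refine mul_le_mul_of_nonneg_right ?_ (by have := hpos (-(1 + δ)); positivity)
          push_cast
          exact hB1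
      _ = 32 / δ * (K * K ^ (-(1 + δ))) := by field_simp; ring
      _ = 32 / δ * K ^ (-δ) := by rw [e1]
      _ ≤ _ := mul_le_mul_of_nonneg_left (hmono _ _ (by linarith)) (by positivity)
  have m2 : ∀ x : ℝ, (mu T).real (b2 x) ≤ 8 * K ^ (-c0) := by
    intro x
    refine (hft K hKK2 T hT hKT x (Real.pi * δ) (1 / 2) (by positivity) (by nlinarith) (by norm_num)
      (by norm_num)).trans ?_
    have e1 : 4 / (1 / 2 : ℝ) = 8 := by norm_num
    rw [e1]
    refine mul_le_mul_of_nonneg_left (hmono _ _ ?_) (by norm_num)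
    have : 8 * δ ^ 2 ≤ Real.pi ^ 2 * δ ^ 2 := mul_le_mul_of_nonneg_right (by nlinarith) (by positivity)
    nlinarith
  have m4 : (mu T).real b4 ≤ 128 / ε * K ^ (-c0) := by
    refine (thick_markov (P := 4 / (ε / 8) * K ^ (-((1 - ε / 8) * β ^ 2))) (hpos _) fun x _ =>
      hft K hKK2 T hT hKT x β (ε / 8) hβ0 (by linarith) (by positivity) (by linarith)).trans ?_
    have hexp : 1 - (1 - ε / 8) * β ^ 2 - (1 - α ^ 2 + ε) ≤ -c0 := by
      have h1 : α ^ 2 - β ^ 2 ≤ ε / 16 := by
        rcases le_total (α - 8 * δ) 0 with h | h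
        · have : α ^ 2 ≤ (8 * δ) ^ 2 := pow_le_pow_left₀ hα (by linarith) 2
          have h2 : (8 * δ) ^ 2 ≤ ε / 16 := by
            rw [hδ]
            nlinarith
          nlinarith [sq_nonneg β]
        · have h2 : β = α - 8 * δ := max_eq_left h
          rw [h2]
          have h3 : 16 * δ = ε / 16 := by rw [hδ]; ring
          nlinarith
      have h2 : ε / 8 * β ^ 2 ≤ ε / 8 := by
        have : β ^ 2 ≤ 1 := pow_le_one₀ hβ0 hβ1
        nlinarith
      nlinarith
    rw [div_le_iff₀ (hpos _)]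
    calc (B + 1 : ℝ) * (4 / (ε / 8) * K ^ (-((1 - ε / 8) * β ^ 2))) ≤
          4 * K * (4 / (ε / 8) * K ^ (-((1 - ε / 8) * β ^ 2))) := by
          refine mul_le_mul_of_nonneg_right hB1 ?_
          have := hpos (-((1 - ε / 8) * β ^ 2))
          positivity
      _ = 128 / ε * (K ^ (1 - (1 - ε / 8) * β ^ 2 - (1 - α ^ 2 + ε)) * K ^ (1 - α ^ 2 + ε)) := by
          rw [← Real.rpow_add hK0]
          have e1 : 1 - (1 - ε / 8) * β ^ 2 - (1 - α ^ 2 + ε) + (1 - α ^ 2 + ε) =
            1 + -((1 - ε / 8) * β ^ 2) := by ring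
          rw [e1, Real.rpow_add hK0, Real.rpow_one]
          field_simp
          ring
      _ ≤ 128 / ε * (K ^ (-c0) * K ^ (1 - α ^ 2 + ε)) := by
          have := hmono _ _ hexp
          have h3 := hpos (1 - α ^ 2 + ε)
          gcongr
      _ = _ := by ring
  have m5 : ∀ σ : ℝ, |σ| = 1 → (mu T).real (b5 σ) ≤ K ^ (-c0) := by
    intro σ hσ
    exact (hfth K hKK3 T hT hKT σ hσ).trans (hmono _ _ (by linarith))
  refine ⟨((((b0 ∪ b1) ∪ b2 0) ∪ b2 1) ∪ b4) ∪ (b5 1 ∪ b5 (-1)), ?_, fun t ht1 ht2 htb => ?_⟩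
  · -- the measure
    have h1 : (mu T).real (((((b0 ∪ b1) ∪ b2 0) ∪ b2 1) ∪ b4) ∪ (b5 1 ∪ b5 (-1))) ≤ Cc * K ^ (-c0) := by
      refine (measureReal_union_le _ _).trans ?_
      refine (add_le_add ((measureReal_union_le _ _).trans (add_le_add ((measureReal_union_le _ _).trans
        (add_le_add ((measureReal_union_le _ _).trans (add_le_add ((measureReal_union_le _ _).trans
        (add_le_add m0 m1)) (m2 0))) (m2 1))) m4)) ((measureReal_union_le _ _).trans
        (add_le_add (m5 1 (by simp)) (m5 (-1) (by simp))))).trans (le_of_eq ?_)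
      rw [hCc]
      ring
    refine h1.trans ?_
    have e1 : K ^ (-(c0 / 2)) = K ^ (c0 / 2) * K ^ (-c0) := by
      rw [← Real.rpow_add hK0]
      congr 1
      ring
    rw [e1]
    exact mul_le_mul_of_nonneg_right hCK (hpos _).le
  · simp only [Set.mem_union, not_or] at htb
    obtain ⟨⟨⟨⟨⟨t0, t1⟩, t2⟩, t3⟩, t4⟩, t5, t6⟩ := htb
    obtain ⟨hord, happ⟩ := happ t ht1 ht2 t0
    simp only [hb2, Set.mem_setOf_eq, not_le] at t2 t3
    have epi : Real.pi * δ * L / Real.pi = δ * L := by field_simp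
    rw [epi] at t2 t3
    have y0 := (Complex.abs_re_le_norm _).trans_lt t2
    have y1 := (Complex.abs_re_le_norm _).trans_lt t3
    have hDY : ∀ x : ℕ, (x : ℝ) ≤ 3 * K → |Dc T t x - (Yd w K μ x t).re| ≤ 2 * δ * L := by
      intro x hx
      have h1 := happ x hx
      have e : Dc T t x - (Yd w K μ x t).re = (Dc T t x - ((Yd w K μ x t).re - (Yd w K μ 0 t).re)) +
        -(Yd w K μ 0 t).re := by ring
      rw [e]
      refine (abs_add_le _ _).trans ?_
      rw [abs_neg]
      linarith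
    refine ⟨hord, fun x hx => ?_, ?_, ?_, fun σ hσ => ?_⟩
    · -- the maximum
      have hxB : x ∈ range (B + 1) := by
        rw [mem_range, Nat.lt_succ_iff]
        exact Nat.le_floor hx
      have h1 : ‖Yd w K μ (x : ℝ) t‖ < (1 + δ) * L / Real.pi := by
        by_contra h
        push Not at h
        apply t1
        simp only [hb1, Set.mem_iUnion]
        exact ⟨x, hxB, h⟩
      have h2 := (Complex.abs_re_le_norm _).trans_lt h1
      have h3 := hDY x hx
      have h4 := abs_sub_le (Dc T t x) ((Yd w K μ x t).re) 0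
      rw [sub_zero, sub_zero] at h4
      have h5 : (1 + δ) * L / Real.pi ≤ 1 / Real.pi * L + δ * L := by
        have : δ * L / Real.pi ≤ δ * L := div_le_self (by positivity) (by linarith)
        calc (1 + δ) * L / Real.pi = 1 / Real.pi * L + δ * L / Real.pi := by ring
          _ ≤ _ := by linarith
      have h6 : 3 * δ * L ≤ ε * L := mul_le_mul_of_nonneg_right (by rw [hδ]; linarith) hL0.le
      linarith
    · -- the point one
      have h3 := hDY 1 (by push_cast; linarith)
      rw [Nat.cast_one] at h3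
      have h4 := abs_le.1 h3
      have h5 := abs_lt.1 y1
      have h6 : 3 * δ * L ≤ ε * L := mul_le_mul_of_nonneg_right (by rw [hδ]; linarith) hL0.le
      linarith [h4.2, h5.2]
    · -- the upper bound for the number of thick points
      simp only [hb4, Set.mem_setOf_eq, not_le] at t4
      refine le_trans ?_ t4.le
      have hsub : ((range (B + 1)).filter fun x : ℕ => α / Real.pi * L ≤ |Dc T t x|) ⊆
          (range (B + 1)).filter fun x : ℕ => β * L / Real.pi ≤ ‖Yd w K μ (x : ℝ) t‖ := by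
        intro x hx
        rw [mem_filter] at hx ⊢
        refine ⟨hx.1, ?_⟩
        have hxK : (x : ℝ) ≤ 3 * K := by
          have := hx.1
          rw [mem_range, Nat.lt_succ_iff] at this
          exact (Nat.le_floor_iff (by positivity)).1 this
        have h3 := hDY x hxK
        have h4 := abs_sub_abs_le_abs_sub (Dc T t x) ((Yd w K μ x t).re)
        have h5 := Complex.abs_re_le_norm (Yd w K μ (x : ℝ) t)
        rcases le_total (α - 8 * δ) 0 with h | h
        · have h2 : β = 0 := max_eq_right h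
          rw [h2, zero_mul, zero_div]
          exact norm_nonneg _
        · have h2 : β = α - 8 * δ := max_eq_left h
          rw [h2]
          have h6 : (α - 8 * δ) * L / Real.pi ≤ α / Real.pi * L - 2 * δ * L := by
            have h7 : 2 * δ * L ≤ 8 * δ * L / Real.pi := by
              rw [le_div_iff₀ hpi]
              have : 0 ≤ δ * L := by positivity
              nlinarith
            calc (α - 8 * δ) * L / Real.pi = α / Real.pi * L - 8 * δ * L / Real.pi := by ring
              _ ≤ _ := by linarith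
          linarith [hx.2]
      exact_mod_cast Finset.card_le_card hsub
    · -- the lower bound for the number of thick points
      have hσ5 : t ∉ b5 σ := by
        rcases (abs_eq (by norm_num : (0 : ℝ) ≤ 1)).1 hσ with h | h
        · rw [h]; exact t5
        · rw [h]; exact t6
      simp only [hb5, Set.mem_setOf_eq, not_lt] at hσ5
      have hexp : 1 - α ^ 2 - ε ≤ 1 - α' ^ 2 - 2 * γ := by
        rw [hγ]
        nlinarith
      refine (hmono _ _ hexp).trans (hσ5.trans ?_)
      have hsub : ((Finset.Icc 1 ⌊K / 2⌋₊).filter fun x : ℕ =>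
          |(Yd w K μ x t).re - σ * (α' * L / Real.pi)| ≤ μ * L) ⊆
          (Finset.Icc 1 ⌊K / 2⌋₊).filter fun x : ℕ => α / Real.pi * L ≤ σ * Dc T t x := by
        intro x hx
        rw [mem_filter] at hx ⊢
        refine ⟨hx.1, ?_⟩
        have hxK : (x : ℝ) ≤ 3 * K := by
          have := (mem_Icc.1 hx.1).2
          have h2 := (Nat.le_floor_iff (by positivity)).1 this
          linarith
        have h3 := hDY x hxK
        have hσ2 : σ * σ = 1 := by
          rw [← sq, ← sq_abs, hσ, one_pow]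
        have e : σ * Dc T t x = α' * L / Real.pi + σ * (Dc T t x - (Yd w K μ x t).re) +
            σ * ((Yd w K μ x t).re - σ * (α' * L / Real.pi)) := by
          have : σ * (σ * (α' * L / Real.pi)) = α' * L / Real.pi := by rw [← mul_assoc, hσ2, one_mul]
          linear_combination this
        have h4 : |σ * (Dc T t x - (Yd w K μ x t).re)| ≤ 2 * δ * L := by rw [abs_mul, hσ, one_mul]; exact h3
        have h5 : |σ * ((Yd w K μ x t).re - σ * (α' * L / Real.pi))| ≤ μ * L := by
          rw [abs_mul, hσ, one_mul]; exact hx.2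
        have h6 := (abs_le.1 h4).1
        have h7 := (abs_le.1 h5).1
        have h8 : α / Real.pi * L + (μ + 2 * δ) * L ≤ α' * L / Real.pi := by
          have h9 : (μ + 2 * δ) * L ≤ 4 * (μ + 2 * δ) * L / Real.pi := by
            rw [le_div_iff₀ hpi]
            have : 0 ≤ (μ + 2 * δ) * L := by positivity
            nlinarith
          calc α / Real.pi * L + (μ + 2 * δ) * L ≤ α / Real.pi * L + 4 * (μ + 2 * δ) * L / Real.pi := by
                linarith
            _ = _ := by rw [hα']; ring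
        rw [e]
        linarith
      exact_mod_cast Finset.card_le_card hsub

end Pool.Agent.Q278.MX
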