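import Pool.Agent.Q278.MX.X

/-!
# The discrepancy is the field (helper278)
-/

set_option autoImplicit false

namespace Pool.Agent.Q278.MX

open Filter Topology Finset MeasureTheory Complex
open scoped ComplexConjugate
open Pool.Agent.Q278.MC
open Pool.Agent.Q278.GF (sc)

/-- the discrepancy of the zeros -/
noncomputable def Dc (T t x : ℝ) : ℝ := (SG.NZ (t + x / sc T) : ℝ) - SG.NZ t - x

lemma mu_null (T : ℝ) {s : Set ℝ} (hs : s.Countable) : (mu T).real s = 0 := by
  have h1 : volume s = 0 := hs.measure_zero volume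
  have h2 : (volume.restrict (Set.Ioc (T + Real.log T) (2 * T - Real.log T))) s = 0 :=
    le_antisymm ((Measure.restrict_le_self s).trans h1.le) bot_le
  unfold mu
  rw [measureReal_def, Measure.smul_apply, h2]
  simp

/-- the discrepancy is the field, at all the points -/
theorem approx_all (RH : RiemannHypothesis) : ∀ δ : ℝ, 0 < δ → δ ≤ 1 → ∃ μ0 : ℝ, 0 < μ0 ∧ μ0 ≤ 1 / 4 ∧
    ∀ μ : ℝ, 0 < μ → μ ≤ μ0 → ∃ K0 : ℝ, 8 ≤ K0 ∧ ∀ K : ℝ, K0 ≤ K → ∀ T : ℝ, 1 ≤ T →
    (4 * K) ^ 3 ≤ Real.log T → ∃ bad : Set ℝ, (mu T).real bad ≤ K ^ (-(1 / 2 : ℝ)) ∧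
    ∀ t : ℝ, T + Real.log T ≤ t → t ≤ 2 * T - Real.log T → t ∉ bad → (∀ n : ℕ, SG.ord n ≠ t) ∧
    ∀ x : ℕ, (x : ℝ) ≤ 3 * K → |Dc T t x - ((Yd (Real.log T) K μ x t).re - (Yd (Real.log T) K μ 0 t).re)| ≤
      δ * Real.log K := by
  classical
  obtain ⟨C, T0, hC, hT0, hcp⟩ := count_prime RH
  obtain ⟨C1, hC1, hox⟩ := one_x C hC
  intro δ hδ hδ1
  obtain ⟨μ0, hμ0, hμ04, hox⟩ := hox δ hδ hδ1
  refine ⟨μ0, hμ0, hμ04, fun μ hμ hμμ0 => ?_⟩
  set ε1 : ℝ := δ / (16 * C) with hε1
  have hε10 : 0 < ε1 := by positivity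
  have hε11 : ε1 ≤ 1 := by
    rw [hε1, div_le_one (by positivity)]
    linarith
  obtain ⟨K1, hK18, hox⟩ := hox μ hμ hμμ0 ε1 hε10 hε11
  obtain ⟨K2, hK28, hft⟩ := field_tail μ hμ (by linarith)
  obtain ⟨K3, hK3⟩ := ((Real.tendsto_log_atTop.eventually_ge_atTop (max (8 / δ) (2 / ε1))).and
    ((eventually_ge_atTop ((8 * C1 + 64) ^ 2)).and (eventually_ge_atTop (max 4 (Real.log T0))))).exists_forall_of_atTop
  refine ⟨max (max K1 K2) K3, (hK18.trans (le_max_left _ _)).trans (le_max_left _ _),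
    fun K hK T hT hKT => ?_⟩
  have hKK1 : K1 ≤ K := ((le_max_left _ _).trans (le_max_left _ _)).trans hK
  have hKK2 : K2 ≤ K := ((le_max_right _ _).trans (le_max_left _ _)).trans hK
  obtain ⟨g1, g2, g3⟩ := hK3 K ((le_max_right _ _).trans hK)
  have hK8 : 8 ≤ K := hK18.trans hKK1
  have hK0 : 0 < K := by linarith
  set w := Real.log T with hw
  set L := Real.log K with hL
  have hL1 : 1 ≤ L := by
    rw [hL, Real.le_log_iff_exp_le hK0]
    have := Real.exp_one_lt_d9
    linarith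
  have hLK : L ≤ K := by
    have := Real.log_le_sub_one_of_pos hK0
    linarith
  have hLδ : 8 ≤ δ * L := by
    have := (le_max_left _ _).trans g1
    rw [div_le_iff₀ hδ] at this
    linarith
  have hLε : 2 ≤ ε1 * L := by
    have := (le_max_right _ _).trans g1
    rw [div_le_iff₀ hε10] at this
    linarith
  have hKw : 64 * K ^ 3 ≤ w := le_trans (le_of_eq (by ring)) hKT
  have hK3' : K ≤ K ^ 3 := by nlinarith [mul_pos hK0 hK0]
  have hKw2 : 64 * K ≤ w := by linarith
  have hw0 : 0 < w := by linarith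
  have hTpos : 0 < T := by linarith
  have hTT0 : T0 ≤ T := by
    have h1 : Real.log T0 ≤ Real.log T := by
      have := (le_max_right _ _).trans g3
      linarith
    exact (Real.log_le_log_iff (by linarith) hTpos).1 h1
  have hpi := Real.pi_pos
  have hpi3 := Real.pi_gt_three
  set ℓ : ℝ := ε1 * L with hℓ
  have hℓL : ℓ ≤ L := by rw [hℓ]; exact mul_le_of_le_one_left (by linarith) hε11
  set X : ℕ := XT w ℓ with hX
  set bad1 : ℝ → ℕ → Set ℝ := fun c x => {t | δ * L / 2 ≤ ‖-DP (dk (pk c ℓ x) (sc T)) X t -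
        (Yd w K μ x t - Yd w K μ 0 t)‖} with hbad1
  set bad2 : ℕ → Set ℝ := fun x => {t | 2 * L / Real.pi ≤ ‖Yd w K μ x t‖} with hbad2
  set B : ℕ := ⌊3 * K⌋₊ with hB
  set bad : Set ℝ := (Set.range SG.ord) ∪ ⋃ x ∈ range (B + 1), (bad1 C x ∪ bad1 (-C) x ∪ bad2 x) with hbad
  haveI := mu_fin T
  refine ⟨bad, ?_, fun t ht1 ht2 htb => ?_⟩
  · -- the measure
    have h1 : (mu T).real (⋃ x ∈ range (B + 1), (bad1 C x ∪ bad1 (-C) x ∪ bad2 x)) ≤
        ∑ x ∈ range (B + 1), (2 * C1 + 16) / K ^ 2 := by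
      refine (measureReal_biUnion_finset_le _ _).trans (Finset.sum_le_sum fun x hx => ?_)
      have hxB : (x : ℝ) ≤ 3 * K := by
        rw [mem_range, Nat.lt_succ_iff] at hx
        exact (Nat.le_floor_iff (by positivity)).1 hx
      have b1 := hox K hKK1 T hT hKT C x (abs_of_pos (by linarith)) (Nat.cast_nonneg x) hxB
      have b2 := hox K hKK1 T hT hKT (-C) x (by rw [abs_neg, abs_of_pos (by linarith)])
        (Nat.cast_nonneg x) hxB
      have b3 := hft K hKK2 T hT hKT x 2 (1 / 4) (by norm_num) le_rfl (by norm_num) (by norm_num)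
      have e3 : 4 / (1 / 4 : ℝ) * K ^ (-((1 - 1 / 4 : ℝ) * 2 ^ 2)) = 16 / K ^ 3 := by
        have : (-((1 - 1 / 4 : ℝ) * 2 ^ 2)) = -((3 : ℕ) : ℝ) := by norm_num
        rw [this, Real.rpow_neg hK0.le, Real.rpow_natCast]
        norm_num
        rw [div_eq_mul_inv]
      rw [e3] at b3
      have b4 : 16 / K ^ 3 ≤ 16 / K ^ 2 := by
        apply div_le_div_of_nonneg_left (by norm_num) (by positivity)
        exact pow_le_pow_right₀ (by linarith) (by norm_num)
      refine (measureReal_union_le _ _).trans ((add_le_add (measureReal_union_le _ _) le_rfl).trans ?_)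
      have e4 : (2 * C1 + 16) / K ^ 2 = C1 / K ^ 2 + C1 / K ^ 2 + 16 / K ^ 2 := by ring
      rw [e4]
      exact add_le_add (add_le_add b1 b2) (b3.trans b4)
    have h2 : (mu T).real bad ≤ ∑ x ∈ range (B + 1), (2 * C1 + 16) / K ^ 2 := by
      refine (measureReal_union_le _ _).trans ?_
      rw [mu_null T (Set.countable_range _), zero_add]
      exact h1
    refine h2.trans ?_
    rw [sum_const, card_range, nsmul_eq_mul]
    have hB1 : ((B + 1 : ℕ) : ℝ) ≤ 4 * K := by
      have : (B : ℝ) ≤ 3 * K := Nat.floor_le (by positivity)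
      push_cast
      linarith
    calc ((B + 1 : ℕ) : ℝ) * ((2 * C1 + 16) / K ^ 2) ≤ 4 * K * ((2 * C1 + 16) / K ^ 2) :=
          mul_le_mul_of_nonneg_right hB1 (by positivity)
      _ = (8 * C1 + 64) * K⁻¹ := by field_simp; ring
      _ ≤ K ^ (1 / 2 : ℝ) * K⁻¹ := by
          refine mul_le_mul_of_nonneg_right ?_ (by positivity)
          have h3 := Real.rpow_le_rpow (by positivity) g2 (by norm_num : (0 : ℝ) ≤ 1 / 2)
          rw [← Real.sqrt_eq_rpow, Real.sqrt_sq (by positivity)] at h3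
          exact h3
      _ = _ := by
          rw [← Real.rpow_neg_one, ← Real.rpow_add hK0]
          congr 1
          norm_num
  · have hord : ∀ n : ℕ, SG.ord n ≠ t := by
      intro n hn
      exact htb (Or.inl ⟨n, hn⟩)
    refine ⟨hord, fun x hx => ?_⟩
    have hxB : x ∈ range (B + 1) := by
      rw [mem_range, Nat.lt_succ_iff]
      exact Nat.le_floor hx
    have hnot : t ∉ bad1 C x ∪ bad1 (-C) x ∪ bad2 x := by
      intro h
      apply htb
      refine Or.inr ?_
      simp only [Set.mem_iUnion]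
      exact ⟨x, hxB, h⟩
    have h0B : 0 ∈ range (B + 1) := by rw [mem_range]; omega
    have hnot0 : t ∉ bad2 0 := by
      intro h
      apply htb
      refine Or.inr ?_
      simp only [Set.mem_iUnion]
      exact ⟨0, h0B, Or.inr h⟩
    simp only [hbad1, hbad2, Set.mem_union, Set.mem_setOf_eq, not_or, not_le] at hnot hnot0
    obtain ⟨⟨n1, n2⟩, n3⟩ := hnot
    rw [Nat.cast_zero] at hnot0
    have hx0 : (0 : ℝ) ≤ x := Nat.cast_nonneg x
    have hXl : 4 * w / ℓ ≤ Real.log ((X : ℝ) + 1) := by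
      rw [Real.le_log_iff_exp_le (by positivity)]
      exact (Nat.lt_floor_add_one _).le
    have hℓx : ℓ + x ≤ 4 * K := by linarith
    have hcount := hcp T hTT0 ℓ x hLε hx0 ((pow_le_pow_left₀ (by positivity) hℓx 3).trans hKT)
      (by linarith) X hXl t ht1 ht2 hord
    obtain ⟨c1, c2⟩ := hcount
    -- the real parts
    have r1 := (Complex.abs_re_le_norm _).trans_lt n1
    have r2 := (Complex.abs_re_le_norm _).trans_lt n2
    simp only [Complex.sub_re, Complex.neg_re] at r1 r2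
    have y1 := (Complex.abs_re_le_norm _).trans_lt n3
    have y0 := (Complex.abs_re_le_norm _).trans_lt hnot0
    have y1' := abs_lt.1 y1
    have y0' := abs_lt.1 y0
    have hLpi : 2 * L / Real.pi ≤ L := by
      rw [div_le_iff₀ hpi]
      nlinarith
    have hCℓ : 4 * C * ℓ = δ * L / 4 := by
      rw [hℓ, hε1]
      field_simp
      ring
    set P1 := (DP (dk (pk C ℓ x) (sc T)) X t).re with hP1
    set P2 := (DP (dk (pk (-C) ℓ x) (sc T)) X t).re with hP2
    set A := (Yd w K μ x t).re with hA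
    set A0 := (Yd w K μ 0 t).re with hA0
    have r1' := abs_lt.1 r1
    have r2' := abs_lt.1 r2
    unfold Dc
    rw [abs_le]
    constructor
    · -- lower bound
      linarith [r2'.1]
    · -- upper bound
      have hδL : δ * L ≤ L := mul_le_of_le_one_left (by linarith) hδ1
      have h5 : (x : ℝ) + 4 * C * ℓ - P1 + 1 ≤ 7 * K := by linarith [r1'.2]
      have h6 : 50 * ((x : ℝ) / w) ^ 2 * ((x : ℝ) + 4 * C * ℓ - P1 + 1) ≤ 1 := by
        have h7 : 50 * ((x : ℝ) / w) ^ 2 ≤ 50 * (3 * K / w) ^ 2 := by gcongr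
        calc 50 * ((x : ℝ) / w) ^ 2 * ((x : ℝ) + 4 * C * ℓ - P1 + 1) ≤
              50 * ((x : ℝ) / w) ^ 2 * (7 * K) := mul_le_mul_of_nonneg_left h5 (by positivity)
          _ ≤ 50 * (3 * K / w) ^ 2 * (7 * K) := mul_le_mul_of_nonneg_right h7 (by positivity)
          _ = 3150 * K ^ 3 / w ^ 2 := by ring
          _ ≤ 1 := by
              rw [div_le_one (by positivity)]
              have h8 : 3150 * K ^ 3 ≤ w * w := by
                have h9 : (3150 : ℝ) ≤ 64 * w := by linarith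
                nlinarith [pow_pos hK0 3]
              nlinarith
      have e7 : (1 + 50 * ((x : ℝ) / w) ^ 2) * ((x : ℝ) + 4 * C * ℓ - P1 + 1) =
          ((x : ℝ) + 4 * C * ℓ - P1 + 1) + 50 * ((x : ℝ) / w) ^ 2 * ((x : ℝ) + 4 * C * ℓ - P1 + 1) := by
        ring
      rw [e7] at c2
      linarith [r1'.2]

end Pool.Agent.Q278.MX
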