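import Pool.Agent.Q278.MX.U
import Pool.Agent.Q278.MX.Y
import Pool.Agent.Q278.GF.C

/-!
# From the counts to the partial sums of the gaps (helper278)
-/

set_option autoImplicit false

namespace Pool.Agent.Q278.MX

open Filter Topology Finset MeasureTheory
open Pool.Agent.Q278.GF (sc dl log_near cnt_NZ)

/-- the partial sum of the unfolded gaps -/
noncomputable def Sk (n k : ℕ) : ℝ := ∑ i ∈ range k, (dl (n + i) - 1)

/-- a good point `t` just below the `n`-th zero -/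
structure Gd (T t ε : ℝ) (K n : ℕ) : Prop where
  ε0 : 0 < ε
  ε1 : ε ≤ 1
  K8 : (8 : ℝ) ≤ K
  w : 64 * (K : ℝ) ^ 3 ≤ Real.log T
  L : 8 ≤ Real.log K
  LK : 4 * Real.log K ≤ K
  T1 : 1 ≤ T
  t1 : T + Real.log T ≤ t
  t2 : t ≤ 2 * T - Real.log T
  lo : SG.NZ t < n
  hi : n ≤ SG.NZ (t + 1 / sc T)
  g1 : ∀ x : ℕ, (x : ℝ) ≤ 3 * K → |Dc T t x| ≤ (1 / Real.pi + ε) * Real.log K
  g2 : Dc T t 1 ≤ ε * Real.log K

variable {T t ε : ℝ} {K n : ℕ}

/-- the position of the zero number `n + k` -/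
noncomputable def xs (T t : ℝ) (n k : ℕ) : ℝ := sc T * (SG.ord (n + k) - t)

lemma Gd.sc_pos (h : Gd T t ε K n) : 0 < sc T := by
  have h1 := h.w
  have h2 := h.K8
  have h3 : 0 < Real.log T := lt_of_lt_of_le (by positivity) h1
  unfold sc
  positivity

lemma Gd.n1 (h : Gd T t ε K n) : 1 ≤ n := by have := h.lo; omega

lemma Gd.d1 (h : Gd T t ε K n) : (SG.NZ t : ℝ) + 1 ≤ n := by exact_mod_cast h.lo

lemma Gd.d2 (h : Gd T t ε K n) : (n : ℝ) ≤ SG.NZ t + 1 + ε * Real.log K := by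
  have h1 : (n : ℝ) ≤ SG.NZ (t + 1 / sc T) := by exact_mod_cast h.hi
  have h2 := h.g2
  unfold Dc at h2
  linarith

lemma Gd.F1 (h : Gd T t ε K n) {k x : ℕ} (hx : xs T t n k ≤ x) :
    (n : ℝ) + k - SG.NZ t - x ≤ Dc T t x := by
  have ha := h.sc_pos
  have h1 : SG.ord (n + k) ≤ t + x / sc T := by
    unfold xs at hx
    rw [← sub_le_iff_le_add', le_div_iff₀ ha, mul_comm]
    exact hx
  have h2 := (SG.ord_le_iff (by have := h.n1; omega) _).1 h1
  have h3 : ((n + k : ℕ) : ℝ) ≤ SG.NZ (t + x / sc T) := by exact_mod_cast h2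
  push_cast at h3
  unfold Dc
  linarith

lemma Gd.F2 (h : Gd T t ε K n) {k x : ℕ} (hx : (x : ℝ) < xs T t n k) :
    Dc T t x ≤ (n : ℝ) + k - 1 - SG.NZ t - x := by
  have ha := h.sc_pos
  have h1 : ¬SG.ord (n + k) ≤ t + x / sc T := by
    push Not
    unfold xs at hx
    rw [← lt_sub_iff_add_lt', div_lt_iff₀ ha, mul_comm]
    exact hx
  have h2 : ¬n + k ≤ SG.NZ (t + x / sc T) := fun h' =>
    h1 ((SG.ord_le_iff (by have := h.n1; omega) _).2 h')
  push Not at h2
  have h3 : ((SG.NZ (t + x / sc T) : ℕ) : ℝ) + 1 ≤ ((n + k : ℕ) : ℝ) := by exact_mod_cast h2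
  push_cast at h3
  unfold Dc
  linarith

lemma Gd.pi3 : 1 / Real.pi ≤ 1 / 3 := by
  have := Real.pi_gt_three
  exact one_div_le_one_div_of_le (by norm_num) this.le

lemma Gd.xs_pos (h : Gd T t ε K n) (k : ℕ) : 0 < xs T t n k := by
  have ha := h.sc_pos
  have h1 : ¬SG.ord (n + k) ≤ t := fun h' => by
    have := (SG.ord_le_iff (by have := h.n1; omega) _).1 h'
    have := h.lo
    omega
  push Not at h1
  unfold xs
  exact mul_pos ha (by linarith)

lemma Gd.xs_le (h : Gd T t ε K n) {k : ℕ} (hk : k ≤ K) : xs T t n k ≤ 3 * K := by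
  by_contra hc
  push Not at hc
  have h1 := h.F2 (k := k) (x := 3 * K) (by push_cast; exact hc)
  have h2 := (abs_le.1 (h.g1 (3 * K) (by push_cast; exact le_rfl))).1
  have h3 := h.d2
  have h4 : (k : ℝ) ≤ K := by exact_mod_cast hk
  have h5 := Gd.pi3
  have h6 := h.LK
  have h7 := h.ε1
  have h8 := h.L
  have h9 : (1 / Real.pi + ε) * Real.log K ≤ (1 / 3 + 1) * Real.log K :=
    mul_le_mul_of_nonneg_right (by linarith) (by linarith)
  have h10 : ε * Real.log K ≤ 1 * Real.log K := mul_le_mul_of_nonneg_right h7 (by linarith)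
  push_cast at h1 h2
  linarith

/-- the upper and the lower neighbour -/
lemma Gd.ceil (h : Gd T t ε K n) {k : ℕ} (hk : k ≤ K) :
    1 ≤ ⌈xs T t n k⌉₊ ∧ ((⌈xs T t n k⌉₊ : ℕ) : ℝ) ≤ 3 * K ∧ xs T t n k ≤ ⌈xs T t n k⌉₊ ∧
    (((⌈xs T t n k⌉₊ - 1 : ℕ) : ℝ)) < xs T t n k ∧ xs T t n k - 1 ≤ ((⌈xs T t n k⌉₊ - 1 : ℕ) : ℝ) ∧
    ((⌈xs T t n k⌉₊ : ℕ) : ℝ) < xs T t n k + 1 := by
  have h1 : 1 ≤ ⌈xs T t n k⌉₊ := Nat.one_le_ceil_iff.2 (h.xs_pos k)
  have h2 : ((⌈xs T t n k⌉₊ : ℕ) : ℝ) ≤ 3 * K := by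
    have : ⌈xs T t n k⌉₊ ≤ 3 * K := Nat.ceil_le.2 (by push_cast; exact h.xs_le hk)
    exact_mod_cast this
  have h3 := Nat.le_ceil (xs T t n k)
  have h4 := Nat.ceil_lt_add_one (h.xs_pos k).le
  have h5 : (((⌈xs T t n k⌉₊ - 1 : ℕ) : ℝ)) = (⌈xs T t n k⌉₊ : ℝ) - 1 := by
    rw [Nat.cast_sub h1]; simp
  refine ⟨h1, h2, h3, ?_, ?_, h4⟩
  · rw [h5]; linarith
  · rw [h5]; linarith

lemma Gd.low (h : Gd T t ε K n) {k : ℕ} (hk : k ≤ K) :
    -Dc T t (⌈xs T t n k⌉₊ : ℕ) ≤ xs T t n k - k := by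
  obtain ⟨c1, c2, c3, c4, c5, c6⟩ := h.ceil hk
  have h1 := h.F1 c3
  have h2 := h.d1
  linarith

lemma Gd.up (h : Gd T t ε K n) {k : ℕ} (hk : k ≤ K) :
    xs T t n k - k ≤ 1 + ε * Real.log K - Dc T t ((⌈xs T t n k⌉₊ - 1 : ℕ) : ℝ) := by
  obtain ⟨c1, c2, c3, c4, c5, c6⟩ := h.ceil hk
  have h1 := h.F2 c4
  have h2 := h.d2
  linarith

lemma Gd.xs_abs (h : Gd T t ε K n) {k : ℕ} (hk : k ≤ K) :
    |xs T t n k - k| ≤ (1 / Real.pi + 2 * ε) * Real.log K + 1 := by
  obtain ⟨c1, c2, c3, c4, c5, c6⟩ := h.ceil hk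
  have h1 := h.low hk
  have h2 := h.up hk
  have h3 := (abs_le.1 (h.g1 _ c2)).2
  have h4 := (abs_le.1 (h.g1 (⌈xs T t n k⌉₊ - 1) (c4.le.trans (h.xs_le hk)))).1
  have h5 := h.ε0
  have h6 := h.L
  have h7 : 0 ≤ ε * Real.log K := by positivity
  rw [abs_le]
  constructor <;> linarith

/-- the normalisation -/
lemma Gd.norm (h : Gd T t ε K n) {k : ℕ} (hk : k ≤ K) : |Sk n k - (xs T t n k - k)| ≤ 2 := by
  have ha := h.sc_pos
  have hpi := Real.pi_pos
  have hpi4 := Real.pi_lt_four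
  have hK8 := h.K8
  have hw := h.w
  set w := Real.log T with hwd
  have hK3 : (K : ℝ) ≤ K ^ 3 := by nlinarith [mul_self_nonneg ((K : ℝ) - 1), sq_nonneg (K : ℝ)]
  have hwK : 64 * (K : ℝ) ≤ w := by linarith
  have hw0 : 0 < w := by linarith
  have hn1 := h.n1
  have hom : ∀ i j : ℕ, i ≤ j → SG.ord (n + i) ≤ SG.ord (n + j) := fun i j hij =>
    cnt_NZ.omono (by omega) (by omega)
  have hxk := h.xs_le hk
  have hsc : sc T = w / (2 * Real.pi) := rfl
  have hup : SG.ord (n + k) ≤ 2 * T := by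
    unfold xs at hxk
    have h1 : SG.ord (n + k) - t ≤ 3 * K / sc T := by rw [le_div_iff₀ ha, mul_comm]; exact hxk
    have h2 : 3 * (K : ℝ) / sc T ≤ w := by
      rw [div_le_iff₀ ha, hsc, mul_div_assoc', le_div_iff₀ (by positivity)]
      have : 24 * (K : ℝ) ≤ w * w := by nlinarith
      nlinarith
    linarith [h.t2]
  have hlow : T ≤ SG.ord n := by
    have h1 := h.xs_pos 0
    unfold xs at h1
    have h2 : 0 < SG.ord (n + 0) - t := by
      by_contra hc
      push Not at hc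
      have := mul_nonpos_of_nonneg_of_nonpos ha.le hc
      linarith
    rw [add_zero] at h2
    linarith [h.t1]
  have hT0 : 0 < T := by linarith [h.T1]
  -- the sum
  have e1 : xs T t n k = sc T * (SG.ord (n + k) - SG.ord n) + sc T * (SG.ord n - t) := by
    unfold xs; ring
  have e2 : SG.ord (n + k) - SG.ord n = ∑ i ∈ range k, (SG.ord (n + (i + 1)) - SG.ord (n + i)) := by
    rw [Finset.sum_range_sub (fun i => SG.ord (n + i)) k]
    simp
  have hs : 0 ≤ sc T * (SG.ord n - t) ∧ sc T * (SG.ord n - t) ≤ 1 := by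
    have h1 := h.xs_pos 0
    unfold xs at h1
    rw [add_zero] at h1
    refine ⟨h1.le, ?_⟩
    have h2 := (SG.ord_le_iff hn1 _).2 h.hi
    have h3 : SG.ord n - t ≤ 1 / sc T := by linarith
    rw [le_div_iff₀ ha] at h3
    linarith
  have h4 : |Sk n k - (sc T * (SG.ord (n + k) - SG.ord n) - k)| ≤ 1 := by
    have e3 : Sk n k - (sc T * (SG.ord (n + k) - SG.ord n) - k) =
        ∑ i ∈ range k, (SG.ord (n + (i + 1)) - SG.ord (n + i)) / (2 * Real.pi) *
          (Real.log (SG.ord (n + i) / (2 * Real.pi)) - w) := by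
      have e4 : (k : ℝ) = ∑ _i ∈ range k, (1 : ℝ) := by simp
      unfold Sk
      rw [e2, Finset.mul_sum]
      nth_rewrite 1 [e4]
      rw [← Finset.sum_sub_distrib, ← Finset.sum_sub_distrib]
      refine Finset.sum_congr rfl fun i _ => ?_
      unfold dl
      rw [hsc, show n + i + 1 = n + (i + 1) by ring]
      ring
    rw [e3]
    refine (Finset.abs_sum_le_sum_abs _ _).trans ?_
    have h5 : ∀ i ∈ range k, |(SG.ord (n + (i + 1)) - SG.ord (n + i)) / (2 * Real.pi) *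
          (Real.log (SG.ord (n + i) / (2 * Real.pi)) - w)| ≤
        (SG.ord (n + (i + 1)) - SG.ord (n + i)) / (2 * Real.pi) * 3 := by
      intro i hi
      rw [mem_range] at hi
      have g1 := hom i (i + 1) (by omega)
      have g2 := hom i k hi.le
      have g3 := hom 0 i (by omega)
      rw [add_zero] at g3
      rw [abs_mul, abs_of_nonneg (div_nonneg (by linarith) (by positivity))]
      refine mul_le_mul_of_nonneg_left ?_ (div_nonneg (by linarith) (by positivity))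
      exact log_near hT0 (by linarith) (by linarith)
    refine (Finset.sum_le_sum h5).trans ?_
    rw [← Finset.sum_mul, ← Finset.sum_div, ← e2]
    have h6 : sc T * (SG.ord (n + k) - SG.ord n) ≤ 3 * K := by linarith [hs.1]
    have h7 : (SG.ord (n + k) - SG.ord n) / (2 * Real.pi) * 3 =
        3 / w * (sc T * (SG.ord (n + k) - SG.ord n)) := by
      rw [hsc]
      field_simp
    rw [h7]
    calc 3 / w * (sc T * (SG.ord (n + k) - SG.ord n)) ≤ 3 / w * (3 * K) :=
          mul_le_mul_of_nonneg_left h6 (by positivity)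
      _ ≤ 1 := by
          rw [div_mul_eq_mul_div, div_le_one hw0]
          linarith
  rw [e1]
  have h8 := abs_le.1 h4
  rw [abs_le]
  constructor <;> linarith [hs.1, hs.2]

/-- the bound of the maximum -/
theorem Gd.max_bound (h : Gd T t ε K n) {k : ℕ} (hk : k ≤ K) :
    |Sk n k| ≤ (1 / Real.pi + 2 * ε) * Real.log K + 3 := by
  have h1 := abs_le.1 (h.norm hk)
  have h2 := abs_le.1 (h.xs_abs hk)
  rw [abs_le]
  constructor <;> linarith

lemma near_card (x G : ℕ) {h : ℝ} (hh : 1 ≤ h) :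
    ((((Finset.Icc 1 G).filter fun y : ℕ => |(x : ℝ) - y| < h).card : ℕ) : ℝ) ≤ 3 * h := by
  classical
  have h1 := near_count x G hh zero_le_one
  rw [← Finset.sum_filter, Finset.sum_const, nsmul_eq_mul, mul_one, mul_one] at h1
  exact h1

/-- thick sums come from thick points -/
theorem Gd.thick_up (h : Gd T t ε K n) {α β : ℝ}
    (hβ : β / Real.pi * Real.log K + 3 + ε * Real.log K ≤ α / Real.pi * Real.log K) :
    ((((Finset.Icc 1 K).filter fun k : ℕ => α / Real.pi * Real.log K ≤ |Sk n k|).card : ℕ) : ℝ) ≤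
      15 * Real.log K *
      ((((range (⌊3 * (K : ℝ)⌋₊ + 1)).filter fun x : ℕ => β / Real.pi * Real.log K ≤
        |Dc T t x|).card : ℕ) : ℝ) := by
  classical
  set L := Real.log K with hL
  have hL8 : 8 ≤ L := h.L
  have hε0 := h.ε0
  have hε1 := h.ε1
  have hpi3 := Gd.pi3
  have hεL : 0 ≤ ε * L := by positivity
  set A := (Finset.Icc 1 K).filter fun k : ℕ => α / Real.pi * L ≤ |Sk n k| with hA
  set B := (range (⌊3 * (K : ℝ)⌋₊ + 1)).filter fun x : ℕ => β / Real.pi * L ≤ |Dc T t x| with hB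
  set φ : ℕ → ℕ := fun k => if 0 ≤ Sk n k then ⌈xs T t n k⌉₊ - 1 else ⌈xs T t n k⌉₊ with hφ
  have hmem : ∀ x : ℕ, (x : ℝ) ≤ 3 * K → x ∈ range (⌊3 * (K : ℝ)⌋₊ + 1) := by
    intro x hx
    rw [mem_range, Nat.lt_succ_iff]
    exact Nat.le_floor hx
  have hmaps : ∀ k ∈ A, φ k ∈ B := by
    intro k hk
    rw [hA, mem_filter, mem_Icc] at hk
    obtain ⟨⟨hk1, hkK⟩, hkα⟩ := hk
    obtain ⟨c1, c2, c3, c4, c5, c6⟩ := h.ceil hkK
    have h1 := abs_le.1 (h.norm hkK)
    rw [hB, mem_filter]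
    by_cases hs : 0 ≤ Sk n k
    · have e : φ k = ⌈xs T t n k⌉₊ - 1 := if_pos hs
      rw [e]
      rw [abs_of_nonneg hs] at hkα
      refine ⟨hmem _ (c4.le.trans (h.xs_le hkK)), ?_⟩
      have h2 := h.up hkK
      have h3 := neg_le_abs (Dc T t ((⌈xs T t n k⌉₊ - 1 : ℕ) : ℝ))
      linarith
    · have e : φ k = ⌈xs T t n k⌉₊ := if_neg hs
      rw [e]
      push Not at hs
      rw [abs_of_neg hs] at hkα
      refine ⟨hmem _ c2, ?_⟩
      have h2 := h.low hkK
      have h3 := le_abs_self (Dc T t ((⌈xs T t n k⌉₊ : ℕ) : ℝ))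
      linarith
  have hnear : ∀ k ∈ A, |((φ k : ℕ) : ℝ) - k| < 5 * L := by
    intro k hk
    rw [hA, mem_filter, mem_Icc] at hk
    obtain ⟨⟨hk1, hkK⟩, hkα⟩ := hk
    obtain ⟨c1, c2, c3, c4, c5, c6⟩ := h.ceil hkK
    have h1 := abs_le.1 (h.xs_abs hkK)
    have h2 : (1 / Real.pi + 2 * ε) * L ≤ (1 / 3 + 2) * L :=
      mul_le_mul_of_nonneg_right (by linarith) (by linarith)
    by_cases hs : 0 ≤ Sk n k
    · have e : φ k = ⌈xs T t n k⌉₊ - 1 := if_pos hs
      rw [e, abs_lt]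
      constructor <;> linarith
    · have e : φ k = ⌈xs T t n k⌉₊ := if_neg hs
      rw [e, abs_lt]
      constructor <;> linarith
  have hcard := Finset.card_eq_sum_card_fiberwise (f := φ) (s := A) (t := B) hmaps
  have hfib : ∀ x ∈ B, ((((A.filter fun k => φ k = x).card : ℕ)) : ℝ) ≤ 15 * L := by
    intro x _
    have hsub : (A.filter fun k => φ k = x) ⊆ (Finset.Icc 1 K).filter fun y : ℕ => |(x : ℝ) - y| < 5 * L := by
      intro k hk
      rw [mem_filter] at hk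
      rw [mem_filter]
      refine ⟨(mem_filter.1 hk.1).1, ?_⟩
      have := hnear k hk.1
      rwa [hk.2] at this
    have h1 : ((((A.filter fun k => φ k = x).card : ℕ)) : ℝ) ≤
        ((((Finset.Icc 1 K).filter fun y : ℕ => |(x : ℝ) - y| < 5 * L).card : ℕ) : ℝ) := by
      exact_mod_cast Finset.card_le_card hsub
    have h2 := near_card x K (h := 5 * L) (by linarith)
    linarith
  rw [hcard, Nat.cast_sum]
  refine (Finset.sum_le_sum hfib).trans (le_of_eq ?_)
  rw [sum_const, nsmul_eq_mul, mul_comm]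

/-- thick points give thick sums: above -/
theorem Gd.thick_low1 (h : Gd T t ε K n) {α β : ℝ} (hα : 0 ≤ α)
    (hβ : α / Real.pi * Real.log K + 4 + ε * Real.log K ≤ β / Real.pi * Real.log K) :
    ((((Finset.Icc 1 ⌊(K : ℝ) / 2⌋₊).filter fun x : ℕ => β / Real.pi * Real.log K ≤
        -1 * Dc T t x).card : ℕ) : ℝ) ≤ 15 * Real.log K *
      ((((Finset.Icc 1 K).filter fun k : ℕ => α / Real.pi * Real.log K ≤ 1 * Sk n k).card : ℕ) : ℝ) := by
  classical
  set L := Real.log K with hL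
  have hL8 : 8 ≤ L := h.L
  have hLK := h.LK
  have hε0 := h.ε0
  have hε1 := h.ε1
  have hpi := Real.pi_pos
  have hpi3 := Gd.pi3
  have hεL : 0 ≤ ε * L := by positivity
  have hα0 : 0 ≤ α / Real.pi * L := by positivity
  have ha := h.sc_pos
  have hn1 := h.n1
  have hd1 := h.d1
  have hd2 := h.d2
  set A := (Finset.Icc 1 ⌊(K : ℝ) / 2⌋₊).filter fun x : ℕ => β / Real.pi * L ≤ -1 * Dc T t x with hA
  set B := (Finset.Icc 1 K).filter fun k : ℕ => α / Real.pi * L ≤ 1 * Sk n k with hB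
  set φ : ℕ → ℕ := fun x => SG.NZ (t + x / sc T) + 1 - n with hφ
  have hK0 : (0 : ℝ) ≤ K := Nat.cast_nonneg K
  have key : ∀ x ∈ A, φ x ∈ B ∧ |((φ x : ℕ) : ℝ) - x| < 5 * L := by
    intro x hx
    rw [hA, mem_filter, mem_Icc] at hx
    obtain ⟨⟨hx1, hxK⟩, hxβ⟩ := hx
    have hx1' : (1 : ℝ) ≤ x := by exact_mod_cast hx1
    have hxK' : (x : ℝ) ≤ K / 2 := (Nat.le_floor_iff (by positivity)).1 hxK
    have hnle : n ≤ SG.NZ (t + x / sc T) := by
      refine h.hi.trans (SG.NZ_mono ?_)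
      have : 1 / sc T ≤ x / sc T := div_le_div_of_nonneg_right hx1' ha.le
      linarith
    have hφx : ((φ x : ℕ) : ℝ) = SG.NZ (t + x / sc T) + 1 - n := by
      simp only [hφ]
      rw [Nat.cast_sub (by omega)]
      push_cast
      ring
    have hD : Dc T t x = (SG.NZ (t + x / sc T) : ℝ) - SG.NZ t - x := rfl
    have hDneg : Dc T t x ≤ 0 := by linarith
    have hDabs := abs_le.1 (h.g1 x (by linarith))
    have h43 : (1 / Real.pi + ε) * L ≤ (1 / 3 + 1) * L :=
      mul_le_mul_of_nonneg_right (by linarith) (by linarith)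
    have hεL1 : ε * L ≤ 1 * L := mul_le_mul_of_nonneg_right hε1 (by linarith)
    have hφ1 : 1 ≤ φ x := by simp only [hφ]; omega
    have hφK : φ x ≤ K := by
      have : ((φ x : ℕ) : ℝ) ≤ K := by rw [hφx]; linarith
      exact_mod_cast this
    have hnk : n + φ x = SG.NZ (t + x / sc T) + 1 := by simp only [hφ]; omega
    have hxs : (x : ℝ) < xs T t n (φ x) := by
      unfold xs
      rw [hnk]
      have h1 : ¬SG.ord (SG.NZ (t + x / sc T) + 1) ≤ t + x / sc T := fun h' => by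
        have := (SG.ord_le_iff (by omega) _).1 h'
        omega
      push Not at h1
      rw [mul_comm, ← div_lt_iff₀ ha]
      linarith
    have hSk := (abs_le.1 (h.norm hφK)).1
    refine ⟨?_, ?_⟩
    · rw [hB, mem_filter, mem_Icc]
      refine ⟨⟨hφ1, hφK⟩, ?_⟩
      linarith
    · rw [abs_lt, hφx]
      constructor <;> linarith [hDabs.1, hDabs.2]
  have hcard := Finset.card_eq_sum_card_fiberwise (f := φ) (s := A) (t := B) fun x hx => (key x hx).1
  have hfib : ∀ k ∈ B, ((((A.filter fun x => φ x = k).card : ℕ)) : ℝ) ≤ 15 * L := by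
    intro k _
    have hsub : (A.filter fun x => φ x = k) ⊆
        (Finset.Icc 1 ⌊(K : ℝ) / 2⌋₊).filter fun y : ℕ => |(k : ℝ) - y| < 5 * L := by
      intro x hx
      rw [mem_filter] at hx
      rw [mem_filter]
      refine ⟨(mem_filter.1 hx.1).1, ?_⟩
      have := (key x hx.1).2
      rwa [hx.2] at this
    have h1 : ((((A.filter fun x => φ x = k).card : ℕ)) : ℝ) ≤
        ((((Finset.Icc 1 ⌊(K : ℝ) / 2⌋₊).filter fun y : ℕ => |(k : ℝ) - y| < 5 * L).card : ℕ) : ℝ) := by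
      exact_mod_cast Finset.card_le_card hsub
    have h2 := near_card k ⌊(K : ℝ) / 2⌋₊ (h := 5 * L) (by linarith)
    linarith
  rw [hcard, Nat.cast_sum]
  refine (Finset.sum_le_sum hfib).trans (le_of_eq ?_)
  rw [sum_const, nsmul_eq_mul, mul_comm]

/-- thick points give thick sums: below -/
theorem Gd.thick_low2 (h : Gd T t ε K n) {α β : ℝ} (hα : 0 ≤ α)
    (hβ : α / Real.pi * Real.log K + 4 + ε * Real.log K ≤ β / Real.pi * Real.log K) :
    ((((Finset.Icc 1 ⌊(K : ℝ) / 2⌋₊).filter fun x : ℕ => β / Real.pi * Real.log K ≤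
        1 * Dc T t x).card : ℕ) : ℝ) ≤ 15 * Real.log K *
      ((((Finset.Icc 1 K).filter fun k : ℕ => α / Real.pi * Real.log K ≤ -1 * Sk n k).card : ℕ) : ℝ) := by
  classical
  set L := Real.log K with hL
  have hL8 : 8 ≤ L := h.L
  have hLK := h.LK
  have hε0 := h.ε0
  have hε1 := h.ε1
  have hpi := Real.pi_pos
  have hpi3 := Gd.pi3
  have hεL : 0 ≤ ε * L := by positivity
  have hα0 : 0 ≤ α / Real.pi * L := by positivity
  have ha := h.sc_pos
  have hn1 := h.n1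
  have hd1 := h.d1
  have hd2 := h.d2
  set A := (Finset.Icc 1 ⌊(K : ℝ) / 2⌋₊).filter fun x : ℕ => β / Real.pi * L ≤ 1 * Dc T t x with hA
  set B := (Finset.Icc 1 K).filter fun k : ℕ => α / Real.pi * L ≤ -1 * Sk n k with hB
  set φ : ℕ → ℕ := fun x => SG.NZ (t + x / sc T) - n with hφ
  have hK0 : (0 : ℝ) ≤ K := Nat.cast_nonneg K
  have key : ∀ x ∈ A, φ x ∈ B ∧ |((φ x : ℕ) : ℝ) - x| < 5 * L := by
    intro x hx
    rw [hA, mem_filter, mem_Icc] at hx
    obtain ⟨⟨hx1, hxK⟩, hxβ⟩ := hx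
    have hx1' : (1 : ℝ) ≤ x := by exact_mod_cast hx1
    have hxK' : (x : ℝ) ≤ K / 2 := (Nat.le_floor_iff (by positivity)).1 hxK
    have hnle : n ≤ SG.NZ (t + x / sc T) := by
      refine h.hi.trans (SG.NZ_mono ?_)
      have : 1 / sc T ≤ x / sc T := div_le_div_of_nonneg_right hx1' ha.le
      linarith
    have hφx : ((φ x : ℕ) : ℝ) = SG.NZ (t + x / sc T) - n := by
      simp only [hφ]
      rw [Nat.cast_sub hnle]
    have hD : Dc T t x = (SG.NZ (t + x / sc T) : ℝ) - SG.NZ t - x := rfl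
    have hDabs := abs_le.1 (h.g1 x (by linarith))
    have h43 : (1 / Real.pi + ε) * L ≤ (1 / 3 + 1) * L :=
      mul_le_mul_of_nonneg_right (by linarith) (by linarith)
    have hεL1 : ε * L ≤ 1 * L := mul_le_mul_of_nonneg_right hε1 (by linarith)
    have hφ1 : 1 ≤ φ x := by
      have : (0 : ℝ) < ((φ x : ℕ) : ℝ) := by rw [hφx]; linarith
      have h2 : 0 < φ x := by exact_mod_cast this
      exact h2
    have hφK : φ x ≤ K := by
      have : ((φ x : ℕ) : ℝ) ≤ K := by rw [hφx]; linarith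
      exact_mod_cast this
    have hnk : n + φ x = SG.NZ (t + x / sc T) := by simp only [hφ]; omega
    have hxs : xs T t n (φ x) ≤ x := by
      unfold xs
      rw [hnk]
      have h1 : SG.ord (SG.NZ (t + x / sc T)) ≤ t + x / sc T :=
        (SG.ord_le_iff (by omega) _).2 le_rfl
      rw [mul_comm, ← le_div_iff₀ ha]
      linarith
    have hSk := (abs_le.1 (h.norm hφK)).2
    refine ⟨?_, ?_⟩
    · rw [hB, mem_filter, mem_Icc]
      refine ⟨⟨hφ1, hφK⟩, ?_⟩
      linarith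
    · rw [abs_lt, hφx]
      constructor <;> linarith [hDabs.1, hDabs.2]
  have hcard := Finset.card_eq_sum_card_fiberwise (f := φ) (s := A) (t := B) fun x hx => (key x hx).1
  have hfib : ∀ k ∈ B, ((((A.filter fun x => φ x = k).card : ℕ)) : ℝ) ≤ 15 * L := by
    intro k _
    have hsub : (A.filter fun x => φ x = k) ⊆
        (Finset.Icc 1 ⌊(K : ℝ) / 2⌋₊).filter fun y : ℕ => |(k : ℝ) - y| < 5 * L := by
      intro x hx
      rw [mem_filter] at hx
      rw [mem_filter]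
      refine ⟨(mem_filter.1 hx.1).1, ?_⟩
      have := (key x hx.1).2
      rwa [hx.2] at this
    have h1 : ((((A.filter fun x => φ x = k).card : ℕ)) : ℝ) ≤
        ((((Finset.Icc 1 ⌊(K : ℝ) / 2⌋₊).filter fun y : ℕ => |(k : ℝ) - y| < 5 * L).card : ℕ) : ℝ) := by
      exact_mod_cast Finset.card_le_card hsub
    have h2 := near_card k ⌊(K : ℝ) / 2⌋₊ (h := 5 * L) (by linarith)
    linarith
  rw [hcard, Nat.cast_sum]
  refine (Finset.sum_le_sum hfib).trans (le_of_eq ?_)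
  rw [sum_const, nsmul_eq_mul, mul_comm]

end Pool.Agent.Q278.MX
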