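import Pool.Agent.Q278.MC.B
import Pool.Agent.Q278.GF.F

/-!
# From heights to zeros: one block, with a rate (helper278)
-/

set_option autoImplicit false

namespace Pool.Agent.Q278.MX

open Filter Topology Finset MeasureTheory
open Pool.Agent.Q278.MC
open Pool.Agent.Q278.GF (sc av av_D2 D Bd bd_D bd_D2 bd_N)

lemma bd_mu {T : ℝ} (hT : 1 ≤ T) {f : ℝ → ℝ} (h : Bd (2 * T) f) : Integrable f (mu T) := by
  have h2 := two_log_le hT
  have hl := Real.log_nonneg hT
  obtain ⟨m, C, hC⟩ := h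
  unfold mu
  refine Integrable.smul_measure ?_ ENNReal.ofReal_ne_top
  refine Measure.integrableOn_of_bounded (M := C) (by simp) m.aestronglyMeasurable ?_
  rw [ae_restrict_iff' measurableSet_Ioc]
  refine Eventually.of_forall fun t ht => hC t ⟨?_, ?_⟩
  · linarith [ht.1]
  · linarith [ht.2]

lemma mu_av {T : ℝ} (hT : 1 ≤ T) {f : ℝ → ℝ} (h : Bd (2 * T) f) (h0 : ∀ t, 0 ≤ f t) :
    ∫ t, f t ∂(mu T) ≤ av (2 * T) f := by
  have h2 := two_log_le hT
  have hl := Real.log_nonneg hT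
  have hi := h.int (by linarith : 0 < 2 * T)
  rw [mu_int hT, smul_eq_mul]
  unfold av
  have e : 2 / (2 * T) = 1 / T := by field_simp
  rw [e]
  refine mul_le_mul_of_nonneg_left ?_ (by positivity)
  exact intervalIntegral.integral_mono_interval (by linarith) (by linarith) (by linarith)
    (Eventually.of_forall h0) hi

/-- the number of zeros of a window -/
noncomputable def Fw (T t : ℝ) : ℝ := (SG.NZ (t + 1 / sc T) : ℝ) - SG.NZ t

lemma Fw_sq : ∃ C : ℝ, 1 ≤ C ∧ ∀ᶠ T : ℝ in atTop, Integrable (fun t => Fw T t ^ 2) (mu T) ∧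
    ∫ t, Fw T t ^ 2 ∂(mu T) ≤ C := by
  obtain ⟨C, hC, h⟩ := av_D2
  have h2 := h 2 (by norm_num)
  have h3 : Tendsto (fun T : ℝ => 2 * T) atTop atTop := tendsto_id.const_mul_atTop (by norm_num)
  have hl2 : 0 ≤ Real.log 2 := Real.log_nonneg (by norm_num)
  refine ⟨2 * (C * (1 + Real.log 2)) + 8, by nlinarith [mul_nonneg hC.le hl2], ?_⟩
  filter_upwards [h3.eventually h2, eventually_ge_atTop 8] with T hT hT8
  have hT1 : 1 ≤ T := by linarith
  have hlT : 0 < Real.log T := Real.log_pos (by linarith)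
  have hl2T : Real.log (2 * T) = Real.log 2 + Real.log T := Real.log_mul (by norm_num) (by linarith)
  have hl2T' : Real.log 2 ≤ Real.log T := Real.log_le_log (by norm_num) (by linarith)
  have hpi := Real.pi_pos
  have hFm : Measurable (Fw T) := by
    have h5 := Pool.Agent.Q278.GF.meas_N (1 / sc T)
    have h6 := Pool.Agent.Q278.GF.meas_N 0
    simp only [add_zero] at h6
    exact h5.sub h6
  have hF0 : ∀ t, 0 ≤ Fw T t := by
    intro t
    have h5 : 0 ≤ 1 / sc T := by unfold sc; positivity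
    have : (SG.NZ t : ℝ) ≤ SG.NZ (t + 1 / sc T) := by exact_mod_cast SG.NZ_mono (by linarith)
    unfold Fw
    linarith
  have hbd : Bd (2 * T) fun t => Fw T t ^ 2 := by
    have h5 := (bd_N (2 * T) (1 / sc T)).add ((bd_N (2 * T) 0).cmul (-1))
    have h6 := h5.mul h5
    have e : (fun t => Fw T t ^ 2) = fun t => ((SG.NZ (t + 1 / sc T) : ℝ) + -1 * (SG.NZ (t + 0) : ℝ)) *
        ((SG.NZ (t + 1 / sc T) : ℝ) + -1 * (SG.NZ (t + 0) : ℝ)) := by
      funext t
      unfold Fw
      rw [add_zero]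
      ring
    rw [e]
    exact h6
  refine ⟨bd_mu hT1 hbd, ?_⟩
  have hle : ∀ t, Fw T t ^ 2 ≤ 2 * D SG.NZ (sc (2 * T)) t (2 : ℕ) ^ 2 + 8 := by
    intro t
    have h5 : 1 / sc T ≤ (2 : ℕ) / sc (2 * T) := by
      unfold sc
      rw [hl2T]
      push_cast
      rw [div_le_div_iff₀ (by positivity) (by positivity), one_mul, ← mul_div_assoc,
        div_le_div_iff_of_pos_right (by positivity)]
      linarith
    have h6 : (SG.NZ (t + 1 / sc T) : ℝ) ≤ SG.NZ (t + (2 : ℕ) / sc (2 * T)) := by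
      exact_mod_cast SG.NZ_mono (by linarith)
    have h7 : Fw T t ≤ D SG.NZ (sc (2 * T)) t (2 : ℕ) + 2 := by
      unfold Fw D
      push_cast at h6 ⊢
      linarith
    have h8 := hF0 t
    nlinarith [sq_nonneg (D SG.NZ (sc (2 * T)) t (2 : ℕ) - 2)]
  have hbd2 : Bd (2 * T) fun t => 2 * D SG.NZ (sc (2 * T)) t (2 : ℕ) ^ 2 + 8 :=
    ((bd_D2 (2 * T) _ _).cmul 2).add (Bd.const _ 8)
  refine (integral_mono (bd_mu hT1 hbd) (bd_mu hT1 hbd2) hle).trans ?_
  refine (mu_av hT1 hbd2 fun t => by positivity).trans ?_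
  have hT2 : (0 : ℝ) < 2 * T := by linarith
  have e1 : av (2 * T) (fun t => 2 * D SG.NZ (sc (2 * T)) t (2 : ℕ) ^ 2 + 8) =
      2 * av (2 * T) (fun t => D SG.NZ (sc (2 * T)) t (2 : ℕ) ^ 2) + 8 := by
    rw [Pool.Agent.Q278.GF.av_add hT2 ((bd_D2 (2 * T) _ _).cmul 2) (Bd.const _ 8),
      Pool.Agent.Q278.GF.av_cmul, Pool.Agent.Q278.GF.av_const hT2]
  rw [e1]
  have : ((2 : ℕ) : ℝ) = 2 := by norm_num
  rw [this] at hT ⊢
  linarith

/-- the number of zeros of a longer window -/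
lemma win_count : ∃ C T0 : ℝ, 0 < C ∧ 20 ≤ T0 ∧ ∀ (h : ℕ) (T : ℝ), T0 ≤ T →
    (SG.NZ (T + h) : ℝ) - SG.NZ T ≤ h * (C * Real.log (T + h) ^ 2) := by
  obtain ⟨C, T0, hC, hT0, h⟩ := Pool.Agent.Q276.NV.end_count
  refine ⟨C, T0, hC, hT0, fun k => ?_⟩
  induction k with
  | zero => intro T hT; simp
  | succ k ih =>
    intro T hT
    have h1 := ih T hT
    have hk : (0 : ℝ) ≤ k := Nat.cast_nonneg k
    have h2 := h (T + k) (by linarith)
    have h3 : (SG.NZ (T + k - 2) : ℝ) ≤ SG.NZ (T + k) := by exact_mod_cast SG.NZ_mono (by linarith)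
    have e : T + ((k + 1 : ℕ) : ℝ) = T + k + 1 := by push_cast; ring
    rw [e]
    have hl0 : 0 ≤ Real.log (T + k) := Real.log_nonneg (by linarith)
    have hl : Real.log (T + k) ≤ Real.log (T + k + 1) := Real.log_le_log (by linarith) (by linarith)
    have h4 : C * Real.log (T + k) ^ 2 ≤ C * Real.log (T + k + 1) ^ 2 := by gcongr
    have h5 : (k : ℝ) * (C * Real.log (T + k) ^ 2) ≤ k * (C * Real.log (T + k + 1) ^ 2) :=
      mul_le_mul_of_nonneg_left h4 hk
    push_cast
    have e2 : ((k : ℝ) + 1) * (C * Real.log (T + k + 1) ^ 2) =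
      k * (C * Real.log (T + k + 1) ^ 2) + C * Real.log (T + k + 1) ^ 2 := by ring
    rw [e2]
    linarith

/-- **one block** -/
theorem block_n : ∃ C T0 : ℝ, 1 ≤ C ∧ 20 ≤ T0 ∧ ∀ T : ℝ, T0 ≤ T → ∀ (bad : Set ℝ) (q : ℝ), 0 < q →
    (mu T).real bad ≤ q ^ 2 → ∀ P : ℕ → Prop, [DecidablePred P] →
    (∀ t : ℝ, T + Real.log T ≤ t → t ≤ 2 * T - Real.log T → t ∉ bad →
      ∀ n : ℕ, SG.NZ t < n → n ≤ SG.NZ (t + 1 / sc T) → P n) →
    ((((Finset.Ioc (SG.NZ T) (SG.NZ (2 * T))).filter fun n => ¬P n).card : ℕ) : ℝ) ≤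
      C * T * Real.log T * q + C * Real.log T ^ 3 := by
  classical
  obtain ⟨C1, hC1, hF⟩ := Fw_sq
  obtain ⟨C2, T2, hC2, hT2, hwin⟩ := win_count
  obtain ⟨T1, hT1⟩ := eventually_atTop.1 hF
  refine ⟨1 + C1 + 24 * C2, max (max T1 T2) 40, by linarith, (by norm_num : (20 : ℝ) ≤ 40).trans
    (le_max_right _ _), fun T hT bad q hq hbad P _ hP => ?_⟩
  have hTT1 : T1 ≤ T := ((le_max_left _ _).trans (le_max_left _ _)).trans hT
  have hTT2 : T2 ≤ T := ((le_max_right _ _).trans (le_max_left _ _)).trans hT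
  have hT40 : 40 ≤ T := (le_max_right _ _).trans hT
  obtain ⟨F1, F2⟩ := hT1 T hTT1
  have h1T : 1 ≤ T := by linarith
  have hT0 : 0 < T := by linarith
  have hlT3 : 3 ≤ Real.log T := by
    rw [Real.le_log_iff_exp_le hT0]
    have h1 : Real.exp 3 = Real.exp 1 ^ 3 := by rw [← Real.exp_nat_mul]; norm_num
    rw [h1]
    have h2 := Real.exp_one_lt_d9
    have h3 := Real.exp_pos 1
    have h4 : Real.exp 1 ^ 3 ≤ 2.7182818286 ^ 3 := pow_le_pow_left₀ h3.le h2.le 3
    norm_num at h4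
    linarith
  have h2l := two_log_le h1T
  have hpi := Real.pi_pos
  have hpi3 := Real.pi_gt_three
  have hsc : sc T = Real.log T / (2 * Real.pi) := rfl
  have ha : 0 < sc T := by rw [hsc]; positivity
  have ha1 : sc T ≤ Real.log T := by
    rw [hsc, div_le_iff₀ (by positivity)]
    nlinarith
  set w := Real.log T with hw
  haveI := mu_fin T
  -- the inner part
  set R : Finset ℕ := (Finset.Ioc (SG.NZ T) (SG.NZ (2 * T))).filter fun n => ¬P n with hR
  set A : Finset ℕ := R.filter fun n => T + w + 1 / sc T ≤ SG.ord n ∧ SG.ord n ≤ 2 * T - w with hA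
  set B : Set ℝ := toMeasurable (mu T) bad with hB
  have hBm : MeasurableSet B := measurableSet_toMeasurable _ _
  have hBr : (mu T).real B ≤ q ^ 2 := by
    rw [measureReal_def, hB, measure_toMeasurable]
    exact hbad
  have hAmem : ∀ n ∈ A, 1 ≤ n ∧ ¬P n ∧ T + w + 1 / sc T ≤ SG.ord n ∧ SG.ord n ≤ 2 * T - w := by
    intro n hn
    rw [hA, mem_filter, hR, mem_filter, mem_Ioc] at hn
    exact ⟨by omega, hn.1.2, hn.2.1, hn.2.2⟩
  have hIB : ∀ n ∈ A, ∀ t ∈ Set.Ioo (SG.ord n - 1 / sc T) (SG.ord n),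
      t ∈ B ∧ n ∈ Finset.Ioc (SG.NZ t) (SG.NZ (t + 1 / sc T)) := by
    intro n hn t ht
    obtain ⟨a1, a2, a3, a4⟩ := hAmem n hn
    have b1 : SG.NZ t < n := by
      by_contra hc
      push Not at hc
      have := (SG.ord_le_iff a1 _).2 hc
      linarith [ht.2]
    have b2 : n ≤ SG.NZ (t + 1 / sc T) := (SG.ord_le_iff a1 _).1 (by linarith [ht.1])
    refine ⟨?_, mem_Ioc.2 ⟨b1, b2⟩⟩
    apply subset_toMeasurable
    by_contra hc
    exact a2 (hP t (by linarith [ht.1]) (by linarith [ht.2]) hc n b1 b2)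
  have hms : ∀ n ∈ A, (mu T).real (Set.Ioo (SG.ord n - 1 / sc T) (SG.ord n)) = 1 / (sc T * T) := by
    intro n hn
    obtain ⟨a1, a2, a3, a4⟩ := hAmem n hn
    unfold mu
    rw [measureReal_def, Measure.smul_apply, Measure.restrict_apply measurableSet_Ioo,
      Set.inter_eq_left.2, Real.volume_Ioo, smul_eq_mul, ENNReal.toReal_mul,
      ENNReal.toReal_ofReal (by positivity), ENNReal.toReal_ofReal (by
        have : 0 ≤ 1 / sc T := by positivity
        linarith)]
    · rw [sub_sub_cancel]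
      field_simp
    · intro t ht
      exact ⟨by linarith [ht.1], by linarith [ht.2]⟩
  have hint : ∀ n ∈ A, Integrable ((Set.Ioo (SG.ord n - 1 / sc T) (SG.ord n)).indicator
      fun _ => (1 : ℝ)) (mu T) := fun n _ => (integrable_const 1).indicator measurableSet_Ioo
  have hcard : (A.card : ℝ) * (1 / (sc T * T)) ≤ (1 + C1) * q := by
    have e1 : (A.card : ℝ) * (1 / (sc T * T)) = ∫ t, ∑ n ∈ A,
        (Set.Ioo (SG.ord n - 1 / sc T) (SG.ord n)).indicator (fun _ => (1 : ℝ)) t ∂(mu T) := by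
      rw [integral_finsetSum _ hint]
      have : ∀ n ∈ A, ∫ t, (Set.Ioo (SG.ord n - 1 / sc T) (SG.ord n)).indicator (fun _ => (1 : ℝ)) t
          ∂(mu T) = 1 / (sc T * T) := by
        intro n hn
        rw [integral_indicator_const _ measurableSet_Ioo, smul_eq_mul, mul_one, hms n hn]
      rw [Finset.sum_congr rfl this, sum_const, nsmul_eq_mul]
    rw [e1]
    have hpt : ∀ t, ∑ n ∈ A, (Set.Ioo (SG.ord n - 1 / sc T) (SG.ord n)).indicator
        (fun _ => (1 : ℝ)) t ≤ B.indicator (fun _ => (1 / q)) t + q * Fw T t ^ 2 := by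
      intro t
      have hF0 : 0 ≤ q * Fw T t ^ 2 := by positivity
      by_cases ht : t ∈ B
      · rw [Set.indicator_of_mem ht]
        have h1 : ∑ n ∈ A, (Set.Ioo (SG.ord n - 1 / sc T) (SG.ord n)).indicator (fun _ => (1 : ℝ)) t ≤
            Fw T t := by
          simp only [Set.indicator_apply]
          rw [Finset.sum_ite, Finset.sum_const_zero, add_zero, sum_const, nsmul_eq_mul, mul_one]
          have hsub : (A.filter fun n => t ∈ Set.Ioo (SG.ord n - 1 / sc T) (SG.ord n)) ⊆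
              Finset.Ioc (SG.NZ t) (SG.NZ (t + 1 / sc T)) := by
            intro n hn
            rw [mem_filter] at hn
            exact (hIB n hn.1 t hn.2).2
          have h2 := Finset.card_le_card hsub
          rw [Nat.card_Ioc] at h2
          have h3 : SG.NZ t ≤ SG.NZ (t + 1 / sc T) := by
            have : 0 ≤ 1 / sc T := by positivity
            exact SG.NZ_mono (by linarith)
          have h4 : (((A.filter fun n => t ∈ Set.Ioo (SG.ord n - 1 / sc T) (SG.ord n)).card : ℕ) : ℝ) ≤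
              ((SG.NZ (t + 1 / sc T) - SG.NZ t : ℕ) : ℝ) := by exact_mod_cast h2
          rw [Nat.cast_sub h3] at h4
          exact h4
        refine h1.trans ?_
        have h5 : Fw T t ≤ 1 / q + q * Fw T t ^ 2 := by
          have h6 : 0 ≤ (1 / q) * (q * Fw T t - 1) ^ 2 := by positivity
          have h7 : (1 / q) * (q * Fw T t - 1) ^ 2 = q * Fw T t ^ 2 - 2 * Fw T t + 1 / q := by
            field_simp
            ring
          rw [h7] at h6
          have h8 : 0 ≤ 1 / q + q * Fw T t ^ 2 := by positivity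
          linarith
        exact h5
      · rw [Set.indicator_of_notMem ht, zero_add]
        have h1 : ∑ n ∈ A, (Set.Ioo (SG.ord n - 1 / sc T) (SG.ord n)).indicator (fun _ => (1 : ℝ)) t = 0 := by
          apply Finset.sum_eq_zero
          intro n hn
          rw [Set.indicator_of_notMem]
          intro h
          exact ht (hIB n hn t h).1
        rw [h1]
        exact hF0
    have i1 : Integrable (B.indicator fun _ => (1 / q)) (mu T) := (integrable_const _).indicator hBm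
    have i2 : Integrable (fun t => q * Fw T t ^ 2) (mu T) := F1.const_mul q
    have i3 : Integrable (fun t => B.indicator (fun _ => (1 / q)) t + q * Fw T t ^ 2) (mu T) := i1.add i2
    refine (integral_mono (integrable_finsetSum _ hint) i3 hpt).trans ?_
    rw [integral_add i1 i2, integral_indicator_const _ hBm, integral_const_mul, smul_eq_mul]
    have h9 : (mu T).real B * (1 / q) ≤ q := by
      rw [mul_one_div, div_le_iff₀ hq]
      calc _ ≤ q ^ 2 := hBr
        _ = _ := sq q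
    have h10 : q * ∫ t, Fw T t ^ 2 ∂(mu T) ≤ q * C1 := mul_le_mul_of_nonneg_left F2 hq.le
    linarith
  have hA' : (A.card : ℝ) ≤ (1 + C1) * T * w * q := by
    have h1 : 0 < sc T * T := by positivity
    rw [mul_one_div, div_le_iff₀ h1] at hcard
    refine hcard.trans ?_
    have h2 : 0 ≤ (1 + C1) * q * T := by positivity
    calc (1 + C1) * q * (sc T * T) = (1 + C1) * q * T * sc T := by ring
      _ ≤ (1 + C1) * q * T * w := mul_le_mul_of_nonneg_left ha1 h2
      _ = _ := by ring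
  -- the edges
  have hinv : 1 / sc T ≤ 3 := by
    rw [hsc, one_div_div, div_le_iff₀ (by linarith)]
    have := Real.pi_lt_four
    linarith
  set h : ℕ := ⌈w + 3⌉₊ with hh
  have hh1 : w + 3 ≤ h := Nat.le_ceil _
  have hh2 : (h : ℝ) ≤ w + 4 := by
    have := Nat.ceil_lt_add_one (show 0 ≤ w + 3 by linarith)
    linarith
  have hh3 : (h : ℝ) ≤ 3 * w := by linarith
  have hlog : ∀ u : ℝ, 1 ≤ u → u ≤ T * T → Real.log u ^ 2 ≤ 4 * w ^ 2 := by
    intro u hu1 hu
    have h1 : Real.log u ≤ 2 * w := by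
      have := Real.log_le_log (by linarith) hu
      rw [Real.log_mul hT0.ne' hT0.ne'] at this
      linarith
    have h2 : 0 ≤ Real.log u := Real.log_nonneg hu1
    nlinarith
  have hT40' : 40 * T ≤ T * T := mul_le_mul_of_nonneg_right hT40 hT0.le
  have hE1 : (SG.NZ (T + h) : ℝ) - SG.NZ T ≤ 12 * C2 * w ^ 3 := by
    refine (hwin h T hTT2).trans ?_
    have h1 := hlog (T + h) (by linarith) (by linarith)
    calc (h : ℝ) * (C2 * Real.log (T + h) ^ 2) ≤ 3 * w * (C2 * (4 * w ^ 2)) := by gcongr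
      _ = _ := by ring
  have hE2 : (SG.NZ (2 * T) : ℝ) - SG.NZ (2 * T - h) ≤ 12 * C2 * w ^ 3 := by
    have h0 := hwin h (2 * T - h) (by linarith)
    rw [sub_add_cancel] at h0
    refine h0.trans ?_
    have h1 := hlog (2 * T) (by linarith) (by linarith)
    calc (h : ℝ) * (C2 * Real.log (2 * T) ^ 2) ≤ 3 * w * (C2 * (4 * w ^ 2)) := by gcongr
      _ = _ := by ring
  have hRsub : R ⊆ A ∪ (Finset.Ioc (SG.NZ T) (SG.NZ (T + h)) ∪
      Finset.Ioc (SG.NZ (2 * T - h)) (SG.NZ (2 * T))) := by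
    intro n hn
    have hn' := hn
    rw [hR, mem_filter, mem_Ioc] at hn'
    obtain ⟨⟨n1, n2⟩, n3⟩ := hn'
    have hn1 : 1 ≤ n := by omega
    rw [mem_union, mem_union]
    by_cases h1 : T + w + 1 / sc T ≤ SG.ord n
    · by_cases h2 : SG.ord n ≤ 2 * T - w
      · exact Or.inl (by rw [hA, mem_filter]; exact ⟨hn, h1, h2⟩)
      · refine Or.inr (Or.inr (mem_Ioc.2 ⟨?_, n2⟩))
        by_contra hc
        push Not at hc h2
        have := (SG.ord_le_iff hn1 _).2 hc
        linarith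
    · refine Or.inr (Or.inl (mem_Ioc.2 ⟨n1, ?_⟩))
      push Not at h1
      exact (SG.ord_le_iff hn1 _).1 (by linarith)
  have hRc := (Finset.card_le_card hRsub).trans ((Finset.card_union_le _ _).trans
    (Nat.add_le_add_left (Finset.card_union_le _ _) _))
  rw [Nat.card_Ioc, Nat.card_Ioc] at hRc
  have m1 : SG.NZ T ≤ SG.NZ (T + h) := SG.NZ_mono (by linarith)
  have m2 : SG.NZ (2 * T - h) ≤ SG.NZ (2 * T) := SG.NZ_mono (by linarith)
  have hRc' : (R.card : ℝ) ≤ A.card + (((SG.NZ (T + h) - SG.NZ T : ℕ) : ℝ) +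
      ((SG.NZ (2 * T) - SG.NZ (2 * T - h) : ℕ) : ℝ)) := by exact_mod_cast hRc
  rw [Nat.cast_sub m1, Nat.cast_sub m2] at hRc'
  have f1 : (1 + C1) * T * w * q ≤ (1 + C1 + 24 * C2) * T * w * q := by
    have : 0 ≤ 24 * C2 * T * w * q := by positivity
    nlinarith
  have f2 : 24 * C2 * w ^ 3 ≤ (1 + C1 + 24 * C2) * w ^ 3 := by
    have : 0 ≤ (1 + C1) * w ^ 3 := by positivity
    nlinarith
  linarith

end Pool.Agent.Q278.MX
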