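import Pool.Agent.Q278.MX.AD

/-!
# From the dyadic blocks to all the zeros, with a rate (helper278)
-/

set_option autoImplicit false

namespace Pool.Agent.Q278.MX

open Filter Topology Finset MeasureTheory
open Pool.Agent.Q278.MC
open Pool.Agent.Q278.GF (sc)

lemma NZ_size : ∃ T0 : ℝ, 20 ≤ T0 ∧ ∀ T : ℝ, T0 ≤ T → (SG.NZ T : ℝ) ≤ T * Real.log T ∧
    T * Real.log T ≤ 40 * SG.NZ (T - 1) := by
  have h1 := Pool.Agent.Q276.NV.NZ_lim
  have a1 : Tendsto (fun T : ℝ => T - 1) atTop atTop := tendsto_atTop_add_const_right _ _ tendsto_id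
  obtain ⟨T1, hT1⟩ := ((h1.eventually_le_const (u := 2) (by norm_num)).and
    ((h1.comp a1).eventually_const_le (u := 1 / 2) (by norm_num))).exists_forall_of_atTop
  refine ⟨max T1 20, le_max_right _ _, fun T hT => ?_⟩
  obtain ⟨g1, g2⟩ := hT1 T ((le_max_left _ _).trans hT)
  have hT20 : 20 ≤ T := (le_max_right _ _).trans hT
  have hpi := Real.pi_pos
  have hpi3 := Real.pi_gt_three
  have hpi4 := Real.pi_lt_d2
  have hl : 0 < Real.log T := Real.log_pos (by linarith)
  have hl1 : 0 < Real.log (T - 1) := Real.log_pos (by linarith)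
  simp only [Function.comp_apply, Pool.Agent.Q278.GF.Xf_eq] at g1 g2
  constructor
  · rw [div_le_iff₀ (by unfold sc; positivity)] at g1
    refine g1.trans ?_
    unfold sc
    rw [mul_div_assoc', mul_div_assoc', div_le_iff₀ (by positivity)]
    have : 0 < T * Real.log T := by positivity
    nlinarith
  · rw [le_div_iff₀ (by unfold sc; have : 0 < T - 1 := by linarith
                        positivity)] at g2
    unfold sc at g2
    have h2 : Real.log T ≤ 3 / 2 * Real.log (T - 1) := by
      have h3 : T ≤ (T - 1) * (T - 1) := by nlinarith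
      have h4 : Real.log T ≤ 2 * Real.log (T - 1) := by
        have := Real.log_le_log (by linarith) h3
        rw [Real.log_mul (by linarith) (by linarith)] at this
        linarith
      have h5 : Real.log T - Real.log (T - 1) ≤ 1 / 19 := by
        rw [← Real.log_div (by linarith) (by linarith)]
        have h6 := Real.log_le_sub_one_of_pos (show 0 < T / (T - 1) by
          apply div_pos <;> linarith)
        have h7 : T / (T - 1) - 1 ≤ 1 / 19 := by
          rw [div_sub_one (by linarith), div_le_div_iff₀ (by linarith) (by norm_num)]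
          linarith
        linarith
      have h8 : 1 ≤ Real.log (T - 1) := by
        rw [Real.le_log_iff_exp_le (by linarith)]
        have := Real.exp_one_lt_d9
        linarith
      linarith
    have h3 : T ≤ 20 / 19 * (T - 1) := by linarith
    have h4 : T * Real.log T ≤ (20 / 19 * (T - 1)) * (3 / 2 * Real.log (T - 1)) :=
      mul_le_mul h3 h2 hl.le (by linarith)
    have h5 : (T - 1) * Real.log (T - 1) ≤ 25.2 / 2 * SG.NZ (T - 1) := by
      have e : 1 / 2 * ((T - 1) * (Real.log (T - 1) / (2 * Real.pi))) =
        ((T - 1) * Real.log (T - 1)) / (4 * Real.pi) := by field_simp; ring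
      rw [e, div_le_iff₀ (by positivity)] at g2
      have h6 : (0 : ℝ) ≤ SG.NZ (T - 1) := Nat.cast_nonneg _
      nlinarith
    have h7 : (0 : ℝ) ≤ SG.NZ (T - 1) := Nat.cast_nonneg _
    nlinarith

/-- **all the zeros** -/
theorem all_n : ∀ c : ℝ, 0 < c → c ≤ 2 → ∃ K0 : ℝ, 8 ≤ K0 ∧ ∀ K : ℝ, K0 ≤ K → ∀ (P : ℕ → Prop)
    [DecidablePred P], (∀ T : ℝ, 1 ≤ T → (4 * K) ^ 3 ≤ Real.log T → ∃ bad : Set ℝ,
      (mu T).real bad ≤ K ^ (-c) ∧ ∀ t : ℝ, T + Real.log T ≤ t → t ≤ 2 * T - Real.log T → t ∉ bad →
      ∀ n : ℕ, SG.NZ t < n → n ≤ SG.NZ (t + 1 / sc T) → P n) → ∀ N : ℕ, K ^ 4 ≤ Real.log N →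
    ((((Finset.Icc 1 N).filter fun n => ¬P n).card : ℕ) : ℝ) ≤ N * K ^ (-(c / 4)) := by
  classical
  obtain ⟨C, T0, hC, hT0, hblock⟩ := block_n
  obtain ⟨T1, hT1, hsize⟩ := NZ_size
  intro c hc hc2
  obtain ⟨K1, hK1⟩ := (((tendsto_rpow_atTop (show 0 < c / 4 by positivity)).eventually_ge_atTop
    (80 * C + 1)).and (eventually_ge_atTop (max (max T0 T1) 1000))).exists_forall_of_atTop
  refine ⟨max K1 8, le_max_right _ _, fun K hK P _ hP N hN => ?_⟩
  obtain ⟨g1, g2⟩ := hK1 K ((le_max_left _ _).trans hK)
  have hKT0 : T0 ≤ K := ((le_max_left _ _).trans (le_max_left _ _)).trans g2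
  have hKT1 : T1 ≤ K := ((le_max_right _ _).trans (le_max_left _ _)).trans g2
  have hK1000 : 1000 ≤ K := (le_max_right _ _).trans g2
  have hK0 : 0 < K := by linarith
  set q : ℝ := K ^ (-(c / 2)) with hq
  have hq0 : 0 < q := Real.rpow_pos_of_pos hK0 _
  have hq2 : K ^ (-c) = q ^ 2 := by
    rw [hq, ← Real.rpow_natCast, ← Real.rpow_mul hK0.le]
    congr 1
    push_cast
    ring
  have hqK : K⁻¹ ≤ q := by
    rw [hq, ← Real.rpow_neg_one]
    exact Real.rpow_le_rpow_of_exponent_le (by linarith) (by linarith)
  -- one block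
  have hg : ∀ T : ℝ, (4 * K) ^ 3 ≤ Real.log T → 1 ≤ T →
      ((((Finset.Ioc (SG.NZ T) (SG.NZ (2 * T))).filter fun n => ¬P n).card : ℕ) : ℝ) ≤
        2 * C * T * Real.log T * q := by
    intro T hT hT1'
    obtain ⟨bad, hb1, hb2⟩ := hP T hT1' hT
    rw [hq2] at hb1
    have hT0' : 0 < T := by linarith
    have hKK : K ≤ (4 * K) ^ 3 := by nlinarith [mul_pos hK0 hK0]
    have hTK : Real.log T ≤ T := by
      have := Real.log_le_sub_one_of_pos hT0'
      linarith
    have h1 := hblock T (by linarith) bad q hq0 hb1 P hb2
    have h2 : Real.log T ^ 3 ≤ T * Real.log T * q := by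
      set w := Real.log T with hw
      have hw0 : 0 < w := by nlinarith
      have hw1 : K ≤ w := hKK.trans hT
      have h3 : w ^ 3 ≤ T := by
        have h4 : w ^ 3 ≤ Real.exp w := by
          have h5 : w / 4 ≤ Real.exp (w / 4) := by
            have := Real.add_one_le_exp (w / 4)
            linarith
          have h6 : Real.exp w = Real.exp (w / 4) ^ 4 := by
            rw [← Real.exp_nat_mul]; congr 1; push_cast; ring
          rw [h6]
          have h7 := pow_le_pow_left₀ (by positivity) h5 4
          refine le_trans ?_ h7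
          have h8 : (w / 4) ^ 4 = w ^ 3 * (w / 256) := by ring
          rw [h8]
          exact le_mul_of_one_le_right (by positivity) (by linarith)
        rwa [hw, Real.exp_log hT0'] at h4
      have h4 : w⁻¹ ≤ q := (inv_anti₀ hK0 hw1).trans hqK
      calc w ^ 3 ≤ T := h3
        _ = T * w * w⁻¹ := by field_simp
        _ ≤ _ := mul_le_mul_of_nonneg_left h4 (by positivity)
    have h3 : C * Real.log T ^ 3 ≤ C * (T * Real.log T * q) := mul_le_mul_of_nonneg_left h2 (by linarith)
    linarith
  -- the dyadic induction
  set Tm : ℝ := 2 * Real.exp ((4 * K) ^ 3) with hTm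
  have hTm0 : 0 < Tm := by positivity
  set Ts : ℝ := SG.ord N with hTs
  have hcount : ∀ k : ℕ, ∀ T : ℝ, T < 2 ^ k * Tm → 0 < T → T ≤ Ts →
      ((((Finset.Ioc 0 (SG.NZ T)).filter fun n => ¬P n).card : ℕ) : ℝ) ≤
        2 * C * Real.log Ts * q * T + SG.NZ Tm := by
    intro k
    induction k with
    | zero =>
      intro T hT hT0' hTTs
      rw [pow_zero, one_mul] at hT
      have h1 : (((Finset.Ioc 0 (SG.NZ T)).filter fun n => ¬P n).card : ℕ) ≤ SG.NZ T := by
        refine (Finset.card_filter_le _ _).trans ?_
        rw [Nat.card_Ioc, Nat.sub_zero]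
      have h2 : (SG.NZ T : ℝ) ≤ SG.NZ Tm := by exact_mod_cast SG.NZ_mono hT.le
      have h3 : ((((Finset.Ioc 0 (SG.NZ T)).filter fun n => ¬P n).card : ℕ) : ℝ) ≤ SG.NZ T := by
        exact_mod_cast h1
      rcases le_or_gt 1 Ts with h | h
      · have : 0 ≤ 2 * C * Real.log Ts * q * T := by
          have := Real.log_nonneg h
          positivity
        linarith
      · have h4 : SG.NZ T = 0 := by
          by_contra hne
          have h5 : 1 ≤ SG.NZ T := Nat.one_le_iff_ne_zero.2 hne
          have h6 := SG.NZ_mono (show T ≤ Ts from hTTs)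
          have h7 : (4 : ℝ) ≤ Ts := by
            exfalso
            have hN1 : 1 ≤ N := by
              by_contra h0
              have : N = 0 := by omega
              rw [this] at hN
              simp at hN
              have : 0 < K ^ 4 := by positivity
              linarith
            have h8 := hsize (K + Ts) 
            have hbig : (N : ℝ) ≤ SG.NZ 20 := by
              have h9 : SG.ord N ≤ 20 := by linarith
              exact_mod_cast (SG.ord_le_iff hN1 _).1 h9
            have h10 : (SG.NZ 20 : ℝ) ≤ SG.NZ (max T1 20) := by exact_mod_cast SG.NZ_mono (le_max_right _ _)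
            have h11 := (hsize (max T1 20) (le_max_left _ _)).1
            have h12 : max T1 20 ≤ K := max_le hKT1 (by linarith)
            have h13 : max T1 20 * Real.log (max T1 20) ≤ K * K := by
              have h14 : Real.log (max T1 20) ≤ K := by
                have := Real.log_le_sub_one_of_pos (show 0 < max T1 20 by positivity)
                linarith
              exact mul_le_mul h12 h14 (Real.log_nonneg (by
                have := le_max_right T1 (20 : ℝ)
                linarith)) hK0.le
            have h15 : (N : ℝ) ≤ K * K := by linarith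
            have h16 : Real.log N ≤ N := by
              have : (0 : ℝ) < N := by exact_mod_cast hN1
              have := Real.log_le_sub_one_of_pos this
              linarith
            have h17 : K * K < K ^ 4 := by
              have h18 : 1 < K * K := by nlinarith
              have h19 : K * K * 1 < K * K * (K * K) := by
                apply mul_lt_mul_of_pos_left h18; positivity
              calc K * K = K * K * 1 := by ring
                _ < K * K * (K * K) := h19
                _ = _ := by ring
            linarith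
          linarith
        exfalso
        -- the same contradiction
        have hN1 : 1 ≤ N := by
          by_contra h0
          have : N = 0 := by omega
          rw [this] at hN
          simp at hN
          have : 0 < K ^ 4 := by positivity
          linarith
        have hbig : (N : ℝ) ≤ SG.NZ 20 := by
          have h9 : SG.ord N ≤ 20 := by linarith
          exact_mod_cast (SG.ord_le_iff hN1 _).1 h9
        have h10 : (SG.NZ 20 : ℝ) ≤ SG.NZ (max T1 20) := by exact_mod_cast SG.NZ_mono (le_max_right _ _)
        have h11 := (hsize (max T1 20) (le_max_left _ _)).1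
        have h12 : max T1 20 ≤ K := max_le hKT1 (by linarith)
        have h13 : max T1 20 * Real.log (max T1 20) ≤ K * K := by
          have h14 : Real.log (max T1 20) ≤ K := by
            have := Real.log_le_sub_one_of_pos (show 0 < max T1 20 by positivity)
            linarith
          exact mul_le_mul h12 h14 (Real.log_nonneg (by
            have := le_max_right T1 (20 : ℝ)
            linarith)) hK0.le
        have h15 : (N : ℝ) ≤ K * K := by linarith
        have h16 : Real.log N ≤ N := by
          have : (0 : ℝ) < N := by exact_mod_cast hN1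
          have := Real.log_le_sub_one_of_pos this
          linarith
        have h17 : K * K < K ^ 4 := by
          have h18 : 1 < K * K := by nlinarith
          have h19 : K * K * 1 < K * K * (K * K) := by
            apply mul_lt_mul_of_pos_left h18; positivity
          calc K * K = K * K * 1 := by ring
            _ < K * K * (K * K) := h19
            _ = _ := by ring
        linarith
    | succ k ih =>
      intro T hT hT0' hTTs
      rcases lt_or_ge T Tm with h0 | h0
      · refine ih T (h0.trans_le ?_) hT0' hTTs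
        have : (1 : ℝ) ≤ 2 ^ k := one_le_pow₀ (by norm_num)
        nlinarith
      · have h1 := ih (T / 2) (by rw [pow_succ] at hT; linarith) (by positivity) (by linarith)
        have hT2 : Real.exp ((4 * K) ^ 3) ≤ T / 2 := by linarith
        have hT21 : 1 ≤ T / 2 := (Real.one_le_exp (by positivity)).trans hT2
        have hlog : (4 * K) ^ 3 ≤ Real.log (T / 2) := by
          rw [Real.le_log_iff_exp_le (by linarith)]; exact hT2
        have h2 := hg (T / 2) hlog hT21
        have e2 : 2 * (T / 2) = T := by ring
        rw [e2] at h2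
        have hm : SG.NZ (T / 2) ≤ SG.NZ T := SG.NZ_mono (by linarith)
        have e1 : (Finset.Ioc 0 (SG.NZ T)).filter (fun n => ¬P n) ⊆
            (Finset.Ioc 0 (SG.NZ (T / 2))).filter (fun n => ¬P n) ∪
            (Finset.Ioc (SG.NZ (T / 2)) (SG.NZ T)).filter (fun n => ¬P n) := by
          intro n hn
          rw [mem_filter, mem_Ioc] at hn
          rw [mem_union, mem_filter, mem_filter, mem_Ioc, mem_Ioc]
          rcases le_or_gt n (SG.NZ (T / 2)) with h | h
          · exact Or.inl ⟨⟨hn.1.1, h⟩, hn.2⟩
          · exact Or.inr ⟨⟨h, hn.1.2⟩, hn.2⟩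
        have h3 := (Finset.card_le_card e1).trans (Finset.card_union_le _ _)
        have h3' : ((((Finset.Ioc 0 (SG.NZ T)).filter fun n => ¬P n).card : ℕ) : ℝ) ≤
            ((((Finset.Ioc 0 (SG.NZ (T / 2))).filter fun n => ¬P n).card : ℕ) : ℝ) +
            ((((Finset.Ioc (SG.NZ (T / 2)) (SG.NZ T)).filter fun n => ¬P n).card : ℕ) : ℝ) := by
          exact_mod_cast h3
        have h4 : Real.log (T / 2) ≤ Real.log Ts := Real.log_le_log (by linarith) (by linarith)
        have h5 : 2 * C * (T / 2) * Real.log (T / 2) * q ≤ 2 * C * (T / 2) * Real.log Ts * q := by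
          gcongr
        have e3 : 2 * C * Real.log Ts * q * T = 2 * C * Real.log Ts * q * (T / 2) +
          2 * C * (T / 2) * Real.log Ts * q := by ring
        rw [e3]
        linarith
  -- the size of `N`
  have hN1 : 1 ≤ N := by
    by_contra h0
    have : N = 0 := by omega
    rw [this] at hN
    simp at hN
    have : 0 < K ^ 4 := by positivity
    linarith
  have hNr : (1 : ℝ) ≤ N := by exact_mod_cast hN1
  have hN0 : (0 : ℝ) < N := by linarith
  have hNexp : Real.exp (K ^ 4) ≤ N := by
    rw [← Real.le_log_iff_exp_le hN0]; exact hN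
  have hTsT1 : T1 ≤ Ts := by
    by_contra hlt
    push Not at hlt
    have hbig : (N : ℝ) ≤ SG.NZ T1 := by
      exact_mod_cast (SG.ord_le_iff hN1 _).1 hlt.le
    have h11 := (hsize T1 le_rfl).1
    have h13 : T1 * Real.log T1 ≤ K * K := by
      have h14 : Real.log T1 ≤ K := by
        have := Real.log_le_sub_one_of_pos (show 0 < T1 by linarith)
        linarith
      exact mul_le_mul hKT1 h14 (Real.log_nonneg (by linarith)) hK0.le
    have h15 : (N : ℝ) ≤ K * K := by linarith
    have h16 : K ^ 4 + 1 ≤ N := (Real.add_one_le_exp _).trans hNexp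
    have h17 : K * K ≤ K ^ 4 := by
      have h18 : 1 ≤ K * K := by nlinarith
      nlinarith
    linarith
  have hTs0 : 0 < Ts := by linarith
  obtain ⟨s1, s2⟩ := hsize Ts hTsT1
  have hNlow : (SG.NZ (Ts - 1) : ℝ) ≤ N := by
    have : SG.NZ (Ts - 1) < N := by
      by_contra hc'
      push Not at hc'
      have := (SG.ord_le_iff hN1 _).2 hc'
      linarith
    exact_mod_cast this.le
  have hTsN : Ts * Real.log Ts ≤ 40 * N := by linarith
  -- the initial segment
  have hinit : (SG.NZ Tm : ℝ) ≤ N * q := by
    have h1 : T1 ≤ Tm := by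
      have h2 : (4 * K) ^ 3 + 1 ≤ Real.exp ((4 * K) ^ 3) := Real.add_one_le_exp _
      have h3 : K ≤ (4 * K) ^ 3 := by nlinarith [mul_pos hK0 hK0]
      linarith
    have h2 := (hsize Tm h1).1
    have hX : (4 * K) ^ 3 * 1000 ≤ 64 * K ^ 4 := by nlinarith [pow_pos hK0 3]
    set X : ℝ := (4 * K) ^ 3 with hXd
    have hX1 : 1 ≤ X := by rw [hXd]; nlinarith [mul_pos hK0 hK0, pow_pos hK0 3]
    have h3 : Real.log Tm ≤ Real.exp X := by
      rw [hTm, Real.log_mul (by norm_num) (Real.exp_pos _).ne', Real.log_exp]
      have h4 := Real.quadratic_le_exp_of_nonneg (show 0 ≤ X by linarith)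
      have h5 : Real.log 2 ≤ 1 := by
        have := Real.log_le_sub_one_of_pos (show (0 : ℝ) < 2 by norm_num)
        linarith
      nlinarith
    have h4 : Tm * Real.log Tm ≤ Real.exp (2 * X + 1) := by
      have h5 : (2 : ℝ) ≤ Real.exp 1 := by
        have := Real.add_one_le_exp 1
        linarith
      calc Tm * Real.log Tm ≤ (2 * Real.exp X) * Real.exp X := mul_le_mul_of_nonneg_left h3 hTm0.le
        _ ≤ (Real.exp 1 * Real.exp X) * Real.exp X := by gcongr
        _ = _ := by
            rw [← Real.exp_add, ← Real.exp_add]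
            congr 1
            ring
    have h5 : Real.exp (2 * X + 1) ≤ N * K⁻¹ := by
      have h6 : Real.exp (2 * X + 1) * K ≤ Real.exp (K ^ 4) := by
        have h7 : K ≤ Real.exp K := by
          have := Real.add_one_le_exp K
          linarith
        calc Real.exp (2 * X + 1) * K ≤ Real.exp (2 * X + 1) * Real.exp K :=
              mul_le_mul_of_nonneg_left h7 (Real.exp_pos _).le
          _ = Real.exp (2 * X + 1 + K) := by rw [← Real.exp_add]
          _ ≤ _ := by
              apply Real.exp_le_exp.2
              have h8 : K ≤ X := by rw [hXd]; nlinarith [mul_pos hK0 hK0]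
              nlinarith
      rw [← div_eq_mul_inv, le_div_iff₀ hK0]
      exact h6.trans hNexp
    exact (h2.trans (h4.trans h5)).trans (mul_le_mul_of_nonneg_left hqK hN0.le)
  -- assembling
  obtain ⟨k, hk⟩ := pow_unbounded_of_one_lt (Ts / Tm) (by norm_num : (1 : ℝ) < 2)
  have hf := hcount k Ts (by rwa [div_lt_iff₀ hTm0] at hk) hTs0 le_rfl
  have hsub : (Finset.Icc 1 N).filter (fun n => ¬P n) ⊆ (Finset.Ioc 0 (SG.NZ Ts)).filter (fun n => ¬P n) := by
    intro n hn
    rw [mem_filter, mem_Icc] at hn
    rw [mem_filter, mem_Ioc]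
    have hNN : N ≤ SG.NZ Ts := (SG.ord_le_iff hN1 _).1 le_rfl
    exact ⟨⟨by omega, by omega⟩, hn.2⟩
  have hsub' : ((((Finset.Icc 1 N).filter fun n => ¬P n).card : ℕ) : ℝ) ≤
      ((((Finset.Ioc 0 (SG.NZ Ts)).filter fun n => ¬P n).card : ℕ) : ℝ) := by
    exact_mod_cast Finset.card_le_card hsub
  have h6 : 2 * C * Real.log Ts * q * Ts ≤ 80 * C * N * q := by
    calc 2 * C * Real.log Ts * q * Ts = 2 * C * q * (Ts * Real.log Ts) := by ring
      _ ≤ 2 * C * q * (40 * N) := mul_le_mul_of_nonneg_left hTsN (by positivity)
      _ = _ := by ring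
  have h7 : ((((Finset.Icc 1 N).filter fun n => ¬P n).card : ℕ) : ℝ) ≤ (80 * C + 1) * (N * q) := by
    linarith
  refine h7.trans ?_
  have e1 : K ^ (-(c / 4)) = K ^ (c / 4) * q := by
    rw [hq, ← Real.rpow_add hK0]
    congr 1
    ring
  rw [e1]
  calc (80 * C + 1) * (N * q) ≤ K ^ (c / 4) * (N * q) := mul_le_mul_of_nonneg_right g1 (by positivity)
    _ = _ := by ring

end Pool.Agent.Q278.MX
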