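import Pool.Agent.Q278.MX.AB
import Pool.Agent.Q278.MX.AC
import Pool.Agent.Q278.MX.AE

/-!
# The maximum and the thick points of the sums of gaps (helper278)
-/

set_option autoImplicit false

namespace Pool.Agent.Q278.MX

open Filter Topology Finset MeasureTheory
open Pool.Agent.Q278.MC
open Pool.Agent.Q278.GF (sc)

/-- a property of `n` (depending on `K`) which holds for almost all `n`, with a power saving in `K` -/
def Rate (P : ℕ → ℕ → Prop) : Prop :=
  ∃ c K0 : ℝ, 0 < c ∧ ∀ K : ℕ, K0 ≤ K → ∀ N : ℕ, (K : ℝ) ^ 4 ≤ Real.log N →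
    ∀ S : Finset ℕ, (∀ n ∈ S, 1 ≤ n ∧ n ≤ N ∧ ¬P K n) → (S.card : ℝ) ≤ N * (K : ℝ) ^ (-c)

lemma Rate.mono {P Q : ℕ → ℕ → Prop} (h : Rate P) (K1 : ℝ) (hPQ : ∀ K : ℕ, K1 ≤ K → ∀ n, P K n → Q K n) :
    Rate Q := by
  obtain ⟨c, K0, hc, h⟩ := h
  refine ⟨c, max K0 K1, hc, fun K hK N hN S hS => ?_⟩
  refine h K ((le_max_left _ _).trans hK) N hN S fun n hn => ?_
  obtain ⟨h1, h2, h3⟩ := hS n hn
  exact ⟨h1, h2, fun h' => h3 (hPQ K ((le_max_right _ _).trans hK) n h')⟩

lemma Rate.and {P Q : ℕ → ℕ → Prop} (hP : Rate P) (hQ : Rate Q) : Rate fun K n => P K n ∧ Q K n := by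
  classical
  obtain ⟨c1, K1, hc1, h1⟩ := hP
  obtain ⟨c2, K2, hc2, h2⟩ := hQ
  set c : ℝ := min c1 c2 with hc
  have hc0 : 0 < c := lt_min hc1 hc2
  obtain ⟨K3, hK3⟩ := ((tendsto_rpow_atTop (show 0 < c / 2 by positivity)).eventually_ge_atTop
    2).exists_forall_of_atTop
  refine ⟨c / 2, max (max K1 K2) (max K3 1), by positivity, fun K hK N hN S hS => ?_⟩
  have g1 := h1 K (((le_max_left _ _).trans (le_max_left _ _)).trans hK) N hN (S.filter fun n => ¬P K n)
    fun n hn => by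
      rw [mem_filter] at hn
      obtain ⟨a, b, _⟩ := hS n hn.1
      exact ⟨a, b, hn.2⟩
  have g2 := h2 K (((le_max_right _ _).trans (le_max_left _ _)).trans hK) N hN (S.filter fun n => ¬Q K n)
    fun n hn => by
      rw [mem_filter] at hn
      obtain ⟨a, b, _⟩ := hS n hn.1
      exact ⟨a, b, hn.2⟩
  have hK1 : (1 : ℝ) ≤ K := ((le_max_right _ _).trans (le_max_right _ _)).trans hK
  have hK0 : (0 : ℝ) < K := by linarith
  have g3 := hK3 K (((le_max_left _ _).trans (le_max_right _ _)).trans hK)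
  have hsub : S ⊆ (S.filter fun n => ¬P K n) ∪ (S.filter fun n => ¬Q K n) := by
    intro n hn
    obtain ⟨_, _, h3⟩ := hS n hn
    rw [mem_union, mem_filter, mem_filter]
    by_cases hp : P K n
    · exact Or.inr ⟨hn, fun hq => h3 ⟨hp, hq⟩⟩
    · exact Or.inl ⟨hn, hp⟩
  have h4 := (Finset.card_le_card hsub).trans (Finset.card_union_le _ _)
  have h5 : (S.card : ℝ) ≤ ((S.filter fun n => ¬P K n).card : ℝ) + ((S.filter fun n => ¬Q K n).card : ℝ) := by
    exact_mod_cast h4
  have e1 : (K : ℝ) ^ (-c1) ≤ (K : ℝ) ^ (-c) :=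
    Real.rpow_le_rpow_of_exponent_le hK1 (by linarith [min_le_left c1 c2])
  have e2 : (K : ℝ) ^ (-c2) ≤ (K : ℝ) ^ (-c) :=
    Real.rpow_le_rpow_of_exponent_le hK1 (by linarith [min_le_right c1 c2])
  have hN0 : (0 : ℝ) ≤ N := Nat.cast_nonneg N
  have e3 : (K : ℝ) ^ (-(c / 2)) = (K : ℝ) ^ (c / 2) * (K : ℝ) ^ (-c) := by
    rw [← Real.rpow_add hK0]
    congr 1
    ring
  have hp : 0 < (K : ℝ) ^ (-c) := Real.rpow_pos_of_pos hK0 _
  rw [e3]
  have e4 : (N : ℝ) * (2 * (K : ℝ) ^ (-c)) ≤ N * ((K : ℝ) ^ (c / 2) * (K : ℝ) ^ (-c)) :=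
    mul_le_mul_of_nonneg_left (mul_le_mul_of_nonneg_right g3 hp.le) hN0
  have e5 := mul_le_mul_of_nonneg_left e1 hN0
  have e6 := mul_le_mul_of_nonneg_left e2 hN0
  linarith

lemma Rate.all {P : ℕ → ℕ → ℕ → Prop} (h : ∀ i, Rate (P i)) (m : ℕ) :
    Rate fun K n => ∀ i < m, P i K n := by
  induction m with
  | zero =>
    exact (h 0).mono 0 fun K _ n _ i hi => by omega
  | succ m ih =>
    refine (ih.and (h m)).mono 0 fun K _ n hn i hi => ?_
    rcases Nat.lt_succ_iff_lt_or_eq.1 hi with h1 | h1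
    · exact hn.1 i h1
    · rw [h1]; exact hn.2

/-- the property for one level `α` -/
def Pa (ε α : ℝ) (K n : ℕ) : Prop :=
  (∀ k ∈ Finset.Icc 1 K, |Sk n k| ≤ (1 / Real.pi + ε) * Real.log K) ∧
  ((((Finset.Icc 1 K).filter fun k : ℕ => α / Real.pi * Real.log K ≤ |Sk n k|).card : ℕ) : ℝ) ≤
    (K : ℝ) ^ (1 - α ^ 2 + ε) ∧
  (K : ℝ) ^ (1 - α ^ 2 - ε) ≤
    ((((Finset.Icc 1 K).filter fun k : ℕ => α / Real.pi * Real.log K ≤ 1 * Sk n k).card : ℕ) : ℝ) ∧
  (K : ℝ) ^ (1 - α ^ 2 - ε) ≤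
    ((((Finset.Icc 1 K).filter fun k : ℕ => α / Real.pi * Real.log K ≤ -1 * Sk n k).card : ℕ) : ℝ)

/-- one level -/
theorem rate_one (RH : RiemannHypothesis) {ε α : ℝ} (hε : 0 < ε) (hε1 : ε ≤ 1) (hα : 0 ≤ α)
    (hα1 : α ≤ 1 - ε) : Rate (Pa ε α) := by
  classical
  set η : ℝ := ε / 64 with hη
  have hη0 : 0 < η := by positivity
  have hη1 : η ≤ 1 := by rw [hη]; linarith
  set αu : ℝ := max (α - 16 * η) 0 with hαu
  set αl : ℝ := α + 16 * η with hαl
  have hαu0 : 0 ≤ αu := le_max_right _ _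
  have hαu1 : αu ≤ 1 - η := max_le (by rw [hη]; linarith) (by linarith)
  have hαl0 : 0 ≤ αl := by positivity
  have hαl1 : αl ≤ 1 - η := by rw [hαl, hη]; linarith
  obtain ⟨cu, Ku, hcu, hKu8, hu⟩ := block_good RH η hη0 hη1 αu hαu0 hαu1
  obtain ⟨cl, Kl, hcl, hKl8, hl⟩ := block_good RH η hη0 hη1 αl hαl0 hαl1
  set c : ℝ := min (min cu cl) 1 with hc
  have hc0 : 0 < c := lt_min (lt_min hcu hcl) one_pos
  have hcu' : c ≤ cu := (min_le_left _ _).trans (min_le_left _ _)
  have hcl' : c ≤ cl := (min_le_left _ _).trans (min_le_right _ _)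
  have hc1 : c ≤ 1 := min_le_right _ _
  obtain ⟨Ka, hKa8, ha⟩ := all_n (c / 2) (by positivity) (by linarith)
  obtain ⟨Kb, hKb⟩ := (((tendsto_rpow_atTop (show 0 < c / 2 by positivity)).eventually_ge_atTop 2).and
    ((log_rpow_small (μ := ε / 4) (by positivity) 15 0 1 one_pos).and
    ((Real.tendsto_log_atTop.eventually_ge_atTop (max 8 (4 / η))).and
      (log_rpow_small (μ := 1) one_pos 4 0 1 one_pos)))).exists_forall_of_atTop
  refine ⟨c / 8, max (max Ku Kl) (max Ka (max Kb 8)), by positivity, fun K hK N hN S hS => ?_⟩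
  have hKu : Ku ≤ K := ((le_max_left _ _).trans (le_max_left _ _)).trans hK
  have hKl : Kl ≤ K := ((le_max_right _ _).trans (le_max_left _ _)).trans hK
  have hKa : Ka ≤ K := ((le_max_left _ _).trans (le_max_right _ _)).trans hK
  have hKb' : Kb ≤ K := ((le_max_left _ _).trans ((le_max_right _ _).trans (le_max_right _ _))).trans hK
  have hK8 : (8 : ℝ) ≤ K := ((le_max_right _ _).trans ((le_max_right _ _).trans (le_max_right _ _))).trans hK
  obtain ⟨g1, g2, g3, g4⟩ := hKb K hKb'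
  have hK0 : (0 : ℝ) < K := by linarith
  have hK1 : (1 : ℝ) ≤ K := by linarith
  set L := Real.log K with hL
  have hL8 : 8 ≤ L := (le_max_left _ _).trans g3
  have hLη : 4 ≤ η * L := by
    have := (le_max_right _ _).trans g3
    rw [div_le_iff₀ hη0] at this
    linarith
  have hLK : 4 * L ≤ K := by
    rw [add_zero, Real.rpow_neg hK0.le, Real.rpow_one, inv_mul_le_iff₀ hK0, mul_one] at g4
    exact g4
  have hL15 : 15 * L ≤ (K : ℝ) ^ (ε / 4) := by
    have h1 : 0 < (K : ℝ) ^ (ε / 4) := Real.rpow_pos_of_pos hK0 _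
    rw [add_zero, Real.rpow_neg hK0.le, inv_mul_le_iff₀ h1, mul_one] at g2
    exact g2
  have hpi := Real.pi_pos
  have hpi3 := Real.pi_gt_three
  have hpi4 := Real.pi_lt_four
  have hmono : ∀ a b : ℝ, a ≤ b → (K : ℝ) ^ a ≤ (K : ℝ) ^ b := fun a b h =>
    Real.rpow_le_rpow_of_exponent_le hK1 h
  have hpos : ∀ a : ℝ, 0 < (K : ℝ) ^ a := fun a => Real.rpow_pos_of_pos hK0 a
  -- the block statement
  have hmain := ha K hKa (Pa ε α K) (fun T hT hKT => by
    obtain ⟨badu, hbu, hgu⟩ := hu K hKu T hT hKT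
    obtain ⟨badl, hbl, hgl⟩ := hl K hKl T hT hKT
    haveI := mu_fin T
    refine ⟨badu ∪ badl, ?_, fun t ht1 ht2 htb n hn1 hn2 => ?_⟩
    · refine (measureReal_union_le _ _).trans ?_
      have e1 := hbu.trans (hmono (-cu) (-c) (by linarith))
      have e2 := hbl.trans (hmono (-cl) (-c) (by linarith))
      have e3 : (K : ℝ) ^ (-(c / 2)) = (K : ℝ) ^ (c / 2) * (K : ℝ) ^ (-c) := by
        rw [← Real.rpow_add hK0]
        congr 1
        ring
      rw [e3]
      have e4 := mul_le_mul_of_nonneg_right g1 (hpos (-c)).le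
      linarith
    · rw [Set.mem_union, not_or] at htb
      obtain ⟨u0, u1, u2, u3, u4⟩ := hgu t ht1 ht2 htb.1
      obtain ⟨l0, l1, l2, l3, l4⟩ := hgl t ht1 ht2 htb.2
      have hG : Gd T t η K n := by
        refine ⟨hη0, hη1, hK8, ?_, hL8, hLK, hT, ht1, ht2, hn1, hn2, u1, u2⟩
        exact le_trans (le_of_eq (by ring)) hKT
      have h16 : 5 * (η * L) ≤ 16 * η / Real.pi * L - 0 := by
        have e : 16 * η / Real.pi * L = 16 * (η * L) / Real.pi := by ring
        rw [sub_zero, e, le_div_iff₀ hpi]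
        have h1 : Real.pi ≤ 3.2 := by linarith [Real.pi_lt_d2]
        have h2 : 0 ≤ η * L := by positivity
        nlinarith
      refine ⟨fun k hk => ?_, ?_, ?_, ?_⟩
      · rw [mem_Icc] at hk
        refine (hG.max_bound hk.2).trans ?_
        have : 62 * (η * L) ≤ ε * L - 2 * η * L := by rw [hη]; linarith
        have e : (1 / Real.pi + 2 * η) * L = 1 / Real.pi * L + 2 * η * L := by ring
        rw [e, add_mul]
        linarith
      · -- the upper bound
        rcases le_total (α - 16 * η) 0 with hcase | hcase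
        · have h1 : ((((Finset.Icc 1 K).filter fun k : ℕ => α / Real.pi * L ≤ |Sk n k|).card : ℕ) : ℝ) ≤ K := by
            have h2 := Finset.card_filter_le (Finset.Icc 1 K) fun k : ℕ => α / Real.pi * L ≤ |Sk n k|
            rw [Nat.card_Icc, Nat.add_sub_cancel] at h2
            exact_mod_cast h2
          refine h1.trans ?_
          nth_rewrite 1 [← Real.rpow_one (K : ℝ)]
          apply hmono
          have h2 : α ≤ ε / 4 := by rw [hη] at hcase; linarith
          have h3 : α ^ 2 ≤ α * 1 := by rw [sq]; exact mul_le_mul_of_nonneg_left (by linarith) hα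
          linarith
        · have hαu' : αu = α - 16 * η := max_eq_left hcase
          have h1 := hG.thick_up (α := α) (β := αu) (by
            rw [hαu']
            have e : (α - 16 * η) / Real.pi * L = α / Real.pi * L - 16 * η / Real.pi * L := by ring
            rw [e]
            linarith)
          refine h1.trans ?_
          have h2 : 1 - αu ^ 2 + η + ε / 4 ≤ 1 - α ^ 2 + ε := by
            rw [hαu', hη]
            nlinarith
          calc 15 * L * _ ≤ (K : ℝ) ^ (ε / 4) * (K : ℝ) ^ (1 - αu ^ 2 + η) := by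
                apply mul_le_mul hL15 u3 (Nat.cast_nonneg _) (hpos _).le
            _ = (K : ℝ) ^ (1 - αu ^ 2 + η + ε / 4) := by
                rw [← Real.rpow_add hK0]
                congr 1
                ring
            _ ≤ _ := hmono _ _ h2
      · -- the lower bound, above
        have h1 := hG.thick_low1 (α := α) (β := αl) hα (by
          rw [hαl]
          have e : (α + 16 * η) / Real.pi * L = α / Real.pi * L + 16 * η / Real.pi * L := by ring
          rw [e]
          linarith)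
        have h2 := l4 (-1) (by simp)
        have h3 := h2.trans h1
        have h4 : 1 - α ^ 2 - ε + ε / 4 ≤ 1 - αl ^ 2 - η := by
          rw [hαl, hη]
          nlinarith
        have h5 := (hmono _ _ h4).trans h3
        have h6 : (K : ℝ) ^ (1 - α ^ 2 - ε + ε / 4) = (K : ℝ) ^ (ε / 4) * (K : ℝ) ^ (1 - α ^ 2 - ε) := by
          rw [← Real.rpow_add hK0]
          congr 1
          ring
        rw [h6] at h5
        have h7 : (K : ℝ) ^ (ε / 4) * (K : ℝ) ^ (1 - α ^ 2 - ε) ≤ (K : ℝ) ^ (ε / 4) *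
            ((((Finset.Icc 1 K).filter fun k : ℕ => α / Real.pi * L ≤ 1 * Sk n k).card : ℕ) : ℝ) :=
          h5.trans (mul_le_mul_of_nonneg_right hL15 (Nat.cast_nonneg _))
        exact le_of_mul_le_mul_left h7 (hpos _)
      · -- the lower bound, below
        have h1 := hG.thick_low2 (α := α) (β := αl) hα (by
          rw [hαl]
          have e : (α + 16 * η) / Real.pi * L = α / Real.pi * L + 16 * η / Real.pi * L := by ring
          rw [e]
          linarith)
        have h2 := l4 1 (by simp)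
        have h3 := h2.trans h1
        have h4 : 1 - α ^ 2 - ε + ε / 4 ≤ 1 - αl ^ 2 - η := by
          rw [hαl, hη]
          nlinarith
        have h5 := (hmono _ _ h4).trans h3
        have h6 : (K : ℝ) ^ (1 - α ^ 2 - ε + ε / 4) = (K : ℝ) ^ (ε / 4) * (K : ℝ) ^ (1 - α ^ 2 - ε) := by
          rw [← Real.rpow_add hK0]
          congr 1
          ring
        rw [h6] at h5
        have h7 : (K : ℝ) ^ (ε / 4) * (K : ℝ) ^ (1 - α ^ 2 - ε) ≤ (K : ℝ) ^ (ε / 4) *
            ((((Finset.Icc 1 K).filter fun k : ℕ => α / Real.pi * L ≤ -1 * Sk n k).card : ℕ) : ℝ) :=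
          h5.trans (mul_le_mul_of_nonneg_right hL15 (Nat.cast_nonneg _))
        exact le_of_mul_le_mul_left h7 (hpos _)) N hN
  have hsub : S ⊆ (Finset.Icc 1 N).filter fun n => ¬Pa ε α K n := by
    intro n hn
    obtain ⟨a, b, d⟩ := hS n hn
    exact mem_filter.2 ⟨mem_Icc.2 ⟨a, b⟩, d⟩
  have h1 : (S.card : ℝ) ≤ ((((Finset.Icc 1 N).filter fun n => ¬Pa ε α K n).card : ℕ) : ℝ) := by
    exact_mod_cast Finset.card_le_card hsub
  refine h1.trans (hmain.trans (le_of_eq ?_))
  congr 2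
  ring

/-- the property for all levels -/
def Pall (ε : ℝ) (K n : ℕ) : Prop :=
  (∀ k ∈ Finset.Icc 1 K, |Sk n k| ≤ (1 / Real.pi + ε) * Real.log K) ∧
  ∀ α : ℝ, 0 ≤ α → α ≤ 1 - ε →
    ((((Finset.Icc 1 K).filter fun k : ℕ => α / Real.pi * Real.log K ≤ |Sk n k|).card : ℕ) : ℝ) ≤
      (K : ℝ) ^ (1 - α ^ 2 + ε) ∧
    (K : ℝ) ^ (1 - α ^ 2 - ε) ≤
      ((((Finset.Icc 1 K).filter fun k : ℕ => α / Real.pi * Real.log K ≤ Sk n k).card : ℕ) : ℝ) ∧
    (K : ℝ) ^ (1 - α ^ 2 - ε) ≤
      ((((Finset.Icc 1 K).filter fun k : ℕ => Sk n k ≤ -(α / Real.pi * Real.log K)).card : ℕ) : ℝ)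

/-- all levels -/
theorem rate_all (RH : RiemannHypothesis) {ε : ℝ} (hε : 0 < ε) (hε1 : ε ≤ 1) : Rate (Pall ε) := by
  classical
  set ε' : ℝ := ε / 4 with hε'
  have hε'0 : 0 < ε' := by positivity
  have hε'1 : ε' ≤ 1 := by rw [hε']; linarith
  set M : ℕ := ⌈4 / ε⌉₊ + 2 with hM
  have h1 : ∀ i : ℕ, Rate fun K n => ((i : ℝ) * ε' ≤ 1 - ε' → Pa ε' (i * ε') K n) := by
    intro i
    by_cases h : (i : ℝ) * ε' ≤ 1 - ε'
    · exact (rate_one RH hε'0 hε'1 (by positivity) h).mono 0 fun K _ n hn _ => hn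
    · exact (rate_one RH hε'0 hε'1 le_rfl (by linarith)).mono 0 fun K _ n _ h' => absurd h' h
  refine (Rate.all h1 M).mono 8 fun K hK n hn => ?_
  have hK1 : (1 : ℝ) ≤ K := by linarith
  have hL : 0 ≤ Real.log K := Real.log_nonneg hK1
  have hpi := Real.pi_pos
  have hmono : ∀ a b : ℝ, a ≤ b → (K : ℝ) ^ a ≤ (K : ℝ) ^ b := fun a b h =>
    Real.rpow_le_rpow_of_exponent_le hK1 h
  constructor
  · intro k hk
    have h2 := (hn 0 (by omega) (by push_cast; linarith)).1 k hk
    refine h2.trans (mul_le_mul_of_nonneg_right ?_ hL)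
    linarith
  · intro α hα hα1
    set i : ℕ := ⌊α / ε'⌋₊ with hi
    have hi1 : (i : ℝ) * ε' ≤ α := by
      have := Nat.floor_le (show 0 ≤ α / ε' by positivity)
      rwa [← hi, le_div_iff₀ hε'0] at this
    have hi2 : α < ((i + 1 : ℕ) : ℝ) * ε' := by
      have := Nat.lt_floor_add_one (α / ε')
      rw [← hi, div_lt_iff₀ hε'0] at this
      push_cast
      exact this
    have hi3 : ((i + 1 : ℕ) : ℝ) * ε' ≤ α + ε' := by
      push_cast
      linarith
    have hiM : i + 1 < M := by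
      have h2 : (i : ℝ) ≤ 4 / ε := by
        have h3 : (i : ℝ) * ε' ≤ 1 := by linarith
        rw [le_div_iff₀ hε]
        rw [hε'] at h3
        linarith
      have h3 : i ≤ ⌈4 / ε⌉₊ := by
        have := h2.trans (Nat.le_ceil (4 / ε))
        exact_mod_cast this
      omega
    have p1 := hn i (by omega) (by linarith)
    have p2 := hn (i + 1) hiM (by linarith)
    have hsub : ∀ {a b : ℝ}, a ≤ b → a / Real.pi * Real.log K ≤ b / Real.pi * Real.log K := by
      intro a b hab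
      exact mul_le_mul_of_nonneg_right (div_le_div_of_nonneg_right hab hpi.le) hL
    refine ⟨?_, ?_, ?_⟩
    · have h2 : ((((Finset.Icc 1 K).filter fun k : ℕ => α / Real.pi * Real.log K ≤ |Sk n k|).card : ℕ) : ℝ) ≤
        ((((Finset.Icc 1 K).filter fun k : ℕ => (i * ε') / Real.pi * Real.log K ≤ |Sk n k|).card : ℕ) : ℝ) := by
        have : ((Finset.Icc 1 K).filter fun k : ℕ => α / Real.pi * Real.log K ≤ |Sk n k|) ⊆
          (Finset.Icc 1 K).filter fun k : ℕ => (i * ε') / Real.pi * Real.log K ≤ |Sk n k| := by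
          intro k hk
          rw [mem_filter] at hk ⊢
          exact ⟨hk.1, (hsub hi1).trans hk.2⟩
        exact_mod_cast Finset.card_le_card this
      refine h2.trans (p1.2.1.trans (hmono _ _ ?_))
      have h3 : α - i * ε' ≤ ε' := by
        have := hi2
        push_cast at this
        linarith
      have h4 : (α - i * ε') * (α + i * ε') ≤ ε' * 2 :=
        mul_le_mul h3 (by linarith) (by positivity) hε'0.le
      have h5 : (α - i * ε') * (α + i * ε') = α ^ 2 - (i * ε') ^ 2 := by ring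
      rw [h5, hε'] at h4
      rw [hε']
      linarith
    · have h2 : ((((Finset.Icc 1 K).filter fun k : ℕ => (((i + 1 : ℕ) : ℝ) * ε') / Real.pi * Real.log K ≤
          1 * Sk n k).card : ℕ) : ℝ) ≤
        ((((Finset.Icc 1 K).filter fun k : ℕ => α / Real.pi * Real.log K ≤ Sk n k).card : ℕ) : ℝ) := by
        have : ((Finset.Icc 1 K).filter fun k : ℕ => (((i + 1 : ℕ) : ℝ) * ε') / Real.pi * Real.log K ≤
          1 * Sk n k) ⊆ (Finset.Icc 1 K).filter fun k : ℕ => α / Real.pi * Real.log K ≤ Sk n k := by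
          intro k hk
          rw [mem_filter] at hk ⊢
          refine ⟨hk.1, (hsub hi2.le).trans ?_⟩
          linarith [hk.2]
        exact_mod_cast Finset.card_le_card this
      refine le_trans (hmono _ _ ?_) (p2.2.2.1.trans h2)
      nlinarith
    · have h2 : ((((Finset.Icc 1 K).filter fun k : ℕ => (((i + 1 : ℕ) : ℝ) * ε') / Real.pi * Real.log K ≤
          -1 * Sk n k).card : ℕ) : ℝ) ≤
        ((((Finset.Icc 1 K).filter fun k : ℕ => Sk n k ≤ -(α / Real.pi * Real.log K)).card : ℕ) : ℝ) := by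
        have : ((Finset.Icc 1 K).filter fun k : ℕ => (((i + 1 : ℕ) : ℝ) * ε') / Real.pi * Real.log K ≤
          -1 * Sk n k) ⊆ (Finset.Icc 1 K).filter fun k : ℕ => Sk n k ≤ -(α / Real.pi * Real.log K) := by
          intro k hk
          rw [mem_filter] at hk ⊢
          refine ⟨hk.1, ?_⟩
          have h3 := (hsub hi2.le).trans hk.2
          linarith
        exact_mod_cast Finset.card_le_card this
      refine le_trans (hmono _ _ ?_) (p2.2.2.2.trans h2)
      nlinarith

end Pool.Agent.Q278.MX
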