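import Pool.Agent.Q278.MX.AF
import Pool.Agent.Q172.ZetaLim.Main

/-!
# The maximum and the thick points: transfer to the limit processes (helper278)
-/

set_option autoImplicit false

namespace Pool.Agent.Q278.MX

open Filter Topology Finset MeasureTheory
open Q172.ZetaLim (seen IsLim law av real_law isLim_iff tendsto_law_iff)
open Pool.Agent.Q278.GF (dl)

/-- the sums of a two-sided sequence of gaps -/
noncomputable def Sw (q : ℤ → ℝ) (k : ℕ) : ℝ := ∑ i ∈ range k, (q (i : ℤ) - 1)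

lemma Sw_seen {n : ℕ} (hn : 1 ≤ n) (k : ℕ) : Sw (seen dl n) k = Sk n k := by
  unfold Sw Sk
  refine Finset.sum_congr rfl fun i _ => ?_
  rw [Q172.ZetaLim.seen_add dl n i hn]

lemma Sw_cont (k : ℕ) : Continuous fun q : ℤ → ℝ => Sw q k := by
  unfold Sw
  exact continuous_finsetSum _ fun i _ => (continuous_apply _).sub continuous_const

section closed

variable {X ι : Type*} [TopologicalSpace X]

lemma closed_up (s : Finset ι) {F : ι → X → ℝ} (hF : ∀ k, Continuous (F k)) (a m : ℝ) :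
    IsClosed {q | (((s.filter fun k => a < F k q).card : ℕ) : ℝ) ≤ m} := by
  have e : {q | (((s.filter fun k => a < F k q).card : ℕ) : ℝ) ≤ m} =
      ⋂ A ∈ {A : Finset ι | A ⊆ s ∧ m < A.card}, ⋃ k ∈ A, {q | F k q ≤ a} := by
    ext q
    simp only [Set.mem_iInter, Set.mem_iUnion, Set.mem_ofPred_eq]
    constructor
    · intro h A hA
      by_contra hc
      push Not at hc
      have h1 : A ⊆ s.filter fun k => a < F k q := by
        intro k hk
        exact mem_filter.2 ⟨hA.1 hk, hc k hk⟩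
      have h2 : (A.card : ℝ) ≤ (((s.filter fun k => a < F k q).card : ℕ) : ℝ) := by
        exact_mod_cast Finset.card_le_card h1
      linarith [hA.2]
    · intro h
      by_contra hc
      push Not at hc
      obtain ⟨k, hk, hk2⟩ := h (s.filter fun k => a < F k q) ⟨Finset.filter_subset _ _, hc⟩
      have := (mem_filter.1 hk).2
      linarith
  rw [e]
  refine isClosed_biInter fun A _ => ?_
  exact isClosed_biUnion_finset fun k _ => isClosed_le (hF k) continuous_const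

lemma closed_low (s : Finset ι) {F : ι → X → ℝ} (hF : ∀ k, Continuous (F k)) (a m : ℝ) :
    IsClosed {q | m ≤ (((s.filter fun k => a ≤ F k q).card : ℕ) : ℝ)} := by
  have e : {q | m ≤ (((s.filter fun k => a ≤ F k q).card : ℕ) : ℝ)} =
      ⋃ A ∈ s.powerset.filter fun A => m ≤ (A.card : ℝ), ⋂ k ∈ A, {q | a ≤ F k q} := by
    ext q
    simp only [Set.mem_iInter, Set.mem_iUnion, Set.mem_ofPred_eq, mem_filter, mem_powerset, exists_prop]
    constructor
    · intro h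
      exact ⟨s.filter fun k => a ≤ F k q, ⟨Finset.filter_subset _ _, h⟩, fun k hk => (mem_filter.1 hk).2⟩
    · rintro ⟨A, ⟨hA, hm⟩, h⟩
      have h1 : A ⊆ s.filter fun k => a ≤ F k q := by
        intro k hk
        exact mem_filter.2 ⟨hA hk, h k hk⟩
      have h2 : (A.card : ℝ) ≤ (((s.filter fun k => a ≤ F k q).card : ℕ) : ℝ) := by
        exact_mod_cast Finset.card_le_card h1
      linarith
  rw [e]
  refine isClosed_biUnion_finset fun A _ => ?_
  exact isClosed_biInter fun k _ => isClosed_le continuous_const (hF k)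

end closed

/-- the good set -/
def GW (ε : ℝ) (K : ℕ) : Set (ℤ → ℝ) := {q |
  (∀ k ∈ Finset.Icc 1 K, |Sw q k| ≤ (1 / Real.pi + ε) * Real.log K) ∧
  ∀ α : ℝ, 0 ≤ α → α ≤ 1 - ε →
    ((((Finset.Icc 1 K).filter fun k : ℕ => α / Real.pi * Real.log K < |Sw q k|).card : ℕ) : ℝ) ≤
      (K : ℝ) ^ (1 - α ^ 2 + ε) ∧
    (K : ℝ) ^ (1 - α ^ 2 - ε) ≤
      ((((Finset.Icc 1 K).filter fun k : ℕ => α / Real.pi * Real.log K ≤ Sw q k).card : ℕ) : ℝ) ∧
    (K : ℝ) ^ (1 - α ^ 2 - ε) ≤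
      ((((Finset.Icc 1 K).filter fun k : ℕ => Sw q k ≤ -(α / Real.pi * Real.log K)).card : ℕ) : ℝ)}

lemma GW_closed (ε : ℝ) (K : ℕ) : IsClosed (GW ε K) := by
  classical
  have e : GW ε K = (⋂ k ∈ Finset.Icc 1 K, {q | |Sw q k| ≤ (1 / Real.pi + ε) * Real.log K}) ∩
      ⋂ α ∈ {α : ℝ | 0 ≤ α ∧ α ≤ 1 - ε},
        ({q | ((((Finset.Icc 1 K).filter fun k : ℕ => α / Real.pi * Real.log K < |Sw q k|).card : ℕ) : ℝ) ≤
          (K : ℝ) ^ (1 - α ^ 2 + ε)} ∩
        ({q | (K : ℝ) ^ (1 - α ^ 2 - ε) ≤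
          ((((Finset.Icc 1 K).filter fun k : ℕ => α / Real.pi * Real.log K ≤ Sw q k).card : ℕ) : ℝ)} ∩
        {q | (K : ℝ) ^ (1 - α ^ 2 - ε) ≤
          ((((Finset.Icc 1 K).filter fun k : ℕ => Sw q k ≤ -(α / Real.pi * Real.log K)).card : ℕ) : ℝ)})) := by
    ext q
    simp only [GW, Set.mem_inter_iff, Set.mem_iInter, Set.mem_ofPred_eq]
    constructor
    · rintro ⟨h1, h2⟩
      exact ⟨h1, fun α hα => h2 α hα.1 hα.2⟩
    · rintro ⟨h1, h2⟩
      exact ⟨h1, fun α a b => h2 α ⟨a, b⟩⟩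
  rw [e]
  refine IsClosed.inter ?_ (isClosed_biInter fun α _ => IsClosed.inter ?_ (IsClosed.inter ?_ ?_))
  · exact isClosed_biInter fun k _ => isClosed_le (Sw_cont k).abs continuous_const
  · exact closed_up (Finset.Icc 1 K) (F := fun k (q : ℤ → ℝ) => |Sw q k|) (fun k => (Sw_cont k).abs)
      (α / Real.pi * Real.log K) ((K : ℝ) ^ (1 - α ^ 2 + ε))
  · exact closed_low (Finset.Icc 1 K) (F := fun k (q : ℤ → ℝ) => Sw q k) (fun k => Sw_cont k)
      (α / Real.pi * Real.log K) ((K : ℝ) ^ (1 - α ^ 2 - ε))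
  · have e2 : ∀ q : ℤ → ℝ, ((Finset.Icc 1 K).filter fun k : ℕ => Sw q k ≤ -(α / Real.pi * Real.log K)) =
        (Finset.Icc 1 K).filter fun k : ℕ => α / Real.pi * Real.log K ≤ -Sw q k := fun q =>
      Finset.filter_congr fun k _ => le_neg
    simp only [e2]
    exact closed_low (Finset.Icc 1 K) (F := fun k (q : ℤ → ℝ) => -Sw q k) (fun k => (Sw_cont k).neg)
      (α / Real.pi * Real.log K) ((K : ℝ) ^ (1 - α ^ 2 - ε))

lemma GW_of_Pall {ε : ℝ} {K n : ℕ} (hn : 1 ≤ n) (h : Pall ε K n) : seen dl n ∈ GW ε K := by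
  obtain ⟨h1, h2⟩ := h
  refine ⟨fun k hk => ?_, fun α ha hb => ?_⟩
  · rw [Sw_seen hn]
    exact h1 k hk
  · obtain ⟨a1, a2, a3⟩ := h2 α ha hb
    simp only [Sw_seen hn]
    refine ⟨le_trans ?_ a1, a2, a3⟩
    have : ((Finset.Icc 1 K).filter fun k : ℕ => α / Real.pi * Real.log K < |Sk n k|) ⊆
        (Finset.Icc 1 K).filter fun k : ℕ => α / Real.pi * Real.log K ≤ |Sk n k| := by
      intro k hk
      rw [mem_filter] at hk ⊢
      exact ⟨hk.1, hk.2.le⟩
    exact_mod_cast Finset.card_le_card this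

/-- **the rate for every limit process** -/
theorem lim_rate (RH : RiemannHypothesis) {ε : ℝ} (hε : 0 < ε) (hε1 : ε ≤ 1) :
    ∃ (c : ℝ) (K0 : ℕ), 0 < c ∧ ∀ K : ℕ, K0 ≤ K → ∀ P : ProbabilityMeasure (ℤ → ℝ),
      IsLim (seen dl) P → (P : Measure (ℤ → ℝ)).real (GW ε K)ᶜ ≤ (K : ℝ) ^ (-c) := by
  classical
  obtain ⟨c, K0, hc, h⟩ := rate_all RH hε hε1
  refine ⟨c, ⌈K0⌉₊, hc, fun K hK P hP => ?_⟩
  have hK' : K0 ≤ K := (Nat.le_ceil K0).trans (by exact_mod_cast hK)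
  rw [isLim_iff] at hP
  obtain ⟨ψ, h1, h2⟩ := MapClusterPt.tendsto_subseq hP
  have hopen : IsOpen (GW ε K)ᶜ := (GW_closed ε K).isOpen_compl
  have h3 := ProbabilityMeasure.le_liminf_measure_open_of_tendsto h2 hopen
  have h4 : ∀ᶠ j : ℕ in atTop, ((law (seen dl) (ψ j) : ProbabilityMeasure (ℤ → ℝ)) : Measure (ℤ → ℝ))
      (GW ε K)ᶜ ≤ ENNReal.ofReal ((K : ℝ) ^ (-c)) := by
    have h5 : Tendsto (fun j : ℕ => Real.log ((ψ j + 1 : ℕ) : ℝ)) atTop atTop := by
      refine Real.tendsto_log_atTop.comp (tendsto_natCast_atTop_atTop.comp ?_)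
      exact tendsto_atTop_mono (fun j => Nat.le_succ _) h1.tendsto_atTop
    filter_upwards [h5.eventually_ge_atTop ((K : ℝ) ^ 4)] with j hj
    have h6 : ((law (seen dl) (ψ j) : ProbabilityMeasure (ℤ → ℝ)) : Measure (ℤ → ℝ)).real (GW ε K)ᶜ ≤
        (K : ℝ) ^ (-c) := by
      rw [real_law _ _ hopen.measurableSet]
      unfold av
      rw [div_le_iff₀ (by positivity)]
      have e8 : ((((Finset.Icc 1 (ψ j + 1)).filter fun n => seen dl n ∈ (GW ε K)ᶜ).card : ℕ) : ℝ) =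
          ∑ n ∈ Finset.Icc 1 (ψ j + 1), if seen dl n ∈ (GW ε K)ᶜ then (1 : ℝ) else 0 := by
        rw [Finset.card_filter]
        push_cast
        rfl
      have h7 := h K hK' (ψ j + 1) hj ((Finset.Icc 1 (ψ j + 1)).filter fun n => seen dl n ∈ (GW ε K)ᶜ)
        (fun n hn => by
          rw [mem_filter, mem_Icc] at hn
          refine ⟨hn.1.1, hn.1.2, fun hp => hn.2 (GW_of_Pall hn.1.1 hp)⟩)
      rw [mul_comm]
      rw [e8] at h7
      refine le_trans (le_of_eq (Finset.sum_congr rfl fun n _ => ?_)) h7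
      beta_reduce
      by_cases hh : seen dl n ∈ (GW ε K)ᶜ
      · rw [if_pos hh, if_pos hh]
      · rw [if_neg hh, if_neg hh]
    rw [Measure.real] at h6
    rw [← ENNReal.ofReal_toReal (measure_ne_top _ (GW ε K)ᶜ)]
    exact ENNReal.ofReal_le_ofReal h6
  have h5 : (P : Measure (ℤ → ℝ)) (GW ε K)ᶜ ≤ ENNReal.ofReal ((K : ℝ) ^ (-c)) := by
    refine h3.trans ?_
    exact Filter.liminf_le_of_frequently_le' h4.frequently
  exact ENNReal.toReal_le_of_le_ofReal (by positivity) h5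

end Pool.Agent.Q278.MX
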