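import Pool.Agent.Q278.MX.AG

/-!
# The maximum and the thick points: from powers of two to all lengths (helper278)
-/

set_option autoImplicit false

namespace Pool.Agent.Q278.MX

open Filter Topology Finset MeasureTheory

/-- the typical behaviour of a sequence `x` up to `K`, with an error `ε` in the exponents -/
def Cs (x : ℕ → ℝ) (ε : ℝ) (K : ℕ) : Prop :=
  (∀ k ∈ Finset.Icc 1 K, |x k| ≤ (1 / Real.pi + ε) * Real.log K) ∧
  ∀ α : ℝ, 0 ≤ α → α ≤ 1 - ε →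
    ((((Finset.Icc 1 K).filter fun k : ℕ => α / Real.pi * Real.log K ≤ |x k|).card : ℕ) : ℝ) ≤
      (K : ℝ) ^ (1 - α ^ 2 + ε) ∧
    (K : ℝ) ^ (1 - α ^ 2 - ε) ≤
      ((((Finset.Icc 1 K).filter fun k : ℕ => α / Real.pi * Real.log K ≤ x k).card : ℕ) : ℝ) ∧
    (K : ℝ) ^ (1 - α ^ 2 - ε) ≤
      ((((Finset.Icc 1 K).filter fun k : ℕ => x k ≤ -(α / Real.pi * Real.log K)).card : ℕ) : ℝ)

/-- the same with strict inequalities in the upper bound -/
def Cd (x : ℕ → ℝ) (ε : ℝ) (K : ℕ) : Prop :=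
  (∀ k ∈ Finset.Icc 1 K, |x k| ≤ (1 / Real.pi + ε) * Real.log K) ∧
  ∀ α : ℝ, 0 ≤ α → α ≤ 1 - ε →
    ((((Finset.Icc 1 K).filter fun k : ℕ => α / Real.pi * Real.log K < |x k|).card : ℕ) : ℝ) ≤
      (K : ℝ) ^ (1 - α ^ 2 + ε) ∧
    (K : ℝ) ^ (1 - α ^ 2 - ε) ≤
      ((((Finset.Icc 1 K).filter fun k : ℕ => α / Real.pi * Real.log K ≤ x k).card : ℕ) : ℝ) ∧
    (K : ℝ) ^ (1 - α ^ 2 - ε) ≤
      ((((Finset.Icc 1 K).filter fun k : ℕ => x k ≤ -(α / Real.pi * Real.log K)).card : ℕ) : ℝ)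

variable {x : ℕ → ℝ} {ε : ℝ} {K : ℕ}

lemma mem_GW {q : ℤ → ℝ} : q ∈ GW ε K ↔ Cd (Sw q) ε K := Iff.rfl

lemma card_mono {A : Finset ℕ} {B : Finset ℕ} (h : A ⊆ B) : ((A.card : ℕ) : ℝ) ≤ ((B.card : ℕ) : ℝ) := by
  exact_mod_cast Finset.card_le_card h

/-- the lower count: from `2 ^ j` to `K` -/
lemma low_aux {y : ℕ → ℝ} {M : ℕ} (hε : 0 < ε) (hε1 : ε ≤ 1) (hM : 1 ≤ M) (hMK : M ≤ K)
    (hK2 : Real.log K - Real.log 2 ≤ Real.log M) (hbig : 2 ≤ ε / 8 * Real.log K)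
    (h : ∀ α : ℝ, 0 ≤ α → α ≤ 1 - ε / 8 → (M : ℝ) ^ (1 - α ^ 2 - ε / 8) ≤
      ((((Finset.Icc 1 M).filter fun k : ℕ => α / Real.pi * Real.log M ≤ y k).card : ℕ) : ℝ))
    {α : ℝ} (hα : 0 ≤ α) (hα1 : α ≤ 1 - ε) : (K : ℝ) ^ (1 - α ^ 2 - ε) ≤
      ((((Finset.Icc 1 K).filter fun k : ℕ => α / Real.pi * Real.log K ≤ y k).card : ℕ) : ℝ) := by
  have hM1 : (1 : ℝ) ≤ M := by exact_mod_cast hM
  have hMK' : (M : ℝ) ≤ K := by exact_mod_cast hMK
  have hK1 : (1 : ℝ) ≤ K := hM1.trans hMK'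
  have hM0 : (0 : ℝ) < M := by linarith
  have hK0 : (0 : ℝ) < K := by linarith
  set L := Real.log K with hL
  set l := Real.log M with hl
  have hlL : l ≤ L := Real.log_le_log hM0 hMK'
  have hlog2 : Real.log 2 ≤ 1 := by
    have := Real.log_two_lt_d9
    linarith
  have hlog2' : 0 < Real.log 2 := Real.log_pos (by norm_num)
  have hpi := Real.pi_pos
  have h1 := h (α + ε / 8) (by positivity) (by linarith)
  have h2 : ((Finset.Icc 1 M).filter fun k : ℕ => (α + ε / 8) / Real.pi * l ≤ y k) ⊆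
      (Finset.Icc 1 K).filter fun k : ℕ => α / Real.pi * L ≤ y k := by
    intro k hk
    rw [mem_filter, mem_Icc] at hk ⊢
    refine ⟨⟨hk.1.1, hk.1.2.trans hMK⟩, le_trans ?_ hk.2⟩
    rw [div_mul_eq_mul_div, div_mul_eq_mul_div]
    refine div_le_div_of_nonneg_right ?_ hpi.le
    have h3 : (α + ε / 8) * (L - 1) ≤ (α + ε / 8) * l :=
      mul_le_mul_of_nonneg_left (by linarith) (by positivity)
    nlinarith
  refine le_trans ?_ (h1.trans (card_mono h2))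
  rw [Real.rpow_def_of_pos hK0, Real.rpow_def_of_pos hM0, Real.exp_le_exp]
  have ha : 0 ≤ 1 - (α + ε / 8) ^ 2 - ε / 8 := by nlinarith
  have hb : 1 - α ^ 2 - ε + ε / 8 ≤ 1 - (α + ε / 8) ^ 2 - ε / 8 := by nlinarith
  have ha1 : 1 - (α + ε / 8) ^ 2 - ε / 8 ≤ 1 := by nlinarith
  have h4 : (L - 1) * (1 - (α + ε / 8) ^ 2 - ε / 8) ≤ l * (1 - (α + ε / 8) ^ 2 - ε / 8) :=
    mul_le_mul_of_nonneg_right (by linarith) ha
  have hL0 : 0 ≤ L := Real.log_nonneg hK1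
  have h5 : L * (1 - α ^ 2 - ε + ε / 8) ≤ L * (1 - (α + ε / 8) ^ 2 - ε / 8) :=
    mul_le_mul_of_nonneg_left hb hL0
  nlinarith

/-- the upper count: from `M` to `K ≤ M` -/
lemma up_aux {y : ℕ → ℝ} {M : ℕ} (hε : 0 < ε) (hε1 : ε ≤ 1) (hK : 1 ≤ K) (hMK : K ≤ M)
    (hK2 : Real.log M ≤ Real.log K + Real.log 2) (hbig : 2 ≤ ε / 8 * Real.log K)
    (h : ∀ α : ℝ, 0 ≤ α → α ≤ 1 - ε / 8 →
      ((((Finset.Icc 1 M).filter fun k : ℕ => α / Real.pi * Real.log M < |y k|).card : ℕ) : ℝ) ≤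
      (M : ℝ) ^ (1 - α ^ 2 + ε / 8))
    {α : ℝ} (hα : 0 ≤ α) (hα1 : α ≤ 1 - ε) :
      ((((Finset.Icc 1 K).filter fun k : ℕ => α / Real.pi * Real.log K ≤ |y k|).card : ℕ) : ℝ) ≤
      (K : ℝ) ^ (1 - α ^ 2 + ε) := by
  have hK1 : (1 : ℝ) ≤ K := by exact_mod_cast hK
  have hMK' : (K : ℝ) ≤ M := by exact_mod_cast hMK
  have hK0 : (0 : ℝ) < K := by linarith
  have hM0 : (0 : ℝ) < M := by linarith
  rcases lt_or_ge α (ε / 8) with hcase | hcase
  · have h1 : ((((Finset.Icc 1 K).filter fun k : ℕ => α / Real.pi * Real.log K ≤ |y k|).card : ℕ) : ℝ) ≤ K := by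
      have h2 := Finset.card_filter_le (Finset.Icc 1 K) fun k : ℕ => α / Real.pi * Real.log K ≤ |y k|
      rw [Nat.card_Icc, Nat.add_sub_cancel] at h2
      exact_mod_cast h2
    refine h1.trans ?_
    nth_rewrite 1 [← Real.rpow_one (K : ℝ)]
    apply Real.rpow_le_rpow_of_exponent_le hK1
    nlinarith
  set L := Real.log K with hL
  set l := Real.log M with hl
  have hlL : L ≤ l := Real.log_le_log hK0 hMK'
  have hlog2 : Real.log 2 ≤ 1 := by
    have := Real.log_two_lt_d9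
    linarith
  have hlog2' : 0 < Real.log 2 := Real.log_pos (by norm_num)
  have hpi := Real.pi_pos
  have h1 := h (α - ε / 8) (by linarith) (by linarith)
  have h2 : ((Finset.Icc 1 K).filter fun k : ℕ => α / Real.pi * L ≤ |y k|) ⊆
      (Finset.Icc 1 M).filter fun k : ℕ => (α - ε / 8) / Real.pi * l < |y k| := by
    intro k hk
    rw [mem_filter, mem_Icc] at hk ⊢
    refine ⟨⟨hk.1.1, hk.1.2.trans hMK⟩, lt_of_lt_of_le ?_ hk.2⟩
    rw [div_mul_eq_mul_div, div_mul_eq_mul_div]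
    refine div_lt_div_of_pos_right ?_ hpi
    have h3 : (α - ε / 8) * l ≤ (α - ε / 8) * (L + 1) :=
      mul_le_mul_of_nonneg_left (by linarith) (by linarith)
    nlinarith
  refine (card_mono h2).trans (h1.trans ?_)
  rw [Real.rpow_def_of_pos hK0, Real.rpow_def_of_pos hM0, Real.exp_le_exp]
  have ha : 0 ≤ 1 - (α - ε / 8) ^ 2 + ε / 8 := by nlinarith
  have hb : 1 - (α - ε / 8) ^ 2 + ε / 8 + ε / 8 ≤ 1 - α ^ 2 + ε := by nlinarith
  have ha1 : 1 - (α - ε / 8) ^ 2 + ε / 8 ≤ 2 := by nlinarith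
  have h4 : l * (1 - (α - ε / 8) ^ 2 + ε / 8) ≤ (L + 1) * (1 - (α - ε / 8) ^ 2 + ε / 8) :=
    mul_le_mul_of_nonneg_right (by linarith) ha
  have hL0 : 0 ≤ L := Real.log_nonneg hK1
  have h5 : L * (1 - (α - ε / 8) ^ 2 + ε / 8 + ε / 8) ≤ L * (1 - α ^ 2 + ε) :=
    mul_le_mul_of_nonneg_left hb hL0
  nlinarith

/-- from the strict to the non-strict version -/
lemma Cd.cs (hε : 0 < ε) (hε1 : ε ≤ 1) (hK : 1 ≤ K) (hbig : 2 ≤ ε / 8 * Real.log K)
    (h : Cd x (ε / 8) K) : Cs x ε K := by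
  have hK1 : (1 : ℝ) ≤ K := by exact_mod_cast hK
  have hL0 : 0 ≤ Real.log K := Real.log_nonneg hK1
  have hlog2' : 0 < Real.log 2 := Real.log_pos (by norm_num)
  refine ⟨fun k hk => (h.1 k hk).trans (mul_le_mul_of_nonneg_right (by linarith) hL0), fun α ha hb => ?_⟩
  refine ⟨?_, ?_, ?_⟩
  · exact up_aux hε hε1 hK le_rfl (by linarith) hbig (fun β h1 h2 => (h.2 β h1 h2).1) ha hb
  · exact low_aux hε hε1 hK le_rfl (by linarith) hbig (fun β h1 h2 => (h.2 β h1 h2).2.1) ha hb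
  · have e2 : ∀ (N : ℕ) (a : ℝ), ((Finset.Icc 1 N).filter fun k : ℕ => x k ≤ -a) =
        (Finset.Icc 1 N).filter fun k : ℕ => a ≤ -x k := fun N a =>
      Finset.filter_congr fun k _ => le_neg
    rw [e2]
    exact low_aux (y := fun k => -x k) hε hε1 hK le_rfl (by linarith) hbig
      (fun β h1 h2 => by rw [← e2]; exact (h.2 β h1 h2).2.2) ha hb

/-- **from powers of two to all lengths** -/
theorem Cs_of_dyadic (H : ∀ ε : ℝ, 0 < ε → ε ≤ 1 → ∀ᶠ j : ℕ in atTop, Cd x ε (2 ^ j)) (hε : 0 < ε)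
    (hε1 : ε ≤ 1) : ∀ᶠ K : ℕ in atTop, Cs x ε K := by
  have h1 := H (ε / 8) (by positivity) (by linarith)
  obtain ⟨j0, hj0⟩ := eventually_atTop.1 h1
  have h2 : ∀ᶠ K : ℕ in atTop, 16 / ε ≤ Real.log K :=
    (Real.tendsto_log_atTop.comp tendsto_natCast_atTop_atTop).eventually_ge_atTop _
  filter_upwards [h2, eventually_ge_atTop (2 ^ j0), eventually_ge_atTop 1] with K hK hK2 hK1
  have hbig : 2 ≤ ε / 8 * Real.log K := by
    rw [div_le_iff₀ hε] at hK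
    linarith
  set j := Nat.log 2 K with hj
  have hjj : j0 ≤ j := by
    rw [hj]
    exact Nat.le_log_of_pow_le (by norm_num) hK2
  have a1 : 2 ^ j ≤ K := Nat.pow_log_le_self 2 (by omega)
  have a2 : K < 2 ^ (j + 1) := Nat.lt_pow_succ_log_self (by norm_num) K
  have hK1' : (1 : ℝ) ≤ K := by exact_mod_cast hK1
  have hK0 : (0 : ℝ) < K := by linarith
  have hL0 : 0 ≤ Real.log K := Real.log_nonneg hK1'
  have c1 := hj0 j hjj
  have c2 := hj0 (j + 1) (by omega)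
  have hlog2 : Real.log 2 ≤ 1 := by
    have := Real.log_two_lt_d9
    linarith
  have hlog2' : 0 < Real.log 2 := Real.log_pos (by norm_num)
  have e1 : Real.log ((2 ^ (j + 1) : ℕ) : ℝ) = Real.log ((2 ^ j : ℕ) : ℝ) + Real.log 2 := by
    push_cast
    rw [pow_succ, Real.log_mul (by positivity) (by norm_num)]
  have l1 : Real.log ((2 ^ j : ℕ) : ℝ) ≤ Real.log K :=
    Real.log_le_log (by positivity) (by exact_mod_cast a1)
  have l2 : Real.log K ≤ Real.log ((2 ^ (j + 1) : ℕ) : ℝ) :=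
    Real.log_le_log hK0 (by exact_mod_cast a2.le)
  have b1 : (1 : ℕ) ≤ 2 ^ j := Nat.one_le_two_pow
  refine ⟨fun k hk => ?_, fun α ha hb => ⟨?_, ?_, ?_⟩⟩
  · rw [mem_Icc] at hk
    have h3 := c2.1 k (mem_Icc.2 ⟨hk.1, hk.2.trans a2.le⟩)
    refine h3.trans ?_
    have hpi := Real.pi_pos
    have hpi3 := Real.pi_gt_three
    have h4 : 1 / Real.pi ≤ 1 := by
      rw [div_le_iff₀ hpi]
      linarith
    have h5 : 0 < 1 / Real.pi := by positivity
    have h6 : (1 / Real.pi + ε / 8) * Real.log ((2 ^ (j + 1) : ℕ) : ℝ) ≤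
        (1 / Real.pi + ε / 8) * (Real.log K + 1) :=
      mul_le_mul_of_nonneg_left (by linarith) (by positivity)
    refine h6.trans ?_
    nlinarith
  · exact up_aux hε hε1 hK1 a2.le (by linarith) hbig (fun β h1 h2 => (c2.2 β h1 h2).1) ha hb
  · exact low_aux hε hε1 b1 a1 (by linarith) hbig (fun β h1 h2 => (c1.2 β h1 h2).2.1) ha hb
  · have e2 : ∀ (N : ℕ) (a : ℝ), ((Finset.Icc 1 N).filter fun k : ℕ => x k ≤ -a) =
        (Finset.Icc 1 N).filter fun k : ℕ => a ≤ -x k := fun N a =>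
      Finset.filter_congr fun k _ => le_neg
    rw [e2]
    exact low_aux (y := fun k => -x k) hε hε1 b1 a1 (by linarith) hbig
      (fun β h1 h2 => by rw [← e2]; exact (c1.2 β h1 h2).2.2) ha hb

end Pool.Agent.Q278.MX
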