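import Pool.Agent.Q278.MX.AH

/-!
# The maximum and the thick points: almost sure statements (helper278)
-/

set_option autoImplicit false

namespace Pool.Agent.Q278.MX

open Filter Topology Finset MeasureTheory
open Q172.ZetaLim (seen IsLim)
open Pool.Agent.Q278.GF (dl)

variable {x : ℕ → ℝ} {ε : ℝ} {K : ℕ}

lemma Cd.mono {ε' : ℝ} (h : Cd x ε' K) (hεε : ε' ≤ ε) (hK : 1 ≤ K) : Cd x ε K := by
  have hK1 : (1 : ℝ) ≤ K := by exact_mod_cast hK
  have hL0 : 0 ≤ Real.log K := Real.log_nonneg hK1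
  refine ⟨fun k hk => (h.1 k hk).trans (mul_le_mul_of_nonneg_right (by linarith) hL0), fun α ha hb => ?_⟩
  obtain ⟨h1, h2, h3⟩ := h.2 α ha (by linarith)
  refine ⟨h1.trans ?_, le_trans ?_ h2, le_trans ?_ h3⟩
  · exact Real.rpow_le_rpow_of_exponent_le hK1 (by linarith)
  · exact Real.rpow_le_rpow_of_exponent_le hK1 (by linarith)
  · exact Real.rpow_le_rpow_of_exponent_le hK1 (by linarith)

/-- **almost sure dyadic statement** -/
theorem lim_ae (RH : RiemannHypothesis) {P : ProbabilityMeasure (ℤ → ℝ)} (hP : IsLim (seen dl) P) :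
    ∀ᵐ q ∂(P : Measure (ℤ → ℝ)), ∀ ε : ℝ, 0 < ε → ε ≤ 1 → ∀ᶠ j : ℕ in atTop, Cd (Sw q) ε (2 ^ j) := by
  have h1 : ∀ m : ℕ, ∀ᵐ q ∂(P : Measure (ℤ → ℝ)), ∀ᶠ j : ℕ in atTop,
      Cd (Sw q) (1 / ((m : ℝ) + 1)) (2 ^ j) := by
    intro m
    have hm : (0 : ℝ) < 1 / ((m : ℝ) + 1) := by positivity
    have hm1 : 1 / ((m : ℝ) + 1) ≤ 1 := by
      rw [div_le_one (by positivity)]
      linarith [(Nat.cast_nonneg m : (0 : ℝ) ≤ m)]
    obtain ⟨c, K0, hc, h⟩ := lim_rate RH hm hm1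
    have h2 := ae_eventually_notMem (μ := (P : Measure (ℤ → ℝ)))
      (s := fun j : ℕ => (GW (1 / ((m : ℝ) + 1)) (2 ^ (j + K0)))ᶜ) ?_
    · filter_upwards [h2] with q hq
      rw [← Filter.map_add_atTop_eq_nat K0, Filter.eventually_map]
      filter_upwards [hq] with j hj
      rw [Set.notMem_compl_iff] at hj
      exact hj
    · have h3 : ∀ j : ℕ, (P : Measure (ℤ → ℝ)) (GW (1 / ((m : ℝ) + 1)) (2 ^ (j + K0)))ᶜ ≤
          ENNReal.ofReal (((2 : ℝ) ^ (-c)) ^ j) := by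
        intro j
        have h4 : K0 ≤ 2 ^ (j + K0) :=
          ((Nat.lt_two_pow_self).le).trans (Nat.pow_le_pow_right (by norm_num) (Nat.le_add_left _ _))
        have h5 := h (2 ^ (j + K0)) h4 P hP
        have h6 : (((2 ^ (j + K0) : ℕ) : ℝ)) ^ (-c) ≤ ((2 : ℝ) ^ (-c)) ^ j := by
          have e1 : (((2 ^ (j + K0) : ℕ) : ℝ)) ^ (-c) = (2 : ℝ) ^ (-c * ((j + K0 : ℕ) : ℝ)) := by
            push_cast
            rw [← Real.rpow_natCast 2 (j + K0), ← Real.rpow_mul (by norm_num)]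
            congr 1
            push_cast
            ring
          rw [e1, ← Real.rpow_natCast ((2 : ℝ) ^ (-c)) j, ← Real.rpow_mul (by norm_num)]
          apply Real.rpow_le_rpow_of_exponent_le (by norm_num)
          push_cast
          have : 0 ≤ c * (K0 : ℝ) := by positivity
          linarith
        have h7 := h5.trans h6
        rw [Measure.real] at h7
        exact (ENNReal.le_ofReal_iff_toReal_le (measure_ne_top _ _) (by positivity)).2 h7
      have h8 : Summable fun j : ℕ => ((2 : ℝ) ^ (-c)) ^ j := by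
        refine summable_geometric_of_lt_one (by positivity) ?_
        exact Real.rpow_lt_one_of_one_lt_of_neg (by norm_num) (by linarith)
      refine ne_of_lt (lt_of_le_of_lt (ENNReal.tsum_le_tsum h3) ?_)
      exact lt_top_iff_ne_top.2 h8.tsum_ofReal_ne_top
  rw [← ae_all_iff] at h1
  filter_upwards [h1] with q hq ε hε hε1
  obtain ⟨m, hm⟩ := exists_nat_one_div_lt hε
  filter_upwards [hq m] with j hj
  exact hj.mono hm.le Nat.one_le_two_pow

/-- **almost sure statement for all lengths** -/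
theorem lim_ae' (RH : RiemannHypothesis) {P : ProbabilityMeasure (ℤ → ℝ)} (hP : IsLim (seen dl) P) :
    ∀ᵐ q ∂(P : Measure (ℤ → ℝ)), ∀ ε : ℝ, 0 < ε → ε ≤ 1 → ∀ᶠ K : ℕ in atTop, Cs (Sw q) ε K := by
  filter_upwards [lim_ae RH hP] with q hq ε hε hε1
  exact Cs_of_dyadic hq hε hε1

/-- **the rate for the non-strict version** -/
theorem lim_rate' (RH : RiemannHypothesis) {ε : ℝ} (hε : 0 < ε) (hε1 : ε ≤ 1) :
    ∃ (c : ℝ) (K0 : ℕ), 0 < c ∧ ∀ K : ℕ, K0 ≤ K → ∀ P : ProbabilityMeasure (ℤ → ℝ),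
      IsLim (seen dl) P → (P : Measure (ℤ → ℝ)).real {q | ¬Cs (Sw q) ε K} ≤ (K : ℝ) ^ (-c) := by
  obtain ⟨c, K0, hc, h⟩ := lim_rate RH (ε := ε / 8) (by positivity) (by linarith)
  have h2 : ∀ᶠ K : ℕ in atTop, 16 / ε ≤ Real.log K :=
    (Real.tendsto_log_atTop.comp tendsto_natCast_atTop_atTop).eventually_ge_atTop _
  obtain ⟨K1, hK1⟩ := eventually_atTop.1 h2
  refine ⟨c, max (max K0 K1) 1, hc, fun K hK P hP => ?_⟩
  have a1 : K0 ≤ K := ((le_max_left _ _).trans (le_max_left _ _)).trans hK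
  have a2 : K1 ≤ K := ((le_max_right _ _).trans (le_max_left _ _)).trans hK
  have a3 : 1 ≤ K := (le_max_right _ _).trans hK
  have hbig : 2 ≤ ε / 8 * Real.log K := by
    have := hK1 K a2
    rw [div_le_iff₀ hε] at this
    linarith
  refine le_trans (measureReal_mono ?_) (h K a1 P hP)
  intro q hq hq2
  exact hq (Cd.cs hε hε1 a3 hbig hq2)

/-! ### deterministic consequences -/

lemma Cs.neg (h : Cs x ε K) : Cs (fun k => -x k) ε K := by
  have e2 : ∀ (N : ℕ) (a : ℝ), ((Finset.Icc 1 N).filter fun k : ℕ => x k ≤ -a) =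
      (Finset.Icc 1 N).filter fun k : ℕ => a ≤ -x k := fun N a =>
    Finset.filter_congr fun k _ => le_neg
  have e3 : ∀ (N : ℕ) (a : ℝ), ((Finset.Icc 1 N).filter fun k : ℕ => a ≤ x k) =
      (Finset.Icc 1 N).filter fun k : ℕ => -x k ≤ -a := fun N a =>
    Finset.filter_congr fun k _ => neg_le_neg_iff.symm
  refine ⟨fun k hk => ?_, fun α ha hb => ?_⟩
  · rw [abs_neg]
    exact h.1 k hk
  · obtain ⟨h1, h2, h3⟩ := h.2 α ha hb
    simp only [abs_neg]
    rw [e2] at h3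
    rw [e3] at h2
    exact ⟨h1, h3, h2⟩

/-- some sum is large -/
lemma Cs.exists_large (h : Cs x ε K) (hε : 0 < ε) (hε1 : ε ≤ 1) (hK : 1 ≤ K) :
    ∃ k, 1 ≤ k ∧ k ≤ K ∧ (1 - ε) / Real.pi * Real.log K ≤ x k := by
  have hK1 : (1 : ℝ) ≤ K := by exact_mod_cast hK
  have h1 := (h.2 (1 - ε) (by linarith) le_rfl).2.1
  have h2 : (1 : ℝ) ≤ (K : ℝ) ^ (1 - (1 - ε) ^ 2 - ε) := Real.one_le_rpow hK1 (by nlinarith)
  have h3 : (0 : ℝ) < ((((Finset.Icc 1 K).filter fun k : ℕ =>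
    (1 - ε) / Real.pi * Real.log K ≤ x k).card : ℕ) : ℝ) := by linarith
  rw [Nat.cast_pos, Finset.card_pos] at h3
  obtain ⟨k, hk⟩ := h3
  rw [mem_filter, mem_Icc] at hk
  exact ⟨k, hk.1.1, hk.1.2, hk.2⟩

/-- the maximum -/
theorem sup_tendsto (H : ∀ ε : ℝ, 0 < ε → ε ≤ 1 → ∀ᶠ K : ℕ in atTop, Cs x ε K) :
    Tendsto (fun K : ℕ => sSup (x '' Set.Icc 1 K) / Real.log K) atTop (𝓝 (1 / Real.pi)) := by
  rw [Metric.tendsto_nhds]
  intro η hη
  obtain ⟨ε, hε, hε1, hεη⟩ : ∃ ε : ℝ, 0 < ε ∧ ε ≤ 1 ∧ ε < η :=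
    ⟨min 1 (η / 2), lt_min one_pos (by positivity), min_le_left _ _,
      lt_of_le_of_lt (min_le_right _ _) (by linarith)⟩
  filter_upwards [H ε hε hε1, eventually_ge_atTop 2] with K h hK
  have hK1 : (1 : ℝ) < K := by exact_mod_cast (by omega : 1 < K)
  have hL : 0 < Real.log K := Real.log_pos hK1
  have hpi := Real.pi_pos
  have hpi3 := Real.pi_gt_three
  obtain ⟨k, hk1, hk2, hk3⟩ := h.exists_large hε hε1 (by omega)
  have hbdd : BddAbove (x '' Set.Icc 1 K) := (Set.finite_Icc 1 K).image x |>.bddAbove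
  have h1 : (1 - ε) / Real.pi * Real.log K ≤ sSup (x '' Set.Icc 1 K) :=
    hk3.trans (le_csSup hbdd ⟨k, ⟨hk1, hk2⟩, rfl⟩)
  have h2 : sSup (x '' Set.Icc 1 K) ≤ (1 / Real.pi + ε) * Real.log K := by
    refine csSup_le ⟨x 1, 1, ⟨le_rfl, by omega⟩, rfl⟩ ?_
    rintro _ ⟨i, hi, rfl⟩
    exact (le_abs_self _).trans (h.1 i (mem_Icc.2 ⟨hi.1, hi.2⟩))
  rw [Real.dist_eq, abs_lt]
  constructor
  · have h3 : (1 - ε) / Real.pi ≤ sSup (x '' Set.Icc 1 K) / Real.log K := by
      rw [le_div_iff₀ hL]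
      exact h1
    have h4 : (1 - ε) / Real.pi = 1 / Real.pi - ε / Real.pi := by ring
    have h5 : ε / Real.pi ≤ ε := div_le_self hε.le (by linarith)
    linarith
  · have h3 : sSup (x '' Set.Icc 1 K) / Real.log K ≤ 1 / Real.pi + ε := by
      rw [div_le_iff₀ hL]
      exact h2
    linarith

/-- the minimum -/
theorem inf_tendsto (H : ∀ ε : ℝ, 0 < ε → ε ≤ 1 → ∀ᶠ K : ℕ in atTop, Cs x ε K) :
    Tendsto (fun K : ℕ => sInf (x '' Set.Icc 1 K) / Real.log K) atTop (𝓝 (-(1 / Real.pi))) := by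
  have h1 := (sup_tendsto (x := fun k => -x k) fun ε h h' => (H ε h h').mono fun K hK => hK.neg).neg
  refine h1.congr fun K => ?_
  rw [Real.sInf_def, neg_div]
  congr 3
  ext y
  simp only [Set.mem_image, Set.mem_neg]
  constructor
  · rintro ⟨k, hk, rfl⟩
    exact ⟨k, hk, by ring⟩
  · rintro ⟨k, hk, h2⟩
    exact ⟨k, hk, by rw [h2]; ring⟩

/-- the upper limit -/
theorem limsup_one (H : ∀ ε : ℝ, 0 < ε → ε ≤ 1 → ∀ᶠ K : ℕ in atTop, Cs x ε K) :
    limsup (fun k : ℕ => x k / Real.log k) atTop = 1 / Real.pi := by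
  have hpi := Real.pi_pos
  have hpi3 := Real.pi_gt_three
  have hub : ∀ ε : ℝ, 0 < ε → ε ≤ 1 → ∀ᶠ k : ℕ in atTop, |x k / Real.log k| ≤ 1 / Real.pi + ε := by
    intro ε hε hε1
    filter_upwards [H ε hε hε1, eventually_ge_atTop 2] with K h hK
    have hK1 : (1 : ℝ) < K := by exact_mod_cast (by omega : 1 < K)
    have hL : 0 < Real.log K := Real.log_pos hK1
    rw [abs_div, abs_of_pos hL, div_le_iff₀ hL]
    exact h.1 K (mem_Icc.2 ⟨by omega, le_rfl⟩)
  have hb1 : IsBoundedUnder (· ≤ ·) atTop fun k : ℕ => x k / Real.log k :=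
    ⟨1 / Real.pi + 1, (hub 1 one_pos le_rfl).mono fun k hk => (le_abs_self _).trans hk⟩
  have hb2 : IsBoundedUnder (· ≥ ·) atTop fun k : ℕ => x k / Real.log k :=
    ⟨-(1 / Real.pi + 1), (hub 1 one_pos le_rfl).mono fun k hk => (abs_le.1 hk).1⟩
  apply le_antisymm
  · refine le_of_forall_pos_le_add fun η hη => ?_
    refine limsup_le_of_le hb2.isCoboundedUnder_le ?_
    have h1 := hub (min 1 η) (lt_min one_pos hη) (min_le_left _ _)
    filter_upwards [h1] with k hk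
    refine (le_abs_self _).trans (hk.trans ?_)
    linarith [min_le_right 1 η]
  · refine le_of_forall_pos_le_add fun η hη => ?_
    rw [← sub_le_iff_le_add]
    refine le_limsup_of_frequently_le ?_ hb1
    obtain ⟨ε, hε, hε1, hεη⟩ : ∃ ε : ℝ, 0 < ε ∧ ε < 1 ∧ ε < η :=
      ⟨min (1 / 2) (η / 2), lt_min (by norm_num) (by positivity),
        lt_of_le_of_lt (min_le_left _ _) (by norm_num),
        lt_of_le_of_lt (min_le_right _ _) (by linarith)⟩
    rw [frequently_atTop]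
    intro k0
    set B : ℝ := ∑ i ∈ Finset.range (k0 + 2), |x i| with hB
    have hc : 0 < (1 - ε) / Real.pi := div_pos (by linarith) hpi
    have h2 : ∀ᶠ K : ℕ in atTop, (B + 1) / ((1 - ε) / Real.pi) ≤ Real.log K :=
      (Real.tendsto_log_atTop.comp tendsto_natCast_atTop_atTop).eventually_ge_atTop _
    obtain ⟨K, hK1, hK2, hK3⟩ := ((H ε hε hε1.le).and (h2.and (eventually_ge_atTop 2))).exists
    obtain ⟨k, hk1, hk2, hk3⟩ := hK1.exists_large hε hε1.le (by omega)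
    rw [div_le_iff₀ hc] at hK2
    have hk0 : k0 + 1 < k := by
      by_contra hcon
      have h3 : |x k| ≤ B := Finset.single_le_sum (f := fun i => |x i|) (fun i _ => abs_nonneg _)
        (Finset.mem_range.2 (by omega))
      have h4 := le_abs_self (x k)
      linarith
    refine ⟨k, by omega, ?_⟩
    have hB0 : 0 ≤ B := Finset.sum_nonneg fun i _ => abs_nonneg _
    have hxk : 0 < x k := by linarith
    have hk1' : (1 : ℝ) ≤ k := by exact_mod_cast hk1
    have hlk : Real.log k ≤ Real.log K := Real.log_le_log (by linarith) (by exact_mod_cast hk2)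
    have h5 : 1 / Real.pi - η ≤ (1 - ε) / Real.pi := by
      have h4 : (1 - ε) / Real.pi = 1 / Real.pi - ε / Real.pi := by ring
      have h6 : ε / Real.pi ≤ ε := div_le_self hε.le (by linarith)
      linarith
    have h0 : 0 < Real.log k := Real.log_pos (by exact_mod_cast (by omega : 1 < k))
    rw [le_div_iff₀ h0]
    have h7 : (1 - ε) / Real.pi * Real.log k ≤ (1 - ε) / Real.pi * Real.log K :=
      mul_le_mul_of_nonneg_left hlk hc.le
    have h8 := mul_le_mul_of_nonneg_right h5 h0.le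
    linarith

/-- the lower limit -/
theorem liminf_one (H : ∀ ε : ℝ, 0 < ε → ε ≤ 1 → ∀ᶠ K : ℕ in atTop, Cs x ε K) :
    liminf (fun k : ℕ => x k / Real.log k) atTop = -(1 / Real.pi) := by
  have h1 := limsup_one (x := fun k => -x k) fun ε h h' => (H ε h h').mono fun K hK => hK.neg
  have h2 : (fun k : ℕ => -x k / Real.log k) = fun k : ℕ => -(x k / Real.log k) := by
    funext k
    rw [neg_div]
  rw [h2] at h1
  rw [← h1, liminf_eq, limsup_eq, Real.sInf_def, neg_neg]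
  congr 1
  ext a
  simp only [Set.mem_ofPred_eq, Set.mem_neg, neg_le_neg_iff]

/-- the thick points -/
theorem thick_tendsto (H : ∀ ε : ℝ, 0 < ε → ε ≤ 1 → ∀ᶠ K : ℕ in atTop, Cs x ε K) {α : ℝ}
    (hα : 0 ≤ α) (hα1 : α < 1) :
    Tendsto (fun K : ℕ => Real.log ((((Finset.Icc 1 K).filter fun k : ℕ =>
      α / Real.pi * Real.log K ≤ x k).card : ℕ) : ℝ) / Real.log K) atTop (𝓝 (1 - α ^ 2)) := by
  rw [Metric.tendsto_nhds]
  intro η hη
  obtain ⟨ε, hε, hε1, hεη, hεα⟩ : ∃ ε : ℝ, 0 < ε ∧ ε ≤ 1 ∧ ε < η ∧ α ≤ 1 - ε :=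
    ⟨min (1 - α) (min 1 (η / 2)), lt_min (by linarith) (lt_min one_pos (by positivity)),
      (min_le_right _ _).trans (min_le_left _ _),
      lt_of_le_of_lt ((min_le_right _ _).trans (min_le_right _ _)) (by linarith),
      by linarith [min_le_left (1 - α) (min 1 (η / 2))]⟩
  filter_upwards [H ε hε hε1, eventually_ge_atTop 2] with K h hK
  have hK1 : (1 : ℝ) < K := by exact_mod_cast (by omega : 1 < K)
  have hK0 : (0 : ℝ) < K := by linarith
  have hL : 0 < Real.log K := Real.log_pos hK1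
  obtain ⟨h1, h2, h3⟩ := h.2 α hα hεα
  have h4 : ((Finset.Icc 1 K).filter fun k : ℕ => α / Real.pi * Real.log K ≤ x k) ⊆
      (Finset.Icc 1 K).filter fun k : ℕ => α / Real.pi * Real.log K ≤ |x k| := by
    intro k hk
    rw [mem_filter] at hk ⊢
    exact ⟨hk.1, hk.2.trans (le_abs_self _)⟩
  have h5 := (card_mono h4).trans h1
  set C : ℝ := ((((Finset.Icc 1 K).filter fun k : ℕ => α / Real.pi * Real.log K ≤ x k).card : ℕ) : ℝ)
    with hC
  have hC0 : 0 < C := lt_of_lt_of_le (Real.rpow_pos_of_pos hK0 _) h2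
  have a1 : (1 - α ^ 2 - ε) * Real.log K ≤ Real.log C := by
    rw [← Real.log_rpow hK0]
    exact Real.log_le_log (Real.rpow_pos_of_pos hK0 _) h2
  have a2 : Real.log C ≤ (1 - α ^ 2 + ε) * Real.log K := by
    rw [← Real.log_rpow hK0]
    exact Real.log_le_log hC0 h5
  rw [Real.dist_eq, abs_lt]
  constructor
  · have : 1 - α ^ 2 - ε ≤ Real.log C / Real.log K := by
      rw [le_div_iff₀ hL]
      exact a1
    linarith
  · have : Real.log C / Real.log K ≤ 1 - α ^ 2 + ε := by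
      rw [div_le_iff₀ hL]
      exact a2
    linarith

end Pool.Agent.Q278.MX
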