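import Pool.Agent.Q278.MX.A

/-!
# The explicit formula for a general band-limited kernel, under RH: the prime side (helper278)
-/

set_option autoImplicit false

namespace Pool.Agent.Q278.MX

open Filter Topology MeasureTheory Complex
open scoped ComplexConjugate
open H370 (Zf mult mem_Zf good_zeta AA)
open Pool.Agent.Q278.MC

variable {p : ℝ → ℂ} {B K0 Λ : ℝ}

/-- the explicit formula -/
theorem expl_rh (RH : RiemannHypothesis) : ∃ C T0 : ℝ, 0 < C ∧ 10 ≤ T0 ∧
    ∀ T : ℝ, T0 ≤ T → ∃ U1 U2 : ℝ, T ≤ U1 ∧ U1 ≤ T + 1 ∧ 2 * T - 1 ≤ U2 ∧ U2 ≤ 2 * T ∧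
      ∀ (p : ℝ → ℂ) (B K0 Λ a : ℝ), Kn p B K0 Λ → 0 < B → B ≤ 1 → 2 * Real.pi * a = Real.log T →
        16 ≤ B * Real.log T → ∀ X : ℕ, 2 * (B * Real.log T) ≤ Real.log (X + 1) →
        ∀ t : ℝ, T + Real.log T ≤ t → t ≤ 2 * T - Real.log T →
        |(∑ s ∈ Zf riemannZeta U1 U2, mz s *
            (Real.exp (-(s.im - t) ^ 2 / 2) * (ftk p (a * (s.im - t))).re)) -
          ((p 0).re - (DP (dk p a) X t).re)| ≤ C * (K0 + Λ) / Real.log T := by
  obtain ⟨C, T0, hC, hT0, h⟩ := expl_pt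
  have hpi := Real.pi_pos
  refine ⟨4 * C + 4, T0, by positivity, hT0, fun T hT => ?_⟩
  obtain ⟨U1, U2, h1, h2, h3, h4, h5⟩ := h T hT
  refine ⟨U1, U2, h1, h2, h3, h4, fun p B K0 Λ a hk hB hB1 haL hBU X hX t ht1 ht2 => ?_⟩
  have hl : 0 < Real.log T := Real.log_pos (by linarith)
  have hA : 1 ≤ U1 := by linarith
  have hw : 0 < 2 * Real.pi * a := by rw [haL]; exact hl
  have ha0 : 0 < a := by
    by_contra hc
    push Not at hc
    have : 2 * Real.pi * a ≤ 0 := mul_nonpos_of_nonneg_of_nonpos (by positivity) hc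
    linarith
  set U : ℝ := B * Real.log T with hU
  have hUl : U ≤ Real.log T := mul_le_of_le_one_left hl.le hB1
  have hK := hk.bd0
  have hL := hk.lip0
  -- the zero side
  have hJi := Jp_int (a := a) (B' := U2) (t := t) hk hA
  have hz := zero_side RH hk (a := a) (B' := U2) (t := t) hA
  have hz2 : (∫ ξ, Jp p a U1 U2 t ξ).re = ∑ s ∈ Zf riemannZeta U1 U2, mz s *
            (Real.exp (-(s.im - t) ^ 2 / 2) * (ftk p (a * (s.im - t))).re) := by
    rw [hz, Complex.re_sum]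
    refine Finset.sum_congr rfl fun s _ => ?_
    rw [Complex.re_ofReal_mul, Complex.re_ofReal_mul]
  have hJ2 : (∫ ξ, Jp p a U1 U2 t ξ).re = 2 * (∫ ξ in Set.Ioi (0 : ℝ), Jp p a U1 U2 t ξ).re := by
    rw [herm hJi (Jp_neg hk hA), Complex.ofReal_re]
  -- the model
  have ig := gk_int hk a
  have hMfe : ∀ ξ : ℝ, p ξ * Mf a (Real.log T) X t ξ = (c0 : ℂ) * ((Real.log T : ℂ) *
      (p ξ * ((gw a 0 ξ : ℝ) : ℂ)) - ∑ n ∈ Finset.Icc 1 X,
    ((ArithmeticFunction.vonMangoldt n * (Real.sqrt n)⁻¹ : ℝ) : ℂ) * (n : ℂ) ^ (-(t : ℂ) * I) *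
      (p ξ * ((gw a (Real.log n) ξ : ℝ) : ℂ))) := by
    intro ξ
    unfold Mf
    rw [mul_left_comm, mul_sub, Finset.mul_sum]
    congr 2
    · ring
    · exact Finset.sum_congr rfl fun n _ => by ring
  have iM : Integrable (fun ξ : ℝ => p ξ * Mf a (Real.log T) X t ξ) := by
    simp_rw [hMfe]
    refine (((ig 0).const_mul _).sub ?_).const_mul _
    exact integrable_finsetSum _ fun n _ => (ig _).const_mul _
  have hM : 2 * (∫ ξ in Set.Ioi (0 : ℝ), p ξ * Mf a (Real.log T) X t ξ).re =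
      2 * c0 * Real.log T * (qk p a 0).re - (DP (dk p a) X t).re := by
    have e1 : ∫ ξ in Set.Ioi (0 : ℝ), p ξ * Mf a (Real.log T) X t ξ = (c0 : ℂ) *
        ((Real.log T : ℂ) * qk p a 0 - ∑ n ∈ Finset.Icc 1 X,
        ((ArithmeticFunction.vonMangoldt n * (Real.sqrt n)⁻¹ : ℝ) : ℂ) * (n : ℂ) ^ (-(t : ℂ) * I) *
        qk p a (Real.log n)) := by
      simp_rw [hMfe]
      rw [integral_const_mul, integral_sub ((ig 0).const_mul _).integrableOn
        (integrable_finsetSum _ fun n _ => (ig _).const_mul _).integrableOn, integral_const_mul,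
        integral_finsetSum _ fun n _ => ((ig _).const_mul _).integrableOn]
      congr 2
      refine Finset.sum_congr rfl fun n _ => ?_
      rw [integral_const_mul]
      rfl
    have e2 : (2 : ℂ) * ((c0 : ℂ) * ((Real.log T : ℂ) * qk p a 0 - ∑ n ∈ Finset.Icc 1 X,
        ((ArithmeticFunction.vonMangoldt n * (Real.sqrt n)⁻¹ : ℝ) : ℂ) * (n : ℂ) ^ (-(t : ℂ) * I) *
        qk p a (Real.log n))) =
        ((2 * c0 * Real.log T : ℝ) : ℂ) * qk p a 0 - DP (dk p a) X t := by
      unfold DP dk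
      rw [← mul_assoc, mul_sub, Finset.mul_sum]
      congr 1
      · push_cast; ring
      · refine Finset.sum_congr rfl fun n _ => ?_
        push_cast
        ring
    have e3 := congrArg Complex.re e2
    rw [Complex.sub_re, Complex.re_ofReal_mul, ← e1] at e3
    rw [← e3]
    simp
  -- the difference
  have hdiff : ‖(∫ ξ in Set.Ioi (0 : ℝ), Jp p a U1 U2 t ξ) -
      ∫ ξ in Set.Ioi (0 : ℝ), p ξ * Mf a (Real.log T) X t ξ‖ ≤ 2 * (K0 * C) / Real.log T := by
    rw [← integral_sub hJi.integrableOn iM.integrableOn]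
    obtain ⟨x1, x2⟩ := exp_half (b := 2 * Real.pi * a) hw
    have e0 : ∀ ξ : ℝ, 0 < ξ → ‖Jp p a U1 U2 t ξ - p ξ * Mf a (Real.log T) X t ξ‖ ≤
        K0 * C * (Real.exp (-(ξ * (2 * Real.pi * a)))) +
          (Set.Ioc (0 : ℝ) B).indicator (fun _ => K0 * C * Real.exp (-U)) ξ := by
      intro ξ hξ0
      have e1 : Jp p a U1 U2 t ξ - p ξ * Mf a (Real.log T) X t ξ =
          p ξ * (cexp (-(I * ((ξ * (2 * Real.pi * a) * t : ℝ) : ℂ))) *
            AA riemannZeta U1 U2 (ξ * (2 * Real.pi * a)) t - Mf a (Real.log T) X t ξ) := by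
        unfold Jp
        ring
      rw [e1]
      by_cases hz : B < ξ
      · have : p ξ = 0 := hk.supp ξ (by rw [abs_of_pos hξ0]; exact hz)
        rw [this, zero_mul, norm_zero]
        have : 0 ≤ (Set.Ioc (0 : ℝ) B).indicator (fun _ => K0 * C * Real.exp (-U)) ξ :=
          Set.indicator_nonneg (fun _ _ => by positivity) _
        positivity
      · push Not at hz
        have hξU : ξ * (2 * Real.pi * a) ≤ U := by
          rw [haL]
          exact mul_le_mul_of_nonneg_right hz hl.le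
        have g1 := h5 a U ξ t ha0 hBU hUl hξ0.le hξU X hX ht1 ht2
        rw [Set.indicator_of_mem (show ξ ∈ Set.Ioc (0 : ℝ) B from ⟨hξ0, hz⟩), norm_mul]
        calc ‖p ξ‖ * ‖_‖ ≤ K0 * (C * (Real.exp (-(ξ * (2 * Real.pi * a))) + Real.exp (-U))) :=
              mul_le_mul (hk.bd ξ) g1 (norm_nonneg _) hK
          _ = _ := by ring
    have i3 : Integrable ((Set.Ioc (0 : ℝ) B).indicator (fun _ => K0 * C * Real.exp (-U))) :=
      (integrable_indicator_iff measurableSet_Ioc).2 (by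
        rw [integrableOn_const_iff]
        right
        simp)
    have igl : IntegrableOn (fun ξ : ℝ => K0 * C * Real.exp (-(ξ * (2 * Real.pi * a))) +
        (Set.Ioc (0 : ℝ) B).indicator (fun _ => K0 * C * Real.exp (-U)) ξ) (Set.Ioi 0) :=
      Integrable.add (x1.const_mul _) i3.integrableOn
    refine (norm_integral_le_of_norm_le igl ?_).trans ?_
    · exact (ae_restrict_iff' measurableSet_Ioi).2 (Eventually.of_forall fun ξ hξ => e0 ξ hξ)
    · rw [integral_add (x1.const_mul _) i3.integrableOn, integral_const_mul, x2]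
      have e2 : ∫ ξ in Set.Ioi (0 : ℝ), (Set.Ioc (0 : ℝ) B).indicator
          (fun _ => K0 * C * Real.exp (-U)) ξ ≤ B * (K0 * C * Real.exp (-U)) := by
        refine (setIntegral_le_integral i3 (Eventually.of_forall fun ξ =>
          Set.indicator_nonneg (fun _ _ => by positivity) _)).trans (le_of_eq ?_)
        rw [integral_indicator measurableSet_Ioc, setIntegral_const, Measure.real, Real.volume_Ioc,
          ENNReal.toReal_ofReal (by linarith), smul_eq_mul]
        ring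
      have e4 : B * Real.exp (-U) ≤ 1 / Real.log T := by
        rw [le_div_iff₀ hl]
        have h6 := Real.add_one_le_exp U
        have h7 : Real.exp (-U) * Real.exp U = 1 := by rw [← Real.exp_add]; simp
        have h8 := Real.exp_pos (-U)
        calc B * Real.exp (-U) * Real.log T = U * Real.exp (-U) := by rw [hU]; ring
          _ ≤ Real.exp U * Real.exp (-U) := mul_le_mul_of_nonneg_right (by linarith) h8.le
          _ = 1 := by rw [mul_comm]; exact h7
      rw [haL]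
      have hKC : 0 ≤ K0 * C := by positivity
      calc K0 * C * (1 / Real.log T) + (∫ ξ in Set.Ioi (0 : ℝ), (Set.Ioc (0 : ℝ) B).indicator
          (fun _ => K0 * C * Real.exp (-U)) ξ)
          ≤ K0 * C * (1 / Real.log T) + K0 * C * (1 / Real.log T) := by
            have := mul_le_mul_of_nonneg_left e4 hKC
            linarith
        _ = _ := by ring
  -- conclusion
  have hmain := main_term hk ha0
  rw [haL] at hmain
  rw [← hz2, hJ2]
  have e7 : 2 * (∫ ξ in Set.Ioi (0 : ℝ), Jp p a U1 U2 t ξ).re - ((p 0).re - (DP (dk p a) X t).re) =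
      2 * ((∫ ξ in Set.Ioi (0 : ℝ), Jp p a U1 U2 t ξ) -
        ∫ ξ in Set.Ioi (0 : ℝ), p ξ * Mf a (Real.log T) X t ξ).re +
      (2 * c0 * Real.log T * (qk p a 0).re - (p 0).re) := by
    rw [Complex.sub_re, mul_sub, hM]
    ring
  rw [e7]
  have e8 : |2 * ((∫ ξ in Set.Ioi (0 : ℝ), Jp p a U1 U2 t ξ) -
        ∫ ξ in Set.Ioi (0 : ℝ), p ξ * Mf a (Real.log T) X t ξ).re| ≤
      2 * (2 * (K0 * C) / Real.log T) := by
    rw [abs_mul, abs_of_pos (by norm_num : (0 : ℝ) < 2)]
    exact mul_le_mul_of_nonneg_left ((Complex.abs_re_le_norm _).trans hdiff) (by norm_num)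
  refine (abs_add_le _ _).trans ((add_le_add e8 hmain).trans ?_)
  rw [← mul_div_assoc, ← add_div]
  refine div_le_div_of_nonneg_right ?_ hl.le
  nlinarith [mul_nonneg hC.le hL, hK]

/-- the coefficients on the primes -/
noncomputable def ck (p : ℝ → ℂ) (w : ℝ) (n : ℕ) : ℂ :=
  if n.Prime then ((2 * (Real.log n * (Real.sqrt n)⁻¹) / w : ℝ) : ℂ) * p (Real.log n / w) else 0

/-- the remainder coefficients are small -/
theorem rem_sum : ∃ C : ℝ, 0 < C ∧ ∀ (p : ℝ → ℂ) (B K0 Λ a : ℝ), Kn p B K0 Λ → 0 < a →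
    ∀ X : ℕ, 1 ≤ X → 1 + Real.log X ≤ 4 * (2 * Real.pi * a) →
    ∑ n ∈ Finset.Icc 1 X, ‖dk p a n - ck p (2 * Real.pi * a) n‖ ^ 2 ≤
      C * (K0 ^ 2 + Λ ^ 2) / (2 * Real.pi * a) ^ 2 := by
  obtain ⟨C3, hC3, h3⟩ := H370.A2.Dn_sum
  set S0 : ℝ := ∑' n : ℕ, (ArithmeticFunction.vonMangoldt n) ^ 2 / n *
    Real.exp (-(Real.log n) ^ 2 / 8) with hS0
  have hS00 : 0 ≤ S0 := tsum_nonneg fun n => by positivity
  refine ⟨8 * S0 + 8 * C3 + 128 * 16 * 16 + 1, by positivity,
    fun p B K0 Λ a hk ha X hX hXa => ?_⟩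
  have hpi := Real.pi_pos
  set w : ℝ := 2 * Real.pi * a with hwd
  have hw : 0 < w := by positivity
  have hlX : 0 ≤ Real.log X := Real.log_nonneg (by exact_mod_cast hX)
  have hK := hk.bd0
  have hL := hk.lip0
  have hterm : ∀ n ∈ Finset.Icc 1 X, ‖dk p a n - ck p w n‖ ^ 2 ≤
      8 * K0 ^ 2 / w ^ 2 * ((ArithmeticFunction.vonMangoldt n) ^ 2 / n *
        Real.exp (-(Real.log n) ^ 2 / 8)) +
      128 * Λ ^ 2 / w ^ 4 * ((ArithmeticFunction.vonMangoldt n) ^ 2 / n) +
      8 * K0 ^ 2 / w ^ 2 * (H370.A2.Dn n / n * Real.log n) := by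
    intro n hn
    rw [Finset.mem_Icc] at hn
    have hn0 : (0 : ℝ) < n := by exact_mod_cast hn.1
    have hn1 : (1 : ℝ) ≤ n := by exact_mod_cast hn.1
    have hln : 0 ≤ Real.log n := Real.log_nonneg hn1
    have hL0 : 0 ≤ ArithmeticFunction.vonMangoldt n := ArithmeticFunction.vonMangoldt_nonneg
    have hL1 : ArithmeticFunction.vonMangoldt n ≤ Real.log n := ArithmeticFunction.vonMangoldt_le_log
    set m : ℝ := ArithmeticFunction.vonMangoldt n * (Real.sqrt n)⁻¹ with hm
    have hm0 : 0 ≤ m := by positivity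
    have hm2 : m ^ 2 = (ArithmeticFunction.vonMangoldt n) ^ 2 / n := by
      rw [hm, mul_pow, inv_pow, Real.sq_sqrt hn0.le]; rfl
    have hq0 : 0 ≤ (ArithmeticFunction.vonMangoldt n) ^ 2 / n := by positivity
    by_cases hp : n.Prime
    · have e1 : dk p a n - ck p w n = ((2 * m : ℝ) : ℂ) * ((c0 : ℂ) * qk p a (Real.log n) -
          ((1 / w : ℝ) : ℂ) * p (Real.log n / w)) := by
        unfold dk ck
        rw [if_pos hp, ← hm]
        have : m = Real.log n * (Real.sqrt n)⁻¹ := by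
          rw [hm, ArithmeticFunction.vonMangoldt_apply_prime hp]
        rw [← this]
        push_cast
        ring
      have g1 := qk_err hk ha hln
      rw [← hwd] at g1
      have g2 : ‖dk p a n - ck p w n‖ ≤
          2 * m * (4 * Λ / w ^ 2 + K0 * Real.exp (-(Real.log n) ^ 2 / 2) / w) := by
        rw [e1, norm_mul, Complex.norm_real, Real.norm_of_nonneg (by positivity)]
        exact mul_le_mul_of_nonneg_left g1 (by positivity)
      have g3 : Real.exp (-(Real.log n) ^ 2 / 2) ^ 2 ≤ Real.exp (-(Real.log n) ^ 2 / 8) := by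
        rw [← Real.exp_nat_mul]
        apply Real.exp_le_exp.2
        push_cast
        nlinarith [sq_nonneg (Real.log n)]
      have g4 : 0 ≤ H370.A2.Dn n / n * Real.log n := by
        unfold H370.A2.Dn
        rw [if_pos hp]
        simp
      have g5 : (4 * Λ / w ^ 2 + K0 * Real.exp (-(Real.log n) ^ 2 / 2) / w) ^ 2 ≤
          32 * Λ ^ 2 / w ^ 4 + 2 * K0 ^ 2 / w ^ 2 * Real.exp (-(Real.log n) ^ 2 / 8) := by
        refine (sq_add_le _ _).trans (add_le_add (le_of_eq (by field_simp; ring)) ?_)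
        calc 2 * (K0 * Real.exp (-(Real.log n) ^ 2 / 2) / w) ^ 2 =
              2 * K0 ^ 2 / w ^ 2 * Real.exp (-(Real.log n) ^ 2 / 2) ^ 2 := by field_simp
          _ ≤ _ := mul_le_mul_of_nonneg_left g3 (by positivity)
      have g6 : 0 ≤ 8 * K0 ^ 2 / w ^ 2 * (H370.A2.Dn n / n * Real.log n) := by positivity
      calc ‖dk p a n - ck p w n‖ ^ 2 ≤ (2 * m * (4 * Λ / w ^ 2 +
            K0 * Real.exp (-(Real.log n) ^ 2 / 2) / w)) ^ 2 := pow_le_pow_left₀ (norm_nonneg _) g2 2
        _ = 4 * m ^ 2 * (4 * Λ / w ^ 2 + K0 * Real.exp (-(Real.log n) ^ 2 / 2) / w) ^ 2 := by ring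
        _ ≤ 4 * m ^ 2 * (32 * Λ ^ 2 / w ^ 4 +
              2 * K0 ^ 2 / w ^ 2 * Real.exp (-(Real.log n) ^ 2 / 8)) :=
            mul_le_mul_of_nonneg_left g5 (by positivity)
        _ = 8 * K0 ^ 2 / w ^ 2 * (m ^ 2 * Real.exp (-(Real.log n) ^ 2 / 8)) +
            128 * Λ ^ 2 / w ^ 4 * m ^ 2 := by ring
        _ ≤ _ := by rw [hm2]; linarith
    · have e1 : dk p a n - ck p w n = ((2 * m : ℝ) : ℂ) * ((c0 : ℂ) * qk p a (Real.log n)) := by
        unfold dk ck
        rw [if_neg hp, ← hm]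
        push_cast
        ring
      have g1 := qk_le hk ha (Real.log n)
      rw [← hwd] at g1
      have g2 : ‖dk p a n - ck p w n‖ ≤ 2 * m * (K0 / w) := by
        rw [e1, norm_mul, norm_mul, Complex.norm_real, Complex.norm_real,
          Real.norm_of_nonneg (by positivity), Real.norm_of_nonneg c0_pos.le]
        exact mul_le_mul_of_nonneg_left g1 (by positivity)
      have g3 : m ^ 2 ≤ H370.A2.Dn n / n * Real.log n := by
        rw [hm2]
        unfold H370.A2.Dn
        rw [if_neg hp, sq, mul_div_assoc, mul_comm (ArithmeticFunction.vonMangoldt n / n)]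
        have h9 : 0 ≤ ArithmeticFunction.vonMangoldt n / n := by positivity
        exact mul_le_mul_of_nonneg_right hL1 h9
      have g4 : 0 ≤ 8 * K0 ^ 2 / w ^ 2 * ((ArithmeticFunction.vonMangoldt n) ^ 2 / n *
        Real.exp (-(Real.log n) ^ 2 / 8)) := by positivity
      have g5 : 0 ≤ 128 * Λ ^ 2 / w ^ 4 * ((ArithmeticFunction.vonMangoldt n) ^ 2 / n) := by positivity
      calc ‖dk p a n - ck p w n‖ ^ 2 ≤ (2 * m * (K0 / w)) ^ 2 :=
            pow_le_pow_left₀ (norm_nonneg _) g2 2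
        _ = 4 * K0 ^ 2 / w ^ 2 * m ^ 2 := by ring
        _ ≤ 4 * K0 ^ 2 / w ^ 2 * (H370.A2.Dn n / n * Real.log n) :=
            mul_le_mul_of_nonneg_left g3 (by positivity)
        _ ≤ 8 * K0 ^ 2 / w ^ 2 * (H370.A2.Dn n / n * Real.log n) := by
            have h9 : 0 ≤ H370.A2.Dn n / n * Real.log n := (sq_nonneg m).trans g3
            exact mul_le_mul_of_nonneg_right (by
              apply div_le_div_of_nonneg_right _ (by positivity)
              nlinarith [sq_nonneg K0]) h9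
        _ ≤ _ := by linarith
  refine (Finset.sum_le_sum hterm).trans ?_
  rw [Finset.sum_add_distrib, Finset.sum_add_distrib, ← Finset.mul_sum, ← Finset.mul_sum,
    ← Finset.mul_sum]
  have s1 : ∑ n ∈ Finset.Icc 1 X, ((ArithmeticFunction.vonMangoldt n) ^ 2 / n *
        Real.exp (-(Real.log n) ^ 2 / 8)) ≤ S0 :=
    H370.nt_summable.sum_le_tsum _ fun n _ => by positivity
  have s2 : ∑ n ∈ Finset.Icc 1 X, ((ArithmeticFunction.vonMangoldt n) ^ 2 / n) ≤
      16 * (1 + Real.log X) ^ 2 := by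
    refine (H370.lam_sq_sum_nat X hX).trans ?_
    nlinarith
  have s2' : ∑ n ∈ Finset.Icc 1 X, ((ArithmeticFunction.vonMangoldt n) ^ 2 / n) ≤ 16 * (16 * w ^ 2) := by
    refine s2.trans (mul_le_mul_of_nonneg_left ?_ (by norm_num))
    calc (1 + Real.log X) ^ 2 ≤ (4 * w) ^ 2 := pow_le_pow_left₀ (by linarith) hXa 2
      _ = _ := by ring
  have s3 := h3 X hX
  calc _ ≤ 8 * K0 ^ 2 / w ^ 2 * S0 + 128 * Λ ^ 2 / w ^ 4 * (16 * (16 * w ^ 2)) +
        8 * K0 ^ 2 / w ^ 2 * C3 :=
        add_le_add (add_le_add (mul_le_mul_of_nonneg_left s1 (by positivity))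
          (mul_le_mul_of_nonneg_left s2' (by positivity))) (mul_le_mul_of_nonneg_left s3 (by positivity))
    _ = ((8 * S0 + 8 * C3) * K0 ^ 2 + 128 * 16 * 16 * Λ ^ 2) / w ^ 2 := by
        field_simp
        ring
    _ ≤ _ := by
        apply div_le_div_of_nonneg_right _ (by positivity)
        nlinarith [sq_nonneg K0, sq_nonneg Λ, mul_nonneg hS00 (sq_nonneg Λ),
          mul_nonneg hC3 (sq_nonneg Λ), mul_nonneg hS00 (sq_nonneg K0),
          mul_nonneg hC3 (sq_nonneg K0)]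

end Pool.Agent.Q278.MX
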