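import Pool.Agent.Q278.MX.A

/-!
# The Fejer type kernel and the smooth cut-off (helper278)
-/

set_option autoImplicit false

namespace Pool.Agent.Q278.MX

open Filter Topology MeasureTheory Complex
open scoped ComplexConjugate FourierTransform
open Pool.Agent.Q278.MC

variable {p : ℝ → ℂ} {B K0 Λ : ℝ}

lemma ftk_real (h : Kn p B K0 Λ) (v : ℝ) : ftk p v = (((ftk p v).re : ℝ) : ℂ) := by
  have h1 : conj (ftk p v) = ftk p v := by
    have e : ftk p v = ∫ ξ : ℝ, p (-ξ) * cexp (I * ((-ξ * (2 * Real.pi * v) : ℝ) : ℂ)) := by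
      unfold ftk
      exact (integral_neg_eq_self (fun ξ : ℝ => p ξ * cexp (I * ((ξ * (2 * Real.pi * v) : ℝ) : ℂ)))
        volume).symm
    conv_lhs => rw [e, ← integral_conj]
    unfold ftk
    congr 1
    funext ξ
    rw [map_mul, h.herm, Complex.conj_conj, ← Complex.exp_conj, map_mul, Complex.conj_I,
      Complex.conj_ofReal]
    congr 2
    push_cast
    ring
  exact (Complex.conj_eq_iff_re.1 h1).symm

/-- the triangle -/
noncomputable def tri (ξ : ℝ) : ℝ := max (1 - |ξ|) 0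

lemma tri_nonneg (ξ : ℝ) : 0 ≤ tri ξ := le_max_right _ _

lemma tri_le (ξ : ℝ) : tri ξ ≤ 1 := max_le (by linarith [abs_nonneg ξ]) zero_le_one

lemma tri_zero {ξ : ℝ} (h : 1 ≤ |ξ|) : tri ξ = 0 := max_eq_right (by linarith)

lemma tri_neg (ξ : ℝ) : tri (-ξ) = tri ξ := by unfold tri; rw [abs_neg]

lemma tri_lip (ξ η : ℝ) : |tri ξ - tri η| ≤ |ξ - η| := by
  unfold tri
  refine (abs_max_sub_max_le_abs _ _ _).trans ?_
  rw [show 1 - |ξ| - (1 - |η|) = -(|ξ| - |η|) by ring, abs_neg]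
  exact abs_abs_sub_abs_le ξ η

/-- complex version -/
noncomputable def trC (ξ : ℝ) : ℂ := ((tri ξ : ℝ) : ℂ)

lemma trC_kn : Kn trC 1 1 1 := by
  refine ⟨fun ξ h => ?_, fun ξ => ?_, fun ξ η => ?_, fun ξ => ?_⟩
  · unfold trC
    rw [tri_zero h.le, Complex.ofReal_zero]
  · unfold trC
    rw [Complex.norm_real, Real.norm_of_nonneg (tri_nonneg ξ)]
    exact tri_le ξ
  · unfold trC
    rw [← Complex.ofReal_sub, Complex.norm_real, Real.norm_eq_abs, one_mul]
    exact tri_lip ξ η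
  · unfold trC
    rw [tri_neg, Complex.conj_ofReal]

/-- the Fejer kernel -/
noncomputable def Fr (v : ℝ) : ℝ := (ftk trC v).re

lemma Fr_eq (v : ℝ) : ftk trC v = ((Fr v : ℝ) : ℂ) := ftk_real trC_kn v

lemma Fr_sin (v : ℝ) : (Real.pi * v) ^ 2 * Fr v = Real.sin (Real.pi * v) ^ 2 := by
  by_cases hv : v = 0
  · rw [hv]; simp
  have hpi := Real.pi_pos
  set c : ℝ := 2 * Real.pi * v with hc
  have hc0 : c ≠ 0 := by rw [hc]; positivity
  have hcc : (c : ℂ) ≠ 0 := by exact_mod_cast hc0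
  have hcC : (I * (c : ℂ)) ≠ 0 := mul_ne_zero Complex.I_ne_zero hcc
  have hE : ∀ ξ : ℝ, HasDerivAt (fun ξ : ℝ => cexp (I * ((ξ * c : ℝ) : ℂ)))
      ((I * c) * cexp (I * ((ξ * c : ℝ) : ℂ))) ξ := by
    intro ξ
    have h3 : HasDerivAt (fun ξ : ℝ => ((ξ * c : ℝ) : ℂ)) ((1 * c : ℝ) : ℂ) ξ :=
      ((hasDerivAt_id ξ).mul_const c).ofReal_comp
    have h4 := (h3.const_mul I).cexp
    rw [mul_comm (cexp _), one_mul] at h4
    exact h4
  set E : ℝ → ℂ := fun ξ => cexp (I * ((ξ * c : ℝ) : ℂ)) with hEd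
  have hEc : Continuous E := by rw [hEd]; fun_prop
  have d1 : ∀ ξ : ℝ, HasDerivAt (fun ξ : ℝ => (1 - (ξ : ℂ)) * E ξ / (I * c) + E ξ / (I * c) ^ 2)
      ((1 - (ξ : ℂ)) * E ξ) ξ := by
    intro ξ
    have h1 : HasDerivAt (fun ξ : ℝ => (1 - (ξ : ℂ))) (-1) ξ := by
      have := (hasDerivAt_id ξ).ofReal_comp.const_sub (1 : ℂ)
      simpa using this
    have h2 := ((h1.mul (hE ξ)).div_const (I * c)).add ((hE ξ).div_const ((I * c) ^ 2))
    refine h2.congr_deriv ?_
    simp only [hEd]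
    field_simp
    ring
  have d2 : ∀ ξ : ℝ, HasDerivAt (fun ξ : ℝ => (1 + (ξ : ℂ)) * E ξ / (I * c) - E ξ / (I * c) ^ 2)
      ((1 + (ξ : ℂ)) * E ξ) ξ := by
    intro ξ
    have h1 : HasDerivAt (fun ξ : ℝ => (1 + (ξ : ℂ))) 1 ξ := by
      have := (hasDerivAt_id ξ).ofReal_comp.const_add (1 : ℂ)
      simpa using this
    have h2 := ((h1.mul (hE ξ)).div_const (I * c)).sub ((hE ξ).div_const ((I * c) ^ 2))
    refine h2.congr_deriv ?_
    simp only [hEd]
    field_simp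
    ring
  have hsup : Function.support (fun ξ : ℝ => trC ξ * E ξ) ⊆ Set.Ioc (-1) 1 := by
    intro ξ hξ
    rw [Function.mem_support] at hξ
    by_contra hcon
    apply hξ
    unfold trC
    rw [tri_zero, Complex.ofReal_zero, zero_mul]
    rw [le_abs]
    rw [Set.mem_Ioc, not_and_or, not_lt, not_le] at hcon
    rcases hcon with h | h
    · right; linarith
    · left; linarith
  have e1 : ftk trC v = ∫ ξ in (-1 : ℝ)..1, trC ξ * E ξ := by
    rw [intervalIntegral.integral_eq_integral_of_support_subset hsup]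
    rfl
  have hcont : Continuous fun ξ : ℝ => trC ξ * E ξ := trC_kn.cont.mul hEc
  have e2 : ∫ ξ in (-1 : ℝ)..1, trC ξ * E ξ = (∫ ξ in (-1 : ℝ)..0, (1 + (ξ : ℂ)) * E ξ) +
      ∫ ξ in (0 : ℝ)..1, (1 - (ξ : ℂ)) * E ξ := by
    rw [← intervalIntegral.integral_add_adjacent_intervals (b := 0) (hcont.intervalIntegrable _ _)
      (hcont.intervalIntegrable _ _)]
    congr 1
    · apply intervalIntegral.integral_congr
      intro ξ hξ
      rw [Set.uIcc_of_le (by norm_num)] at hξ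
      have : tri ξ = 1 + ξ := by
        unfold tri
        rw [abs_of_nonpos hξ.2, max_eq_left (by linarith [hξ.1])]
        ring
      simp only [trC, this]
      push_cast
      ring
    · apply intervalIntegral.integral_congr
      intro ξ hξ
      rw [Set.uIcc_of_le (by norm_num)] at hξ
      have : tri ξ = 1 - ξ := by
        unfold tri
        rw [abs_of_nonneg hξ.1, max_eq_left (by linarith [hξ.2])]
      simp only [trC, this]
      push_cast
      ring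
  have e3 : ∫ ξ in (-1 : ℝ)..0, (1 + (ξ : ℂ)) * E ξ = _ :=
    intervalIntegral.integral_eq_sub_of_hasDerivAt (fun ξ _ => d2 ξ)
      ((Continuous.mul (by fun_prop) hEc).intervalIntegrable _ _)
  have e4 : ∫ ξ in (0 : ℝ)..1, (1 - (ξ : ℂ)) * E ξ = _ :=
    intervalIntegral.integral_eq_sub_of_hasDerivAt (fun ξ _ => d1 ξ)
      ((Continuous.mul (by fun_prop) hEc).intervalIntegrable _ _)
  have hE1 : E 1 + E (-1) = ((2 * Real.cos c : ℝ) : ℂ) := by
    simp only [hEd]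
    rw [show I * ((1 * c : ℝ) : ℂ) = ((c : ℝ) : ℂ) * I by push_cast; ring,
      show I * ((-1 * c : ℝ) : ℂ) = ((-c : ℝ) : ℂ) * I by push_cast; ring,
      Complex.exp_mul_I, Complex.exp_mul_I]
    push_cast
    rw [Complex.cos_neg, Complex.sin_neg]
    ring
  have hE0 : E 0 = 1 := by simp [hEd]
  have e5 : ftk trC v = (E 1 + E (-1) - 2) / (I * c) ^ 2 := by
    rw [e1, e2, e3, e4, hE0]
    push_cast
    field_simp
    ring
  have e6 : (((Real.pi * v) ^ 2 * Fr v : ℝ) : ℂ) = ((Real.sin (Real.pi * v) ^ 2 : ℝ) : ℂ) := by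
    rw [Complex.ofReal_mul, ← Fr_eq, e5, hE1]
    have hcos : Real.cos c = 1 - 2 * Real.sin (Real.pi * v) ^ 2 := by
      rw [hc, show 2 * Real.pi * v = 2 * (Real.pi * v) by ring, Real.cos_two_mul, Real.cos_sq']
      ring
    have hI : (I * (c : ℂ)) ^ 2 = -((c ^ 2 : ℝ) : ℂ) := by
      rw [mul_pow, Complex.I_sq]; push_cast; ring
    rw [hI, hcos, hc]
    have hv' : (v : ℂ) ≠ 0 := by exact_mod_cast hv
    have hp' : (Real.pi : ℂ) ≠ 0 := by exact_mod_cast hpi.ne'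
    push_cast
    field_simp
    ring
  exact_mod_cast e6

lemma Fr_nonneg (v : ℝ) : 0 ≤ Fr v := by
  by_cases hv : v = 0
  · rw [hv]
    unfold Fr ftk
    have : ∀ ξ : ℝ, trC ξ * cexp (I * ((ξ * (2 * Real.pi * 0) : ℝ) : ℂ)) = ((tri ξ : ℝ) : ℂ) := by
      intro ξ
      simp [trC]
    simp_rw [this]
    have e9 : ∫ ξ : ℝ, ((tri ξ : ℝ) : ℂ) = ((∫ ξ : ℝ, tri ξ : ℝ) : ℂ) := integral_ofReal
    rw [e9, Complex.ofReal_re]
    exact integral_nonneg tri_nonneg
  · have hpi := Real.pi_pos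
    have h1 := Fr_sin v
    have h2 : 0 < (Real.pi * v) ^ 2 := by positivity
    by_contra hc
    push Not at hc
    have h3 : (Real.pi * v) ^ 2 * Fr v < 0 := mul_neg_of_pos_of_neg h2 hc
    have h4 := sq_nonneg (Real.sin (Real.pi * v))
    linarith

/-- the Fourier side of the positive kernel -/
noncomputable def qq (ξ : ℝ) : ℂ := ((tri ξ * (1 + Real.cos (Real.pi * ξ)) : ℝ) : ℂ)

/-- the positive kernel -/
noncomputable def ps (w : ℝ) : ℝ := Fr w + (Fr (w + 1 / 2) + Fr (w - 1 / 2)) / 2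

lemma qq_kn : Kn qq 1 2 6 := by
  have hpi := Real.pi_pos
  have hcos : ∀ x : ℝ, 0 ≤ 1 + Real.cos x ∧ 1 + Real.cos x ≤ 2 := fun x =>
    ⟨by linarith [Real.neg_one_le_cos x], by linarith [Real.cos_le_one x]⟩
  refine ⟨fun ξ h => ?_, fun ξ => ?_, fun ξ η => ?_, fun ξ => ?_⟩
  · unfold qq
    rw [tri_zero h.le, zero_mul, Complex.ofReal_zero]
  · unfold qq
    rw [Complex.norm_real, Real.norm_of_nonneg (mul_nonneg (tri_nonneg ξ) (hcos _).1)]
    nlinarith [tri_nonneg ξ, tri_le ξ, (hcos (Real.pi * ξ)).1, (hcos (Real.pi * ξ)).2]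
  · unfold qq
    rw [← Complex.ofReal_sub, Complex.norm_real, Real.norm_eq_abs]
    have e : tri ξ * (1 + Real.cos (Real.pi * ξ)) - tri η * (1 + Real.cos (Real.pi * η)) =
        (tri ξ - tri η) * (1 + Real.cos (Real.pi * ξ)) +
          tri η * (Real.cos (Real.pi * ξ) - Real.cos (Real.pi * η)) := by ring
    have h1 := tri_lip ξ η
    have h2 : |Real.cos (Real.pi * ξ) - Real.cos (Real.pi * η)| ≤ 4 * |ξ - η| := by
      have h3 := Real.abs_cos_sub_cos_le (Real.pi * ξ) (Real.pi * η)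
      refine h3.trans ?_
      rw [← mul_sub, abs_mul, abs_of_pos hpi]
      exact mul_le_mul_of_nonneg_right Real.pi_lt_four.le (abs_nonneg _)
    rw [e]
    refine (abs_add_le _ _).trans ?_
    rw [abs_mul, abs_mul, abs_of_nonneg (hcos _).1, abs_of_nonneg (tri_nonneg η)]
    have h4 := abs_nonneg (ξ - η)
    calc |tri ξ - tri η| * (1 + Real.cos (Real.pi * ξ)) +
          tri η * |Real.cos (Real.pi * ξ) - Real.cos (Real.pi * η)| ≤
          |ξ - η| * 2 + 1 * (4 * |ξ - η|) :=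
          add_le_add (mul_le_mul h1 (hcos _).2 (hcos _).1 h4)
            (mul_le_mul (tri_le η) h2 (abs_nonneg _) zero_le_one)
      _ = _ := by ring
  · unfold qq
    rw [tri_neg, Complex.conj_ofReal, mul_neg, Real.cos_neg]

lemma ps_eq (w : ℝ) : ftk qq w = ((ps w : ℝ) : ℂ) := by
  have hpi := Real.pi_pos
  unfold ps
  push_cast
  rw [← Fr_eq, ← Fr_eq, ← Fr_eq]
  have hi : ∀ v : ℝ, Integrable fun ξ : ℝ => trC ξ * cexp (I * ((ξ * (2 * Real.pi * v) : ℝ) : ℂ)) :=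
    fun v => trC_kn.int_mul (by fun_prop)
  unfold ftk
  have j1 := integral_add (hi (w + 1 / 2)) (hi (w - 1 / 2))
  have j2 := integral_add (hi w) (((hi (w + 1 / 2)).add (hi (w - 1 / 2))).div_const 2)
  rw [← j1, ← integral_div]
  simp only [Pi.add_apply] at j2
  rw [← j2]
  congr 1
  funext ξ
  unfold qq trC
  have e1 : ((Real.cos (Real.pi * ξ) : ℝ) : ℂ) = (cexp (I * ((ξ * Real.pi : ℝ) : ℂ)) +
      cexp (-(I * ((ξ * Real.pi : ℝ) : ℂ)))) / 2 := by
    rw [Complex.ofReal_cos, Complex.cos]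
    congr 2
    · congr 1; push_cast; ring
    · congr 1; push_cast; ring
  have e2 : cexp (I * ((ξ * (2 * Real.pi * (w + 1 / 2)) : ℝ) : ℂ)) =
      cexp (I * ((ξ * Real.pi : ℝ) : ℂ)) * cexp (I * ((ξ * (2 * Real.pi * w) : ℝ) : ℂ)) := by
    rw [← Complex.exp_add]; congr 1; push_cast; ring
  have e3 : cexp (I * ((ξ * (2 * Real.pi * (w - 1 / 2)) : ℝ) : ℂ)) =
      cexp (-(I * ((ξ * Real.pi : ℝ) : ℂ))) * cexp (I * ((ξ * (2 * Real.pi * w) : ℝ) : ℂ)) := by
    rw [← Complex.exp_add]; congr 1; push_cast; ring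
  rw [e2, e3, Complex.ofReal_mul, Complex.ofReal_add, e1, Complex.ofReal_one]
  ring

/-- the lower bound of the positive kernel -/
lemma ps_low (w : ℝ) : 1 / (20 * (1 + w ^ 2)) ≤ ps w := by
  have hpi := Real.pi_pos
  have h1 := Fr_sin w
  have h2 := Fr_sin (w + 1 / 2)
  have h3 := Fr_sin (w - 1 / 2)
  have n1 := Fr_nonneg w
  have n2 := Fr_nonneg (w + 1 / 2)
  have n3 := Fr_nonneg (w - 1 / 2)
  have s2 : Real.sin (Real.pi * (w + 1 / 2)) ^ 2 = Real.cos (Real.pi * w) ^ 2 := by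
    rw [show Real.pi * (w + 1 / 2) = Real.pi * w + Real.pi / 2 by ring, Real.sin_add_pi_div_two]
  have s3 : Real.sin (Real.pi * (w - 1 / 2)) ^ 2 = Real.cos (Real.pi * w) ^ 2 := by
    rw [show Real.pi * (w - 1 / 2) = Real.pi * w - Real.pi / 2 by ring, Real.sin_sub_pi_div_two]
    ring
  rw [s2] at h2
  rw [s3] at h3
  have hs := Real.sin_sq_add_cos_sq (Real.pi * w)
  set D : ℝ := Real.pi ^ 2 * (2 * (1 + w ^ 2)) with hD
  have hD0 : 0 < D := by positivity
  have k1 : Real.sin (Real.pi * w) ^ 2 ≤ D * Fr w := by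
    rw [← h1]
    refine mul_le_mul_of_nonneg_right ?_ n1
    rw [hD, mul_pow]
    refine mul_le_mul_of_nonneg_left ?_ (by positivity)
    nlinarith [sq_nonneg w]
  have k2 : Real.cos (Real.pi * w) ^ 2 ≤ D * Fr (w + 1 / 2) := by
    rw [← h2]
    refine mul_le_mul_of_nonneg_right ?_ n2
    rw [hD, mul_pow]
    refine mul_le_mul_of_nonneg_left ?_ (by positivity)
    nlinarith [sq_nonneg (w - 1 / 2)]
  have k3 : Real.cos (Real.pi * w) ^ 2 ≤ D * Fr (w - 1 / 2) := by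
    rw [← h3]
    refine mul_le_mul_of_nonneg_right ?_ n3
    rw [hD, mul_pow]
    refine mul_le_mul_of_nonneg_left ?_ (by positivity)
    nlinarith [sq_nonneg (w + 1 / 2)]
  have k4 : 1 ≤ D * ps w := by
    unfold ps
    have : D * (Fr w + (Fr (w + 1 / 2) + Fr (w - 1 / 2)) / 2) =
        D * Fr w + (D * Fr (w + 1 / 2) + D * Fr (w - 1 / 2)) / 2 := by ring
    rw [this]
    linarith
  have k5 : D ≤ 20 * (1 + w ^ 2) := by
    have hp2 : Real.pi ^ 2 ≤ 10 := by
      have := Real.pi_lt_d2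
      nlinarith
    rw [hD]
    nlinarith [sq_nonneg w]
  have k6 : 0 ≤ ps w := by unfold ps; positivity
  rw [div_le_iff₀ (by positivity)]
  calc 1 ≤ D * ps w := k4
    _ ≤ (20 * (1 + w ^ 2)) * ps w := mul_le_mul_of_nonneg_right k5 k6
    _ = _ := mul_comm _ _

/-- the cut-off is a kernel -/
lemma ch_kn : ∃ Λ : ℝ, 1 ≤ Λ ∧ Kn ch 2 1 Λ := by
  obtain ⟨B, hB, hc, -⟩ := ch_cut
  refine ⟨B, hB, fun ξ h => ?_, fun ξ => ch_norm ξ, fun ξ η => ?_, fun ξ => ?_⟩
  · unfold ch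
    rw [chi_zero h.le, Complex.ofReal_zero]
  · have h1 := Convex.norm_image_sub_le_of_norm_hasDerivWithin_le (s := Set.univ) (f := ch)
      (f' := deriv ch) (C := B) (fun x _ => (hc.h1 x).hasDerivWithinAt) (fun x _ => hc.b1 x)
      convex_univ (Set.mem_univ η) (Set.mem_univ ξ)
    rwa [Real.norm_eq_abs] at h1
  · rw [ch_neg]
    unfold ch
    rw [Complex.conj_ofReal]

/-- the smooth unit mass -/
noncomputable def ph (v : ℝ) : ℝ := (ftk ch v).re

lemma ph_eq (v : ℝ) : ftk ch v = ((ph v : ℝ) : ℂ) := by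
  obtain ⟨Λ, -, h⟩ := ch_kn
  exact ftk_real h v

lemma ftk_four (g : ℝ → ℂ) (v : ℝ) : ftk g v = 𝓕 g (-v) := ft_eq g v

lemma ph_cont : Continuous ph := by
  have h1 : Continuous (𝓕 ch) := by
    have := four_cont ch_cc 0
    have e0 : gs ch 0 = ch := by funext x; unfold gs; simp
    rwa [e0] at this
  have h2 : ph = fun v => (𝓕 ch (-v)).re := by
    funext v
    unfold ph
    rw [ftk_four]
  rw [h2]
  exact Complex.continuous_re.comp (h1.comp continuous_neg)

lemma ph_bound : ∃ K : ℝ, 0 < K ∧ ∀ v : ℝ, |ph v| ≤ K * (1 + v ^ 2)⁻¹ ^ 3 := by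
  obtain ⟨K, hK, h⟩ := four_bound ch_cc
  refine ⟨K, hK, fun v => ?_⟩
  have h1 := h (-v)
  rw [← ftk_four, neg_sq] at h1
  exact (Complex.abs_re_le_norm _).trans h1

lemma ph_int : Integrable ph := by
  obtain ⟨K, hK, h⟩ := ph_bound
  exact (inv_cube_int.const_mul K).mono' ph_cont.aestronglyMeasurable (Eventually.of_forall h)

lemma ph_one : ∫ v, ph v = 1 := by
  obtain ⟨K, hK, h⟩ := four_bound ch_cc
  have hc : Continuous (𝓕 ch) := by
    have := four_cont ch_cc 0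
    have e0 : gs ch 0 = ch := by funext x; unfold gs; simp
    rwa [e0] at this
  have hi : Integrable (𝓕 ch) :=
    (inv_cube_int.const_mul K).mono' hc.aestronglyMeasurable (Eventually.of_forall h)
  have h1 := ch_cc.int.fourierInv_fourier_eq hi (v := 0) ch_cc.cont.continuousAt
  rw [Real.fourierInv_eq'] at h1
  have h2 : ((∫ v, ph v : ℝ) : ℂ) = 1 := by
    have e8 : ∫ v : ℝ, ((ph v : ℝ) : ℂ) = ((∫ v : ℝ, ph v : ℝ) : ℂ) := integral_ofReal
    rw [← e8]
    have e1 : ∀ v : ℝ, ((ph v : ℝ) : ℂ) = 𝓕 ch (-v) := fun v => by rw [← ph_eq, ftk_four]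
    simp_rw [e1]
    rw [integral_neg_eq_self (fun v => 𝓕 ch v) volume]
    have e2 : ch 0 = 1 := by
      unfold ch
      rw [chi_one (by simp), Complex.ofReal_one]
    rw [← e2, ← h1]
    congr 1
    funext v
    simp
  exact_mod_cast h2

end Pool.Agent.Q278.MX
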