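import Pool.Agent.Q278.MX.B
import Pool.Agent.Q278.MX.D
import Pool.Agent.Q278.GF.G

/-!
# The number of zeros in a short interval and the prime sums, under RH (helper278)
-/

set_option autoImplicit false

namespace Pool.Agent.Q278.MX

open Filter Topology MeasureTheory Complex
open scoped ComplexConjugate
open H370 (Zf mult mem_Zf good_zeta AA)
open Pool.Agent.Q278.MC
open Pool.Agent.Y744 (Zt mem_Zt)
open Pool.Agent.Q278.GF (sum_ord cnt_NZ sc)

/-- the count as a sum over the zeros -/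
lemma count_eq {U1 U2 t a x : ℝ} (hU1 : 1 ≤ U1) (ht : U1 < t) (ha : 0 < a) (hx : 0 ≤ x)
    (hU2 : t + x / a ≤ U2) (hord : ∀ n : ℕ, SG.ord n ≠ t) :
    ∑ s ∈ Zf riemannZeta U1 U2, mz s * (Set.Icc 0 x).indicator (fun _ => (1 : ℝ)) (a * (s.im - t)) =
      (SG.NZ (t + x / a) : ℝ) - SG.NZ t := by
  classical
  have hmem : ∀ y : ℝ, a * (y - t) ∈ Set.Icc 0 x ↔ t ≤ y ∧ y ≤ t + x / a := by
    intro y
    rw [Set.mem_Icc]
    constructor
    · rintro ⟨h1, h2⟩
      have h3 : 0 ≤ y - t := by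
        by_contra hc
        push Not at hc
        nlinarith
      refine ⟨by linarith, ?_⟩
      rw [← sub_le_iff_le_add', le_div_iff₀ ha, mul_comm]
      exact h2
    · rintro ⟨h1, h2⟩
      rw [← sub_le_iff_le_add', le_div_iff₀ ha, mul_comm] at h2
      exact ⟨mul_nonneg ha.le (by linarith), h2⟩
  have e1 := sum_ord U2 fun y => (Set.Icc 0 x).indicator (fun _ => (1 : ℝ)) (a * (y - t))
  have e2 : ∑ s ∈ Zt U2, mz s * (Set.Icc 0 x).indicator (fun _ => (1 : ℝ)) (a * (s.im - t)) =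
      ∑ s ∈ Zf riemannZeta U1 U2, mz s * (Set.Icc 0 x).indicator (fun _ => (1 : ℝ)) (a * (s.im - t)) := by
    symm
    apply Finset.sum_subset
    · intro s hs
      rw [mem_Zf good_zeta hU1] at hs
      obtain ⟨k1, k2, k3, k4, k5⟩ := hs
      rw [mem_Zt]
      exact ⟨k1, k2, by linarith, k4, k5⟩
    · intro s hs hs'
      rw [mem_Zt] at hs
      obtain ⟨k1, k2, k3, k4, k5⟩ := hs
      rw [Set.indicator_of_notMem, mul_zero]
      intro hc
      rw [hmem] at hc
      apply hs'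
      rw [mem_Zf good_zeta hU1]
      exact ⟨k1, k2, by linarith [hc.1], k4, k5⟩
  rw [← e2, e1]
  have hle1 : SG.NZ t ≤ SG.NZ (t + x / a) := cnt_NZ.mono (by have := div_nonneg hx ha.le; linarith)
  have hle2 : SG.NZ (t + x / a) ≤ SG.NZ U2 := cnt_NZ.mono hU2
  have e3 : ∀ n ∈ Finset.Ioc 0 (SG.NZ U2), (Set.Icc 0 x).indicator (fun _ => (1 : ℝ))
      (a * (SG.ord n - t)) = if n ∈ Finset.Ioc (SG.NZ t) (SG.NZ (t + x / a)) then 1 else 0 := by
    intro n hn
    rw [Finset.mem_Ioc] at hn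
    have hn1 : 1 ≤ n := hn.1
    have h1 := cnt_NZ n hn1 t
    have h2 := cnt_NZ n hn1 (t + x / a)
    by_cases hc : n ∈ Finset.Ioc (SG.NZ t) (SG.NZ (t + x / a))
    · rw [if_pos hc, Set.indicator_of_mem]
      rw [Finset.mem_Ioc] at hc
      rw [hmem]
      refine ⟨?_, h2.2 hc.2⟩
      by_contra h3
      push Not at h3
      have := h1.1 h3.le
      omega
    · rw [if_neg hc, Set.indicator_of_notMem]
      intro h3
      rw [hmem] at h3
      apply hc
      rw [Finset.mem_Ioc]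
      refine ⟨?_, h2.1 h3.2⟩
      by_contra h4
      push Not at h4
      have h5 := h1.2 h4
      exact hord n (le_antisymm h5 h3.1)
  rw [Finset.sum_congr rfl e3, Finset.sum_ite_mem, Finset.sum_const, nsmul_eq_mul, mul_one]
  have e4 : Finset.Ioc 0 (SG.NZ U2) ∩ Finset.Ioc (SG.NZ t) (SG.NZ (t + x / a)) =
      Finset.Ioc (SG.NZ t) (SG.NZ (t + x / a)) := by
    apply Finset.inter_eq_right.2
    intro n hn
    rw [Finset.mem_Ioc] at hn ⊢
    omega
  rw [e4, Nat.card_Ioc, Nat.cast_sub hle1]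

/-- the number of zeros in a short interval, under RH -/
theorem count_prime (RH : RiemannHypothesis) : ∃ C T0 : ℝ, 1 ≤ C ∧ 10 ≤ T0 ∧
    ∀ T : ℝ, T0 ≤ T → ∀ ℓ x : ℝ, 2 ≤ ℓ → 0 ≤ x → (ℓ + x) ^ 3 ≤ Real.log T →
      8 * ℓ ≤ Real.log T → ∀ X : ℕ, 4 * Real.log T / ℓ ≤ Real.log (X + 1) →
        ∀ t : ℝ, T + Real.log T ≤ t → t ≤ 2 * T - Real.log T → (∀ n : ℕ, SG.ord n ≠ t) →
        x - 4 * C * ℓ - (DP (dk (pk (-C) ℓ x) (sc T)) X t).re - 1 ≤
          (SG.NZ (t + x / sc T) : ℝ) - SG.NZ t ∧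
        (SG.NZ (t + x / sc T) : ℝ) - SG.NZ t ≤ (1 + 50 * (x / Real.log T) ^ 2) *
          (x + 4 * C * ℓ - (DP (dk (pk C ℓ x) (sc T)) X t).re + 1) := by
  obtain ⟨C1, hC1, hsand⟩ := sandwich
  obtain ⟨D, hD, hkn⟩ := pk_kn
  obtain ⟨C2, T2, hC2, hT2, hexpl⟩ := expl_rh RH
  have hpi := Real.pi_pos
  have hpi4 := Real.pi_lt_four
  -- `C2 (K0 + Λ) ≤ C3 (ℓ+x)^2 ≤ C3 (log T)^(2/3)`
  set C3 : ℝ := C2 * (2 * (D * (1 + C1))) with hC3
  have hC30 : 0 < C3 := by positivity
  refine ⟨C1, max T2 (Real.exp (max 8 (C3 ^ 3))), hC1, hT2.trans (le_max_left _ _),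
    fun T hT ℓ x hℓ hx hsmall hℓT X hX t ht1 ht2 hord => ?_⟩
  have hT2' : T2 ≤ T := (le_max_left _ _).trans hT
  have hT10 : 10 ≤ T := hT2.trans hT2'
  have hlog : max 8 (C3 ^ 3) ≤ Real.log T := by
    rw [Real.le_log_iff_exp_le (by linarith)]
    exact (le_max_right _ _).trans hT
  have hl8 : 8 ≤ Real.log T := (le_max_left _ _).trans hlog
  have hlC : C3 ^ 3 ≤ Real.log T := (le_max_right _ _).trans hlog
  set w := Real.log T with hw
  have hw0 : 0 < w := by linarith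
  obtain ⟨U1, U2, g1, g2, g3, g4, g5⟩ := hexpl T hT2'
  have haL : 2 * Real.pi * sc T = w := by
    rw [hw]
    unfold sc
    field_simp
  have ha0 : 0 < sc T := by unfold sc; positivity
  have hℓ0 : 0 < ℓ := by linarith
  -- the error term
  have herr : ∀ c : ℝ, |c| = C1 → C2 * (D * (1 + |c|) * (ℓ + x) + D * (1 + |c|) * (ℓ + x) ^ 2) / w ≤ 1 := by
    intro c hc
    rw [hc, div_le_one hw0]
    have h1 : 1 ≤ ℓ + x := by linarith
    have h2 : ℓ + x ≤ (ℓ + x) ^ 2 := by nlinarith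
    have h3 : C2 * (D * (1 + C1) * (ℓ + x) + D * (1 + C1) * (ℓ + x) ^ 2) ≤ C3 * (ℓ + x) ^ 2 := by
      rw [hC3]
      have h4 : 0 ≤ C2 * (D * (1 + C1)) := by positivity
      nlinarith
    refine h3.trans ?_
    -- (C3 (ℓ+x)^2)^3 ≤ w * w^2
    have h5 : (C3 * (ℓ + x) ^ 2) ^ 3 ≤ w ^ 3 := by
      calc (C3 * (ℓ + x) ^ 2) ^ 3 = C3 ^ 3 * ((ℓ + x) ^ 3) ^ 2 := by ring
        _ ≤ w * w ^ 2 := by
            apply mul_le_mul hlC _ (by positivity) hw0.le
            exact pow_le_pow_left₀ (by positivity) hsmall 2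
        _ = _ := by ring
    exact le_of_pow_le_pow_left₀ (by norm_num) hw0.le h5
  have hB1 : 2 / ℓ ≤ 1 := by rw [div_le_one hℓ0]; exact hℓ
  have hBU : 16 ≤ 2 / ℓ * w := by
    rw [div_mul_eq_mul_div, le_div_iff₀ hℓ0]
    linarith
  have hXU : 2 * (2 / ℓ * w) ≤ Real.log (X + 1) := by
    refine le_trans (le_of_eq ?_) hX
    ring
  have hex : ∀ c : ℝ, |c| = C1 → |(∑ s ∈ Zf riemannZeta U1 U2, mz s *
            (Real.exp (-(s.im - t) ^ 2 / 2) * (ftk (pk c ℓ x) (sc T * (s.im - t))).re)) -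
          (x + 4 * c * ℓ - (DP (dk (pk c ℓ x) (sc T)) X t).re)| ≤ 1 := by
    intro c hc
    have h1 := g5 (pk c ℓ x) (2 / ℓ) _ _ (sc T) (hkn c ℓ x (by linarith) hx) (by positivity) hB1 haL
      hBU X hXU t ht1 ht2
    rw [pk_zero] at h1
    exact h1.trans (herr c hc)
  have hx1 : x / sc T ≤ 1 := by
    rw [div_le_one ha0]
    have h1 : x ≤ ℓ + x := by linarith
    have h2 : (1 : ℝ) ≤ ℓ + x := by linarith
    have h3 : 8 ≤ (ℓ + x) ^ 2 ∨ (ℓ + x) ^ 2 < 8 := le_or_gt _ _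
    unfold sc
    rw [← hw, le_div_iff₀ (by positivity)]
    have h4 : 2 * Real.pi ≤ 8 := by linarith
    rcases h3 with h | h
    · have h5 : (ℓ + x) * 8 ≤ (ℓ + x) ^ 3 := by
        calc (ℓ + x) * 8 ≤ (ℓ + x) * (ℓ + x) ^ 2 := mul_le_mul_of_nonneg_left h (by linarith)
          _ = _ := by ring
      have h6 : x * (2 * Real.pi) ≤ (ℓ + x) * 8 := mul_le_mul h1 h4 (by positivity) (by linarith)
      linarith
    · have h7 : x ≤ 1 := by nlinarith
      have h8 : x * (2 * Real.pi) ≤ 1 * 8 := mul_le_mul h7 h4 (by positivity) zero_le_one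
      linarith
  have hxa : 0 ≤ x / sc T := div_nonneg hx ha0.le
  have hcount := count_eq (U1 := U1) (U2 := U2) (t := t) (a := sc T) (x := x) (by linarith)
    (by linarith) ha0 hx (by linarith) hord
  have hsd := fun v => hsand ℓ x v (by linarith) hx
  set Nc : ℝ := (SG.NZ (t + x / sc T) : ℝ) - SG.NZ t with hNc
  constructor
  · -- the lower bound
    have h1 := abs_le.1 (hex (-C1) (by rw [abs_neg, abs_of_pos (by linarith)]))
    have h2 : (∑ s ∈ Zf riemannZeta U1 U2, mz s *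
            (Real.exp (-(s.im - t) ^ 2 / 2) * (ftk (pk (-C1) ℓ x) (sc T * (s.im - t))).re)) ≤ Nc := by
      rw [← hcount]
      refine Finset.sum_le_sum fun s _ => mul_le_mul_of_nonneg_left ?_ (mz_nonneg s)
      have h3 := (hsd (sc T * (s.im - t))).1
      have h4 : Real.exp (-(s.im - t) ^ 2 / 2) ≤ 1 := Real.exp_le_one_iff.2 (by nlinarith [sq_nonneg (s.im - t)])
      have h5 := (Real.exp_pos (-(s.im - t) ^ 2 / 2)).le
      have h6 : 0 ≤ (Set.Icc 0 x).indicator (fun _ => (1 : ℝ)) (sc T * (s.im - t)) :=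
        Set.indicator_nonneg (fun _ _ => zero_le_one) _
      calc _ ≤ Real.exp (-(s.im - t) ^ 2 / 2) *
            (Set.Icc 0 x).indicator (fun _ => (1 : ℝ)) (sc T * (s.im - t)) :=
            mul_le_mul_of_nonneg_left h3 h5
        _ ≤ _ := mul_le_of_le_one_left h6 h4
    linarith [h1.1]
  · -- the upper bound
    have h1 := abs_le.1 (hex C1 (abs_of_pos (by linarith)))
    set q : ℝ := Real.exp ((x / sc T) ^ 2 / 2) with hq
    have h2 : Nc ≤ q * ∑ s ∈ Zf riemannZeta U1 U2, mz s *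
            (Real.exp (-(s.im - t) ^ 2 / 2) * (ftk (pk C1 ℓ x) (sc T * (s.im - t))).re) := by
      rw [← hcount, Finset.mul_sum]
      refine Finset.sum_le_sum fun s _ => ?_
      have h3 := (hsd (sc T * (s.im - t))).2
      have h5 := (Real.exp_pos (-(s.im - t) ^ 2 / 2)).le
      have hq0 : 0 < q := Real.exp_pos _
      have h4 : (Set.Icc 0 x).indicator (fun _ => (1 : ℝ)) (sc T * (s.im - t)) ≤
          q * (Real.exp (-(s.im - t) ^ 2 / 2) *
            (Set.Icc 0 x).indicator (fun _ => (1 : ℝ)) (sc T * (s.im - t))) := by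
        by_cases hm : sc T * (s.im - t) ∈ Set.Icc 0 x
        · rw [Set.indicator_of_mem hm, mul_one, hq, ← Real.exp_add]
          apply Real.one_le_exp
          have h6 : 0 ≤ s.im - t := by
            by_contra hc
            push Not at hc
            have := hm.1
            nlinarith
          have h7 : s.im - t ≤ x / sc T := by
            rw [le_div_iff₀ ha0, mul_comm]; exact hm.2
          have h8 : (s.im - t) ^ 2 ≤ (x / sc T) ^ 2 := pow_le_pow_left₀ h6 h7 2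
          linarith
        · rw [Set.indicator_of_notMem hm]; simp
      calc mz s * _ ≤ mz s * (q * (Real.exp (-(s.im - t) ^ 2 / 2) *
            (ftk (pk C1 ℓ x) (sc T * (s.im - t))).re)) := by
            refine mul_le_mul_of_nonneg_left (h4.trans ?_) (mz_nonneg s)
            exact mul_le_mul_of_nonneg_left (mul_le_mul_of_nonneg_left h3 h5) hq0.le
        _ = _ := by ring
    have hq0 : 0 < q := Real.exp_pos _
    have hq1 : q ≤ 1 + 50 * (x / w) ^ 2 := by
      have h3 : |(x / sc T) ^ 2 / 2| ≤ 1 := by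
        rw [abs_of_nonneg (by positivity)]
        nlinarith
      have h4 := Real.abs_exp_sub_one_le h3
      rw [abs_of_nonneg (by positivity : 0 ≤ (x / sc T) ^ 2 / 2)] at h4
      have h5 := (abs_le.1 h4).2
      have h6 : (x / sc T) ^ 2 = (2 * Real.pi) ^ 2 * (x / w) ^ 2 := by
        unfold sc
        rw [← hw]
        field_simp
      have h7 : (2 * Real.pi) ^ 2 ≤ 50 := by
        have := Real.pi_lt_d2
        nlinarith
      have h8 : 0 ≤ (x / w) ^ 2 := sq_nonneg _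
      rw [hq]
      nlinarith
    refine h2.trans ?_
    have h9 : (∑ s ∈ Zf riemannZeta U1 U2, mz s *
            (Real.exp (-(s.im - t) ^ 2 / 2) * (ftk (pk C1 ℓ x) (sc T * (s.im - t))).re)) ≤
        x + 4 * C1 * ℓ - (DP (dk (pk C1 ℓ x) (sc T)) X t).re + 1 := by linarith [h1.2]
    have hNc0 : 0 ≤ Nc := by
      rw [← hcount]
      exact Finset.sum_nonneg fun s _ => mul_nonneg (mz_nonneg s)
        (Set.indicator_nonneg (fun _ _ => zero_le_one) _)
    have h10 : 0 ≤ x + 4 * C1 * ℓ - (DP (dk (pk C1 ℓ x) (sc T)) X t).re + 1 := by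
      refine le_trans ?_ h9
      by_contra hc
      push Not at hc
      have := mul_neg_of_pos_of_neg hq0 hc
      linarith
    calc q * _ ≤ q * (x + 4 * C1 * ℓ - (DP (dk (pk C1 ℓ x) (sc T)) X t).re + 1) :=
          mul_le_mul_of_nonneg_left h9 hq0.le
      _ ≤ _ := mul_le_mul_of_nonneg_right hq1 h10

end Pool.Agent.Q278.MX
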