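import Pool.Agent.Q278.MX.J
import Pool.Agent.Q278.MX.G
import Pool.Agent.Q278.MX.E

/-!
# The error terms: variances and tails (helper278)
-/

set_option autoImplicit false

namespace Pool.Agent.Q278.MX

open Filter Topology Finset MeasureTheory Complex
open scoped ComplexConjugate
open Pool.Agent.Q278.MC

/-- the main band of primes -/
noncomputable def Sm (w K μ : ℝ) : Finset ℕ := PB (w * K ^ (μ - 1)) (w * K ^ (-μ))

lemma Sm_prime {w K μ : ℝ} : ∀ p ∈ Sm w K μ, p.Prime := PB_prime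

/-- the variance of the low part -/
theorem var_low : ∃ C0 : ℝ, 1 ≤ C0 ∧ ∀ c ℓ x w K μ κ0 : ℝ, 1 ≤ K → 0 < μ → μ ≤ 1 / 2 →
    3 * K ≤ w → 0 ≤ x → x ≤ 3 * K → 0 < ℓ → K ^ (-μ) ≤ κ0 → κ0 ≤ 1 → ℓ * κ0 ≤ 1 →
    ∑ p ∈ PB 0 (κ0 * w), ‖er (Sm w K μ) c ℓ x w p‖ ^ 2 ≤ C0 * (1 + c ^ 2) * (1 + μ * Real.log K) := by
  obtain ⟨C1, hC1, hsq⟩ := sum_sq
  obtain ⟨C2, hC2, hinv⟩ := sum_inv
  refine ⟨128 * C1 + 8 * C1 + 4 + 4 * C2 + 4, by linarith,
    fun c ℓ x w K μ κ0 hK hμ hμ2 hw hx hx3 hℓ hκ2 hκ0 hℓκ => ?_⟩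
  have hK0 : 0 < K := by linarith
  have hw0 : 0 < w := by linarith
  have hlK : 0 ≤ Real.log K := Real.log_nonneg hK
  have hl3 : Real.log 3 ≤ 2 := by
    have := Real.log_le_sub_one_of_pos (show (0 : ℝ) < 3 by norm_num)
    linarith
  set κ1 : ℝ := K ^ (μ - 1) with hκ1d
  set κ2 : ℝ := K ^ (-μ) with hκ2d
  have hκ1p : 0 < κ1 := Real.rpow_pos_of_pos hK0 _
  have hκ2p : 0 < κ2 := Real.rpow_pos_of_pos hK0 _
  have hκ12 : κ1 ≤ κ2 := Real.rpow_le_rpow_of_exponent_le hK (by linarith)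
  have hκ0p : 0 < κ0 := by linarith
  have h3K : 1 / (3 * K) ≤ κ1 := by
    have h1 : K ^ (-1 : ℝ) ≤ κ1 := Real.rpow_le_rpow_of_exponent_le hK (by linarith)
    rw [Real.rpow_neg_one] at h1
    refine le_trans ?_ h1
    rw [one_div]
    exact inv_anti₀ hK0 (by linarith)
  have hα1 : 1 ≤ w / (3 * K) := by rw [le_div_iff₀ (by positivity)]; linarith
  have hα2 : w / (3 * K) ≤ w * κ1 := by
    rw [div_eq_mul_one_div]
    exact mul_le_mul_of_nonneg_left h3K hw0.le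
  have hκ2w : 1 ≤ w * κ2 := hα1.trans (hα2.trans (mul_le_mul_of_nonneg_left hκ12 hw0.le))
  have hκ0w : w * κ2 ≤ κ0 * w := by
    rw [mul_comm]
    exact mul_le_mul_of_nonneg_right hκ2 hw0.le
  set A : Finset ℕ := PB 0 (w / (3 * K)) with hA
  set B : Finset ℕ := PB (w / (3 * K)) (w * κ1) with hB
  set D : Finset ℕ := PB (w * κ2) (κ0 * w) with hD
  set P : Finset ℕ := PB 0 (κ0 * w) with hP
  have hAP : A ⊆ P := PB_mono le_rfl (by linarith [mul_le_mul_of_nonneg_left hκ12 hw0.le])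
  have hBP : B ⊆ P := PB_mono (by linarith) (by linarith [mul_le_mul_of_nonneg_left hκ12 hw0.le])
  have hDP : D ⊆ P := PB_mono (by linarith) le_rfl
  have hterm : ∀ p ∈ P, ‖er (Sm w K μ) c ℓ x w p‖ ^ 2 ≤
      128 * c ^ 2 * ℓ ^ 2 / w ^ 2 * (Real.log p ^ 2 / p) +
      (if p ∈ A then 8 * x ^ 2 / w ^ 2 * (Real.log p ^ 2 / p) else 0) +
      (if p ∈ B then 2 * (1 / (p : ℝ)) else 0) + (if p ∈ D then 2 * (1 / (p : ℝ)) else 0) := by
    intro p hp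
    rw [hP, mem_PB] at hp
    obtain ⟨hp1, hp2, hp3⟩ := hp
    have n1 : 0 ≤ 8 * x ^ 2 / w ^ 2 * (Real.log p ^ 2 / p) := by positivity
    have n2 : 0 ≤ 2 * (1 / (p : ℝ)) := by positivity
    have n3 : 0 ≤ (if p ∈ A then 8 * x ^ 2 / w ^ 2 * (Real.log p ^ 2 / p) else 0) := by
      split_ifs
      · exact n1
      · exact le_rfl
    have n4 : 0 ≤ (if p ∈ B then 2 * (1 / (p : ℝ)) else 0) := by
      split_ifs
      · exact n2
      · exact le_rfl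
    have n5 : 0 ≤ (if p ∈ D then 2 * (1 / (p : ℝ)) else 0) := by
      split_ifs
      · exact n2
      · exact le_rfl
    by_cases hS : p ∈ Sm w K μ
    · have h1 : ℓ * (Real.log p / w) ≤ 1 := by
        have h2 : Real.log p / w ≤ κ0 := by rw [div_le_iff₀ hw0]; exact hp3
        calc ℓ * (Real.log p / w) ≤ ℓ * κ0 := mul_le_mul_of_nonneg_left h2 hℓ.le
          _ ≤ 1 := hℓκ
      have h2 := er_in (x := x) (c := c) hp1 hw0 hℓ hS h1
      have h3 : 64 * c ^ 2 * ℓ ^ 2 / w ^ 2 * (Real.log p ^ 2 / p) ≤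
          128 * c ^ 2 * ℓ ^ 2 / w ^ 2 * (Real.log p ^ 2 / p) := by
        have e : 128 * c ^ 2 * ℓ ^ 2 / w ^ 2 * (Real.log p ^ 2 / p) =
          2 * (64 * c ^ 2 * ℓ ^ 2 / w ^ 2 * (Real.log p ^ 2 / p)) := by ring
        have : 0 ≤ 64 * c ^ 2 * ℓ ^ 2 / w ^ 2 * (Real.log p ^ 2 / p) := by positivity
        rw [e]; linarith
      linarith
    · obtain ⟨o1, o2, -⟩ := er_out (c := c) hp1 hw0 hℓ hx hS
      by_cases hpA : p ∈ A
      · rw [if_pos hpA]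
        linarith
      · have hpD : p ∈ B ∨ p ∈ D := by
          have a1 : w / (3 * K) < Real.log p := by
            by_contra hc
            push Not at hc
            exact hpA (mem_PB.2 ⟨hp1, hp2, hc⟩)
          rcases le_or_gt (Real.log p) (w * κ1) with h | h
          · exact Or.inl (mem_PB.2 ⟨hp1, a1, h⟩)
          · rcases le_or_gt (Real.log p) (w * κ2) with h' | h'
            · exact absurd (mem_PB.2 ⟨hp1, h, h'⟩) hS
            · exact Or.inr (mem_PB.2 ⟨hp1, h', hp3⟩)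
        rcases hpD with h | h
        · rw [if_pos h] at n4 ⊢
          linarith
        · rw [if_pos h] at n5 ⊢
          linarith
  refine (Finset.sum_le_sum hterm).trans ?_
  rw [Finset.sum_add_distrib, Finset.sum_add_distrib, Finset.sum_add_distrib, Finset.sum_ite_mem,
    Finset.sum_ite_mem, Finset.sum_ite_mem, Finset.inter_eq_right.2 hAP, Finset.inter_eq_right.2 hBP,
    Finset.inter_eq_right.2 hDP, ← Finset.mul_sum, ← Finset.mul_sum, ← Finset.mul_sum, ← Finset.mul_sum]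
  have b1 : 128 * c ^ 2 * ℓ ^ 2 / w ^ 2 * ∑ p ∈ P, Real.log p ^ 2 / (p : ℝ) ≤ 128 * C1 * c ^ 2 := by
    have h1 := hsq (κ0 * w) (by linarith)
    calc 128 * c ^ 2 * ℓ ^ 2 / w ^ 2 * ∑ p ∈ P, Real.log p ^ 2 / (p : ℝ) ≤
          128 * c ^ 2 * ℓ ^ 2 / w ^ 2 * (C1 * (κ0 * w) ^ 2) :=
          mul_le_mul_of_nonneg_left h1 (by positivity)
      _ = 128 * C1 * c ^ 2 * (ℓ * κ0) ^ 2 := by field_simp
      _ ≤ 128 * C1 * c ^ 2 * 1 := by
          refine mul_le_mul_of_nonneg_left ?_ (by positivity)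
          exact pow_le_one₀ (by positivity) hℓκ
      _ = _ := by ring
  have b2 : 8 * x ^ 2 / w ^ 2 * ∑ p ∈ A, Real.log p ^ 2 / (p : ℝ) ≤ 8 * C1 := by
    have h1 := hsq (w / (3 * K)) hα1
    calc 8 * x ^ 2 / w ^ 2 * ∑ p ∈ A, Real.log p ^ 2 / (p : ℝ) ≤
          8 * x ^ 2 / w ^ 2 * (C1 * (w / (3 * K)) ^ 2) := mul_le_mul_of_nonneg_left h1 (by positivity)
      _ = 8 * C1 * (x / (3 * K)) ^ 2 := by field_simp
      _ ≤ 8 * C1 * 1 := by
          refine mul_le_mul_of_nonneg_left ?_ (by positivity)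
          apply pow_le_one₀ (by positivity)
          rw [div_le_one (by positivity)]
          exact hx3
      _ = _ := by ring
  have b3 : 2 * ∑ p ∈ B, 1 / (p : ℝ) ≤ 2 * (2 + μ * Real.log K + C2) := by
    have h1 := (abs_le.1 (hinv (w / (3 * K)) (w * κ1) (by linarith) hα2)).2
    have h2 : Real.log (w * κ1 / (w / (3 * K))) = Real.log 3 + μ * Real.log K := by
      have e : w * κ1 / (w / (3 * K)) = 3 * K ^ μ := by
        have e2 : κ1 * K = K ^ μ := by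
          rw [hκ1d]
          nth_rewrite 2 [← Real.rpow_one K]
          rw [← Real.rpow_add hK0]
          congr 1
          ring
        rw [← e2]
        field_simp
      rw [e, Real.log_mul (by norm_num) (Real.rpow_pos_of_pos hK0 _).ne', Real.log_rpow hK0]
    rw [h2] at h1
    have h3 : C2 / (w / (3 * K)) ≤ C2 := div_le_self (by linarith) hα1
    linarith
  have b4 : 2 * ∑ p ∈ D, 1 / (p : ℝ) ≤ 2 * (μ * Real.log K + C2) := by
    have h1 := (abs_le.1 (hinv (w * κ2) (κ0 * w) (by linarith) hκ0w)).2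
    have h2 : Real.log (κ0 * w / (w * κ2)) ≤ μ * Real.log K := by
      have e : κ0 * w / (w * κ2) = κ0 / κ2 := by field_simp
      rw [e, Real.log_div hκ0p.ne' hκ2p.ne', hκ2d, Real.log_rpow hK0]
      have := Real.log_nonpos hκ0p.le hκ0
      linarith
    have h3 : C2 / (w * κ2) ≤ C2 := div_le_self (by linarith) hκ2w
    linarith
  have hμl : 0 ≤ μ * Real.log K := by positivity
  have hc2 : 0 ≤ c ^ 2 := sq_nonneg c
  have key : 128 * C1 * c ^ 2 + 8 * C1 + 2 * (2 + μ * Real.log K + C2) + 2 * (μ * Real.log K + C2) ≤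
      (128 * C1 + 8 * C1 + 4 + 4 * C2 + 4) * (1 + c ^ 2) * (1 + μ * Real.log K) := by
    have e : (128 * C1 + 8 * C1 + 4 + 4 * C2 + 4) * (1 + c ^ 2) * (1 + μ * Real.log K) =
      (128 * C1 * c ^ 2 + 8 * C1 + 4 + 4 * C2 + 4 * (μ * Real.log K)) +
      ((128 * C1 + 8 * C1 + 4 + 4 * C2) * (1 + c ^ 2) * (μ * Real.log K) +
        4 * (1 + c ^ 2) + 4 * c ^ 2 * (μ * Real.log K) +
        (128 * C1 + (8 * C1 + 4 + 4 * C2) * c ^ 2)) := by ring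
    rw [e]
    have : 0 ≤ (128 * C1 + 8 * C1 + 4 + 4 * C2) * (1 + c ^ 2) * (μ * Real.log K) +
        4 * (1 + c ^ 2) + 4 * c ^ 2 * (μ * Real.log K) +
        (128 * C1 + (8 * C1 + 4 + 4 * C2) * c ^ 2) := by positivity
    linarith
  linarith

/-- the variance of the edge part -/
theorem var_edge : ∃ C0 : ℝ, 1 ≤ C0 ∧ ∀ c ℓ x w K μ κ0 : ℝ, 0 < w → 0 ≤ x → 0 < ℓ → 0 < κ0 →
    K ^ (-μ) ≤ κ0 → κ0 * ℓ ≤ 2 →
    ∑ p ∈ PB (κ0 * w) (2 * w / ℓ), ‖er (Sm w K μ) c ℓ x w p‖ ^ 2 ≤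
      (1 + 8 * |c|) ^ 2 * (Real.log (2 / (ℓ * κ0)) + C0 / (κ0 * w)) := by
  obtain ⟨C2, hC2, hinv⟩ := sum_inv
  refine ⟨C2, hC2, fun c ℓ x w K μ κ0 hw hx hℓ hκ0 hκ2 hκℓ => ?_⟩
  have hterm : ∀ p ∈ PB (κ0 * w) (2 * w / ℓ), ‖er (Sm w K μ) c ℓ x w p‖ ^ 2 ≤
      (1 + 8 * |c|) ^ 2 * (1 / (p : ℝ)) := by
    intro p hp
    rw [mem_PB] at hp
    have hS : p ∉ Sm w K μ := by
      intro h
      have h1 := (mem_PB.1 h).2.2
      have h2 : w * K ^ (-μ) ≤ w * κ0 := mul_le_mul_of_nonneg_left hκ2 hw.le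
      linarith [hp.2.1]
    exact (er_out (c := c) hp.1 hw hℓ hx hS).2.2
  refine (Finset.sum_le_sum hterm).trans ?_
  rw [← Finset.mul_sum]
  refine mul_le_mul_of_nonneg_left ?_ (by positivity)
  have h1 := (abs_le.1 (hinv (κ0 * w) (2 * w / ℓ) (by positivity) (by
    rw [le_div_iff₀ hℓ]
    calc κ0 * w * ℓ = (κ0 * ℓ) * w := by ring
      _ ≤ 2 * w := mul_le_mul_of_nonneg_right hκℓ hw.le))).2
  have e : 2 * w / ℓ / (κ0 * w) = 2 / (ℓ * κ0) := by field_simp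
  rw [e] at h1
  linarith

/-- the tail of the remainder -/
theorem rem_tail : ∃ C0 : ℝ, 1 ≤ C0 ∧ ∀ c ℓ x T : ℝ, 1 ≤ ℓ → 0 ≤ x → 1 ≤ T → 1 ≤ Real.log T →
    ∀ X : ℕ, 1 ≤ X → 1 + Real.log X ≤ 4 * Real.log T → 8 * X * (1 + Real.log X) ≤ T →
    (mu T).real {t | 1 ≤ ‖DP (fun n => dk (pk c ℓ x) (Pool.Agent.Q278.GF.sc T) n -
        ck (pk c ℓ x) (Real.log T) n) X t‖} ≤
      C0 * (1 + |c|) ^ 2 * (ℓ + x) ^ 4 / Real.log T ^ 2 := by
  obtain ⟨C1, hC1, hrem⟩ := rem_sum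
  obtain ⟨D, hD, hkn⟩ := pk_kn
  have hpi := Real.pi_pos
  refine ⟨4 * C1 * D ^ 2 + 1, by nlinarith [mul_pos hC1 (by positivity : 0 < D ^ 2)],
    fun c ℓ x T hℓ hx hT hlT X hX hX4 hXT => ?_⟩
  have h2 := two_log_le hT
  have hT0 : 0 < T := by linarith
  set w := Real.log T with hw
  have hw0 : 0 < w := by linarith
  set a := Pool.Agent.Q278.GF.sc T with ha
  have haL : 2 * Real.pi * a = w := by
    rw [ha, hw]
    unfold Pool.Agent.Q278.GF.sc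
    field_simp
  have ha0 : 0 < a := by rw [ha]; unfold Pool.Agent.Q278.GF.sc; positivity
  set f : ℕ → ℂ := fun n => dk (pk c ℓ x) a n - ck (pk c ℓ x) w n with hf
  have hr := hrem (pk c ℓ x) (2 / ℓ) _ _ a (hkn c ℓ x hℓ hx) ha0 X hX (by rw [haL]; exact hX4)
  rw [haL] at hr
  have hms := mean_sq X (T + w) (2 * T - w) (by linarith) f
  haveI := mu_fin T
  have hmk := mul_meas_ge_le_integral_of_nonneg (μ := mu T) (f := fun t => ‖DP f X t‖ ^ 2)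
    (Eventually.of_forall fun t => by positivity) (mu_cont ((DP_cont _ _).norm.pow _) T) 1
  rw [one_mul] at hmk
  have hsub : (mu T).real {t | 1 ≤ ‖DP f X t‖} ≤ (mu T).real {t | 1 ≤ ‖DP f X t‖ ^ 2} :=
    measureReal_mono (fun t ht => by
      rw [Set.mem_setOf_eq] at ht ⊢
      exact one_le_pow₀ ht)
  refine hsub.trans (hmk.trans ?_)
  rw [mu_int hT, smul_eq_mul]
  set S : ℝ := ∑ n ∈ Finset.Icc 1 X, ‖f n‖ ^ 2 with hS
  have hS0 : 0 ≤ S := Finset.sum_nonneg fun n _ => sq_nonneg _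
  have h3 : 1 / T * ∫ t in (T + w)..(2 * T - w), ‖DP f X t‖ ^ 2 ≤ 2 * S := by
    calc 1 / T * ∫ t in (T + w)..(2 * T - w), ‖DP f X t‖ ^ 2 ≤ 1 / T * ((T + T) * S) := by
          refine mul_le_mul_of_nonneg_left (hms.trans ?_) (by positivity)
          exact mul_le_mul_of_nonneg_right (by linarith) hS0
      _ = _ := by field_simp; ring
  refine h3.trans ?_
  have hc := abs_nonneg c
  have h1ℓ : 1 ≤ ℓ + x := by linarith
  have h4 : (D * (1 + |c|) * (ℓ + x)) ^ 2 + (D * (1 + |c|) * (ℓ + x) ^ 2) ^ 2 ≤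
      2 * (D ^ 2 * (1 + |c|) ^ 2 * (ℓ + x) ^ 4) := by
    have h5 : (ℓ + x) ^ 2 ≤ (ℓ + x) ^ 4 := pow_le_pow_right₀ h1ℓ (by norm_num)
    have h6 : 0 ≤ D ^ 2 * (1 + |c|) ^ 2 := by positivity
    nlinarith
  calc 2 * S ≤ 2 * (C1 * ((D * (1 + |c|) * (ℓ + x)) ^ 2 + (D * (1 + |c|) * (ℓ + x) ^ 2) ^ 2) / w ^ 2) := by
        refine mul_le_mul_of_nonneg_left hr (by norm_num)
    _ ≤ 2 * (C1 * (2 * (D ^ 2 * (1 + |c|) ^ 2 * (ℓ + x) ^ 4)) / w ^ 2) := by gcongr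
    _ = (4 * C1 * D ^ 2) * ((1 + |c|) ^ 2 * (ℓ + x) ^ 4 / w ^ 2) := by ring
    _ ≤ (4 * C1 * D ^ 2 + 1) * ((1 + |c|) ^ 2 * (ℓ + x) ^ 4 / w ^ 2) := by
        refine mul_le_mul_of_nonneg_right (by linarith) (by positivity)
    _ = _ := by ring

/-- the decomposition -/
theorem split_dp {c ℓ x w K μ κ0 a : ℝ} {X N N1 N2 : ℕ} (hw : 0 < w) (hℓ : 1 ≤ ℓ) (hx : 0 ≤ x)
    (hK : 1 ≤ K) (hκ0 : 0 < κ0) (hκ2 : K ^ (-μ) ≤ κ0) (hκℓ : κ0 * ℓ ≤ 2)
    (hN : ⌊Real.exp (w * K ^ (-μ))⌋₊ ≤ N) (hN1 : ⌊Real.exp (κ0 * w)⌋₊ ≤ N1)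
    (hN2 : ⌊Real.exp (2 * w / ℓ)⌋₊ ≤ N2) (hX : ⌊Real.exp (2 * w / ℓ)⌋₊ ≤ X) (t : ℝ) :
    -DP (dk (pk c ℓ x) a) X t = DP (af (Sm w K μ) (yc w x)) N t - DP (af (Sm w K μ) (yc w 0)) N t +
      DP (af (PB 0 (κ0 * w)) (er (Sm w K μ) c ℓ x w)) N1 t +
      DP (af (PB (κ0 * w) (2 * w / ℓ)) (er (Sm w K μ) c ℓ x w)) N2 t -
      DP (fun n => dk (pk c ℓ x) a n - ck (pk c ℓ x) w n) X t := by
  have hK0 : 0 < K := by linarith
  have hκ2p : 0 < K ^ (-μ) := Real.rpow_pos_of_pos hK0 _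
  have hκ1p : 0 < K ^ (μ - 1) := Real.rpow_pos_of_pos hK0 _
  have hord : κ0 * w ≤ 2 * w / ℓ := by
    rw [le_div_iff₀ (by linarith)]
    calc κ0 * w * ℓ = (κ0 * ℓ) * w := by ring
      _ ≤ 2 * w := mul_le_mul_of_nonneg_right hκℓ hw.le
  rw [af_DP Sm_prime (fun p hp => (PB_le hp).trans hN), af_DP Sm_prime (fun p hp => (PB_le hp).trans hN),
    af_DP PB_prime (fun p hp => (PB_le hp).trans hN1), af_DP PB_prime (fun p hp => (PB_le hp).trans hN2)]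
  have e1 : DP (fun n => dk (pk c ℓ x) a n - ck (pk c ℓ x) w n) X t =
      DP (dk (pk c ℓ x) a) X t - DP (ck (pk c ℓ x) w) X t := by
    unfold DP
    rw [← Finset.sum_sub_distrib]
    exact Finset.sum_congr rfl fun n _ => by ring
  have e2 : DP (ck (pk c ℓ x) w) X t =
      ∑ p ∈ PB 0 (2 * w / ℓ), ck (pk c ℓ x) w p * (p : ℂ) ^ (-(t : ℂ) * I) := by
    unfold DP
    symm
    apply Finset.sum_subset
    · intro p hp
      rw [Finset.mem_Icc]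
      exact ⟨(PB_prime p hp).one_le, (PB_le hp).trans hX⟩
    · intro p _ hp
      rw [ck_zero hw hℓ hx hp, zero_mul]
  have hdisj : Disjoint (PB 0 (κ0 * w)) (PB (κ0 * w) (2 * w / ℓ)) := by
    rw [Finset.disjoint_left]
    intro p hp hp'
    rw [mem_PB] at hp hp'
    linarith [hp.2.2, hp'.2.1]
  have hun : PB 0 (κ0 * w) ∪ PB (κ0 * w) (2 * w / ℓ) = PB 0 (2 * w / ℓ) := by
    ext p
    rw [Finset.mem_union, mem_PB, mem_PB, mem_PB]
    constructor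
    · rintro (⟨h1, h2, h3⟩ | ⟨h1, h2, h3⟩)
      · exact ⟨h1, h2, h3.trans hord⟩
      · exact ⟨h1, lt_trans (by positivity) h2, h3⟩
    · rintro ⟨h1, h2, h3⟩
      rcases le_or_gt (Real.log p) (κ0 * w) with h | h
      · exact Or.inl ⟨h1, h2, h⟩
      · exact Or.inr ⟨h1, h, h3⟩
  have e3 : (∑ p ∈ PB 0 (κ0 * w), er (Sm w K μ) c ℓ x w p * (p : ℂ) ^ (-(t : ℂ) * I)) +
      ∑ p ∈ PB (κ0 * w) (2 * w / ℓ), er (Sm w K μ) c ℓ x w p * (p : ℂ) ^ (-(t : ℂ) * I) =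
      ∑ p ∈ PB 0 (2 * w / ℓ), er (Sm w K μ) c ℓ x w p * (p : ℂ) ^ (-(t : ℂ) * I) := by
    rw [← hun, Finset.sum_union hdisj]
  have hsub : Sm w K μ ⊆ PB 0 (2 * w / ℓ) := by
    unfold Sm
    apply PB_mono (by positivity)
    refine le_trans ?_ hord
    rw [mul_comm]
    exact mul_le_mul_of_nonneg_right hκ2 hw.le
  have e4 : ∑ p ∈ PB 0 (2 * w / ℓ), er (Sm w K μ) c ℓ x w p * (p : ℂ) ^ (-(t : ℂ) * I) =
      -(∑ p ∈ PB 0 (2 * w / ℓ), ck (pk c ℓ x) w p * (p : ℂ) ^ (-(t : ℂ) * I)) -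
      ((∑ p ∈ Sm w K μ, yc w x p * (p : ℂ) ^ (-(t : ℂ) * I)) -
        ∑ p ∈ Sm w K μ, yc w 0 p * (p : ℂ) ^ (-(t : ℂ) * I)) := by
    rw [← Finset.sum_sub_distrib, ← Finset.sum_neg_distrib]
    have h5 : ∑ p ∈ Sm w K μ, (yc w x p * (p : ℂ) ^ (-(t : ℂ) * I) -
        yc w 0 p * (p : ℂ) ^ (-(t : ℂ) * I)) = ∑ p ∈ PB 0 (2 * w / ℓ),
        (if p ∈ Sm w K μ then (yc w x p * (p : ℂ) ^ (-(t : ℂ) * I) -
        yc w 0 p * (p : ℂ) ^ (-(t : ℂ) * I)) else 0) := by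
      rw [Finset.sum_ite_mem, Finset.inter_eq_right.2 hsub]
    rw [h5, ← Finset.sum_sub_distrib]
    refine Finset.sum_congr rfl fun p _ => ?_
    unfold er
    by_cases hp : p ∈ Sm w K μ
    · rw [if_pos hp, if_pos hp]; ring
    · rw [if_neg hp, if_neg hp]; ring
  rw [e1, e2]
  linear_combination -e3 - e4

end Pool.Agent.Q278.MX
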