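import Pool.Agent.Q278.MX.K

/-!
# The field and the approximation at one point (helper278)
-/

set_option autoImplicit false

namespace Pool.Agent.Q278.MX

open Filter Topology Finset MeasureTheory Complex
open scoped ComplexConjugate
open Pool.Agent.Q278.MC
open Pool.Agent.Q278.GF (sc)

lemma size_ok {N r : ℕ} {η w T : ℝ} (hN : (N : ℝ) ≤ Real.exp (η * w)) (hN1 : 1 ≤ N)
    (hη : η * r ≤ 1 / 2) (hw : 32 ≤ w) (hT : Real.exp w = T) :
    8 * (N : ℝ) ^ r * (1 + Real.log ((N : ℝ) ^ r)) ≤ T := by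
  have hN1' : (1 : ℝ) ≤ N := by exact_mod_cast hN1
  have h1 : (N : ℝ) ^ r ≤ Real.exp (w / 2) := by
    calc (N : ℝ) ^ r ≤ (Real.exp (η * w)) ^ r := pow_le_pow_left₀ (by linarith) hN r
      _ = Real.exp (η * r * w) := by
          rw [← Real.exp_nat_mul]
          congr 1
          ring
      _ ≤ Real.exp (w / 2) := by
          apply Real.exp_le_exp.2
          have := mul_le_mul_of_nonneg_right hη (by linarith : (0 : ℝ) ≤ w)
          linarith
  have h2 : 1 ≤ (N : ℝ) ^ r := one_le_pow₀ hN1'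
  have h3 : Real.log ((N : ℝ) ^ r) ≤ w / 2 := by
    rw [Real.log_le_iff_le_exp (by linarith)]; exact h1
  have h4 := Real.quadratic_le_exp_of_nonneg (show 0 ≤ w / 2 by linarith)
  have h5 : Real.exp w = Real.exp (w / 2) * Real.exp (w / 2) := by
    rw [← Real.exp_add]; congr 1; ring
  have h6 : 8 * (1 + w / 2) ≤ Real.exp (w / 2) := by nlinarith
  have h7 := Real.exp_pos (w / 2)
  rw [← hT, h5]
  have h8 := Real.log_nonneg h2
  calc 8 * (N : ℝ) ^ r * (1 + Real.log ((N : ℝ) ^ r)) ≤ 8 * Real.exp (w / 2) * (1 + w / 2) := by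
        gcongr
    _ = Real.exp (w / 2) * (8 * (1 + w / 2)) := by ring
    _ ≤ _ := mul_le_mul_of_nonneg_left h6 h7.le

lemma fl_le {y : ℝ} : ((⌊Real.exp y⌋₊ : ℕ) : ℝ) ≤ Real.exp y := Nat.floor_le (Real.exp_pos _).le

lemma fl_one {y : ℝ} (hy : 0 ≤ y) : 1 ≤ ⌊Real.exp y⌋₊ := by
  apply Nat.le_floor
  simpa using Real.one_le_exp hy

/-- the length of the field polynomial -/
noncomputable def NS (w K μ : ℝ) : ℕ := ⌊Real.exp (w * K ^ (-μ))⌋₊

/-- the length of the full polynomial -/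
noncomputable def XT (w ℓ : ℝ) : ℕ := ⌊Real.exp (4 * w / ℓ)⌋₊

lemma Sm_pc {w K μ : ℝ} (f : ℕ → ℂ) : Pc (af (Sm w K μ) f) (Sm w K μ) (NS w K μ) :=
  af_pc Sm_prime (fun _ hp => PB_le hp) f

/-- the field -/
noncomputable def Yd (w K μ x t : ℝ) : ℂ := DP (af (Sm w K μ) (yc w x)) (NS w K μ) t

/-- the variance of the field -/
theorem var_field : ∃ C0 : ℝ, 1 ≤ C0 ∧ ∀ w K μ : ℝ, 1 ≤ K → 0 < μ → μ ≤ 1 / 2 → K ≤ w →
    ∀ x : ℝ, |VV (af (Sm w K μ) (yc w x)) (Sm w K μ) - (1 - 2 * μ) * Real.log K / Real.pi ^ 2| ≤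
      C0 * K / w := by
  obtain ⟨C2, hC2, hinv⟩ := sum_inv
  refine ⟨C2, hC2, fun w K μ hK hμ hμ2 hw x => ?_⟩
  have hK0 : 0 < K := by linarith
  have hw0 : 0 < w := by linarith
  have hκ1p : 0 < K ^ (μ - 1) := Real.rpow_pos_of_pos hK0 _
  have hκ2p : 0 < K ^ (-μ) := Real.rpow_pos_of_pos hK0 _
  have hκ12 : K ^ (μ - 1) ≤ K ^ (-μ) := Real.rpow_le_rpow_of_exponent_le hK (by linarith)
  have h1 := hinv (w * K ^ (μ - 1)) (w * K ^ (-μ)) (by positivity) (mul_le_mul_of_nonneg_left hκ12 hw0.le)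
  have e : w * K ^ (-μ) / (w * K ^ (μ - 1)) = K ^ (1 - 2 * μ) := by
    rw [mul_div_mul_left _ _ hw0.ne', ← Real.rpow_sub hK0]
    congr 1
    ring
  rw [e, Real.log_rpow hK0] at h1
  have e2 : VV (af (Sm w K μ) (yc w x)) (Sm w K μ) = (∑ p ∈ Sm w K μ, 1 / (p : ℝ)) / Real.pi ^ 2 := by
    rw [af_VV Sm_prime, Finset.sum_div]
    refine Finset.sum_congr rfl fun p hp => ?_
    rw [yc_sq]
    field_simp
  have hpi : 1 ≤ Real.pi ^ 2 := by
    have := Real.pi_gt_three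
    nlinarith
  rw [e2, ← sub_div, abs_div, abs_of_pos (by positivity : 0 < Real.pi ^ 2)]
  have h2 : C2 / (w * K ^ (μ - 1)) ≤ C2 * K / w := by
    have h3 : K ^ (-1 : ℝ) ≤ K ^ (μ - 1) := Real.rpow_le_rpow_of_exponent_le hK (by linarith)
    rw [Real.rpow_neg_one] at h3
    calc C2 / (w * K ^ (μ - 1)) ≤ C2 / (w * K⁻¹) := by gcongr
      _ = _ := by field_simp
  refine le_trans (div_le_self (abs_nonneg _) hpi) (h1.trans h2)

/-- the tail of the field -/
theorem field_tail : ∀ μ : ℝ, 0 < μ → μ ≤ 1 / 2 → ∃ K0 : ℝ, 8 ≤ K0 ∧ ∀ K : ℝ, K0 ≤ K →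
    ∀ T : ℝ, 1 ≤ T → (4 * K) ^ 3 ≤ Real.log T → ∀ x β ε : ℝ, 0 ≤ β → β ≤ 2 → 0 < ε → ε < 1 →
    (mu T).real {t | β * Real.log K / Real.pi ≤ ‖Yd (Real.log T) K μ x t‖} ≤
      4 / ε * K ^ (-((1 - ε) * β ^ 2)) := by
  obtain ⟨C0, hC0, hvar⟩ := var_field
  intro μ hμ hμ2
  -- `K ^ (-μ) (16 log K + 1) ≤ 1/2` for large `K`
  have hev : ∀ᶠ K : ℝ in atTop, K ^ (-μ) * (16 * Real.log K + 1) ≤ 1 / 2 := by
    have h1 : Tendsto (fun K : ℝ => Real.log K / K ^ μ) atTop (𝓝 0) :=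
      (isLittleO_log_rpow_atTop hμ).tendsto_div_nhds_zero
    have h2 : Tendsto (fun K : ℝ => K ^ (-μ)) atTop (𝓝 0) := tendsto_rpow_neg_atTop hμ
    have h3 : Tendsto (fun K : ℝ => 16 * (Real.log K / K ^ μ) + K ^ (-μ)) atTop (𝓝 0) := by
      simpa using (h1.const_mul 16).add h2
    filter_upwards [h3.eventually_le_const (show (0 : ℝ) < 1 / 2 by norm_num), eventually_gt_atTop 0]
      with K h4 h5
    rw [Real.rpow_neg h5.le] at h4 ⊢
    refine le_trans (le_of_eq ?_) h4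
    rw [div_eq_mul_inv]
    ring
  have hev2 : ∀ᶠ K : ℝ in atTop, C0 ≤ 2 * μ * Real.log K / Real.pi ^ 2 := by
    have h1 : Tendsto (fun K : ℝ => 2 * μ * Real.log K / Real.pi ^ 2) atTop atTop := by
      apply Tendsto.atTop_div_const (by positivity)
      exact Real.tendsto_log_atTop.const_mul_atTop (by positivity)
    exact h1.eventually_ge_atTop C0
  obtain ⟨K1, hK1⟩ := (hev.and hev2).exists_forall_of_atTop
  refine ⟨max K1 8, le_max_right _ _, fun K hK T hT hKT x β ε hβ hβ2 hε hε1 => ?_⟩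
  obtain ⟨g1, g2⟩ := hK1 K ((le_max_left _ _).trans hK)
  have hK8 : 8 ≤ K := (le_max_right _ _).trans hK
  have hK0 : 0 < K := by linarith
  set w := Real.log T with hw
  have hKw : 64 * K ≤ w := by
    refine le_trans ?_ hKT
    have : 1 ≤ K ^ 2 := by nlinarith
    calc 64 * K ≤ 64 * K * K ^ 2 := le_mul_of_one_le_right (by positivity) this
      _ = _ := by ring
  have hw0 : 0 < w := by linarith
  have hlK : 1 ≤ Real.log K := by
    rw [Real.le_log_iff_exp_le hK0]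
    have := Real.exp_one_lt_d9
    linarith
  have hT0 : 0 < T := by linarith
  have hpi := Real.pi_pos
  have hVV : VV (af (Sm w K μ) (yc w x)) (Sm w K μ) ≤ Real.log K / Real.pi ^ 2 := by
    have h1 := (abs_le.1 (hvar w K μ (by linarith) hμ hμ2 (by linarith) x)).2
    have h2 : C0 * K / w ≤ C0 := by
      rw [div_le_iff₀ hw0]
      exact mul_le_mul_of_nonneg_left (by linarith) (by linarith)
    have e : (1 - 2 * μ) * Real.log K / Real.pi ^ 2 = Real.log K / Real.pi ^ 2 -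
        2 * μ * Real.log K / Real.pi ^ 2 := by ring
    rw [e] at h1
    linarith
  set r : ℕ := ⌈16 * Real.log K⌉₊ with hr
  have hr1 : 16 * Real.log K ≤ r := Nat.le_ceil _
  have hr2 : (r : ℝ) ≤ 16 * Real.log K + 1 := (Nat.ceil_lt_add_one (by linarith)).le
  have hr3 : 1 ≤ r := by
    have : (1 : ℝ) ≤ r := by linarith
    exact_mod_cast this
  have hκ : 0 < K ^ (-μ) := Real.rpow_pos_of_pos hK0 _
  have htail := tail_norm (Sm_pc (w := w) (K := K) (μ := μ) (yc w x)) (fl_one (by positivity)) hT hε hε1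
    (A := β * Real.log K / Real.pi) (V := Real.log K / Real.pi ^ 2) (by positivity) hVV hr3 (by
      have e : (1 - ε) * (β * Real.log K / Real.pi) ^ 2 / (Real.log K / Real.pi ^ 2) =
        (1 - ε) * β ^ 2 * Real.log K := by field_simp
      rw [e]
      refine le_trans ?_ hr1
      have h1 : (1 - ε) * β ^ 2 ≤ 1 * 4 := by
        apply mul_le_mul (by linarith) (by nlinarith) (by positivity) zero_le_one
      have h2 := mul_le_mul_of_nonneg_right h1 (by linarith : 0 ≤ Real.log K)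
      linarith) (by positivity) (by
      apply size_ok (η := K ^ (-μ)) (w := w) _ (fl_one (by positivity)) _ (by linarith)
        (Real.exp_log hT0)
      · refine fl_le.trans (le_of_eq ?_)
        rw [mul_comm]
      · exact (mul_le_mul_of_nonneg_left hr2 hκ.le).trans g1)
  refine htail.trans (le_of_eq ?_)
  congr 1
  rw [Real.rpow_def_of_pos hK0]
  congr 1
  field_simp

end Pool.Agent.Q278.MX
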