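import Pool.Agent.Q278.MX.L

/-!
# The approximation at one point (helper278)
-/

set_option autoImplicit false

namespace Pool.Agent.Q278.MX

open Filter Topology Finset MeasureTheory Complex
open scoped ComplexConjugate
open Pool.Agent.Q278.MC
open Pool.Agent.Q278.GF (sc)

lemma log_rpow_small {μ : ℝ} (hμ : 0 < μ) (a b c : ℝ) (hc : 0 < c) :
    ∀ᶠ K : ℝ in atTop, K ^ (-μ) * (a * Real.log K + b) ≤ c := by
  have h1 : Tendsto (fun K : ℝ => Real.log K / K ^ μ) atTop (𝓝 0) :=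
    (isLittleO_log_rpow_atTop hμ).tendsto_div_nhds_zero
  have h2 : Tendsto (fun K : ℝ => K ^ (-μ)) atTop (𝓝 0) := tendsto_rpow_neg_atTop hμ
  have h3 : Tendsto (fun K : ℝ => a * (Real.log K / K ^ μ) + b * K ^ (-μ)) atTop (𝓝 0) := by
    simpa using (h1.const_mul a).add (h2.const_mul b)
  filter_upwards [h3.eventually_le_const hc, eventually_gt_atTop 0] with K h4 h5
  rw [Real.rpow_neg h5.le] at h4 ⊢
  refine le_trans (le_of_eq ?_) h4
  rw [div_eq_mul_inv]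
  ring

/-- the approximation at one point -/
theorem one_x : ∀ C : ℝ, 1 ≤ C → ∃ C1 : ℝ, 1 ≤ C1 ∧ ∀ δ : ℝ, 0 < δ → δ ≤ 1 →
    ∃ μ0 : ℝ, 0 < μ0 ∧ μ0 ≤ 1 / 4 ∧ ∀ μ : ℝ, 0 < μ → μ ≤ μ0 → ∀ ε1 : ℝ, 0 < ε1 → ε1 ≤ 1 →
    ∃ K0 : ℝ, 8 ≤ K0 ∧ ∀ K : ℝ, K0 ≤ K → ∀ T : ℝ, 1 ≤ T → (4 * K) ^ 3 ≤ Real.log T →
    ∀ c x : ℝ, |c| = C → 0 ≤ x → x ≤ 3 * K →
    (mu T).real {t | δ * Real.log K / 2 ≤ ‖-DP (dk (pk c (ε1 * Real.log K) x) (sc T))
        (XT (Real.log T) (ε1 * Real.log K)) t -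
        (Yd (Real.log T) K μ x t - Yd (Real.log T) K μ 0 t)‖} ≤ C1 / K ^ 2 := by
  obtain ⟨C0, hC0, hlow⟩ := var_low
  obtain ⟨C2, hC2, hedge⟩ := var_edge
  obtain ⟨C3, hC3, hrem⟩ := rem_tail
  intro C hC
  refine ⟨10 + C3 * (1 + C) ^ 2, by nlinarith [mul_nonneg (by linarith : 0 ≤ C3) (sq_nonneg (1 + C))],
    fun δ hδ hδ1 => ?_⟩
  set B0 : ℝ := 768 * C0 * (1 + C ^ 2) / δ ^ 2 with hB0
  have hB01 : 1 ≤ 768 * C0 * (1 + C ^ 2) := by nlinarith [mul_nonneg (by linarith : 0 ≤ C0) (sq_nonneg C)]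
  have hδ2 : 0 < δ ^ 2 := by positivity
  have hδ21 : δ ^ 2 ≤ 1 := by nlinarith
  have hB04 : 768 ≤ B0 := by
    rw [hB0, le_div_iff₀ hδ2]
    nlinarith [mul_nonneg (by linarith : 0 ≤ C0) (sq_nonneg C)]
  have hB0p : 0 < B0 := by linarith
  refine ⟨1 / B0, by positivity, by
    rw [div_le_div_iff₀ hB0p (by norm_num)]; linarith, fun μ hμ hμ0 ε1 hε1 hε11 => ?_⟩
  have hμ2 : μ ≤ 1 / 2 := by
    have : 1 / B0 ≤ 1 / 4 := by rw [div_le_div_iff₀ hB0p (by norm_num)]; linarith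
    linarith
  set VE : ℝ := (1 + 8 * C) ^ 2 * (80 / ε1 + C2) with hVE
  have hVE0 : 0 < VE := by positivity
  set Lc : ℝ := max (max (16 / ε1) B0) (max (8 * ε1 * VE * Real.exp (48 / ε1) / δ ^ 2) (4 / δ)) with hLc
  obtain ⟨K1, hK1⟩ := ((log_rpow_small hμ 40 0 1 one_pos).and
    (Real.tendsto_log_atTop.eventually_ge_atTop Lc)).exists_forall_of_atTop
  refine ⟨max K1 8, le_max_right _ _, fun K hK T hT hKT c x hc hx hx3 => ?_⟩
  obtain ⟨g1, g2⟩ := hK1 K ((le_max_left _ _).trans hK)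
  have hK8 : 8 ≤ K := (le_max_right _ _).trans hK
  have hK0 : 0 < K := by linarith
  set w := Real.log T with hw
  set L := Real.log K with hL
  have k1 : 16 / ε1 ≤ L := ((le_max_left _ _).trans (le_max_left _ _)).trans g2
  have k2 : B0 ≤ L := ((le_max_right _ _).trans (le_max_left _ _)).trans g2
  have k3 : 8 * ε1 * VE * Real.exp (48 / ε1) / δ ^ 2 ≤ L :=
    ((le_max_left _ _).trans (le_max_right _ _)).trans g2
  have k4 : 4 / δ ≤ L := ((le_max_right _ _).trans (le_max_right _ _)).trans g2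
  have hL1 : 768 ≤ L := hB04.trans k2
  have hL0 : 0 < L := by linarith
  have hLK : L ≤ K := by
    have := Real.log_le_sub_one_of_pos hK0
    linarith
  have hKw : 64 * K * K ^ 2 ≤ w := le_trans (le_of_eq (by ring)) hKT
  have hK2 : 64 ≤ K ^ 2 := by nlinarith
  have hKw2 : 64 * K * 64 ≤ w := le_trans (mul_le_mul_of_nonneg_left hK2 (by positivity)) hKw
  have hw0 : 0 < w := by linarith
  have hT0 : 0 < T := by linarith
  set ℓ := ε1 * L with hℓ
  have hℓ16 : 16 ≤ ℓ := by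
    rw [div_le_iff₀ hε1] at k1
    linarith
  have hℓ0 : 0 < ℓ := by linarith
  set κ0 : ℝ := 1 / (40 * L) with hκ0
  have hκ0p : 0 < κ0 := by positivity
  have hκ01 : κ0 ≤ 1 := by rw [hκ0, div_le_one (by positivity)]; linarith
  have hℓκ : ℓ * κ0 = ε1 / 40 := by rw [hℓ, hκ0]; field_simp
  have hκ2 : K ^ (-μ) ≤ κ0 := by
    rw [hκ0, le_div_iff₀ (by positivity)]
    rwa [add_zero] at g1
  have hκ0w : 1 ≤ κ0 * w := by
    rw [hκ0, one_div, inv_mul_eq_div, le_div_iff₀ (by positivity)]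
    linarith
  have hc2 : c ^ 2 = C ^ 2 := by rw [← hc, sq_abs]
  set S := Sm w K μ with hS
  set N1 : ℕ := ⌊Real.exp (κ0 * w)⌋₊ with hN1
  set N2 : ℕ := ⌊Real.exp (2 * w / ℓ)⌋₊ with hN2
  set X : ℕ := XT w ℓ with hX
  set f1 : ℝ → ℂ := DP (af (PB 0 (κ0 * w)) (er S c ℓ x w)) N1 with hf1
  set f2 : ℝ → ℂ := DP (af (PB (κ0 * w) (2 * w / ℓ)) (er S c ℓ x w)) N2 with hf2
  set f3 : ℝ → ℂ := DP (fun n => dk (pk c ℓ x) (sc T) n - ck (pk c ℓ x) w n) X with hf3
  have hXle : ⌊Real.exp (2 * w / ℓ)⌋₊ ≤ X := by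
    rw [hX]
    unfold XT
    apply Nat.floor_le_floor
    apply Real.exp_le_exp.2
    apply div_le_div_of_nonneg_right _ hℓ0.le
    linarith
  have hsplit : ∀ t, -DP (dk (pk c ℓ x) (sc T)) X t - (Yd w K μ x t - Yd w K μ 0 t) =
      f1 t + f2 t - f3 t := by
    intro t
    have h1 := split_dp (c := c) (μ := μ) (a := sc T) (N := NS w K μ) (N1 := N1) (N2 := N2) hw0
      (by linarith : 1 ≤ ℓ) hx (by linarith : 1 ≤ K) hκ0p hκ2 (by rw [mul_comm, hℓκ]; linarith) le_rfl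
      le_rfl le_rfl hXle t
    rw [h1]
    unfold Yd
    ring
  haveI := mu_fin T
  have hsub : {t | δ * L / 2 ≤ ‖-DP (dk (pk c ℓ x) (sc T)) X t - (Yd w K μ x t - Yd w K μ 0 t)‖} ⊆
      ({t | δ * L / 8 ≤ ‖f1 t‖} ∪ {t | δ * L / 8 ≤ ‖f2 t‖}) ∪ {t | 1 ≤ ‖f3 t‖} := by
    intro t ht
    rw [Set.mem_setOf_eq, hsplit t] at ht
    by_contra hcon
    rw [Set.mem_union, Set.mem_union, Set.mem_setOf_eq, Set.mem_setOf_eq, Set.mem_setOf_eq] at hcon
    push Not at hcon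
    obtain ⟨⟨h1, h2⟩, h3⟩ := hcon
    have h4 : ‖f1 t + f2 t - f3 t‖ ≤ ‖f1 t‖ + ‖f2 t‖ + ‖f3 t‖ :=
      (norm_sub_le _ _).trans (add_le_add (norm_add_le _ _) le_rfl)
    have h5 : 4 ≤ δ * L := by
      rw [div_le_iff₀ hδ] at k4
      linarith
    linarith
  -- the low part
  have hPlow : (mu T).real {t | δ * L / 8 ≤ ‖f1 t‖} ≤ 8 / K ^ 3 := by
    have hv : VV (af (PB 0 (κ0 * w)) (er S c ℓ x w)) (PB 0 (κ0 * w)) ≤ δ ^ 2 * L / 384 := by
      rw [af_VV PB_prime]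
      refine (hlow c ℓ x w K μ κ0 (by linarith) hμ hμ2 (by linarith) hx hx3 hℓ0 hκ2 hκ01
        (by rw [hℓκ]; linarith)).trans ?_
      rw [hc2]
      have h1 : C0 * (1 + C ^ 2) * (1 + μ * L) = δ ^ 2 * B0 / 768 * (1 + μ * L) := by
        rw [hB0]; field_simp
      rw [h1]
      have h2 : B0 * (μ * L) ≤ L := by
        have : B0 * μ ≤ 1 := by
          rw [le_div_iff₀ hB0p] at hμ0
          linarith
        calc B0 * (μ * L) = (B0 * μ) * L := by ring
          _ ≤ 1 * L := mul_le_mul_of_nonneg_right this hL0.le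
          _ = L := one_mul _
      have h3 : B0 * (1 + μ * L) ≤ 2 * L := by
        rw [mul_add, mul_one]; linarith
      calc δ ^ 2 * B0 / 768 * (1 + μ * L) = δ ^ 2 / 768 * (B0 * (1 + μ * L)) := by ring
        _ ≤ δ ^ 2 / 768 * (2 * L) := mul_le_mul_of_nonneg_left h3 (by positivity)
        _ = _ := by ring
    set r : ℕ := ⌈12 * L⌉₊ with hr
    have hr1 : 12 * L ≤ r := Nat.le_ceil _
    have hr2 : (r : ℝ) ≤ 12 * L + 1 := (Nat.ceil_lt_add_one (by linarith)).le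
    have hr3 : 1 ≤ r := by
      have : (1 : ℝ) ≤ r := by linarith
      exact_mod_cast this
    have e3 : (1 - 1 / 2) * (δ * L / 8) ^ 2 / (δ ^ 2 * L / 384) = 3 * L := by
      field_simp
      ring
    have htail := tail_norm (af_pc (S := PB 0 (κ0 * w)) (N := N1) PB_prime (fun _ hp => PB_le hp)
      (er S c ℓ x w)) (fl_one (by positivity)) hT (by norm_num : (0 : ℝ) < 1 / 2) (by norm_num)
      (A := δ * L / 8) (V := δ ^ 2 * L / 384) (by positivity) hv hr3 (by rw [e3]; linarith)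
      (by positivity) (by
        apply size_ok (η := κ0) (w := w) fl_le (fl_one (by positivity)) _ (by linarith)
          (Real.exp_log hT0)
        calc κ0 * r ≤ κ0 * (12 * L + 1) := mul_le_mul_of_nonneg_left hr2 hκ0p.le
          _ ≤ κ0 * (20 * L) := mul_le_mul_of_nonneg_left (by linarith) hκ0p.le
          _ = 1 / 2 := by rw [hκ0]; field_simp; norm_num)
    refine htail.trans (le_of_eq ?_)
    rw [e3]
    have e4 : Real.exp (-(3 * L)) = 1 / K ^ 3 := by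
      rw [Real.exp_neg, one_div]
      congr 1
      rw [hL, show (3 : ℝ) * Real.log K = ((3 : ℕ) : ℝ) * Real.log K by norm_num, Real.exp_nat_mul,
        Real.exp_log hK0]
    rw [e4]
    ring
  -- the edge part
  have hPedge : (mu T).real {t | δ * L / 8 ≤ ‖f2 t‖} ≤ 2 / K ^ 3 := by
    have hv : VV (af (PB (κ0 * w) (2 * w / ℓ)) (er S c ℓ x w)) (PB (κ0 * w) (2 * w / ℓ)) ≤ VE := by
      rw [af_VV PB_prime]
      refine (hedge c ℓ x w K μ κ0 hw0 hx hℓ0 hκ0p hκ2 (by rw [mul_comm, hℓκ]; linarith)).trans ?_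
      rw [hc, hVE]
      refine mul_le_mul_of_nonneg_left ?_ (by positivity)
      have h1 : 2 / (ℓ * κ0) = 80 / ε1 := by rw [hℓκ]; field_simp; norm_num
      rw [h1]
      have h2 := Real.log_le_sub_one_of_pos (show 0 < 80 / ε1 by positivity)
      have h3 : C2 / (κ0 * w) ≤ C2 := div_le_self (by linarith) hκ0w
      linarith
    set m : ℕ := ⌊ℓ / 8⌋₊ with hm
    have hm1 : (m : ℝ) ≤ ℓ / 8 := Nat.floor_le (by positivity)
    have hm2 : ℓ / 16 ≤ m := by
      have := Nat.lt_floor_add_one (ℓ / 8)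
      linarith
    have htail := tail_mom (af_pc (S := PB (κ0 * w) (2 * w / ℓ)) (N := N2) PB_prime
      (fun _ hp => PB_le hp) (er S c ℓ x w)) hT (A := δ * L / 8) m (by positivity) (by
        apply size_ok (η := 2 / ℓ) (w := w) _ (fl_one (by positivity)) _ (by linarith)
          (Real.exp_log hT0)
        · refine fl_le.trans (le_of_eq ?_)
          congr 1
          ring
        · calc 2 / ℓ * m ≤ 2 / ℓ * (ℓ / 8) := mul_le_mul_of_nonneg_left hm1 (by positivity)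
            _ = 1 / 4 := by field_simp; norm_num
            _ ≤ 1 / 2 := by norm_num)
    refine htail.trans ?_
    have hV0 := VV_nonneg (af (PB (κ0 * w) (2 * w / ℓ)) (er S c ℓ x w)) (PB (κ0 * w) (2 * w / ℓ))
    have hbase : (m : ℝ) * VV (af (PB (κ0 * w) (2 * w / ℓ)) (er S c ℓ x w))
        (PB (κ0 * w) (2 * w / ℓ)) / (δ * L / 8) ^ 2 ≤ Real.exp (-(48 / ε1)) := by
      have h1 : (m : ℝ) * VV (af (PB (κ0 * w) (2 * w / ℓ)) (er S c ℓ x w))
        (PB (κ0 * w) (2 * w / ℓ)) ≤ ℓ / 8 * VE := mul_le_mul hm1 hv hV0 (by positivity)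
      rw [div_le_iff₀ (by positivity)]
      refine h1.trans ?_
      rw [div_le_iff₀ hδ2] at k3
      have h2 : Real.exp (-(48 / ε1)) * Real.exp (48 / ε1) = 1 := by rw [← Real.exp_add]; simp
      have h3 := Real.exp_pos (-(48 / ε1))
      have h4 : 8 * ε1 * VE ≤ Real.exp (-(48 / ε1)) * (L * δ ^ 2) := by
        calc 8 * ε1 * VE = Real.exp (-(48 / ε1)) * (8 * ε1 * VE * Real.exp (48 / ε1)) := by
              rw [show Real.exp (-(48 / ε1)) * (8 * ε1 * VE * Real.exp (48 / ε1)) =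
                8 * ε1 * VE * (Real.exp (-(48 / ε1)) * Real.exp (48 / ε1)) by ring, h2, mul_one]
          _ ≤ _ := mul_le_mul_of_nonneg_left k3 h3.le
      calc ℓ / 8 * VE = (8 * ε1 * VE) * (L / 64) := by rw [hℓ]; ring
        _ ≤ (Real.exp (-(48 / ε1)) * (L * δ ^ 2)) * (L / 64) :=
            mul_le_mul_of_nonneg_right h4 (by positivity)
        _ = _ := by ring
    have hb0 : 0 ≤ (m : ℝ) * VV (af (PB (κ0 * w) (2 * w / ℓ)) (er S c ℓ x w))
        (PB (κ0 * w) (2 * w / ℓ)) / (δ * L / 8) ^ 2 := by positivity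
    have hpow := pow_le_pow_left₀ hb0 hbase m
    have hfin : (Real.exp (-(48 / ε1))) ^ m ≤ 1 / K ^ 3 := by
      rw [← Real.exp_nat_mul]
      have e4 : (1 : ℝ) / K ^ 3 = Real.exp (-(3 * L)) := by
        rw [Real.exp_neg, one_div]
        congr 1
        rw [hL, show (3 : ℝ) * Real.log K = ((3 : ℕ) : ℝ) * Real.log K by norm_num, Real.exp_nat_mul,
          Real.exp_log hK0]
      rw [e4]
      apply Real.exp_le_exp.2
      have h5 : 3 * L ≤ m * (48 / ε1) := by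
        calc 3 * L = ℓ / 16 * (48 / ε1) := by rw [hℓ]; field_simp; norm_num
          _ ≤ _ := mul_le_mul_of_nonneg_right hm2 (by positivity)
      linarith
    calc 2 * _ ≤ 2 * (1 / K ^ 3) := mul_le_mul_of_nonneg_left (hpow.trans hfin) (by norm_num)
      _ = _ := by ring
  -- the remainder
  have hPrem : (mu T).real {t | 1 ≤ ‖f3 t‖} ≤ C3 * (1 + C) ^ 2 / K ^ 2 := by
    have hX1 : 1 ≤ X := fl_one (by positivity)
    have hXe : (X : ℝ) ≤ Real.exp (4 / ℓ * w) := by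
      refine fl_le.trans (le_of_eq ?_)
      congr 1
      ring
    have h4ℓ : 4 / ℓ ≤ 1 / 4 := by
      rw [div_le_div_iff₀ hℓ0 (by norm_num)]; linarith
    have hXT : 8 * (X : ℝ) * (1 + Real.log X) ≤ T := by
      have := size_ok (r := 1) (η := 4 / ℓ) (w := w) hXe hX1 (by rw [Nat.cast_one]; linarith)
        (by linarith) (Real.exp_log hT0)
      rwa [pow_one] at this
    have hlX : 1 + Real.log X ≤ 4 * w := by
      have h1 : Real.log X ≤ 4 / ℓ * w := by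
        rw [Real.log_le_iff_le_exp (by exact_mod_cast hX1)]; exact hXe
      have h2 := mul_le_mul_of_nonneg_right h4ℓ hw0.le
      linarith
    have h1 := hrem c ℓ x T (by linarith) hx hT (by linarith) X hX1 hlX hXT
    refine h1.trans ?_
    rw [hc]
    have h2 : ℓ + x ≤ 4 * K := by
      have : ℓ ≤ L := by rw [hℓ]; exact mul_le_of_le_one_left hL0.le hε11
      linarith
    have h3 : (ℓ + x) ^ 4 / w ^ 2 ≤ 1 / K ^ 2 := by
      rw [div_le_div_iff₀ (by positivity) (by positivity), one_mul]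
      calc (ℓ + x) ^ 4 * K ^ 2 ≤ (4 * K) ^ 4 * (4 * K) ^ 2 := by
            apply mul_le_mul (pow_le_pow_left₀ (by positivity) h2 4)
              (pow_le_pow_left₀ hK0.le (by linarith) 2) (by positivity) (by positivity)
        _ = ((4 * K) ^ 3) ^ 2 := by ring
        _ ≤ w ^ 2 := pow_le_pow_left₀ (by positivity) hKT 2
    calc C3 * (1 + C) ^ 2 * (ℓ + x) ^ 4 / w ^ 2 = C3 * (1 + C) ^ 2 * ((ℓ + x) ^ 4 / w ^ 2) := by ring
      _ ≤ C3 * (1 + C) ^ 2 * (1 / K ^ 2) := mul_le_mul_of_nonneg_left h3 (by positivity)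
      _ = _ := by ring
  refine (measureReal_mono hsub).trans ((measureReal_union_le _ _).trans
    ((add_le_add ((measureReal_union_le _ _).trans (add_le_add hPlow hPedge)) hPrem).trans ?_))
  have h9 : 1 / K ^ 3 ≤ 1 / K ^ 2 := by
    apply one_div_le_one_div_of_le (by positivity)
    exact pow_le_pow_right₀ (by linarith) (by norm_num)
  have e9 : 8 / K ^ 3 + 2 / K ^ 3 + C3 * (1 + C) ^ 2 / K ^ 2 =
      10 * (1 / K ^ 3) + C3 * (1 + C) ^ 2 * (1 / K ^ 2) := by ring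
  have e10 : (10 + C3 * (1 + C) ^ 2) / K ^ 2 = 10 * (1 / K ^ 2) + C3 * (1 + C) ^ 2 * (1 / K ^ 2) := by ring
  rw [e9, e10]
  linarith

end Pool.Agent.Q278.MX
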