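import Pool.Agent.Q278.MX.L

/-!
# Gaussian weights of several fields (helper278)
-/

set_option autoImplicit false

namespace Pool.Agent.Q278.MX

open Filter Topology Finset MeasureTheory Complex
open scoped ComplexConjugate NNReal
open ProbabilityTheory
open Pool.Agent.Q278.MC

/-- the standard normal law -/
noncomputable def ga : Measure ℝ := gaussianReal 0 1

lemma ga_prob : IsProbabilityMeasure ga := by
  unfold ga
  exact inferInstance

lemma ga_char (t : ℝ) : ∫ g, cexp (I * ((g * t : ℝ) : ℂ)) ∂ga = ((Real.exp (-t ^ 2 / 2) : ℝ) : ℂ) := by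
  have h := charFun_gaussianReal (μ := 0) (v := 1) t
  rw [charFun_apply_real] at h
  have e : ∫ g, cexp (I * ((g * t : ℝ) : ℂ)) ∂ga = ∫ x, cexp (t * x * I) ∂(gaussianReal 0 1) := by
    unfold ga
    congr 1
    funext g
    congr 1
    push_cast
    ring
  rw [e, h]
  push_cast
  congr 1
  ring

/-- the expectation of a Gaussian weight -/
noncomputable def Aw (m W : ℝ) : ℝ := (Real.sqrt (1 + W / 2))⁻¹ * Real.exp (-m ^ 2 / (2 * (1 + W / 2)))

lemma Aw_pos {m W : ℝ} (hW : 0 ≤ W) : 0 < Aw m W := by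
  unfold Aw
  positivity

lemma ga_gauss (m W : ℝ) (hW : 0 ≤ W) :
    ∫ g, cexp (-(I * ((g * m : ℝ) : ℂ))) * ((Real.exp (-(g ^ 2 * W / 4)) : ℝ) : ℂ) ∂ga =
      ((Aw m W : ℝ) : ℂ) := by
  have hpi := Real.pi_pos
  set v : ℝ≥0 := ⟨(1 + W / 2)⁻¹, by positivity⟩ with hv
  have hv0 : v ≠ 0 := by
    intro h
    have h1 : (v : ℝ) = 0 := by rw [h]; rfl
    rw [hv] at h1
    have h2 : (0 : ℝ) < (1 + W / 2)⁻¹ := by positivity
    exact h2.ne' h1
  have hvr : (v : ℝ) = (1 + W / 2)⁻¹ := rfl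
  have h := charFun_gaussianReal (μ := 0) (v := v) (-m)
  rw [charFun_apply_real, integral_gaussianReal_eq_integral_smul hv0] at h
  have e : ∫ g, cexp (-(I * ((g * m : ℝ) : ℂ))) * ((Real.exp (-(g ^ 2 * W / 4)) : ℝ) : ℂ) ∂ga =
      ((Real.sqrt v : ℝ) : ℂ) * ∫ x, gaussianPDFReal 0 v x • cexp ((-m : ℝ) * x * I) := by
    unfold ga
    rw [integral_gaussianReal_eq_integral_smul one_ne_zero, ← integral_const_mul]
    congr 1
    funext g
    have e1 : gaussianPDFReal 0 1 g * Real.exp (-(g ^ 2 * W / 4)) =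
        Real.sqrt v * gaussianPDFReal 0 v g := by
      unfold gaussianPDFReal
      rw [hvr, sub_zero, NNReal.coe_one, mul_one, mul_one, mul_assoc, ← Real.exp_add]
      have e2 : Real.sqrt ((1 + W / 2)⁻¹) * ((Real.sqrt (2 * Real.pi * (1 + W / 2)⁻¹))⁻¹ *
          Real.exp (-g ^ 2 / (2 * (1 + W / 2)⁻¹))) =
          (Real.sqrt (2 * Real.pi))⁻¹ * Real.exp (-g ^ 2 / (2 * (1 + W / 2)⁻¹)) := by
        rw [Real.sqrt_mul (by positivity)]
        have h3 : Real.sqrt ((1 + W / 2)⁻¹) ≠ 0 := by positivity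
        field_simp
      rw [e2]
      congr 2
      field_simp
      ring
    rw [Complex.real_smul, Complex.real_smul]
    have e3 : cexp (-(I * ((g * m : ℝ) : ℂ))) = cexp (((-m : ℝ) : ℂ) * g * I) := by
      congr 1
      push_cast
      ring
    rw [e3]
    have e4 : ((gaussianPDFReal 0 1 g : ℝ) : ℂ) * ((Real.exp (-(g ^ 2 * W / 4)) : ℝ) : ℂ) =
        ((Real.sqrt v : ℝ) : ℂ) * ((gaussianPDFReal 0 v g : ℝ) : ℂ) := by exact_mod_cast e1
    linear_combination cexp (((-m : ℝ) : ℂ) * g * I) * e4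
  rw [e, h, hvr]
  unfold Aw
  have e5 : (Real.sqrt (1 + W / 2))⁻¹ = Real.sqrt ((1 + W / 2)⁻¹) := by rw [Real.sqrt_inv]
  rw [e5]
  push_cast
  congr 2
  have h6 : (1 : ℂ) + W / 2 ≠ 0 := by
    have : (1 : ℝ) + W / 2 ≠ 0 := by positivity
    exact_mod_cast this
  field_simp
  ring

lemma ga_tail {G : ℝ} (hG : 0 ≤ G) : ga.real {g | G ≤ |g|} ≤ 2 * Real.exp (-G ^ 2 / 2) := by
  haveI := ga_prob
  have h1 := measure_ge_le_exp_mul_mgf (μ := gaussianReal 0 1) (X := fun x : ℝ => x) (t := G) G hG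
    (integrable_exp_mul_gaussianReal G)
  have h2 := measure_le_le_exp_mul_mgf (μ := gaussianReal 0 1) (X := fun x : ℝ => x) (t := -G) (-G)
    (by linarith) (integrable_exp_mul_gaussianReal (-G))
  rw [mgf_fun_id_gaussianReal] at h1 h2
  have hsub : {g : ℝ | G ≤ |g|} ⊆ {g | G ≤ g} ∪ {g | g ≤ -G} := by
    intro g hg
    rw [Set.mem_setOf_eq, le_abs] at hg
    rcases hg with h | h
    · exact Or.inl h
    · exact Or.inr (by rw [Set.mem_setOf_eq]; linarith)
  have h3 : ga.real {g | G ≤ |g|} ≤ ga.real {g | G ≤ g} + ga.real {g | g ≤ -G} :=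
    (measureReal_mono hsub).trans (measureReal_union_le _ _)
  have e1 : Real.exp (-G * G) * Real.exp (0 * G + ((1 : ℝ≥0) : ℝ) * G ^ 2 / 2) = Real.exp (-G ^ 2 / 2) := by
    rw [← Real.exp_add]
    congr 1
    rw [NNReal.coe_one]
    ring
  have e2 : Real.exp (- -G * -G) * Real.exp (0 * -G + ((1 : ℝ≥0) : ℝ) * (-G) ^ 2 / 2) =
      Real.exp (-G ^ 2 / 2) := by
    rw [← Real.exp_add]
    congr 1
    rw [NNReal.coe_one]
    ring
  rw [e1] at h1
  rw [e2] at h2
  have h1' : ga.real {g | G ≤ g} ≤ Real.exp (-G ^ 2 / 2) := h1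
  have h2' : ga.real {g | g ≤ -G} ≤ Real.exp (-G ^ 2 / 2) := h2
  linarith

variable {ι : Type} [Fintype ι]

/-- the product law -/
noncomputable def gp (ι : Type) [Fintype ι] : Measure (ι → ℝ) := Measure.pi fun _ => ga

lemma gp_prob : IsProbabilityMeasure (gp ι) := by
  haveI := ga_prob
  unfold gp
  exact inferInstance

lemma gp_tail {G : ℝ} (hG : 0 ≤ G) :
    (gp ι).real {g | ∃ i, G ≤ |g i|} ≤ 2 * (Fintype.card ι) * Real.exp (-G ^ 2 / 2) := by
  classical
  haveI := ga_prob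
  haveI := gp_prob (ι := ι)
  have hsub : {g : ι → ℝ | ∃ i, G ≤ |g i|} ⊆ ⋃ i ∈ (Finset.univ : Finset ι), {g : ι → ℝ | G ≤ |g i|} := by
    intro g hg
    obtain ⟨i, hi⟩ := hg
    simp only [Set.mem_iUnion]
    exact ⟨i, Finset.mem_univ i, hi⟩
  refine (measureReal_mono hsub (measure_ne_top _ _)).trans ((measureReal_biUnion_finset_le _ _).trans ?_)
  have h1 : ∀ i : ι, (gp ι).real {g | G ≤ |g i|} ≤ 2 * Real.exp (-G ^ 2 / 2) := by
    intro i
    have hmp : MeasurePreserving (Function.eval i) (gp ι) ga := measurePreserving_eval (fun _ => ga) i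
    have hms : MeasurableSet {g : ℝ | G ≤ |g|} := measurableSet_le measurable_const continuous_abs.measurable
    have e : (gp ι).real {g | G ≤ |g i|} = ga.real {g | G ≤ |g|} := by
      have := hmp.measureReal_preimage hms.nullMeasurableSet
      rw [← this]
      rfl
    rw [e]
    exact ga_tail hG
  calc ∑ i, (gp ι).real {g | G ≤ |g i|} ≤ ∑ _i : ι, 2 * Real.exp (-G ^ 2 / 2) :=
        Finset.sum_le_sum fun i _ => h1 i
    _ = _ := by
        rw [Finset.sum_const, Finset.card_univ, nsmul_eq_mul]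
        ring

/-- the linear combination of the coefficients -/
noncomputable def lc (f : ι → ℕ → ℂ) (g : ι → ℝ) (n : ℕ) : ℂ := ∑ i, (g i : ℂ) * f i n

lemma DP_lc {P : Finset ℕ} {N : ℕ} (hP : ∀ p ∈ P, p.Prime) (hN : ∀ p ∈ P, p ≤ N) (f : ι → ℕ → ℂ)
    (g : ι → ℝ) (t : ℝ) : (DP (af P (lc f g)) N t).re = ∑ i, g i * (DP (af P (f i)) N t).re := by
  have h1 : DP (af P (lc f g)) N t = ∑ i, (g i : ℂ) * DP (af P (f i)) N t := by
    rw [af_DP hP hN]
    have h2 : ∀ i, (g i : ℂ) * DP (af P (f i)) N t = ∑ p ∈ P, (g i : ℂ) * (f i p * (p : ℂ) ^ (-(t : ℂ) * I)) := by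
      intro i
      rw [af_DP hP hN, Finset.mul_sum]
    simp_rw [h2]
    rw [Finset.sum_comm]
    refine Finset.sum_congr rfl fun p _ => ?_
    unfold lc
    rw [Finset.sum_mul]
    exact Finset.sum_congr rfl fun i _ => by ring
  rw [h1, Complex.re_sum]
  refine Finset.sum_congr rfl fun i _ => ?_
  rw [Complex.re_ofReal_mul]

/-- the expectation of a product of Gaussian weights -/
theorem gauss_weight {P : Finset ℕ} {N : ℕ} (hP : ∀ p ∈ P, p.Prime) (hN : ∀ p ∈ P, p ≤ N)
    (f : ι → ℕ → ℂ) (m W : ι → ℝ) (hW0 : ∀ i, 0 ≤ W i)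
    (hVW : ∀ g : ι → ℝ, VV (af P (lc f g)) P = ∑ i, g i ^ 2 * W i) {T G E1 : ℝ} (hT : 1 ≤ T)
    (hG : 0 ≤ G) (hE1 : 0 ≤ E1) (hE : ∀ g : ι → ℝ, (∀ i, |g i| ≤ G) →
      ‖(∫ t, cexp (I * (((DP (af P (lc f g)) N t).re : ℝ) : ℂ)) ∂(mu T)) -
        ((Real.exp (-(VV (af P (lc f g)) P / 4)) : ℝ) : ℂ)‖ ≤ E1) :
    |(∫ t, ∏ i, Real.exp (-((DP (af P (f i)) N t).re - m i) ^ 2 / 2) ∂(mu T)) - ∏ i, Aw (m i) (W i)| ≤
      E1 + 4 * (Fintype.card ι) * Real.exp (-G ^ 2 / 2) := by
  classical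
  haveI := ga_prob
  haveI := gp_prob (ι := ι)
  haveI := mu_fin T
  set X : ι → ℝ → ℝ := fun i t => (DP (af P (f i)) N t).re with hX
  have hXc : ∀ i, Continuous (X i) := fun i => Complex.continuous_re.comp (DP_cont _ _)
  set F : ℝ → (ι → ℝ) → ℂ := fun t g => ∏ i, cexp (I * ((g i * (X i t - m i) : ℝ) : ℂ)) with hF
  have hFn : ∀ t g, ‖F t g‖ = 1 := by
    intro t g
    simp only [hF]
    rw [norm_prod]
    apply Finset.prod_eq_one
    intro i _
    rw [mul_comm, Complex.norm_exp_ofReal_mul_I]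
  have hFc : Continuous (Function.uncurry F) := by
    simp only [hF, Function.uncurry]
    refine continuous_finsetProd _ fun i _ => ?_
    have h1 : Continuous fun z : ℝ × (ι → ℝ) => X i z.1 := (hXc i).comp continuous_fst
    have h2 : Continuous fun z : ℝ × (ι → ℝ) => z.2 i := (continuous_apply i).comp continuous_snd
    exact (continuous_const.mul (Complex.continuous_ofReal.comp (h2.mul (h1.sub continuous_const)))).cexp
  have hFi : Integrable (Function.uncurry F) ((mu T).prod (gp ι)) := by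
    refine (integrable_const (1 : ℝ)).mono' hFc.aestronglyMeasurable (Eventually.of_forall fun z => ?_)
    exact (hFn z.1 z.2).le
  -- the left side
  have e1 : ((∫ t, ∏ i, Real.exp (-(X i t - m i) ^ 2 / 2) ∂(mu T) : ℝ) : ℂ) =
      ∫ t, ∫ g, F t g ∂(gp ι) ∂(mu T) := by
    have e0 : ∫ t, ((∏ i, Real.exp (-(X i t - m i) ^ 2 / 2) : ℝ) : ℂ) ∂(mu T) =
      ((∫ t, ∏ i, Real.exp (-(X i t - m i) ^ 2 / 2) ∂(mu T) : ℝ) : ℂ) := integral_ofReal
    rw [← e0]
    congr 1
    funext t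
    simp only [hF, gp]
    rw [integral_fintype_prod_eq_prod (μ := fun _ => ga)
      (fun i (y : ℝ) => cexp (I * ((y * (X i t - m i) : ℝ) : ℂ)))]
    rw [Complex.ofReal_prod]
    refine Finset.prod_congr rfl fun i _ => ?_
    rw [ga_char]
  have e2 := integral_integral_swap hFi
  -- the inner integral
  set E : (ι → ℝ) → ℂ := fun g => ∏ i, cexp (-(I * ((g i * m i : ℝ) : ℂ))) with hEd
  have hEn : ∀ g, ‖E g‖ = 1 := by
    intro g
    simp only [hEd]
    rw [norm_prod]
    apply Finset.prod_eq_one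
    intro i _
    have : -(I * ((g i * m i : ℝ) : ℂ)) = ((-(g i * m i) : ℝ) : ℂ) * I := by push_cast; ring
    rw [this, Complex.norm_exp_ofReal_mul_I]
  have hEc : Continuous E := by
    simp only [hEd]
    refine continuous_finsetProd _ fun i _ => ?_
    exact (continuous_const.mul (Complex.continuous_ofReal.comp
      ((continuous_apply i).mul continuous_const))).neg.cexp
  set φ : (ι → ℝ) → ℂ := fun g => ∫ t, cexp (I * (((DP (af P (lc f g)) N t).re : ℝ) : ℂ)) ∂(mu T) with hφ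
  have e3 : ∀ g, ∫ t, F t g ∂(mu T) = φ g * E g := by
    intro g
    simp only [hφ]
    rw [← integral_mul_const]
    congr 1
    funext t
    simp only [hF, hEd]
    rw [DP_lc hP hN, ← Complex.exp_sum, ← Complex.exp_sum, ← Complex.exp_add]
    congr 1
    rw [Complex.ofReal_sum, Finset.mul_sum, ← Finset.sum_add_distrib]
    refine Finset.sum_congr rfl fun i _ => ?_
    simp only [hX]
    push_cast
    ring
  -- the main term
  have e4 : ((∏ i, Aw (m i) (W i) : ℝ) : ℂ) =
      ∫ g, ((Real.exp (-(VV (af P (lc f g)) P / 4)) : ℝ) : ℂ) * E g ∂(gp ι) := by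
    have e5 : ∀ g : ι → ℝ, ((Real.exp (-(VV (af P (lc f g)) P / 4)) : ℝ) : ℂ) * E g =
        ∏ i, (cexp (-(I * ((g i * m i : ℝ) : ℂ))) * ((Real.exp (-(g i ^ 2 * W i / 4)) : ℝ) : ℂ)) := by
      intro g
      rw [Finset.prod_mul_distrib, mul_comm]
      congr 1
      rw [← Complex.ofReal_prod, ← Real.exp_sum, hVW]
      congr 2
      rw [Finset.sum_neg_distrib, Finset.sum_div]
    simp_rw [e5]
    unfold gp
    rw [integral_fintype_prod_eq_prod (μ := fun _ => ga)
      (fun i (y : ℝ) => cexp (-(I * ((y * m i : ℝ) : ℂ))) * ((Real.exp (-(y ^ 2 * W i / 4)) : ℝ) : ℂ)),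
      Complex.ofReal_prod]
    exact Finset.prod_congr rfl fun i _ => (ga_gauss (m i) (W i) (hW0 i)).symm
  have i1 : Integrable (fun g => φ g * E g) (gp ι) := by
    have := hFi.integral_prod_right
    refine this.congr (Eventually.of_forall fun g => ?_)
    simp only [Function.uncurry]
    exact e3 g
  have i2 : Integrable (fun g => ((Real.exp (-(VV (af P (lc f g)) P / 4)) : ℝ) : ℂ) * E g) (gp ι) := by
    refine (integrable_const (1 : ℝ)).mono' ?_ (Eventually.of_forall fun g => ?_)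
    · have hc : Continuous fun g : ι → ℝ => ((Real.exp (-(VV (af P (lc f g)) P / 4)) : ℝ) : ℂ) * E g := by
        simp_rw [hVW]
        refine Continuous.mul ?_ hEc
        refine Complex.continuous_ofReal.comp (Real.continuous_exp.comp ?_)
        refine (Continuous.div_const ?_ _).neg
        refine continuous_finsetSum _ fun i _ => ?_
        exact ((continuous_apply i).pow 2).mul continuous_const
      exact hc.aestronglyMeasurable
    · rw [norm_mul, hEn, mul_one, Complex.norm_real, Real.norm_of_nonneg (Real.exp_pos _).le]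
      apply Real.exp_le_one_iff.2
      have := VV_nonneg (af P (lc f g)) P
      linarith
  have hbd : ∀ g : ι → ℝ, ‖φ g * E g - ((Real.exp (-(VV (af P (lc f g)) P / 4)) : ℝ) : ℂ) * E g‖ ≤
      E1 + ({g : ι → ℝ | ∃ i, G ≤ |g i|}).indicator (fun _ => (2 : ℝ)) g := by
    intro g
    rw [← sub_mul, norm_mul, hEn, mul_one]
    by_cases hg : g ∈ {g : ι → ℝ | ∃ i, G ≤ |g i|}
    · rw [Set.indicator_of_mem hg]
      have h1 : ‖φ g‖ ≤ 1 := by
        simp only [hφ]
        refine (norm_integral_le_integral_norm _).trans ?_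
        have h2 : ∀ t : ℝ, ‖cexp (I * (((DP (af P (lc f g)) N t).re : ℝ) : ℂ))‖ = 1 := fun t => by
          rw [mul_comm, Complex.norm_exp_ofReal_mul_I]
        simp_rw [h2]
        rw [integral_const, smul_eq_mul, mul_one, mu_univ hT]
        exact (ta_mem hT).2
      have h2 : ‖((Real.exp (-(VV (af P (lc f g)) P / 4)) : ℝ) : ℂ)‖ ≤ 1 := by
        rw [Complex.norm_real, Real.norm_of_nonneg (Real.exp_pos _).le]
        apply Real.exp_le_one_iff.2
        have := VV_nonneg (af P (lc f g)) P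
        linarith
      refine (norm_sub_le _ _).trans ?_
      linarith
    · rw [Set.indicator_of_notMem hg, add_zero]
      apply hE
      intro i
      rw [Set.mem_setOf_eq] at hg
      push Not at hg
      exact (hg i).le
  have hms : MeasurableSet {g : ι → ℝ | ∃ i, G ≤ |g i|} := by
    have : {g : ι → ℝ | ∃ i, G ≤ |g i|} = ⋃ i, {g : ι → ℝ | G ≤ |g i|} := by
      ext g; simp
    rw [this]
    refine MeasurableSet.iUnion fun i => ?_
    exact measurableSet_le measurable_const (continuous_abs.measurable.comp (measurable_pi_apply i))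
  have i3 : Integrable (fun g : ι → ℝ => ({g : ι → ℝ | ∃ i, G ≤ |g i|}).indicator (fun _ => (2 : ℝ)) g)
      (gp ι) := (integrable_const (2 : ℝ)).indicator hms
  have key : ‖(∫ g, φ g * E g ∂(gp ι)) -
      ∫ g, ((Real.exp (-(VV (af P (lc f g)) P / 4)) : ℝ) : ℂ) * E g ∂(gp ι)‖ ≤
      E1 + 2 * (gp ι).real {g | ∃ i, G ≤ |g i|} := by
    rw [← integral_sub i1 i2]
    have i4 : Integrable (fun g : ι → ℝ => E1 + ({g : ι → ℝ | ∃ i, G ≤ |g i|}).indicator
        (fun _ => (2 : ℝ)) g) (gp ι) := (integrable_const E1).add i3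
    refine (norm_integral_le_of_norm_le i4 (Eventually.of_forall hbd)).trans (le_of_eq ?_)
    rw [integral_add (integrable_const E1) i3, integral_const, integral_indicator hms,
      setIntegral_const]
    simp only [smul_eq_mul, probReal_univ, one_mul]
    ring
  have e6 : ((∫ t, ∏ i, Real.exp (-(X i t - m i) ^ 2 / 2) ∂(mu T) : ℝ) : ℂ) -
      ((∏ i, Aw (m i) (W i) : ℝ) : ℂ) = (∫ g, φ g * E g ∂(gp ι)) -
      ∫ g, ((Real.exp (-(VV (af P (lc f g)) P / 4)) : ℝ) : ℂ) * E g ∂(gp ι) := by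
    rw [e1, e2, e4]
    congr 1
    congr 1
    funext g
    exact e3 g
  have h9 : |(∫ t, ∏ i, Real.exp (-(X i t - m i) ^ 2 / 2) ∂(mu T)) - ∏ i, Aw (m i) (W i)| =
      ‖((∫ t, ∏ i, Real.exp (-(X i t - m i) ^ 2 / 2) ∂(mu T) : ℝ) : ℂ) -
      ((∏ i, Aw (m i) (W i) : ℝ) : ℂ)‖ := by
    rw [← Complex.ofReal_sub, Complex.norm_real, Real.norm_eq_abs]
  rw [h9, e6]
  refine key.trans ?_
  have := gp_tail (ι := ι) hG
  linarith

end Pool.Agent.Q278.MX
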