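import Pool.Agent.Q278.MX.P

/-!
# The bands and the pairs of points (helper278)
-/

set_option autoImplicit false

namespace Pool.Agent.Q278.MX

open Filter Topology Finset MeasureTheory Complex
open scoped ComplexConjugate
open Pool.Agent.Q278.MC

lemma PB_split {α β γ : ℝ} (h1 : α ≤ β) (h2 : β ≤ γ) (F : ℕ → ℝ) :
    ∑ p ∈ PB α γ, F p = (∑ p ∈ PB α β, F p) + ∑ p ∈ PB β γ, F p := by
  rw [← Finset.sum_union]
  · apply Finset.sum_congr _ fun _ _ => rfl
    ext p
    rw [Finset.mem_union, mem_PB, mem_PB, mem_PB]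
    constructor
    · rintro ⟨a, b, c⟩
      rcases le_or_gt (Real.log p) β with h | h
      · exact Or.inl ⟨a, b, h⟩
      · exact Or.inr ⟨a, h, c⟩
    · rintro (⟨a, b, c⟩ | ⟨a, b, c⟩)
      · exact ⟨a, b, c.trans h2⟩
      · exact ⟨a, by linarith, c⟩
  · rw [Finset.disjoint_left]
    intro p hp hp'
    rw [mem_PB] at hp hp'
    linarith [hp.2.2, hp'.2.1]

/-- the bands -/
noncomputable def Bd (w K μ : ℝ) (j : ℕ) : Finset ℕ :=
  PB (w * K ^ (-((j + 2 : ℝ) * μ))) (w * K ^ (-((j + 1 : ℝ) * μ)))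

lemma pw_anti {w K μ a b : ℝ} (hw : 0 < w) (hK : 1 ≤ K) (hμ : 0 < μ) (h : a ≤ b) :
    w * K ^ (-(b * μ)) ≤ w * K ^ (-(a * μ)) := by
  refine mul_le_mul_of_nonneg_left ?_ hw.le
  apply Real.rpow_le_rpow_of_exponent_le hK
  have := mul_le_mul_of_nonneg_right h hμ.le
  linarith

lemma Bd_disj {w K μ : ℝ} (hw : 0 < w) (hK : 1 ≤ K) (hμ : 0 < μ) {i j p : ℕ} (hi : p ∈ Bd w K μ i)
    (hj : p ∈ Bd w K μ j) : i = j := by
  have key : ∀ i j : ℕ, p ∈ Bd w K μ i → p ∈ Bd w K μ j → ¬ i < j := by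
    intro i j hi hj hij
    have h1 := (mem_PB.1 hi).2.1
    have h2 := (mem_PB.1 hj).2.2
    have h3 : w * K ^ (-((j + 1 : ℝ) * μ)) ≤ w * K ^ (-((i + 2 : ℝ) * μ)) := by
      apply pw_anti hw hK hμ
      have : (i : ℝ) + 1 ≤ j := by exact_mod_cast hij
      linarith
    linarith
  rcases lt_trichotomy i j with h | h | h
  · exact absurd h (key i j hi hj)
  · exact h
  · exact absurd h (key j i hj hi)

lemma Bd_sum {w K μ : ℝ} (hw : 0 < w) (hK : 1 ≤ K) (hμ : 0 < μ) (F : ℕ → ℝ) (k : ℕ) :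
    ∑ p ∈ PB (w * K ^ (-((k + 1 : ℝ) * μ))) (w * K ^ (-μ)), F p =
      ∑ j ∈ range k, ∑ p ∈ Bd w K μ j, F p := by
  induction k with
  | zero =>
    rw [range_zero, sum_empty]
    apply Finset.sum_eq_zero
    intro p hp
    rw [mem_PB] at hp
    have : w * K ^ (-((((0 : ℕ) : ℝ) + 1) * μ)) = w * K ^ (-μ) := by
      congr 2
      push_cast
      ring
    rw [this] at hp
    linarith [hp.2.1, hp.2.2]
  | succ k ih =>
    rw [sum_range_succ, ← ih]
    have e1 : (((k + 1 : ℕ) : ℝ) + 1) = (k : ℝ) + 2 := by push_cast; ring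
    rw [e1, PB_split (β := w * K ^ (-((k + 1 : ℝ) * μ))) (pw_anti hw hK hμ (by linarith)) _]
    · rw [add_comm]
      rfl
    · have := pw_anti (w := w) (K := K) (μ := μ) (a := 1) (b := (k : ℝ) + 1) hw hK hμ (by
        have : (0 : ℝ) ≤ k := Nat.cast_nonneg k
        linarith)
      rwa [one_mul] at this

lemma Sm_sum {w K μ : ℝ} (hw : 0 < w) (hK : 1 ≤ K) (hμ : 0 < μ) {n : ℕ} (hn : (n + 2 : ℝ) * μ = 1)
    (F : ℕ → ℝ) : ∑ p ∈ Sm w K μ, F p = ∑ j : Fin n, ∑ p ∈ Bd w K μ j, F p := by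
  have h := Bd_sum hw hK hμ F n
  have e : Sm w K μ = PB (w * K ^ (-((n + 1 : ℝ) * μ))) (w * K ^ (-μ)) := by
    unfold Sm
    congr 3
    linarith
  rw [e, h, Finset.sum_range]

lemma Bd_sub {w K μ : ℝ} (hw : 0 < w) (hK : 1 ≤ K) (hμ : 0 < μ) {n : ℕ} (hn : (n + 2 : ℝ) * μ = 1)
    (j : Fin n) : Bd w K μ j ⊆ Sm w K μ := by
  unfold Bd Sm
  have h1 : ((j : ℕ) : ℝ) + 1 ≤ n := by exact_mod_cast j.2
  have h2 : (0 : ℝ) ≤ ((j : ℕ) : ℝ) := Nat.cast_nonneg _
  apply PB_mono
  · have := pw_anti (w := w) (K := K) (μ := μ) (a := ((j : ℕ) : ℝ) + 2) (b := (n : ℝ) + 1) hw hK hμ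
      (by linarith)
    have e : -(((n : ℝ) + 1) * μ) = μ - 1 := by linarith
    rwa [e] at this
  · have := pw_anti (w := w) (K := K) (μ := μ) (a := 1) (b := ((j : ℕ) : ℝ) + 1) hw hK hμ (by linarith)
    rwa [one_mul] at this

/-- the variance of a band -/
noncomputable def Vj (w K μ : ℝ) (j : ℕ) : ℝ := ∑ p ∈ Bd w K μ j, 1 / (Real.pi ^ 2 * p)

/-- the covariance of a band -/
noncomputable def Rj (w K μ x y : ℝ) (j : ℕ) : ℝ :=
  ∑ p ∈ Bd w K μ j, (yc w x p * conj (yc w y p)).re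

lemma Vj_nonneg (w K μ : ℝ) (j : ℕ) : 0 ≤ Vj w K μ j := Finset.sum_nonneg fun p _ => by positivity

lemma Rj_le (w K μ x y : ℝ) (j : ℕ) : |Rj w K μ x y j| ≤ Vj w K μ j := by
  unfold Rj Vj
  refine (Finset.abs_sum_le_sum_abs _ _).trans (Finset.sum_le_sum fun p _ => ?_)
  refine (Complex.abs_re_le_norm _).trans ?_
  rw [norm_mul, RCLike.norm_conj, yc_norm, yc_norm, ← yc_sq w 0 p, yc_norm]
  exact le_of_eq (by ring)

lemma norm_sq_lin (a b : ℂ) (g h : ℝ) : ‖(g : ℂ) * a + (h : ℂ) * b‖ ^ 2 =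
    g ^ 2 * ‖a‖ ^ 2 + h ^ 2 * ‖b‖ ^ 2 + 2 * g * h * (a * conj b).re := by
  rw [← Complex.normSq_eq_norm_sq, ← Complex.normSq_eq_norm_sq, ← Complex.normSq_eq_norm_sq,
    Complex.normSq_apply, Complex.normSq_apply, Complex.normSq_apply]
  simp
  ring

/-- the coefficients of a pair -/
noncomputable def pf (w K μ x y : ℝ) {n : ℕ} (c : Fin n → Prop) [DecidablePred c] (i : Fin n × Bool)
    (p : ℕ) : ℂ :=
  if p ∈ Bd w K μ i.1 then
    (if i.2 then (if c i.1 then 0 else ((Real.sqrt 2)⁻¹ : ℝ) * (yc w x p - yc w y p))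
      else (if c i.1 then yc w x p else ((Real.sqrt 2)⁻¹ : ℝ) * (yc w x p + yc w y p))) else 0

/-- the variances of a pair -/
noncomputable def pW (w K μ x y : ℝ) {n : ℕ} (c : Fin n → Prop) [DecidablePred c] (i : Fin n × Bool) : ℝ :=
  if i.2 then (if c i.1 then 0 else Vj w K μ i.1 - Rj w K μ x y i.1)
  else (if c i.1 then Vj w K μ i.1 else Vj w K μ i.1 + Rj w K μ x y i.1)

/-- the means of a pair -/
noncomputable def pm (m : ℝ) {n : ℕ} (c : Fin n → Prop) [DecidablePred c] (i : Fin n × Bool) : ℝ :=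
  if i.2 then 0 else (if c i.1 then m else Real.sqrt 2 * m)

section
variable {w K μ x y : ℝ} {n : ℕ} (c : Fin n → Prop) [DecidablePred c]

lemma pW_nonneg (i : Fin n × Bool) : 0 ≤ pW w K μ x y c i := by
  have h1 := Vj_nonneg w K μ i.1
  have h2 := abs_le.1 (Rj_le w K μ x y i.1)
  unfold pW
  split_ifs
  · exact le_rfl
  · linarith [h2.2]
  · exact h1
  · linarith [h2.1]

lemma lc_pf (hw : 0 < w) (hK : 1 ≤ K) (hμ : 0 < μ) (g : Fin n × Bool → ℝ) (j : Fin n) {p : ℕ}
    (hp : p ∈ Bd w K μ j) : lc (pf w K μ x y c) g p =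
      (g (j, false) : ℂ) * pf w K μ x y c (j, false) p + (g (j, true) : ℂ) * pf w K μ x y c (j, true) p := by
  unfold lc
  rw [Fintype.sum_prod_type, Finset.sum_eq_single j]
  · rw [Fintype.sum_bool, add_comm]
  · intro i _ hij
    rw [Fintype.sum_bool]
    have : p ∉ Bd w K μ i := fun h => hij (Fin.ext (Bd_disj hw hK hμ h hp))
    unfold pf
    simp only [if_neg this, mul_zero, add_zero]
  · intro h
    exact absurd (Finset.mem_univ j) h

/-- the variance identity for a pair -/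
theorem VV_pair (hw : 0 < w) (hK : 1 ≤ K) (hμ : 0 < μ) (hn : (n + 2 : ℝ) * μ = 1)
    (g : Fin n × Bool → ℝ) :
    VV (af (Sm w K μ) (lc (pf w K μ x y c) g)) (Sm w K μ) = ∑ i, g i ^ 2 * pW w K μ x y c i := by
  have hs2 : Real.sqrt 2 ^ 2 = 2 := Real.sq_sqrt (by norm_num)
  rw [af_VV Sm_prime, Sm_sum hw hK hμ hn, Fintype.sum_prod_type]
  refine Finset.sum_congr rfl fun j _ => ?_
  rw [Fintype.sum_bool]
  have e1 : ∀ p ∈ Bd w K μ j, ‖lc (pf w K μ x y c) g p‖ ^ 2 =
      g (j, true) ^ 2 * (if c j then 0 else 1 / (Real.pi ^ 2 * p) - (yc w x p * conj (yc w y p)).re) +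
      g (j, false) ^ 2 * (if c j then 1 / (Real.pi ^ 2 * p) else
        1 / (Real.pi ^ 2 * p) + (yc w x p * conj (yc w y p)).re) := by
    intro p hp
    rw [lc_pf c hw hK hμ g j hp]
    unfold pf
    simp only [if_pos hp, Bool.false_eq_true, if_false, if_true]
    by_cases hc : c j
    · simp only [if_pos hc, mul_zero, add_zero, zero_add]
      rw [norm_mul, mul_pow, yc_sq, Complex.norm_real, Real.norm_eq_abs, sq_abs]
    · simp only [if_neg hc]
      rw [norm_sq_lin]
      have hx := yc_sq w x p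
      have hy := yc_sq w y p
      have hns : ‖(((Real.sqrt 2)⁻¹ : ℝ) : ℂ)‖ ^ 2 = 1 / 2 := by
        rw [Complex.norm_real, Real.norm_eq_abs, sq_abs, inv_pow, hs2]
        norm_num
      have ha : ‖(((Real.sqrt 2)⁻¹ : ℝ) : ℂ) * (yc w x p + yc w y p)‖ ^ 2 =
          1 / (Real.pi ^ 2 * p) + (yc w x p * conj (yc w y p)).re := by
        rw [norm_mul, mul_pow, hns]
        have := norm_sq_lin (yc w x p) (yc w y p) 1 1
        simp only [Complex.ofReal_one, one_mul, one_pow, mul_one] at this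
        rw [this, hx, hy]
        ring
      have hb : ‖(((Real.sqrt 2)⁻¹ : ℝ) : ℂ) * (yc w x p - yc w y p)‖ ^ 2 =
          1 / (Real.pi ^ 2 * p) - (yc w x p * conj (yc w y p)).re := by
        rw [norm_mul, mul_pow, hns]
        have := norm_sq_lin (yc w x p) (yc w y p) 1 (-1)
        simp only [Complex.ofReal_one, one_mul, one_pow, mul_one, Complex.ofReal_neg, neg_mul,
          ← sub_eq_add_neg] at this
        rw [this, hx, hy]
        ring
      have hab : ((((Real.sqrt 2)⁻¹ : ℝ) : ℂ) * (yc w x p + yc w y p) *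
          conj ((((Real.sqrt 2)⁻¹ : ℝ) : ℂ) * (yc w x p - yc w y p))).re = 0 := by
        have hx' : (yc w x p).re ^ 2 + (yc w x p).im ^ 2 = 1 / (Real.pi ^ 2 * p) := by
          rw [← hx, ← Complex.normSq_eq_norm_sq, Complex.normSq_apply]; ring
        have hy' : (yc w y p).re ^ 2 + (yc w y p).im ^ 2 = 1 / (Real.pi ^ 2 * p) := by
          rw [← hy, ← Complex.normSq_eq_norm_sq, Complex.normSq_apply]; ring
        simp only [map_mul, map_sub, Complex.conj_ofReal, Complex.mul_re, Complex.mul_im,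
          Complex.add_re, Complex.add_im, Complex.sub_re, Complex.sub_im, Complex.conj_re,
          Complex.conj_im, Complex.ofReal_re, Complex.ofReal_im]
        linear_combination ((Real.sqrt 2)⁻¹) ^ 2 * (hx' - hy')
      rw [ha, hb, hab]
      ring
  rw [Finset.sum_congr rfl e1, Finset.sum_add_distrib, ← Finset.mul_sum, ← Finset.mul_sum]
  unfold pW Vj Rj
  by_cases hc : c j
  · simp only [if_pos hc, Finset.sum_const_zero, Bool.false_eq_true, if_false, if_true]
  · simp only [if_neg hc, Bool.false_eq_true, if_false, if_true]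
    rw [Finset.sum_sub_distrib, Finset.sum_add_distrib]

/-- the field of a band -/
noncomputable def Yj (w K μ x : ℝ) (j : ℕ) (t : ℝ) : ℝ :=
  (DP (af (Sm w K μ) fun p => if p ∈ Bd w K μ j then yc w x p else 0) (NS w K μ) t).re

/-- the weights of a pair -/
lemma weight_pair (m t : ℝ) :
    ∏ i, Real.exp (-((DP (af (Sm w K μ) (pf w K μ x y c i)) (NS w K μ) t).re - pm m c i) ^ 2 / 2) =
      ∏ j : Fin n, (Real.exp (-(Yj w K μ x j t - m) ^ 2 / 2) *
        (if c j then 1 else Real.exp (-(Yj w K μ y j t - m) ^ 2 / 2))) := by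
  have hs2 : Real.sqrt 2 ^ 2 = 2 := Real.sq_sqrt (by norm_num)
  have hs0 : Real.sqrt 2 ≠ 0 := by positivity
  have hNS : ∀ p ∈ Sm w K μ, p ≤ NS w K μ := fun p hp => PB_le hp
  rw [Fintype.prod_prod_type]
  refine Finset.prod_congr rfl fun j _ => ?_
  rw [Fintype.prod_bool]
  by_cases hc : c j
  · rw [if_pos hc, mul_one]
    have e1 : (DP (af (Sm w K μ) (pf w K μ x y c (j, true))) (NS w K μ) t).re = 0 := by
      rw [af_DP Sm_prime hNS]
      have : ∀ p ∈ Sm w K μ, pf w K μ x y c (j, true) p * (p : ℂ) ^ (-(t : ℂ) * I) = 0 := by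
        intro p _
        unfold pf
        simp only [if_true, if_pos hc, ite_self, zero_mul]
      rw [Finset.sum_eq_zero this, Complex.zero_re]
    have e2 : (DP (af (Sm w K μ) (pf w K μ x y c (j, false))) (NS w K μ) t).re = Yj w K μ x j t := by
      unfold Yj
      have : pf w K μ x y c (j, false) = fun p => if p ∈ Bd w K μ j then yc w x p else 0 := by
        funext p
        unfold pf
        simp only [Bool.false_eq_true, if_false, if_pos hc]
      rw [this]
    rw [e1, e2]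
    unfold pm
    simp only [if_true, Bool.false_eq_true, if_false, if_pos hc]
    simp
  · rw [if_neg hc]
    have e1 : (DP (af (Sm w K μ) (pf w K μ x y c (j, true))) (NS w K μ) t).re =
        (Real.sqrt 2)⁻¹ * (Yj w K μ x j t - Yj w K μ y j t) := by
      unfold Yj
      rw [af_DP Sm_prime hNS, af_DP Sm_prime hNS, af_DP Sm_prime hNS, ← Complex.sub_re,
        ← Finset.sum_sub_distrib, ← Complex.re_ofReal_mul, Finset.mul_sum]
      congr 1
      refine Finset.sum_congr rfl fun p _ => ?_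
      unfold pf
      by_cases hp : p ∈ Bd w K μ j
      · simp only [if_pos hp, if_true, if_neg hc]
        ring
      · simp only [if_neg hp]
        ring
    have e2 : (DP (af (Sm w K μ) (pf w K μ x y c (j, false))) (NS w K μ) t).re =
        (Real.sqrt 2)⁻¹ * (Yj w K μ x j t + Yj w K μ y j t) := by
      unfold Yj
      rw [af_DP Sm_prime hNS, af_DP Sm_prime hNS, af_DP Sm_prime hNS, ← Complex.add_re,
        ← Finset.sum_add_distrib, ← Complex.re_ofReal_mul, Finset.mul_sum]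
      congr 1
      refine Finset.sum_congr rfl fun p _ => ?_
      unfold pf
      by_cases hp : p ∈ Bd w K μ j
      · simp only [if_pos hp, Bool.false_eq_true, if_false, if_neg hc]
        ring
      · simp only [if_neg hp]
        ring
    rw [e1, e2]
    unfold pm
    simp only [if_true, Bool.false_eq_true, if_false, if_neg hc]
    rw [← Real.exp_add, ← Real.exp_add]
    congr 1
    set a := Yj w K μ x j t
    set b := Yj w K μ y j t
    have h1 : ((Real.sqrt 2)⁻¹) ^ 2 = 1 / 2 := by rw [inv_pow, hs2]; norm_num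
    have h2 : (Real.sqrt 2)⁻¹ * Real.sqrt 2 = 1 := inv_mul_cancel₀ hs0
    linear_combination (-(a - b) ^ 2 / 2 - (a + b) ^ 2 / 2) * h1 + (m * (a + b)) * h2 - m ^ 2 / 2 * hs2

end

end Pool.Agent.Q278.MX
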