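import Pool.Agent.Q278.MX.N
import Pool.Agent.Q278.MX.Q

/-!
# The expectation of the weight of a pair (helper278)
-/

set_option autoImplicit false

namespace Pool.Agent.Q278.MX

open Filter Topology Finset MeasureTheory Complex
open scoped ComplexConjugate
open Pool.Agent.Q278.MC

lemma Aw_zero : Aw 0 0 = 1 := by
  unfold Aw
  simp

/-- the total variance -/
lemma Vj_sum {w K μ : ℝ} (hw : 0 < w) (hK : 1 ≤ K) (hμ : 0 < μ) {n : ℕ} (hn : (n + 2 : ℝ) * μ = 1)
    (x : ℝ) : ∑ j : Fin n, Vj w K μ j = VV (af (Sm w K μ) (yc w x)) (Sm w K μ) := by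
  rw [af_VV Sm_prime, Sm_sum hw hK hμ hn]
  refine Finset.sum_congr rfl fun j _ => ?_
  unfold Vj
  exact Finset.sum_congr rfl fun p _ => (yc_sq w x p).symm

section
variable {w K μ x y : ℝ} {n : ℕ} (c : Fin n → Prop) [DecidablePred c]

lemma pf_norm (i : Fin n × Bool) (p : ℕ) : ‖pf w K μ x y c i p‖ ≤ (Real.sqrt p)⁻¹ / 2 := by
  have hpi := Real.pi_gt_three
  have h0 : 0 ≤ (Real.sqrt p)⁻¹ := by positivity
  have h1 : (Real.sqrt p)⁻¹ * Real.pi⁻¹ ≤ (Real.sqrt p)⁻¹ * 3⁻¹ := by
    refine mul_le_mul_of_nonneg_left ?_ h0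
    exact inv_anti₀ (by norm_num) hpi.le
  have hs : 0 ≤ (Real.sqrt 2)⁻¹ := by positivity
  have hs1 : (Real.sqrt 2)⁻¹ ≤ 3 / 4 := by
    rw [inv_le_comm₀ (by positivity) (by norm_num)]
    rw [Real.le_sqrt (by norm_num) (by norm_num)]
    norm_num
  have key : ∀ z : ℂ, ‖z‖ ≤ 2 * ((Real.sqrt p)⁻¹ * Real.pi⁻¹) →
      ‖(((Real.sqrt 2)⁻¹ : ℝ) : ℂ) * z‖ ≤ (Real.sqrt p)⁻¹ / 2 := by
    intro z hz
    rw [norm_mul, Complex.norm_real, Real.norm_of_nonneg hs]
    calc (Real.sqrt 2)⁻¹ * ‖z‖ ≤ 3 / 4 * (2 * ((Real.sqrt p)⁻¹ * 3⁻¹)) := by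
          apply mul_le_mul hs1 (hz.trans (by linarith)) (norm_nonneg _) (by norm_num)
      _ = _ := by ring
  unfold pf
  split_ifs
  · rw [norm_zero]; positivity
  · apply key
    refine (norm_sub_le _ _).trans ?_
    rw [yc_norm, yc_norm]
    linarith
  · rw [yc_norm]; linarith
  · apply key
    refine (norm_add_le _ _).trans ?_
    rw [yc_norm, yc_norm]
    linarith
  · rw [norm_zero]; positivity

lemma lc_norm (hw : 0 < w) (hK : 1 ≤ K) (hμ : 0 < μ) {g : Fin n × Bool → ℝ} {G : ℝ}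
    (hg : ∀ i, |g i| ≤ G) (hG : 0 ≤ G) (p : ℕ) :
    ‖lc (pf w K μ x y c) g p‖ ^ 2 ≤ G ^ 2 * (1 / (p : ℝ)) := by
  have h0 : 0 ≤ (Real.sqrt p)⁻¹ := by positivity
  have h1 : ‖lc (pf w K μ x y c) g p‖ ≤ G * (Real.sqrt p)⁻¹ := by
    by_cases h : ∃ j : Fin n, p ∈ Bd w K μ j
    · obtain ⟨j, hj⟩ := h
      rw [lc_pf c hw hK hμ g j hj]
      refine (norm_add_le _ _).trans ?_
      rw [norm_mul, norm_mul, Complex.norm_real, Complex.norm_real, Real.norm_eq_abs, Real.norm_eq_abs]
      have a1 := mul_le_mul (hg (j, false)) (pf_norm (w := w) (K := K) (μ := μ) (x := x) (y := y) c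
        (j, false) p) (norm_nonneg _) hG
      have a2 := mul_le_mul (hg (j, true)) (pf_norm (w := w) (K := K) (μ := μ) (x := x) (y := y) c
        (j, true) p) (norm_nonneg _) hG
      linarith
    · push Not at h
      have : lc (pf w K μ x y c) g p = 0 := by
        unfold lc
        apply Finset.sum_eq_zero
        intro i _
        unfold pf
        rw [if_neg (h i.1), mul_zero]
      rw [this, norm_zero]
      positivity
  calc ‖lc (pf w K μ x y c) g p‖ ^ 2 ≤ (G * (Real.sqrt p)⁻¹) ^ 2 :=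
        pow_le_pow_left₀ (norm_nonneg _) h1 2
    _ = G ^ 2 * ((Real.sqrt p)⁻¹) ^ 2 := by ring
    _ = _ := by rw [sq_inv_sqrt]

lemma pW_sum (hw : 0 < w) (hK : 1 ≤ K) (hμ : 0 < μ) (hn : (n + 2 : ℝ) * μ = 1) {G : ℝ}
    {g : Fin n × Bool → ℝ} (hg : ∀ i, |g i| ≤ G) (hG : 0 ≤ G) :
    VV (af (Sm w K μ) (lc (pf w K μ x y c) g)) (Sm w K μ) ≤ G ^ 2 * (2 * ∑ j : Fin n, Vj w K μ j) := by
  rw [VV_pair c hw hK hμ hn, Fintype.sum_prod_type, Finset.mul_sum, Finset.mul_sum]
  refine Finset.sum_le_sum fun j _ => ?_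
  rw [Fintype.sum_bool]
  have hq : ∀ i, g i ^ 2 ≤ G ^ 2 := fun i => by
    rw [← sq_abs (g i)]
    exact pow_le_pow_left₀ (abs_nonneg _) (hg i) 2
  have p1 := pW_nonneg (w := w) (K := K) (μ := μ) (x := x) (y := y) c (j, true)
  have p2 := pW_nonneg (w := w) (K := K) (μ := μ) (x := x) (y := y) c (j, false)
  have e : pW w K μ x y c (j, true) + pW w K μ x y c (j, false) ≤ 2 * Vj w K μ j := by
    have := Vj_nonneg w K μ j
    unfold pW
    simp only [if_true, Bool.false_eq_true, if_false]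
    split_ifs
    · linarith
    · linarith
  calc g (j, true) ^ 2 * pW w K μ x y c (j, true) + g (j, false) ^ 2 * pW w K μ x y c (j, false) ≤
        G ^ 2 * pW w K μ x y c (j, true) + G ^ 2 * pW w K μ x y c (j, false) :=
        add_le_add (mul_le_mul_of_nonneg_right (hq _) p1) (mul_le_mul_of_nonneg_right (hq _) p2)
    _ = G ^ 2 * (pW w K μ x y c (j, true) + pW w K μ x y c (j, false)) := by ring
    _ ≤ _ := mul_le_mul_of_nonneg_left e (by positivity)

lemma prod_pair (m : ℝ) : ∏ i, Aw (pm m c i) (pW w K μ x y c i) =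
    ∏ j : Fin n, (if c j then Aw m (Vj w K μ j) else
      Aw (Real.sqrt 2 * m) (Vj w K μ j + Rj w K μ x y j) * Aw 0 (Vj w K μ j - Rj w K μ x y j)) := by
  rw [Fintype.prod_prod_type]
  refine Finset.prod_congr rfl fun j _ => ?_
  rw [Fintype.prod_bool]
  unfold pm pW
  by_cases hc : c j
  · simp only [if_pos hc, if_true, Bool.false_eq_true, if_false]
    rw [Aw_zero, one_mul]
  · simp only [if_neg hc, if_true, Bool.false_eq_true, if_false]
    rw [mul_comm]

end

/-- the growth of a power beats the powers of the logarithm -/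
lemma log_cube {μ : ℝ} (hμ : 0 < μ) : ∀ᶠ K : ℝ in atTop,
    9 * Real.log K ^ 3 + 20 * Real.log K + 10 ≤ K ^ μ / 4 := by
  filter_upwards [log_rpow_small (μ := μ / 3) (by positivity) 3 3 (1 / 2) (by norm_num),
    eventually_gt_atTop 1] with K h1 h2
  have hK0 : 0 < K := by linarith
  have hL := Real.log_nonneg h2.le
  have hp : 0 < K ^ (-(μ / 3)) := Real.rpow_pos_of_pos hK0 _
  have h3 := pow_le_pow_left₀ (by positivity) h1 3
  have e : (K ^ (-(μ / 3)) * (3 * Real.log K + 3)) ^ 3 = K ^ (-μ) * (3 * Real.log K + 3) ^ 3 := by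
    rw [mul_pow, ← Real.rpow_natCast (K ^ (-(μ / 3))) 3, ← Real.rpow_mul hK0.le]
    congr 2
    push_cast
    ring
  rw [e] at h3
  have hq : 0 < K ^ μ := Real.rpow_pos_of_pos hK0 _
  have h4 : (3 * Real.log K + 3) ^ 3 ≤ K ^ μ * (1 / 8) := by
    rw [Real.rpow_neg hK0.le, inv_mul_le_iff₀ hq] at h3
    calc _ ≤ K ^ μ * (1 / 2) ^ 3 := h3
      _ = _ := by norm_num
  have h5 : 9 * Real.log K ^ 3 + 20 * Real.log K + 10 ≤ (3 * Real.log K + 3) ^ 3 := by
    have h6 : 0 ≤ Real.log K ^ 2 := by positivity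
    have h7 : 0 ≤ Real.log K ^ 3 := by positivity
    nlinarith
  linarith

/-- the expectation of the weight of a pair -/
theorem pair_weight : ∀ (n : ℕ) (μ : ℝ), 0 < μ → (n + 2 : ℝ) * μ = 1 → ∃ K0 : ℝ, 8 ≤ K0 ∧
    ∀ K : ℝ, K0 ≤ K → ∀ T : ℝ, 1 ≤ T → (4 * K) ^ 3 ≤ Real.log T → ∀ (x y m : ℝ) (c : Fin n → Prop)
    [DecidablePred c],
    |(∫ t, ∏ j : Fin n, (Real.exp (-(Yj (Real.log T) K μ x j t - m) ^ 2 / 2) *
        (if c j then 1 else Real.exp (-(Yj (Real.log T) K μ y j t - m) ^ 2 / 2))) ∂(mu T)) -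
      ∏ j : Fin n, (if c j then Aw m (Vj (Real.log T) K μ j) else
      Aw (Real.sqrt 2 * m) (Vj (Real.log T) K μ j + Rj (Real.log T) K μ x y j) *
        Aw 0 (Vj (Real.log T) K μ j - Rj (Real.log T) K μ x y j))| ≤ 1 / K ^ 20 := by
  obtain ⟨C0, hC0, hvar⟩ := var_field
  intro n μ hμ hn
  have hμ2 : μ ≤ 1 / 2 := by
    have : (0 : ℝ) ≤ n * μ := by positivity
    nlinarith
  obtain ⟨K1, hK1⟩ := ((log_cube hμ).and
    (Real.tendsto_log_atTop.eventually_ge_atTop (max (50 + 8 * n) (8 * C0)))).exists_forall_of_atTop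
  refine ⟨max K1 8, le_max_right _ _, fun K hK T hT hKT x y m c _ => ?_⟩
  obtain ⟨g1, g2⟩ := hK1 K ((le_max_left _ _).trans hK)
  have hK8 : 8 ≤ K := (le_max_right _ _).trans hK
  have hK0 : 0 < K := by linarith
  set w := Real.log T with hw
  set L := Real.log K with hL
  have k1 : 50 + 8 * (n : ℝ) ≤ L := (le_max_left _ _).trans g2
  have k2 : 8 * C0 ≤ L := (le_max_right _ _).trans g2
  have hn0 : (0 : ℝ) ≤ n := Nat.cast_nonneg n
  have hL0 : 0 < L := by linarith
  have hLK : L ≤ K := by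
    have := Real.log_le_sub_one_of_pos hK0
    linarith
  have hK2 : 64 ≤ K ^ 2 := by nlinarith
  have hKw : 64 * K * K ^ 2 ≤ w := le_trans (le_of_eq (by ring)) hKT
  have hKw2 : 64 * K * 64 ≤ w := le_trans (mul_le_mul_of_nonneg_left hK2 (by positivity)) hKw
  have hw0 : 0 < w := by linarith
  have hT0 : 0 < T := by linarith
  have hTe : Real.exp w = T := Real.exp_log hT0
  have hKμ : 0 < K ^ μ := Real.rpow_pos_of_pos hK0 _
  have hKμK : K ^ μ ≤ K := by
    have := Real.rpow_le_rpow_of_exponent_le (by linarith : 1 ≤ K) (by linarith : μ ≤ 1)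
    rwa [Real.rpow_one] at this
  have hκ : 0 < K ^ (-μ) := Real.rpow_pos_of_pos hK0 _
  set r : ℕ := ⌊K ^ μ / 8⌋₊ with hr
  have hr1 : (r : ℝ) ≤ K ^ μ / 8 := Nat.floor_le (by positivity)
  have hr2 : K ^ μ / 8 - 1 ≤ r := by
    have := Nat.lt_floor_add_one (K ^ μ / 8)
    linarith
  have hN1 : 1 ≤ NS w K μ := fl_one (by positivity)
  -- the length condition
  have hδ : 8 * ((NS w K μ ^ (2 * r) : ℕ) : ℝ) * (1 + Real.log ((NS w K μ ^ (2 * r) : ℕ) : ℝ)) ≤
      Real.exp (-(w / 2)) * T := by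
    have h1 := size_ok (N := NS w K μ) (r := 2 * r) (η := 2 * K ^ (-μ)) (w := w / 2)
      (T := Real.exp (w / 2)) (by
        refine fl_le.trans (le_of_eq ?_)
        congr 1
        ring) hN1 (by
        have h2 : K ^ (-μ) * K ^ μ = 1 := by
          rw [← Real.rpow_add hK0]; simp
        push_cast
        calc 2 * K ^ (-μ) * (2 * r) = 4 * (K ^ (-μ) * r) := by ring
          _ ≤ 4 * (K ^ (-μ) * (K ^ μ / 8)) := by gcongr
          _ = K ^ (-μ) * K ^ μ / 2 := by ring
          _ = 1 / 2 := by rw [h2]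
          _ ≤ 1 / 2 := le_rfl) (by linarith) rfl
    rw [Nat.cast_pow]
    refine h1.trans (le_of_eq ?_)
    rw [← hTe, ← Real.exp_add]
    congr 1
    ring
  have hVS : 2 * ∑ j : Fin n, Vj w K μ j ≤ L := by
    rw [Vj_sum hw0 (by linarith) hμ hn 0]
    have h1 := (abs_le.1 (hvar w K μ (by linarith) hμ hμ2 (by linarith) 0)).2
    have h2 : C0 * K / w ≤ C0 := by
      rw [div_le_iff₀ hw0]
      exact mul_le_mul_of_nonneg_left (by linarith) (by linarith)
    have h3 : (1 - 2 * μ) * L / Real.pi ^ 2 ≤ L / 8 := by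
      have hpi : 8 ≤ Real.pi ^ 2 := by
        have := Real.pi_gt_three
        nlinarith
      calc (1 - 2 * μ) * L / Real.pi ^ 2 ≤ 1 * L / 8 := by
            apply div_le_div₀ (by positivity) _ (by norm_num) hpi
            exact mul_le_mul_of_nonneg_right (by linarith) hL0.le
        _ = _ := by ring
    linarith
  -- the error of the characteristic function
  set V0 : ℝ := L ^ 3 with hV0
  set E1 : ℝ := Real.exp V0 * (Real.exp (-(w / 2)) * (2 * r + 1) + (1 - ta T) +
    L ^ 2 * Real.exp (-(w / K)) + 2 * (V0 ^ r / (r.factorial : ℝ))) with hE1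
  have hta := ta_mem hT
  have hV00 : 0 ≤ V0 := by positivity
  have hE10 : 0 ≤ E1 := by
    have : 0 ≤ 1 - ta T := by linarith [hta.2]
    positivity
  have hmain := gauss_weight Sm_prime (fun p hp => PB_le hp) (pf w K μ x y c) (pm m c)
    (pW w K μ x y c) (pW_nonneg c) (VV_pair c hw0 (by linarith) hμ hn) hT hL0.le hE10
    (N := NS w K μ) (fun g hg => by
      have hVle : VV (af (Sm w K μ) (lc (pf w K μ x y c) g)) (Sm w K μ) ≤ V0 := by
        refine (pW_sum c hw0 (by linarith) hμ hn hg hL0.le).trans ?_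
        calc L ^ 2 * (2 * ∑ j : Fin n, Vj w K μ j) ≤ L ^ 2 * L :=
              mul_le_mul_of_nonneg_left hVS (by positivity)
          _ = _ := by rw [hV0]; ring
      have hV0' := VV_nonneg (af (Sm w K μ) (lc (pf w K μ x y c) g)) (Sm w K μ)
      have hMc : ∀ p ∈ Sm w K μ, ‖af (Sm w K μ) (lc (pf w K μ x y c) g) p‖ ^ 2 ≤
          L ^ 2 * Real.exp (-(w / K)) := by
        intro p hp
        rw [af_apply Sm_prime, if_pos hp]
        refine (lc_norm c hw0 (by linarith) hμ hg hL0.le p).trans ?_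
        refine mul_le_mul_of_nonneg_left ?_ (by positivity)
        have hp' := mem_PB.1 hp
        have hp0 : (0 : ℝ) < p := by exact_mod_cast hp'.1.pos
        rw [Real.exp_neg, one_div]
        apply inv_anti₀ (Real.exp_pos _)
        rw [← Real.le_log_iff_exp_le hp0]
        have h3 : K ^ (-1 : ℝ) ≤ K ^ (μ - 1) := Real.rpow_le_rpow_of_exponent_le (by linarith) (by linarith)
        rw [Real.rpow_neg_one] at h3
        calc w / K = w * K⁻¹ := by ring
          _ ≤ w * K ^ (μ - 1) := mul_le_mul_of_nonneg_left h3 hw0.le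
          _ ≤ _ := hp'.2.1.le
      have h1 := char_fun (Sm_pc (w := w) (K := K) (μ := μ) (lc (pf w K μ x y c) g)) hT (r := r) hN1
        (M := L ^ 2 * Real.exp (-(w / K))) (by positivity) hMc hδ
      refine h1.trans ?_
      rw [hE1]
      have : 0 ≤ 1 - ta T := by linarith [hta.2]
      gcongr)
  rw [prod_pair] at hmain
  simp_rw [weight_pair] at hmain
  refine hmain.trans ?_
  -- the numerical estimate
  have hKe : K = Real.exp L := (Real.exp_log hK0).symm
  have hfin : 1 / K ^ 20 = Real.exp (-(20 * L)) := by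
    rw [Real.exp_neg, one_div]
    congr 1
    rw [hL, show (20 : ℝ) * Real.log K = ((20 : ℕ) : ℝ) * Real.log K by norm_num, Real.exp_nat_mul,
      Real.exp_log hK0]
  rw [hfin]
  have hq : Real.exp (V0 - K ^ μ / 4) ≤ Real.exp (-10) * Real.exp (-(20 * L)) := by
    rw [← Real.exp_add]
    apply Real.exp_le_exp.2
    have : 0 ≤ V0 := hV00
    linarith
  have hq9 : Real.exp (9 * V0 + 2 - K ^ μ / 4) ≤ Real.exp (-8) * Real.exp (-(20 * L)) := by
    rw [← Real.exp_add]
    apply Real.exp_le_exp.2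
    linarith
  have hw4 : w / 4 ≤ Real.exp (w / 4) := by
    have := Real.add_one_le_exp (w / 4)
    linarith
  have t1 : Real.exp V0 * (Real.exp (-(w / 2)) * (2 * r + 1)) ≤ Real.exp (V0 - K ^ μ / 4) := by
    have h1 : (2 * (r : ℝ) + 1) ≤ Real.exp (w / 4) := by linarith
    calc Real.exp V0 * (Real.exp (-(w / 2)) * (2 * r + 1)) ≤
          Real.exp V0 * (Real.exp (-(w / 2)) * Real.exp (w / 4)) := by gcongr
      _ = Real.exp (V0 - w / 4) := by
          rw [← Real.exp_add, ← Real.exp_add]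
          congr 1
          ring
      _ ≤ _ := by
          apply Real.exp_le_exp.2
          linarith
  have t2 : Real.exp V0 * (1 - ta T) ≤ Real.exp (V0 - K ^ μ / 4) := by
    have h1 : 1 - ta T = 2 * w * Real.exp (-w) := by
      unfold ta
      rw [← hw, Real.exp_neg, hTe]
      field_simp
      ring
    have h2 : 2 * w ≤ Real.exp (w / 2) := by
      have := Real.quadratic_le_exp_of_nonneg (show 0 ≤ w / 2 by linarith)
      nlinarith
    rw [h1]
    calc Real.exp V0 * (2 * w * Real.exp (-w)) ≤ Real.exp V0 * (Real.exp (w / 2) * Real.exp (-w)) := by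
          gcongr
      _ = Real.exp (V0 - w / 2) := by
          rw [← Real.exp_add, ← Real.exp_add]
          congr 1
          ring
      _ ≤ _ := by
          apply Real.exp_le_exp.2
          linarith
  have t3 : Real.exp V0 * (L ^ 2 * Real.exp (-(w / K))) ≤ 2 * Real.exp (V0 - K ^ μ / 4) := by
    have h1 : L ^ 2 ≤ 2 * Real.exp K := by
      have h2 := Real.quadratic_le_exp_of_nonneg (show 0 ≤ K by linarith)
      have h3 : L ^ 2 ≤ K ^ 2 := pow_le_pow_left₀ hL0.le hLK 2
      linarith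
    have h4 : 64 * K ≤ w / K := by
      rw [le_div_iff₀ hK0]
      calc 64 * K * K = 64 * K * (K * 1) := by ring
        _ ≤ 64 * K * (K * K) := by gcongr; linarith
        _ = 64 * K * K ^ 2 := by ring
        _ ≤ w := hKw
    calc Real.exp V0 * (L ^ 2 * Real.exp (-(w / K))) ≤
          Real.exp V0 * (2 * Real.exp K * Real.exp (-(64 * K))) := by
          gcongr
      _ = 2 * Real.exp (V0 - 63 * K) := by
          have : Real.exp (V0 - 63 * K) = Real.exp V0 * (Real.exp K * Real.exp (-(64 * K))) := by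
            rw [← Real.exp_add, ← Real.exp_add]
            congr 1
            ring
          rw [this]
          ring
      _ ≤ _ := by
          refine mul_le_mul_of_nonneg_left ?_ (by norm_num)
          apply Real.exp_le_exp.2
          linarith
  have t4 : Real.exp V0 * (2 * (V0 ^ r / (r.factorial : ℝ))) ≤ 2 * Real.exp (9 * V0 + 2 - K ^ μ / 4) := by
    have h1 := pow_fac_le (V := Real.exp 2 * V0) (by positivity) r
    rw [mul_pow, mul_div_assoc] at h1
    have h2 : Real.exp 2 ≤ 8 := by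
      have h3 := Real.exp_one_lt_d9
      have h4 : Real.exp 2 = Real.exp 1 ^ 2 := by rw [← Real.exp_nat_mul]; norm_num
      rw [h4]
      have h5 := Real.exp_pos 1
      nlinarith
    have h6 : V0 ^ r / (r.factorial : ℝ) ≤ Real.exp (8 * V0 - 2 * r) := by
      have h7 : Real.exp 2 ^ r = Real.exp (2 * r) := by
        rw [← Real.exp_nat_mul]; congr 1; ring
      rw [h7] at h1
      have h8 : Real.exp (8 * V0 - 2 * r) = Real.exp (8 * V0) / Real.exp (2 * r) := by rw [Real.exp_sub]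
      rw [h8, le_div_iff₀ (Real.exp_pos _), mul_comm]
      refine h1.trans (Real.exp_le_exp.2 ?_)
      exact mul_le_mul_of_nonneg_right h2 hV00
    calc Real.exp V0 * (2 * (V0 ^ r / (r.factorial : ℝ))) ≤ Real.exp V0 * (2 * Real.exp (8 * V0 - 2 * r)) := by
          gcongr
      _ = 2 * Real.exp (9 * V0 - 2 * r) := by
          have : Real.exp (9 * V0 - 2 * r) = Real.exp V0 * Real.exp (8 * V0 - 2 * r) := by
            rw [← Real.exp_add]; congr 1; ring
          rw [this]; ring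
      _ ≤ _ := by
          refine mul_le_mul_of_nonneg_left ?_ (by norm_num)
          apply Real.exp_le_exp.2
          linarith
  have t5 : 4 * ((Fintype.card (Fin n × Bool) : ℕ) : ℝ) * Real.exp (-L ^ 2 / 2) ≤
      Real.exp (-1) * Real.exp (-(20 * L)) := by
    have h1 : ((Fintype.card (Fin n × Bool) : ℕ) : ℝ) = 2 * n := by
      rw [Fintype.card_prod, Fintype.card_fin, Fintype.card_bool]
      push_cast
      ring
    rw [h1]
    have h2 : 8 * (n : ℝ) ≤ Real.exp (8 * n) := by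
      have := Real.add_one_le_exp (8 * (n : ℝ))
      linarith
    calc 4 * (2 * (n : ℝ)) * Real.exp (-L ^ 2 / 2) = 8 * n * Real.exp (-L ^ 2 / 2) := by ring
      _ ≤ Real.exp (8 * n) * Real.exp (-L ^ 2 / 2) := by gcongr
      _ = Real.exp (8 * n - L ^ 2 / 2) := by rw [← Real.exp_add]; congr 1; ring
      _ ≤ _ := by
          rw [← Real.exp_add]
          apply Real.exp_le_exp.2
          nlinarith
  have n1 : Real.exp (-10) ≤ 1 / 100 := by
    rw [Real.exp_neg, one_div]
    apply inv_anti₀ (by norm_num)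
    have := Real.quadratic_le_exp_of_nonneg (show (0 : ℝ) ≤ 10 by norm_num)
    have h4 : Real.exp 10 = Real.exp 5 * Real.exp 5 := by rw [← Real.exp_add]; norm_num
    have h5 := Real.quadratic_le_exp_of_nonneg (show (0 : ℝ) ≤ 5 by norm_num)
    rw [h4]
    nlinarith
  have n2 : Real.exp (-8) ≤ 1 / 100 := by
    rw [Real.exp_neg, one_div]
    apply inv_anti₀ (by norm_num)
    have h4 : Real.exp 8 = Real.exp 4 * Real.exp 4 := by rw [← Real.exp_add]; norm_num
    have h5 := Real.quadratic_le_exp_of_nonneg (show (0 : ℝ) ≤ 4 by norm_num)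
    rw [h4]
    nlinarith
  have n3 : Real.exp (-1) ≤ 1 / 2 := by
    rw [Real.exp_neg, one_div]
    apply inv_anti₀ (by norm_num)
    have := Real.add_one_le_exp 1
    linarith
  have hpos := Real.exp_pos (-(20 * L))
  have e1 : E1 = Real.exp V0 * (Real.exp (-(w / 2)) * (2 * r + 1)) + Real.exp V0 * (1 - ta T) +
      Real.exp V0 * (L ^ 2 * Real.exp (-(w / K))) + Real.exp V0 * (2 * (V0 ^ r / (r.factorial : ℝ))) := by
    rw [hE1]; ring
  rw [e1]
  have q1 : Real.exp (-10) * Real.exp (-(20 * L)) ≤ 1 / 100 * Real.exp (-(20 * L)) :=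
    mul_le_mul_of_nonneg_right n1 hpos.le
  have q2 : Real.exp (-8) * Real.exp (-(20 * L)) ≤ 1 / 100 * Real.exp (-(20 * L)) :=
    mul_le_mul_of_nonneg_right n2 hpos.le
  have q3 : Real.exp (-1) * Real.exp (-(20 * L)) ≤ 1 / 2 * Real.exp (-(20 * L)) :=
    mul_le_mul_of_nonneg_right n3 hpos.le
  linarith

end Pool.Agent.Q278.MX
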