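import Pool.Agent.Q278.MX.R

/-!
# Variances, covariances and the ratio (helper278)
-/

set_option autoImplicit false

namespace Pool.Agent.Q278.MX

open Filter Topology Finset MeasureTheory Complex
open scoped ComplexConjugate
open Pool.Agent.Q278.MC

/-- the ratio of the correlated and the uncorrelated expectations -/
lemma ratio_le {m V R : ℝ} (hR : |R| ≤ V) (hR1 : |R| ≤ 1) :
    Aw (Real.sqrt 2 * m) (V + R) * Aw 0 (V - R) ≤
      Aw m V ^ 2 * Real.exp ((2 * m ^ 2 + 1) * |R|) := by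
  have hV : 0 ≤ V := (abs_nonneg R).trans hR
  obtain ⟨hR2, hR3⟩ := abs_le.1 hR
  obtain ⟨hR4, hR5⟩ := abs_le.1 hR1
  set s : ℝ := 1 + V / 2 with hs
  set ρ : ℝ := R / 2 with hρ
  have hs1 : 1 ≤ s := by rw [hs]; linarith
  have hρa : |ρ| = |R| / 2 := by rw [hρ, abs_div, abs_of_pos (by norm_num : (0 : ℝ) < 2)]
  have hρ1 : |ρ| ≤ 1 / 2 := by rw [hρa]; linarith
  obtain ⟨hρ2, hρ3⟩ := abs_le.1 hρ1
  have hsp : 1 / 2 ≤ s + ρ := by linarith
  have hsm : 1 / 2 ≤ s - ρ := by linarith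
  have e1 : 1 + (V + R) / 2 = s + ρ := by rw [hs, hρ]; ring
  have e2 : 1 + (V - R) / 2 = s - ρ := by rw [hs, hρ]; ring
  have hs2 : Real.sqrt 2 ^ 2 = 2 := Real.sq_sqrt (by norm_num)
  unfold Aw
  rw [e1, e2, ← hs, mul_pow, hs2]
  have e3 : -(2 * m ^ 2) / (2 * (s + ρ)) = -(m ^ 2 / (s + ρ)) := by
    field_simp
  have e4 : -(0 : ℝ) ^ 2 / (2 * (s - ρ)) = 0 := by simp
  have e5 : -m ^ 2 / (2 * s) = -(m ^ 2 / s) / 2 := by field_simp
  rw [e3, e4, Real.exp_zero, mul_one, mul_pow, e5]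
  have e6 : Real.exp (-(m ^ 2 / s) / 2) ^ 2 = Real.exp (-(m ^ 2 / s)) := by
    rw [← Real.exp_nat_mul]
    congr 1
    push_cast
    ring
  have e7 : ((Real.sqrt s)⁻¹) ^ 2 = s⁻¹ := by rw [inv_pow, Real.sq_sqrt (by linarith)]
  rw [e6, e7]
  -- the exponential factor
  have h1 : -(m ^ 2 / (s + ρ)) ≤ -(m ^ 2 / s) + 2 * m ^ 2 * |ρ| := by
    have h2 : m ^ 2 / s - m ^ 2 / (s + ρ) = m ^ 2 * (ρ / (s * (s + ρ))) := by
      field_simp
      ring
    have h3 : ρ / (s * (s + ρ)) ≤ 2 * |ρ| := by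
      rw [div_le_iff₀ (by positivity)]
      have h4 : 1 / 2 ≤ s * (s + ρ) := by nlinarith
      have h5 := le_abs_self ρ
      have h6 := abs_nonneg ρ
      nlinarith
    have h7 := mul_le_mul_of_nonneg_left h3 (sq_nonneg m)
    linarith
  -- the algebraic factor
  have h2 : (Real.sqrt (s + ρ))⁻¹ * (Real.sqrt (s - ρ))⁻¹ ≤ s⁻¹ * Real.exp |ρ| := by
    rw [← mul_inv, ← Real.sqrt_mul (by linarith)]
    have h3 : 0 < (s + ρ) * (s - ρ) := by positivity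
    have h4 : 0 < Real.sqrt ((s + ρ) * (s - ρ)) := Real.sqrt_pos.2 h3
    have h5 : s ≤ Real.sqrt ((s + ρ) * (s - ρ)) * Real.exp |ρ| := by
      have h6 : s ^ 2 ≤ (Real.sqrt ((s + ρ) * (s - ρ)) * Real.exp |ρ|) ^ 2 := by
        rw [mul_pow, Real.sq_sqrt h3.le]
        have h7 : 1 + 2 * |ρ| ≤ Real.exp |ρ| ^ 2 := by
          rw [← Real.exp_nat_mul]
          have := Real.add_one_le_exp (2 * |ρ|)
          push_cast
          linarith
        have h8 : s ^ 2 ≤ (s + ρ) * (s - ρ) * (1 + 2 * |ρ|) := by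
          have h9 : ρ ^ 2 = |ρ| ^ 2 := (sq_abs ρ).symm
          have h10 := abs_nonneg ρ
          have h11 : (s + ρ) * (s - ρ) * (1 + 2 * |ρ|) = s ^ 2 + |ρ| * (2 * s ^ 2 - |ρ| - 2 * |ρ| ^ 2) := by
            linear_combination (-1 - 2 * |ρ|) * h9
          rw [h11]
          have h12 : 0 ≤ 2 * s ^ 2 - |ρ| - 2 * |ρ| ^ 2 := by nlinarith
          nlinarith [mul_nonneg h10 h12]
        exact h8.trans (mul_le_mul_of_nonneg_left h7 h3.le)
      exact le_of_pow_le_pow_left₀ (by norm_num) (by positivity) h6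
    rw [inv_mul_eq_div, le_div_iff₀ (by linarith)]
    rw [inv_mul_le_iff₀ h4]
    exact h5
  have h3 : Real.exp (-(m ^ 2 / (s + ρ))) ≤ Real.exp (-(m ^ 2 / s)) * Real.exp (2 * m ^ 2 * |ρ|) := by
    rw [← Real.exp_add]
    exact Real.exp_le_exp.2 h1
  have h4 : Real.exp (2 * m ^ 2 * |ρ|) * Real.exp |ρ| ≤ Real.exp ((2 * m ^ 2 + 1) * |R|) := by
    rw [← Real.exp_add]
    apply Real.exp_le_exp.2
    rw [hρa]
    have h5 := abs_nonneg R
    nlinarith [mul_nonneg (sq_nonneg m) h5]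
  have p1 : 0 ≤ (Real.sqrt (s + ρ))⁻¹ * (Real.sqrt (s - ρ))⁻¹ := by positivity
  calc (Real.sqrt (s + ρ))⁻¹ * Real.exp (-(m ^ 2 / (s + ρ))) * (Real.sqrt (s - ρ))⁻¹ =
        ((Real.sqrt (s + ρ))⁻¹ * (Real.sqrt (s - ρ))⁻¹) * Real.exp (-(m ^ 2 / (s + ρ))) := by ring
    _ ≤ (s⁻¹ * Real.exp |ρ|) * (Real.exp (-(m ^ 2 / s)) * Real.exp (2 * m ^ 2 * |ρ|)) :=
        mul_le_mul h2 h3 (Real.exp_pos _).le (by positivity)
    _ = s⁻¹ * Real.exp (-(m ^ 2 / s)) * (Real.exp (2 * m ^ 2 * |ρ|) * Real.exp |ρ|) := by ring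
    _ ≤ _ := mul_le_mul_of_nonneg_left h4 (by positivity)

/-- the variance of a band -/
theorem Vj_val : ∃ C0 : ℝ, 1 ≤ C0 ∧ ∀ (n : ℕ) (w K μ : ℝ), 1 ≤ K → 0 < μ → (n + 2 : ℝ) * μ = 1 →
    K ≤ w → ∀ j : Fin n, |Vj w K μ j - μ * Real.log K / Real.pi ^ 2| ≤ C0 * K / w := by
  obtain ⟨C2, hC2, hinv⟩ := sum_inv
  refine ⟨C2, hC2, fun n w K μ hK hμ hn hw j => ?_⟩
  have hK0 : 0 < K := by linarith
  have hw0 : 0 < w := by linarith
  have hj : ((j : ℕ) : ℝ) + 1 ≤ n := by exact_mod_cast j.2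
  have hα : 0 < w * K ^ (-((((j : ℕ) : ℝ) + 2) * μ)) := mul_pos hw0 (Real.rpow_pos_of_pos hK0 _)
  have h1 := hinv _ (w * K ^ (-((((j : ℕ) : ℝ) + 1) * μ))) hα (pw_anti hw0 hK hμ (by linarith))
  have e : w * K ^ (-((((j : ℕ) : ℝ) + 1) * μ)) / (w * K ^ (-((((j : ℕ) : ℝ) + 2) * μ))) = K ^ μ := by
    rw [mul_div_mul_left _ _ hw0.ne', ← Real.rpow_sub hK0]
    congr 1
    ring
  rw [e, Real.log_rpow hK0] at h1
  have e2 : Vj w K μ j = (∑ p ∈ Bd w K μ j, 1 / (p : ℝ)) / Real.pi ^ 2 := by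
    unfold Vj
    rw [Finset.sum_div]
    refine Finset.sum_congr rfl fun p hp => ?_
    field_simp
  have hpi : 1 ≤ Real.pi ^ 2 := by
    have := Real.pi_gt_three
    nlinarith
  rw [e2, ← sub_div, abs_div, abs_of_pos (by positivity : 0 < Real.pi ^ 2)]
  have h2 : C2 / (w * K ^ (-((((j : ℕ) : ℝ) + 2) * μ))) ≤ C2 * K / w := by
    have h3 : K ^ (-1 : ℝ) ≤ K ^ (-((((j : ℕ) : ℝ) + 2) * μ)) := by
      apply Real.rpow_le_rpow_of_exponent_le hK
      nlinarith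
    rw [Real.rpow_neg_one] at h3
    calc C2 / (w * K ^ (-((((j : ℕ) : ℝ) + 2) * μ))) ≤ C2 / (w * K⁻¹) := by gcongr
      _ = _ := by field_simp
  exact le_trans (div_le_self (abs_nonneg _) hpi) (h1.trans h2)

/-- the covariance as a sum of cosines -/
lemma Rj_cos (w K μ x y : ℝ) (j : ℕ) : Rj w K μ x y j =
    (∑ p ∈ Bd w K μ j, Real.cos (2 * Real.pi * |x - y| / w * Real.log p) / (p : ℝ)) / Real.pi ^ 2 := by
  unfold Rj
  rw [Finset.sum_div]
  refine Finset.sum_congr rfl fun p _ => ?_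
  have h1 : yc w x p * conj (yc w y p) =
      ((1 / (Real.pi ^ 2 * p) : ℝ) : ℂ) * ee (-(Real.log p / w * (x - y))) := by
    unfold yc
    have h2 : ee (-(Real.log p / w * (x - y))) = ee (-(Real.log p / w * x)) * conj (ee (-(Real.log p / w * y))) := by
      rw [← ee_neg, ← ee_add]
      congr 1
      ring
    have h3 : ((Real.pi : ℂ) * I)⁻¹ * conj ((Real.pi : ℂ) * I)⁻¹ = ((1 / Real.pi ^ 2 : ℝ) : ℂ) := by
      rw [Complex.mul_conj, Complex.normSq_eq_norm_sq, piI_norm, inv_pow, one_div]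
    have h4 : ((1 / (Real.pi ^ 2 * p) : ℝ) : ℂ) = ((((Real.sqrt p)⁻¹ : ℝ) : ℂ)) ^ 2 * ((1 / Real.pi ^ 2 : ℝ) : ℂ) := by
      rw [← Complex.ofReal_pow, sq_inv_sqrt, ← Complex.ofReal_mul]
      congr 1
      field_simp
    rw [h2, h4, ← h3]
    simp only [map_mul, Complex.conj_ofReal]
    ring
  rw [h1, Complex.re_ofReal_mul]
  have h5 : (ee (-(Real.log p / w * (x - y)))).re = Real.cos (2 * Real.pi * |x - y| / w * Real.log p) := by
    unfold ee
    rw [mul_comm, Complex.exp_ofReal_mul_I_re]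
    rcases le_total 0 (x - y) with h | h
    · rw [abs_of_nonneg h, ← Real.cos_neg]
      congr 1
      ring
    · rw [abs_of_nonpos h]
      congr 1
      ring
  rw [h5]
  field_simp

/-- the covariance of a band with distant points -/
theorem Rj_small : ∃ C1 : ℝ, 1 ≤ C1 ∧ ∀ (n : ℕ) (w K μ η : ℝ), 8 ≤ K → 0 < μ → (n + 2 : ℝ) * μ = 1 →
    64 * K ^ 3 ≤ w → 0 ≤ η → η ≤ 1 → ∀ (j : Fin n) (x y : ℝ), |x - y| ≤ K →
    K ^ ((((j : ℕ) : ℝ) + 2) * μ + η) ≤ |x - y| → |Rj w K μ x y j| ≤ C1 * K ^ (-η) := by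
  obtain ⟨C, hC, hcos⟩ := sum_cos
  refine ⟨C, hC, fun n w K μ η hK hμ hn hw hη hη1 j x y hxy hfar => ?_⟩
  have hK0 : 0 < K := by linarith
  have hw0 : 0 < w := lt_of_lt_of_le (by positivity) hw
  have hj : ((j : ℕ) : ℝ) + 1 ≤ n := by exact_mod_cast j.2
  have hh : 0 < |x - y| := lt_of_lt_of_le (Real.rpow_pos_of_pos hK0 _) hfar
  have hpi := Real.pi_pos
  have hpi4 := Real.pi_lt_four
  have hpi3 := Real.pi_gt_three
  set κ : ℝ := 2 * Real.pi * |x - y| / w with hκ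
  have hκ0 : 0 < κ := by positivity
  set α : ℝ := w * K ^ (-((((j : ℕ) : ℝ) + 2) * μ)) with hα
  have hα0 : 0 < α := mul_pos hw0 (Real.rpow_pos_of_pos hK0 _)
  have h1 := hcos α (w * K ^ (-((((j : ℕ) : ℝ) + 1) * μ))) κ hα0 (pw_anti hw0 (by linarith) hμ
    (by linarith)) hκ0
  have e : w * K ^ (-((((j : ℕ) : ℝ) + 1) * μ)) / α = K ^ μ := by
    rw [hα, mul_div_mul_left _ _ hw0.ne', ← Real.rpow_sub hK0]
    congr 1
    ring
  rw [e, Real.log_rpow hK0] at h1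
  have hKη : 0 < K ^ (-η) := Real.rpow_pos_of_pos hK0 _
  have hKη1 : K⁻¹ ≤ K ^ (-η) := by
    rw [← Real.rpow_neg_one]
    exact Real.rpow_le_rpow_of_exponent_le (by linarith) (by linarith)
  have hL : Real.log K ≤ K := by
    have := Real.log_le_sub_one_of_pos hK0
    linarith
  have hL0 : 0 ≤ Real.log K := Real.log_nonneg (by linarith)
  have hμ1 : μ ≤ 1 := by
    have : (0 : ℝ) ≤ n * μ := by positivity
    nlinarith
  -- the three terms
  have hjK : K ^ ((((j : ℕ) : ℝ) + 2) * μ) ≤ K := by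
    have h2 := Real.rpow_le_rpow_of_exponent_le (by linarith : 1 ≤ K)
      (show (((j : ℕ) : ℝ) + 2) * μ ≤ 1 by nlinarith)
    rwa [Real.rpow_one] at h2
  have hinvα : 1 / α = K ^ ((((j : ℕ) : ℝ) + 2) * μ) / w := by
    rw [hα, Real.rpow_neg hK0.le]
    field_simp
  have hw64 : K / w ≤ K⁻¹ := by
    rw [div_le_iff₀ hw0, inv_mul_eq_div, le_div_iff₀ hK0]
    nlinarith
  have a1 : 1 / α ≤ K ^ (-η) := by
    rw [hinvα]
    exact (div_le_div_of_nonneg_right hjK hw0.le).trans (hw64.trans hKη1)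
  have a2 : κ * (μ * Real.log K) ≤ K ^ (-η) := by
    have b1 : μ * Real.log K ≤ K := by nlinarith
    have b2 : κ ≤ 8 * K / w := by
      rw [hκ]
      apply div_le_div_of_nonneg_right _ hw0.le
      nlinarith
    calc κ * (μ * Real.log K) ≤ 8 * K / w * K := mul_le_mul b2 b1 (by positivity) (by positivity)
      _ ≤ K⁻¹ := by
          rw [div_mul_eq_mul_div, div_le_iff₀ hw0, inv_mul_eq_div, le_div_iff₀ hK0]
          nlinarith [pow_pos hK0 3]
      _ ≤ _ := hKη1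
  have a3 : 1 / (κ * α) ≤ K ^ (-η) := by
    have b1 : 1 / (κ * α) = K ^ ((((j : ℕ) : ℝ) + 2) * μ) / (2 * Real.pi * |x - y|) := by
      rw [hκ, hα, Real.rpow_neg hK0.le]
      field_simp
    rw [b1, div_le_iff₀ (by positivity)]
    have b2 : K ^ ((((j : ℕ) : ℝ) + 2) * μ) = K ^ (-η) * K ^ ((((j : ℕ) : ℝ) + 2) * μ + η) := by
      rw [← Real.rpow_add hK0]
      congr 1
      ring
    rw [b2]
    refine mul_le_mul_of_nonneg_left (hfar.trans ?_) hKη.le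
    nlinarith
  rw [Rj_cos, abs_div, abs_of_pos (by positivity : 0 < Real.pi ^ 2), div_le_iff₀ (by positivity)]
  have hC0 : 0 ≤ C := by linarith
  calc _ ≤ C * (1 / α + κ * (μ * Real.log K) + 1 / (κ * α)) := h1
    _ ≤ C * (K ^ (-η) + K ^ (-η) + K ^ (-η)) := by gcongr
    _ = C * K ^ (-η) * 3 := by ring
    _ ≤ C * K ^ (-η) * Real.pi ^ 2 := by
        refine mul_le_mul_of_nonneg_left ?_ (by positivity)
        nlinarith

end Pool.Agent.Q278.MX
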