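import Pool.Agent.Q278.MX.S

/-!
# The second moment (helper278)
-/

set_option autoImplicit false

namespace Pool.Agent.Q278.MX

open Filter Topology Finset MeasureTheory Complex
open scoped ComplexConjugate
open Pool.Agent.Q278.MC

lemma prod_count {n : ℕ} (c : Fin n → Prop) [DecidablePred c] {a : ℝ} (ha : 1 ≤ a) :
    ∏ j : Fin n, (if c j then a else 1) ≤ 1 + ∑ j : Fin n, (if c j then a ^ (n - (j : ℕ)) else 0) := by
  classical
  have hnn : ∀ j : Fin n, 0 ≤ (if c j then a ^ (n - (j : ℕ)) else 0) := by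
    intro j
    split_ifs
    · positivity
    · exact le_rfl
  set S : Finset (Fin n) := Finset.univ.filter c with hS
  have e : ∏ j : Fin n, (if c j then a else 1) = a ^ S.card := by
    rw [← Finset.prod_filter, Finset.prod_const]
  rw [e]
  by_cases h : S.Nonempty
  · set j0 := S.min' h with hj0
    have hj0S : j0 ∈ S := S.min'_mem h
    have hc0 : c j0 := (Finset.mem_filter.1 hj0S).2
    have hsub : S ⊆ Finset.Ici j0 := fun j hj => Finset.mem_Ici.2 (S.min'_le j hj)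
    have hcard : S.card ≤ n - (j0 : ℕ) := by
      have := Finset.card_le_card hsub
      rwa [Fin.card_Ici] at this
    have h1 : a ^ S.card ≤ a ^ (n - (j0 : ℕ)) := pow_le_pow_right₀ ha hcard
    have h2 := Finset.single_le_sum (f := fun j : Fin n => (if c j then a ^ (n - (j : ℕ)) else 0))
      (fun j _ => hnn j) (Finset.mem_univ j0)
    simp only [if_pos hc0] at h2
    linarith
  · rw [Finset.not_nonempty_iff_eq_empty] at h
    rw [h, Finset.card_empty, pow_zero]
    have := Finset.sum_nonneg fun j (_ : j ∈ (Finset.univ : Finset (Fin n))) => hnn j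
    linarith

lemma near_count (x G : ℕ) {h b : ℝ} (hh : 1 ≤ h) (hb : 0 ≤ b) :
    ∑ y ∈ Finset.Icc 1 G, (if |(x : ℝ) - y| < h then b else 0) ≤ 3 * h * b := by
  classical
  rw [← Finset.sum_filter, Finset.sum_const, nsmul_eq_mul]
  refine mul_le_mul_of_nonneg_right ?_ hb
  set k : ℕ := ⌊h⌋₊ with hk
  have hsub : (Finset.Icc 1 G).filter (fun y : ℕ => |(x : ℝ) - y| < h) ⊆ Finset.Icc (x - k) (x + k) := by
    intro y hy
    rw [Finset.mem_filter] at hy
    have h1 := abs_lt.1 hy.2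
    rw [Finset.mem_Icc]
    constructor
    · rcases le_total x y with h2 | h2
      · omega
      · have h3 : x - y ≤ k := by
          apply Nat.le_floor
          rw [Nat.cast_sub h2]
          exact h1.2.le
        omega
    · rcases le_total x y with h2 | h2
      · have h3 : y - x ≤ k := by
          apply Nat.le_floor
          rw [Nat.cast_sub h2]
          linarith [h1.1]
        omega
      · omega
  have h4 := Finset.card_le_card hsub
  rw [Nat.card_Icc] at h4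
  have h5 : ((Finset.Icc 1 G).filter (fun y : ℕ => |(x : ℝ) - y| < h)).card ≤ 2 * k + 1 := by omega
  have h6 : (k : ℝ) ≤ h := Nat.floor_le (by linarith)
  have h7 : ((((Finset.Icc 1 G).filter (fun y : ℕ => |(x : ℝ) - y| < h)).card : ℕ) : ℝ) ≤ 2 * k + 1 := by
    exact_mod_cast h5
  linarith

/-- the weight of a point -/
noncomputable def Ww (w K μ m : ℝ) (n : ℕ) (x t : ℝ) : ℝ :=
  ∏ j : Fin n, Real.exp (-(Yj w K μ x j t - m) ^ 2 / 2)

/-- the expected weight -/
noncomputable def Qw (w K μ m : ℝ) (n : ℕ) : ℝ := ∏ j : Fin n, Aw m (Vj w K μ j)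

lemma Yj_cont (w K μ x : ℝ) (j : ℕ) : Continuous (Yj w K μ x j) :=
  Complex.continuous_re.comp (DP_cont _ _)

lemma Ww_cont (w K μ m : ℝ) (n : ℕ) (x : ℝ) : Continuous (Ww w K μ m n x) := by
  unfold Ww
  refine continuous_finsetProd _ fun j _ => ?_
  exact Real.continuous_exp.comp (((((Yj_cont w K μ x j).sub continuous_const).pow 2).neg).div_const _)

lemma Ww_nonneg (w K μ m : ℝ) (n : ℕ) (x t : ℝ) : 0 ≤ Ww w K μ m n x t :=
  Finset.prod_nonneg fun _ _ => (Real.exp_pos _).le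

lemma Qw_pos (w K μ m : ℝ) (n : ℕ) : 0 < Qw w K μ m n :=
  Finset.prod_pos fun _ _ => Aw_pos (Vj_nonneg _ _ _ _)

/-- the bound for a pair -/
lemma pair_bound {n : ℕ} {w K μ m x y a E ε C1 η T : ℝ} (hT : 1 ≤ T) (ha : 1 ≤ a)
    (hAa : ∀ j : Fin n, 1 ≤ Aw m (Vj w K μ j) * a)
    (hR : ∀ j : Fin n, K ^ ((((j : ℕ) : ℝ) + 2) * μ + η) ≤ |x - y| → |Rj w K μ x y j| ≤ C1)
    (hC1 : C1 ≤ 1) (hC10 : 0 ≤ C1) (hE : E = Real.exp ((2 * m ^ 2 + 1) * C1))
    (hpair : ∀ (c : Fin n → Prop) [DecidablePred c],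
      |(∫ t, ∏ j : Fin n, (Real.exp (-(Yj w K μ x j t - m) ^ 2 / 2) *
        (if c j then 1 else Real.exp (-(Yj w K μ y j t - m) ^ 2 / 2))) ∂(mu T)) -
      ∏ j : Fin n, (if c j then Aw m (Vj w K μ j) else
      Aw (Real.sqrt 2 * m) (Vj w K μ j + Rj w K μ x y j) *
        Aw 0 (Vj w K μ j - Rj w K μ x y j))| ≤ ε) :
    ∫ t, Ww w K μ m n x t * Ww w K μ m n y t ∂(mu T) ≤
      Qw w K μ m n ^ 2 * E ^ n * (1 + ∑ j : Fin n,
        (if |x - y| < K ^ ((((j : ℕ) : ℝ) + 2) * μ + η) then a ^ (n - (j : ℕ)) else 0)) + ε := by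
  classical
  haveI := mu_fin T
  set c : Fin n → Prop := fun j => |x - y| < K ^ ((((j : ℕ) : ℝ) + 2) * μ + η) with hc
  have hE1 : 1 ≤ E := by
    rw [hE]
    exact Real.one_le_exp (by positivity)
  have h1 := (abs_le.1 (hpair c)).2
  have h2 : ∫ t, Ww w K μ m n x t * Ww w K μ m n y t ∂(mu T) ≤
      ∫ t, ∏ j : Fin n, (Real.exp (-(Yj w K μ x j t - m) ^ 2 / 2) *
        (if c j then 1 else Real.exp (-(Yj w K μ y j t - m) ^ 2 / 2))) ∂(mu T) := by
    apply integral_mono (mu_cont ((Ww_cont w K μ m n x).mul (Ww_cont w K μ m n y)) T)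
    · apply mu_cont
      refine continuous_finsetProd _ fun j _ => ?_
      have c1 : ∀ z : ℝ, Continuous fun t => Real.exp (-(Yj w K μ z j t - m) ^ 2 / 2) := fun z =>
        Real.continuous_exp.comp (((((Yj_cont w K μ z j).sub continuous_const).pow 2).neg).div_const _)
      refine (c1 x).mul ?_
      by_cases hcj : c j
      · simp only [if_pos hcj]; exact continuous_const
      · simp only [if_neg hcj]; exact c1 y
    · intro t
      simp only [Ww, Pi.mul_apply]
      rw [← Finset.prod_mul_distrib]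
      refine Finset.prod_le_prod (fun j _ => by positivity) fun j _ => ?_
      refine mul_le_mul_of_nonneg_left ?_ (Real.exp_pos _).le
      split_ifs
      · apply Real.exp_le_one_iff.2
        have := sq_nonneg (Yj w K μ y j t - m)
        linarith
      · exact le_rfl
  have h3 : ∏ j : Fin n, (if c j then Aw m (Vj w K μ j) else
      Aw (Real.sqrt 2 * m) (Vj w K μ j + Rj w K μ x y j) *
        Aw 0 (Vj w K μ j - Rj w K μ x y j)) ≤
      ∏ j : Fin n, (Aw m (Vj w K μ j) ^ 2 * E * (if c j then a else 1)) := by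
    refine Finset.prod_le_prod (fun j _ => ?_) fun j _ => ?_
    · have hv := Vj_nonneg w K μ j
      have hr := abs_le.1 (Rj_le w K μ x y j)
      split_ifs
      · exact (Aw_pos hv).le
      · exact mul_nonneg (Aw_pos (by linarith [hr.1])).le (Aw_pos (by linarith [hr.2])).le
    · by_cases hcj : c j
      · rw [if_pos hcj, if_pos hcj]
        have hv := Aw_pos (m := m) (Vj_nonneg w K μ j)
        calc Aw m (Vj w K μ j) = Aw m (Vj w K μ j) * 1 * 1 := by ring
          _ ≤ Aw m (Vj w K μ j) * (Aw m (Vj w K μ j) * a) * E := by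
              have := hAa j
              gcongr
          _ = _ := by ring
      · rw [if_neg hcj, if_neg hcj, mul_one]
        have h4 : K ^ ((((j : ℕ) : ℝ) + 2) * μ + η) ≤ |x - y| := by
          simp only [hc] at hcj
          exact not_lt.1 hcj
        have h5 := hR j h4
        refine (ratio_le (m := m) (Rj_le w K μ x y j) (h5.trans hC1)).trans ?_
        refine mul_le_mul_of_nonneg_left ?_ (sq_nonneg _)
        rw [hE]
        apply Real.exp_le_exp.2
        exact mul_le_mul_of_nonneg_left h5 (by positivity)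
  have h6 : ∏ j : Fin n, (Aw m (Vj w K μ j) ^ 2 * E * (if c j then a else 1)) =
      Qw w K μ m n ^ 2 * E ^ n * ∏ j : Fin n, (if c j then a else 1) := by
    rw [Finset.prod_mul_distrib, Finset.prod_mul_distrib, Finset.prod_pow, Finset.prod_const,
      Finset.card_univ, Fintype.card_fin]
    rfl
  have h7 := prod_count c ha
  have h8 : 0 ≤ Qw w K μ m n ^ 2 * E ^ n := by positivity
  have h9 := mul_le_mul_of_nonneg_left h7 h8
  rw [h6] at h3
  linarith

/-- the sum of the weights -/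
noncomputable def Zw (w K μ m : ℝ) (n G : ℕ) (t : ℝ) : ℝ := ∑ x ∈ Finset.Icc 1 G, Ww w K μ m n x t

lemma Zw_cont (w K μ m : ℝ) (n G : ℕ) : Continuous (Zw w K μ m n G) := by
  unfold Zw
  exact continuous_finsetSum _ fun x _ => Ww_cont _ _ _ _ _ _

/-- Chebyshev for the sum of the weights -/
lemma cheb {n G : ℕ} {w K μ m a E ε ε' C1 η T H : ℝ} (hT : 1 ≤ T) (ha : 1 ≤ a) (hG : 1 ≤ G)
    (hAa : ∀ j : Fin n, 1 ≤ Aw m (Vj w K μ j) * a)
    (hR : ∀ j : Fin n, ∀ x ∈ Finset.Icc 1 G, ∀ y ∈ Finset.Icc 1 G,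
      K ^ ((((j : ℕ) : ℝ) + 2) * μ + η) ≤ |(x : ℝ) - y| → |Rj w K μ x y j| ≤ C1)
    (hC1 : C1 ≤ 1) (hC10 : 0 ≤ C1) (hE : E = Real.exp ((2 * m ^ 2 + 1) * C1))
    (hh : ∀ j : Fin n, 1 ≤ K ^ ((((j : ℕ) : ℝ) + 2) * μ + η))
    (hH : ∀ j : Fin n, K ^ ((((j : ℕ) : ℝ) + 2) * μ + η) * a ^ (n - (j : ℕ)) ≤ H)
    (hε0 : 0 ≤ ε) (hεQ : ε ≤ ε' * Qw w K μ m n ^ 2) (hQ1 : Qw w K μ m n ≤ 1)
    (hpair : ∀ (x y : ℝ) (c : Fin n → Prop) [DecidablePred c],
      |(∫ t, ∏ j : Fin n, (Real.exp (-(Yj w K μ x j t - m) ^ 2 / 2) *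
        (if c j then 1 else Real.exp (-(Yj w K μ y j t - m) ^ 2 / 2))) ∂(mu T)) -
      ∏ j : Fin n, (if c j then Aw m (Vj w K μ j) else
      Aw (Real.sqrt 2 * m) (Vj w K μ j + Rj w K μ x y j) *
        Aw 0 (Vj w K μ j - Rj w K μ x y j))| ≤ ε) :
    (mu T).real {t | Zw w K μ m n G t < G * Qw w K μ m n / 2} ≤
      4 * (E ^ n * (1 + 3 * n * H / G) - 1 + 3 * ε') := by
  classical
  haveI := mu_fin T
  set Q := Qw w K μ m n with hQ
  have hQ0 : 0 < Q := Qw_pos _ _ _ _ _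
  have hG0 : (0 : ℝ) < G := by exact_mod_cast hG
  set Z := Zw w K μ m n G with hZ
  have hZc : Continuous Z := Zw_cont _ _ _ _ _ _
  have hE1 : 1 ≤ E := by
    rw [hE]
    exact Real.one_le_exp (by positivity)
  -- the first moment
  have hfirst : G * (Q - ε) ≤ ∫ t, Z t ∂(mu T) := by
    have e1 : ∫ t, Z t ∂(mu T) = ∑ x ∈ Finset.Icc 1 G, ∫ t, Ww w K μ m n x t ∂(mu T) := by
      simp only [hZ, Zw]
      rw [integral_finsetSum _ fun x _ => mu_cont (Ww_cont _ _ _ _ _ _) T]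
    rw [e1]
    have e2 : (G : ℝ) * (Q - ε) = ∑ _x ∈ Finset.Icc 1 G, (Q - ε) := by
      rw [Finset.sum_const, Nat.card_Icc, nsmul_eq_mul]
      simp
    rw [e2]
    refine Finset.sum_le_sum fun x _ => ?_
    have h1 := (abs_le.1 (hpair x x (fun _ => True))).1
    simp only [if_true, mul_one] at h1
    have h2 : ∫ t, Ww w K μ m n x t ∂(mu T) = ∫ t, ∏ j : Fin n,
      Real.exp (-(Yj w K μ x j t - m) ^ 2 / 2) ∂(mu T) := rfl
    have h3 : Q = ∏ j : Fin n, Aw m (Vj w K μ j) := rfl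
    rw [h2, h3]
    linarith
  -- the second moment
  have hsecond : ∫ t, Z t ^ 2 ∂(mu T) ≤ Q ^ 2 * E ^ n * (G ^ 2 + 3 * n * H * G) + G ^ 2 * ε := by
    have e1 : ∫ t, Z t ^ 2 ∂(mu T) = ∑ x ∈ Finset.Icc 1 G, ∑ y ∈ Finset.Icc 1 G,
        ∫ t, Ww w K μ m n x t * Ww w K μ m n y t ∂(mu T) := by
      have e2 : ∀ t, Z t ^ 2 = ∑ x ∈ Finset.Icc 1 G, ∑ y ∈ Finset.Icc 1 G,
          Ww w K μ m n x t * Ww w K μ m n y t := by
        intro t
        simp only [hZ, Zw]
        rw [sq, Finset.sum_mul_sum]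
      simp_rw [e2]
      rw [integral_finsetSum]
      · refine Finset.sum_congr rfl fun x _ => ?_
        rw [integral_finsetSum]
        intro y _
        exact mu_cont ((Ww_cont _ _ _ _ _ _).mul (Ww_cont _ _ _ _ _ _)) T
      · intro x _
        apply mu_cont
        exact continuous_finsetSum _ fun y _ => (Ww_cont _ _ _ _ _ _).mul (Ww_cont _ _ _ _ _ _)
    rw [e1]
    have h1 : ∀ x ∈ Finset.Icc 1 G, ∀ y ∈ Finset.Icc 1 G,
        ∫ t, Ww w K μ m n x t * Ww w K μ m n y t ∂(mu T) ≤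
        Q ^ 2 * E ^ n * (1 + ∑ j : Fin n,
        (if |(x : ℝ) - y| < K ^ ((((j : ℕ) : ℝ) + 2) * μ + η) then a ^ (n - (j : ℕ)) else 0)) + ε :=
      fun x hx y hy => pair_bound hT ha hAa (fun j => hR j x hx y hy) hC1 hC10 hE (hpair x y)
    have h2 : ∀ x ∈ Finset.Icc 1 G, ∑ y ∈ Finset.Icc 1 G,
        ∫ t, Ww w K μ m n x t * Ww w K μ m n y t ∂(mu T) ≤
        Q ^ 2 * E ^ n * (G + 3 * n * H) + G * ε := by
      intro x hx
      refine (Finset.sum_le_sum (h1 x hx)).trans ?_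
      rw [Finset.sum_add_distrib, ← Finset.mul_sum, Finset.sum_add_distrib, Finset.sum_comm,
        Finset.sum_const, Finset.sum_const, Nat.card_Icc, nsmul_eq_mul, nsmul_eq_mul]
      simp only [Nat.add_sub_cancel, mul_one]
      have h3 : ∑ j : Fin n, ∑ y ∈ Finset.Icc 1 G,
          (if |(x : ℝ) - y| < K ^ ((((j : ℕ) : ℝ) + 2) * μ + η) then a ^ (n - (j : ℕ)) else 0) ≤
          3 * n * H := by
        calc _ ≤ ∑ _j : Fin n, 3 * H := by
              refine Finset.sum_le_sum fun j _ => ?_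
              refine (near_count x G (hh j) (by positivity)).trans ?_
              have := hH j
              calc 3 * K ^ ((((j : ℕ) : ℝ) + 2) * μ + η) * a ^ (n - (j : ℕ)) =
                  3 * (K ^ ((((j : ℕ) : ℝ) + 2) * μ + η) * a ^ (n - (j : ℕ))) := by ring
                _ ≤ 3 * H := by linarith
          _ = _ := by
              rw [Finset.sum_const, Finset.card_univ, Fintype.card_fin, nsmul_eq_mul]
              ring
      have h4 : 0 ≤ Q ^ 2 * E ^ n := by positivity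
      have h5 := mul_le_mul_of_nonneg_left (add_le_add (le_refl (G : ℝ)) h3) h4
      linarith
    calc _ ≤ ∑ _x ∈ Finset.Icc 1 G, (Q ^ 2 * E ^ n * (G + 3 * n * H) + G * ε) := Finset.sum_le_sum h2
      _ = _ := by
          rw [Finset.sum_const, Nat.card_Icc, nsmul_eq_mul]
          simp only [Nat.add_sub_cancel]
          ring
  -- Chebyshev
  have hmk := mul_meas_ge_le_integral_of_nonneg (μ := mu T) (f := fun t => (Z t - G * Q) ^ 2)
    (Eventually.of_forall fun t => sq_nonneg _) (mu_cont ((hZc.sub continuous_const).pow 2) T)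
    ((G * Q / 2) ^ 2)
  have hsub : (mu T).real {t | Z t < G * Q / 2} ≤ (mu T).real {t | (G * Q / 2) ^ 2 ≤ (Z t - G * Q) ^ 2} := by
    refine measureReal_mono (fun t ht => ?_) (measure_ne_top _ _)
    rw [Set.mem_setOf_eq] at ht ⊢
    have h0 : 0 < G * Q := by positivity
    have h1 : G * Q / 2 ≤ G * Q - Z t := by linarith
    have h2 := pow_le_pow_left₀ (by positivity) h1 2
    calc _ ≤ (G * Q - Z t) ^ 2 := h2
      _ = _ := by ring
  have hint : ∫ t, (Z t - G * Q) ^ 2 ∂(mu T) ≤ (G * Q) ^ 2 * (E ^ n * (1 + 3 * n * H / G) - 1 + 3 * ε') := by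
    have e1 : ∫ t, (Z t - G * Q) ^ 2 ∂(mu T) = (∫ t, Z t ^ 2 ∂(mu T)) - 2 * (G * Q) * (∫ t, Z t ∂(mu T)) +
        (G * Q) ^ 2 * ta T := by
      have e2 : ∀ t, (Z t - G * Q) ^ 2 = Z t ^ 2 - 2 * (G * Q) * Z t + (G * Q) ^ 2 := fun t => by ring
      simp_rw [e2]
      rw [integral_add, integral_sub, integral_const_mul, integral_const, mu_univ hT]
      · simp only [smul_eq_mul]
        ring
      · exact mu_cont (hZc.pow 2) T
      · exact mu_cont (hZc.const_mul _) T
      · exact mu_cont ((hZc.pow 2).sub (hZc.const_mul _)) T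
      · exact integrable_const _
    rw [e1]
    have hta := (ta_mem hT).2
    have h0 : 0 ≤ 2 * (G * Q) := by positivity
    have h1 := mul_le_mul_of_nonneg_left hfirst h0
    have h2 : (G * Q) ^ 2 * ta T ≤ (G * Q) ^ 2 := mul_le_of_le_one_right (by positivity) hta
    have h3 : (G : ℝ) ^ 2 * ε ≤ (G * Q) ^ 2 * ε' := by
      calc (G : ℝ) ^ 2 * ε ≤ G ^ 2 * (ε' * Q ^ 2) := mul_le_mul_of_nonneg_left hεQ (by positivity)
        _ = _ := by ring
    have h4 : 2 * (G * Q) * (G * ε) ≤ 2 * ((G * Q) ^ 2 * ε') := by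
      have : G ^ 2 * ε * Q ≤ G ^ 2 * ε * 1 := mul_le_mul_of_nonneg_left hQ1 (by positivity)
      calc 2 * (G * Q) * (G * ε) = 2 * (G ^ 2 * ε * Q) := by ring
        _ ≤ 2 * (G ^ 2 * ε) := by linarith
        _ ≤ _ := by linarith
    have h5 : (G * Q) ^ 2 * (E ^ n * (1 + 3 * n * H / G) - 1 + 3 * ε') =
        Q ^ 2 * E ^ n * (G ^ 2 + 3 * n * H * G) - (G * Q) ^ 2 + 3 * ((G * Q) ^ 2 * ε') := by
      field_simp
    rw [h5]
    nlinarith
  have hGQ : 0 < (G * Q / 2) ^ 2 := by positivity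
  have h8 : (G * Q / 2) ^ 2 * (mu T).real {t | Z t < G * Q / 2} ≤
      (G * Q) ^ 2 * (E ^ n * (1 + 3 * n * H / G) - 1 + 3 * ε') :=
    (mul_le_mul_of_nonneg_left hsub hGQ.le).trans (hmk.trans hint)
  have h9 : (G * Q) ^ 2 * (E ^ n * (1 + 3 * n * H / G) - 1 + 3 * ε') =
      (G * Q / 2) ^ 2 * (4 * (E ^ n * (1 + 3 * n * H / G) - 1 + 3 * ε')) := by ring
  rw [h9] at h8
  exact le_of_mul_le_mul_left h8 hGQ

end Pool.Agent.Q278.MX
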