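import Pool.Agent.Q278.MX.U

/-!
# Thick points of the field (helper278)
-/

set_option autoImplicit false

namespace Pool.Agent.Q278.MX

open Filter Topology Finset MeasureTheory Complex
open scoped ComplexConjugate
open Pool.Agent.Q278.MC

lemma log_pow_small {s : ℝ} (hs : 0 < s) (k : ℕ) {c : ℝ} (hc : 0 < c) :
    ∀ᶠ K : ℝ in atTop, K ^ (-s) * Real.log K ^ k ≤ c := by
  have h1 := (isLittleO_log_rpow_rpow_atTop (k : ℝ) hs).tendsto_div_nhds_zero
  filter_upwards [h1.eventually_le_const hc, eventually_gt_atTop 0] with K h2 h3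
  rw [Real.rpow_neg h3.le]
  refine le_trans (le_of_eq ?_) h2
  rw [Real.rpow_natCast, div_eq_mul_inv]
  ring

/-- the field is the sum of the bands -/
lemma Yd_sum {w K μ : ℝ} (hw : 0 < w) (hK : 1 ≤ K) (hμ : 0 < μ) {n : ℕ} (hn : (n + 2 : ℝ) * μ = 1)
    (x t : ℝ) : (Yd w K μ x t).re = ∑ j : Fin n, Yj w K μ x j t := by
  have hNS : ∀ p ∈ Sm w K μ, p ≤ NS w K μ := fun p hp => PB_le hp
  unfold Yd Yj
  rw [af_DP Sm_prime hNS, Complex.re_sum, Sm_sum hw hK hμ hn]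
  refine Finset.sum_congr rfl fun j _ => ?_
  rw [af_DP Sm_prime hNS, Complex.re_sum]
  have hsub := Bd_sub hw hK hμ hn j
  rw [← Finset.sum_subset hsub]
  · refine Finset.sum_congr rfl fun p hp => ?_
    rw [if_pos hp]
  · intro p _ hp
    rw [if_neg hp, zero_mul, Complex.zero_re]

/-- the lower bound of the expected weight -/
lemma Aw_low {m V L μ α : ℝ} (hV0 : 0 ≤ V) (hm : |m| = α * μ * L / Real.pi)
    (hV : |V - μ * L / Real.pi ^ 2| ≤ 1) (hL : 0 ≤ L) (hμ : 0 < μ) (hμ1 : μ ≤ 1) :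
    Real.exp (-(α ^ 2 * μ * L)) ≤ (2 + L) * Aw m V := by
  have hpi : 1 ≤ Real.pi ^ 2 := by
    have := Real.pi_gt_three
    nlinarith
  have hpi0 := Real.pi_pos
  have h1 := abs_le.1 hV
  have hm2 : m ^ 2 = α ^ 2 * μ ^ 2 * L ^ 2 / Real.pi ^ 2 := by
    rw [← sq_abs, hm]
    field_simp
  have h2 : μ * L / Real.pi ^ 2 ≤ 2 + V := by linarith [h1.1]
  have h3 : m ^ 2 / (2 * (1 + V / 2)) ≤ α ^ 2 * μ * L := by
    rw [div_le_iff₀ (by positivity)]
    have h4 : 0 ≤ α ^ 2 * μ * L := by positivity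
    calc m ^ 2 = α ^ 2 * μ * L * (μ * L / Real.pi ^ 2) := by rw [hm2]; ring
      _ ≤ α ^ 2 * μ * L * (2 + V) := mul_le_mul_of_nonneg_left h2 h4
      _ = _ := by ring
  have h5 : Real.sqrt (1 + V / 2) ≤ 2 + L := by
    have h6 : μ * L / Real.pi ^ 2 ≤ L := by
      rw [div_le_iff₀ (by positivity)]
      nlinarith
    have h7 : 1 + V / 2 ≤ (2 + L) := by linarith [h1.2]
    rw [Real.sqrt_le_left (by linarith)]
    nlinarith
  unfold Aw
  have h8 : Real.exp (-(α ^ 2 * μ * L)) ≤ Real.exp (-m ^ 2 / (2 * (1 + V / 2))) := by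
    apply Real.exp_le_exp.2
    rw [neg_div]
    linarith
  have h9 : 1 ≤ (2 + L) * (Real.sqrt (1 + V / 2))⁻¹ := by
    rw [← div_eq_mul_inv, le_div_iff₀ (by positivity), one_mul]
    exact h5
  calc Real.exp (-(α ^ 2 * μ * L)) ≤ 1 * Real.exp (-m ^ 2 / (2 * (1 + V / 2))) := by rwa [one_mul]
    _ ≤ (2 + L) * (Real.sqrt (1 + V / 2))⁻¹ * Real.exp (-m ^ 2 / (2 * (1 + V / 2))) :=
        mul_le_mul_of_nonneg_right h9 (Real.exp_pos _).le
    _ = _ := by ring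

lemma Aw_le_one {m V : ℝ} (hV : 0 ≤ V) : Aw m V ≤ 1 := by
  unfold Aw
  have h1 : (Real.sqrt (1 + V / 2))⁻¹ ≤ 1 := by
    apply inv_le_one_of_one_le₀
    rw [Real.one_le_sqrt]
    linarith
  have h2 : Real.exp (-m ^ 2 / (2 * (1 + V / 2))) ≤ 1 := by
    apply Real.exp_le_one_iff.2
    apply div_nonpos_of_nonpos_of_nonneg
    · nlinarith [sq_nonneg m]
    · positivity
  exact mul_le_one₀ h1 (Real.exp_pos _).le h2

/-- the second moment bound for the field -/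
theorem field_second : ∀ (α γ : ℝ), 0 ≤ α → 0 < γ → 4 * γ ≤ 1 - α ^ 2 → ∀ (n : ℕ) (μ : ℝ), 0 < μ →
    (n + 2 : ℝ) * μ = 1 → ∃ K0 : ℝ, 8 ≤ K0 ∧ ∀ K : ℝ, K0 ≤ K → ∀ T : ℝ, 1 ≤ T →
    (4 * K) ^ 3 ≤ Real.log T → ∀ m : ℝ, |m| = α * μ * Real.log K / Real.pi →
    (mu T).real {t | Zw (Real.log T) K μ m n ⌊K / 2⌋₊ t <
      (⌊K / 2⌋₊ : ℕ) * Qw (Real.log T) K μ m n / 2} ≤ K ^ (-(μ * γ / 2)) ∧
    K ^ (-(α ^ 2 + γ)) ≤ Qw (Real.log T) K μ m n := by
  obtain ⟨C0, hC0, hvj⟩ := Vj_val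
  obtain ⟨C1, hC1, hrj⟩ := Rj_small
  intro α γ hα hγ hαγ n μ hμ hn
  obtain ⟨K2, hK28, hpw⟩ := pair_weight n μ hμ hn
  have hn0 : (0 : ℝ) ≤ n := Nat.cast_nonneg n
  have hμ2 : μ ≤ 1 / 2 := by
    have : (0 : ℝ) ≤ n * μ := by positivity
    nlinarith
  have hμγ : 0 < μ * γ := by positivity
  have hγ1 : γ ≤ 1 / 4 := by nlinarith [sq_nonneg α]
  have hμγ1 : μ * γ ≤ 1 := by nlinarith
  have hα1 : α ≤ 1 := by nlinarith
  obtain ⟨K1, hK1⟩ := ((((log_rpow_small (μ := μ * γ) hμγ 1 2 1 one_pos).and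
    (log_pow_small (s := μ * γ / 2) (by positivity) 2 (c := 1 / (200 * ((n : ℝ) + 1) * C1))
      (by positivity))).and
    (log_pow_small (s := μ * γ / 2) (by positivity) 0 (c := 1 / (2000 * ((n : ℝ) + 1) * C1))
      (by positivity))).and (eventually_ge_atTop (max C0 1000))).exists_forall_of_atTop
  refine ⟨max K1 K2, hK28.trans (le_max_right _ _), fun K hK T hT hKT m hm => ?_⟩
  obtain ⟨⟨⟨g1, g2⟩, g3⟩, g4⟩ := hK1 K ((le_max_left _ _).trans hK)
  have hKK2 : K2 ≤ K := (le_max_right _ _).trans hK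
  have hK8 : 8 ≤ K := hK28.trans hKK2
  have hK1000 : 1000 ≤ K := (le_max_right _ _).trans g4
  have hKC0 : C0 ≤ K := (le_max_left _ _).trans g4
  have hK0 : 0 < K := by linarith
  set w := Real.log T with hw
  set L := Real.log K with hL
  have hL0 : 0 ≤ L := Real.log_nonneg (by linarith)
  have hL1 : 1 ≤ L := by
    rw [hL, Real.le_log_iff_exp_le hK0]
    have := Real.exp_one_lt_d9
    linarith
  have hKw : 64 * K ^ 3 ≤ w := le_trans (le_of_eq (by ring)) hKT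
  have hK2' : 1 ≤ K ^ 2 := by nlinarith
  have hKw1 : 64 * K * K ≤ w := by
    refine le_trans ?_ hKw
    have : K * K ≤ K ^ 3 := by nlinarith
    nlinarith
  have hKlew : K ≤ w := by nlinarith
  have hw0 : 0 < w := by linarith
  set G : ℕ := ⌊K / 2⌋₊ with hG
  have hG1 : (G : ℝ) ≤ K / 2 := Nat.floor_le (by positivity)
  have hG2 : K / 4 ≤ G := by
    have := Nat.lt_floor_add_one (K / 2)
    linarith
  have hGn : 1 ≤ G := by
    have : (1 : ℝ) ≤ G := by linarith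
    exact_mod_cast this
  have hGpos : (0 : ℝ) < G := by linarith
  have hVj : ∀ j : Fin n, |Vj w K μ j - μ * L / Real.pi ^ 2| ≤ 1 := by
    intro j
    refine (hvj n w K μ (by linarith) hμ hn hKlew j).trans ?_
    rw [div_le_one hw0]
    nlinarith
  -- the constant `a`
  set a : ℝ := K ^ ((α ^ 2 + γ) * μ) with ha
  have ha0 : 0 < a := Real.rpow_pos_of_pos hK0 _
  have ha1 : 1 ≤ a := Real.one_le_rpow (by linarith) (by positivity)
  have hKγ : 0 < K ^ (μ * γ) := Real.rpow_pos_of_pos hK0 _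
  have hLγ : 2 + L ≤ K ^ (μ * γ) := by
    rw [Real.rpow_neg hK0.le, inv_mul_le_iff₀ hKγ] at g1
    linarith
  have hexpα : Real.exp (-(α ^ 2 * μ * L)) = K ^ (-(α ^ 2 * μ)) := by
    rw [Real.rpow_def_of_pos hK0]
    congr 1
    ring
  have hAa : ∀ j : Fin n, 1 ≤ Aw m (Vj w K μ j) * a := by
    intro j
    have h1 := Aw_low (Vj_nonneg w K μ j) hm (hVj j) hL0 hμ (by linarith)
    have hA := Aw_pos (m := m) (Vj_nonneg w K μ j)
    have h2 : K ^ (-(α ^ 2 * μ)) ≤ K ^ (μ * γ) * Aw m (Vj w K μ j) := by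
      rw [← hexpα]
      exact h1.trans (mul_le_mul_of_nonneg_right hLγ hA.le)
    have h3 : a = K ^ (α ^ 2 * μ) * K ^ (μ * γ) := by
      rw [ha, ← Real.rpow_add hK0]
      congr 1
      ring
    have h4 : K ^ (α ^ 2 * μ) * K ^ (-(α ^ 2 * μ)) = 1 := by
      rw [← Real.rpow_add hK0]; simp
    have h5 : 0 < K ^ (α ^ 2 * μ) := Real.rpow_pos_of_pos hK0 _
    calc (1 : ℝ) = K ^ (α ^ 2 * μ) * K ^ (-(α ^ 2 * μ)) := h4.symm
      _ ≤ K ^ (α ^ 2 * μ) * (K ^ (μ * γ) * Aw m (Vj w K μ j)) := mul_le_mul_of_nonneg_left h2 h5.le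
      _ = _ := by rw [h3]; ring
  have hnμ : (n : ℝ) * μ ≤ 1 := by nlinarith
  have hQlow : K ^ (-(α ^ 2 + γ)) ≤ Qw w K μ m n := by
    have h1 : 1 ≤ Qw w K μ m n * a ^ n := by
      have e : Qw w K μ m n * a ^ n = ∏ j : Fin n, (Aw m (Vj w K μ j) * a) := by
        rw [Finset.prod_mul_distrib, Finset.prod_const, Finset.card_univ, Fintype.card_fin]
        rfl
      rw [e]
      calc (1 : ℝ) = ∏ _j : Fin n, (1 : ℝ) := by simp
        _ ≤ _ := Finset.prod_le_prod (fun _ _ => zero_le_one) fun j _ => hAa j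
    have h2 : a ^ n ≤ K ^ (α ^ 2 + γ) := by
      rw [ha, ← Real.rpow_natCast, ← Real.rpow_mul hK0.le]
      apply Real.rpow_le_rpow_of_exponent_le (by linarith)
      have h3 : 0 ≤ α ^ 2 + γ := by positivity
      calc (α ^ 2 + γ) * μ * n = (α ^ 2 + γ) * (n * μ) := by ring
        _ ≤ (α ^ 2 + γ) * 1 := mul_le_mul_of_nonneg_left hnμ h3
        _ = _ := mul_one _
    have hQ0 := Qw_pos w K μ m n
    have h4 : 0 < K ^ (α ^ 2 + γ) := Real.rpow_pos_of_pos hK0 _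
    rw [Real.rpow_neg hK0.le, inv_le_iff_one_le_mul₀ h4]
    exact h1.trans (mul_le_mul_of_nonneg_left h2 hQ0.le)
  have hQ1 : Qw w K μ m n ≤ 1 :=
    Finset.prod_le_one (fun j _ => (Aw_pos (Vj_nonneg _ _ _ _)).le) fun j _ => Aw_le_one (Vj_nonneg _ _ _ _)
  have hQK : K⁻¹ ≤ Qw w K μ m n := by
    refine le_trans ?_ hQlow
    rw [← Real.rpow_neg_one]
    apply Real.rpow_le_rpow_of_exponent_le (by linarith)
    linarith
  refine ⟨?_, hQlow⟩
  -- the smallness of the covariances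
  have hKη : 0 < K ^ (-(μ * γ)) := Real.rpow_pos_of_pos hK0 _
  have hhalf : K ^ (-(μ * γ)) = K ^ (-(μ * γ / 2)) * K ^ (-(μ * γ / 2)) := by
    rw [← Real.rpow_add hK0]
    congr 1
    ring
  have hKh : 0 < K ^ (-(μ * γ / 2)) := Real.rpow_pos_of_pos hK0 _
  have hn1 : (1 : ℝ) ≤ n + 1 := by linarith
  rw [pow_zero, mul_one, le_div_iff₀ (by positivity)] at g3
  rw [le_div_iff₀ (by positivity)] at g2
  have hKh1 : K ^ (-(μ * γ / 2)) * (2000 * ((n : ℝ) + 1)) ≤ 1 := by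
    refine le_trans ?_ g3
    have : (2000 : ℝ) * (n + 1) ≤ 2000 * (n + 1) * C1 := le_mul_of_one_le_right (by positivity) hC1
    exact mul_le_mul_of_nonneg_left this hKh.le
  have hKh2 : K ^ (-(μ * γ / 2)) * 2000 ≤ 1 := by
    refine le_trans ?_ hKh1
    exact mul_le_mul_of_nonneg_left (by linarith) hKh.le
  have hKhC : C1 * K ^ (-(μ * γ / 2)) ≤ 1 := by
    refine le_trans ?_ g3
    have : C1 ≤ 2000 * ((n : ℝ) + 1) * C1 := by nlinarith
    rw [mul_comm]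
    exact mul_le_mul_of_nonneg_left this hKh.le
  have hCη1 : C1 * K ^ (-(μ * γ)) ≤ 1 := by
    rw [hhalf, ← mul_assoc]
    have : K ^ (-(μ * γ / 2)) ≤ 1 := by linarith
    calc C1 * K ^ (-(μ * γ / 2)) * K ^ (-(μ * γ / 2)) ≤ 1 * 1 :=
          mul_le_mul hKhC this hKh.le zero_le_one
      _ = 1 := one_mul 1
  have hH : ∀ j : Fin n, K ^ ((((j : ℕ) : ℝ) + 2) * μ + μ * γ) * a ^ (n - (j : ℕ)) ≤
      K ^ (1 - 2 * (μ * γ)) := by
    intro j
    rw [ha, ← Real.rpow_natCast (K ^ ((α ^ 2 + γ) * μ)), ← Real.rpow_mul hK0.le, ← Real.rpow_add hK0]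
    apply Real.rpow_le_rpow_of_exponent_le (by linarith)
    rw [Nat.cast_sub j.2.le]
    have hj : ((j : ℕ) : ℝ) + 1 ≤ n := by exact_mod_cast j.2
    have h1 : (((j : ℕ) : ℝ) + 2) * μ = 1 - ((n : ℝ) - (j : ℕ)) * μ := by linarith
    rw [h1]
    have h2 : 0 ≤ (((n : ℝ) - (j : ℕ)) - 1) * μ := mul_nonneg (by linarith) hμ.le
    have h3 : 3 * γ ≤ 1 - (α ^ 2 + γ) := by linarith
    have h4 : 3 * γ * (((n : ℝ) - (j : ℕ)) * μ) ≤ (1 - (α ^ 2 + γ)) * (((n : ℝ) - (j : ℕ)) * μ) := by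
      apply mul_le_mul_of_nonneg_right h3
      exact mul_nonneg (by linarith) hμ.le
    nlinarith
  have hch := cheb (n := n) (G := G) (w := w) (K := K) (μ := μ) (m := m) (a := a)
    (E := Real.exp ((2 * m ^ 2 + 1) * (C1 * K ^ (-(μ * γ))))) (ε := 1 / K ^ 20) (ε' := 1 / K ^ 18)
    (C1 := C1 * K ^ (-(μ * γ))) (η := μ * γ) (T := T) (H := K ^ (1 - 2 * (μ * γ))) hT ha1 hGn hAa (by
      intro j x hx y hy hxy
      rw [Finset.mem_Icc] at hx hy
      apply hrj n w K μ (μ * γ) hK8 hμ hn hKw hμγ.le hμγ1 j x y _ hxy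
      have hx' : (x : ℝ) ≤ G := by exact_mod_cast hx.2
      have hy' : (y : ℝ) ≤ G := by exact_mod_cast hy.2
      have hx0 : (0 : ℝ) ≤ x := Nat.cast_nonneg x
      have hy0 : (0 : ℝ) ≤ y := Nat.cast_nonneg y
      rw [abs_le]
      constructor <;> linarith) hCη1 (by positivity) rfl (by
      intro j
      exact Real.one_le_rpow (by linarith) (by positivity)) hH (by positivity) (by
      have h1 : K⁻¹ ^ 2 ≤ Qw w K μ m n ^ 2 := pow_le_pow_left₀ (by positivity) hQK 2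
      calc 1 / K ^ 20 = 1 / K ^ 18 * K⁻¹ ^ 2 := by field_simp
        _ ≤ _ := mul_le_mul_of_nonneg_left h1 (by positivity)) hQ1
      (fun x y c _ => hpw K hKK2 T hT hKT x y m c)
  refine hch.trans ?_
  -- the numerical bound
  have hm2 : m ^ 2 ≤ L ^ 2 := by
    have h1 : |m| ≤ L := by
      rw [hm, div_le_iff₀ Real.pi_pos]
      have h2 := Real.pi_gt_three
      have h3 : α * μ ≤ 1 := by nlinarith
      nlinarith
    rw [← sq_abs m]
    exact pow_le_pow_left₀ (abs_nonneg _) h1 2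
  set u : ℝ := n * ((2 * m ^ 2 + 1) * (C1 * K ^ (-(μ * γ)))) with hu
  have hEn : Real.exp ((2 * m ^ 2 + 1) * (C1 * K ^ (-(μ * γ)))) ^ n = Real.exp u := by
    rw [← Real.exp_nat_mul]
  have hu0 : 0 ≤ u := by positivity
  have hu1 : u ≤ K ^ (-(μ * γ / 2)) * (3 / 200) := by
    have h1 : (2 * m ^ 2 + 1) ≤ 3 * L ^ 2 := by nlinarith
    have h2 : (n : ℝ) * ((2 * m ^ 2 + 1) * C1) ≤ (n + 1) * (3 * L ^ 2 * C1) := by gcongr; linarith
    calc u = (n * ((2 * m ^ 2 + 1) * C1)) * K ^ (-(μ * γ)) := by rw [hu]; ring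
      _ ≤ ((n + 1) * (3 * L ^ 2 * C1)) * K ^ (-(μ * γ)) := mul_le_mul_of_nonneg_right h2 hKη.le
      _ = K ^ (-(μ * γ / 2)) * (3 / 200) * (K ^ (-(μ * γ / 2)) * L ^ 2 * (200 * ((n : ℝ) + 1) * C1)) := by
          rw [hhalf]; ring
      _ ≤ K ^ (-(μ * γ / 2)) * (3 / 200) * 1 := mul_le_mul_of_nonneg_left g2 (by positivity)
      _ = _ := mul_one _
  have hKh3 : K ^ (-(μ * γ / 2)) ≤ 1 / 2000 := by linarith
  have hu2 : u ≤ 1 := by nlinarith
  have hexp : Real.exp u ≤ 1 + 2 * u := by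
    have h1 := Real.abs_exp_sub_one_le (x := u) (by rw [abs_of_nonneg hu0]; exact hu2)
    rw [abs_of_nonneg hu0] at h1
    linarith [(abs_le.1 h1).2]
  set v : ℝ := 3 * n * K ^ (1 - 2 * (μ * γ)) / G with hv
  have hv0 : 0 ≤ v := by positivity
  have hv1 : v ≤ K ^ (-(μ * γ / 2)) * (12 / 2000) := by
    have h1 : K ^ (1 - 2 * (μ * γ)) = K * (K ^ (-(μ * γ)) * K ^ (-(μ * γ))) := by
      rw [← Real.rpow_add hK0]
      nth_rewrite 2 [← Real.rpow_one K]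
      rw [← Real.rpow_add hK0]
      congr 1
      ring
    rw [hv, div_le_iff₀ hGpos, h1]
    have h2 : K ^ (-(μ * γ)) ≤ 1 := by
      rw [hhalf]
      nlinarith
    have h3 : K ^ (-(μ * γ)) * K ^ (-(μ * γ)) ≤ K ^ (-(μ * γ)) * 1 := mul_le_mul_of_nonneg_left h2 hKη.le
    have h4 : 3 * (n : ℝ) * (K * (K ^ (-(μ * γ)) * K ^ (-(μ * γ)))) ≤ 3 * n * (K * K ^ (-(μ * γ))) := by
      have : K * (K ^ (-(μ * γ)) * K ^ (-(μ * γ))) ≤ K * K ^ (-(μ * γ)) :=
        mul_le_mul_of_nonneg_left (by linarith) hK0.le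
      exact mul_le_mul_of_nonneg_left this (by positivity)
    refine h4.trans ?_
    have h5 : K ^ (-(μ * γ / 2)) * (2000 * (n : ℝ)) ≤ 1 := by
      refine le_trans ?_ hKh1
      exact mul_le_mul_of_nonneg_left (by linarith) hKh.le
    calc 3 * (n : ℝ) * (K * K ^ (-(μ * γ))) =
        (K ^ (-(μ * γ / 2)) * (2000 * (n : ℝ))) * (K ^ (-(μ * γ / 2)) * (3 / 2000) * K) := by
          rw [hhalf]; ring
      _ ≤ 1 * (K ^ (-(μ * γ / 2)) * (3 / 2000) * K) := mul_le_mul_of_nonneg_right h5 (by positivity)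
      _ = K ^ (-(μ * γ / 2)) * (12 / 2000) * (K / 4) := by ring
      _ ≤ _ := mul_le_mul_of_nonneg_left hG2 (by positivity)
  have hv2 : v ≤ 1 := by nlinarith
  have h18 : 1 / K ^ 18 ≤ K ^ (-(μ * γ / 2)) / 100 := by
    have h1 : K⁻¹ ≤ K ^ (-(μ * γ / 2)) := by
      rw [← Real.rpow_neg_one]
      apply Real.rpow_le_rpow_of_exponent_le (by linarith)
      linarith
    have h2 : 1 / K ^ 18 ≤ K⁻¹ / 100 := by
      rw [div_le_div_iff₀ (by positivity) (by norm_num), one_mul, inv_mul_eq_div, le_div_iff₀ hK0]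
      have h3 : K ^ 2 ≤ K ^ 18 := pow_le_pow_right₀ (by linarith) (by norm_num)
      nlinarith
    linarith
  rw [hEn]
  have h6 : Real.exp u * (1 + v) ≤ (1 + 2 * u) * (1 + v) := mul_le_mul_of_nonneg_right hexp (by linarith)
  have h7 : (1 + 2 * u) * (1 + v) - 1 ≤ 2 * u + 3 * v := by nlinarith
  linarith

end Pool.Agent.Q278.MX
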