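import Pool.Agent.Q278.MX.W

/-!
# Thick points of the field: the count (helper278)
-/

set_option autoImplicit false

namespace Pool.Agent.Q278.MX

open Filter Topology Finset MeasureTheory Complex
open scoped ComplexConjugate
open Pool.Agent.Q278.MC

/-- there are many thick points -/
theorem field_thick : ∀ (α γ : ℝ), 0 ≤ α → 0 < γ → 4 * γ ≤ 1 - α ^ 2 → ∀ (n : ℕ) (μ : ℝ), 0 < μ →
    (n + 2 : ℝ) * μ = 1 → ∃ K0 : ℝ, 8 ≤ K0 ∧ ∀ K : ℝ, K0 ≤ K → ∀ T : ℝ, 1 ≤ T →
    (4 * K) ^ 3 ≤ Real.log T → ∀ σ : ℝ, |σ| = 1 →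
    (mu T).real {t | ((((Finset.Icc 1 ⌊K / 2⌋₊).filter fun x : ℕ =>
      |(Yd (Real.log T) K μ x t).re - σ * (α * Real.log K / Real.pi)| ≤ μ * Real.log K).card : ℕ) : ℝ) <
      K ^ (1 - α ^ 2 - 2 * γ)} ≤ K ^ (-(μ * γ / 2)) := by
  classical
  intro α γ hα hγ hαγ n μ hμ hn
  obtain ⟨K2, hK28, hfs⟩ := field_second α γ hα hγ hαγ n μ hμ hn
  have hn0 : (0 : ℝ) ≤ n := Nat.cast_nonneg n
  have hμ2 : μ ≤ 1 / 2 := by
    have : (0 : ℝ) ≤ n * μ := by positivity
    nlinarith
  have hγ1 : γ ≤ 1 / 4 := by nlinarith [sq_nonneg α]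
  have hα1 : α ≤ 1 := by nlinarith
  obtain ⟨K1, hK1⟩ := ((Real.tendsto_log_atTop.eventually_ge_atTop (36 * (n : ℝ) ^ 2 / μ ^ 2)).and
    ((tendsto_rpow_atTop hγ).eventually_ge_atTop 16)).exists_forall_of_atTop
  refine ⟨max K1 K2, hK28.trans (le_max_right _ _), fun K hK T hT hKT σ hσ => ?_⟩
  obtain ⟨g1, g2⟩ := hK1 K ((le_max_left _ _).trans hK)
  have hKK2 : K2 ≤ K := (le_max_right _ _).trans hK
  have hK8 : 8 ≤ K := hK28.trans hKK2
  have hK0 : 0 < K := by linarith
  set w := Real.log T with hw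
  set L := Real.log K with hL
  have hL1 : 1 ≤ L := by
    rw [hL, Real.le_log_iff_exp_le hK0]
    have := Real.exp_one_lt_d9
    linarith
  have hL0 : 0 ≤ L := by linarith
  have hpi := Real.pi_pos
  have hpi3 := Real.pi_gt_three
  have hw0 : 0 < w := lt_of_lt_of_le (by positivity) hKT
  set m : ℝ := σ * (α * μ * L / Real.pi) with hm
  have hmabs : |m| = α * μ * L / Real.pi := by
    rw [hm, abs_mul, hσ, one_mul, abs_of_nonneg (by positivity)]
  obtain ⟨f1, f2⟩ := hfs K hKK2 T hT hKT m hmabs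
  set G : ℕ := ⌊K / 2⌋₊ with hG
  have hG2 : K / 4 ≤ G := by
    have := Nat.lt_floor_add_one (K / 2)
    linarith
  have hG0 : (0 : ℝ) ≤ G := Nat.cast_nonneg G
  set Q := Qw w K μ m n with hQ
  haveI := mu_fin T
  refine le_trans ?_ f1
  refine measureReal_mono (fun t ht => ?_) (measure_ne_top _ _)
  rw [Set.mem_setOf_eq] at ht ⊢
  by_contra hcon
  push Not at hcon
  set S : Finset ℕ := (Finset.Icc 1 G).filter fun x : ℕ => ∀ j : Fin n, |Yj w K μ x j t - m| ≤
    2 * Real.sqrt L with hS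
  -- the number of good points
  have hexp : Real.exp (-(2 * L)) = K⁻¹ ^ 2 := by
    rw [Real.exp_neg, inv_pow]
    congr 1
    rw [hL, show (2 : ℝ) * Real.log K = ((2 : ℕ) : ℝ) * Real.log K by norm_num, Real.exp_nat_mul,
      Real.exp_log hK0]
  have hQK : K⁻¹ ≤ Q := by
    refine le_trans ?_ f2
    rw [← Real.rpow_neg_one]
    apply Real.rpow_le_rpow_of_exponent_le (by linarith)
    linarith
  have hW : ∀ x ∈ Finset.Icc 1 G, Ww w K μ m n x t ≤ (if x ∈ S then 1 else 0) + K⁻¹ ^ 2 := by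
    intro x hx
    by_cases hxS : x ∈ S
    · rw [if_pos hxS]
      have h1 : Ww w K μ m n x t ≤ 1 := by
        refine Finset.prod_le_one (fun j _ => (Real.exp_pos _).le) fun j _ => ?_
        apply Real.exp_le_one_iff.2
        have := sq_nonneg (Yj w K μ x j t - m)
        linarith
      have : 0 ≤ K⁻¹ ^ 2 := by positivity
      linarith
    · rw [if_neg hxS, zero_add, ← hexp]
      have h1 : ¬∀ j : Fin n, |Yj w K μ x j t - m| ≤ 2 * Real.sqrt L := fun h =>
        hxS (Finset.mem_filter.2 ⟨hx, h⟩)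
      push Not at h1
      obtain ⟨j, hj⟩ := h1
      have h2 : Ww w K μ m n x t ≤ Real.exp (-(Yj w K μ x j t - m) ^ 2 / 2) := by
        unfold Ww
        rw [← Finset.mul_prod_erase _ _ (Finset.mem_univ j)]
        refine mul_le_of_le_one_right (Real.exp_pos _).le ?_
        refine Finset.prod_le_one (fun j _ => (Real.exp_pos _).le) fun j _ => ?_
        apply Real.exp_le_one_iff.2
        have := sq_nonneg (Yj w K μ x j t - m)
        linarith
      refine h2.trans (Real.exp_le_exp.2 ?_)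
      have h3 : (2 * Real.sqrt L) ^ 2 ≤ |Yj w K μ x j t - m| ^ 2 :=
        pow_le_pow_left₀ (by positivity) hj.le 2
      rw [sq_abs, mul_pow, Real.sq_sqrt hL0] at h3
      linarith
  have hZ : Zw w K μ m n G t ≤ S.card + G * K⁻¹ ^ 2 := by
    unfold Zw
    refine (Finset.sum_le_sum hW).trans (le_of_eq ?_)
    rw [Finset.sum_add_distrib, Finset.sum_const, Nat.card_Icc, nsmul_eq_mul, Finset.sum_ite_mem,
      Finset.inter_eq_right.2 (Finset.filter_subset _ _), Finset.sum_const, nsmul_eq_mul, mul_one]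
    simp only [Nat.add_sub_cancel]
    rw [hS]
  have hKinv : K⁻¹ ≤ 1 / 8 := by
    rw [one_div]
    exact inv_anti₀ (by norm_num) hK8
  have hKi0 : 0 < K⁻¹ := by positivity
  have hcardS : G * Q / 4 ≤ S.card := by
    have h1 : K⁻¹ ^ 2 ≤ Q / 4 := by nlinarith
    have h2 := mul_le_mul_of_nonneg_left h1 hG0
    linarith
  have hlow : K ^ (1 - α ^ 2 - 2 * γ) ≤ G * Q / 4 := by
    have e1 : K ^ (1 - α ^ 2 - 2 * γ) * K ^ γ = K * K ^ (-(α ^ 2 + γ)) := by
      rw [← Real.rpow_add hK0]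
      nth_rewrite 2 [← Real.rpow_one K]
      rw [← Real.rpow_add hK0]
      congr 1
      ring
    have h1 : 0 < K ^ (1 - α ^ 2 - 2 * γ) := Real.rpow_pos_of_pos hK0 _
    have h2 : K ^ (1 - α ^ 2 - 2 * γ) * 16 ≤ K * K ^ (-(α ^ 2 + γ)) := by
      rw [← e1]
      exact mul_le_mul_of_nonneg_left g2 h1.le
    have h3 : K / 4 * K ^ (-(α ^ 2 + γ)) ≤ G * Q :=
      mul_le_mul hG2 f2 (Real.rpow_pos_of_pos hK0 _).le hG0
    linarith
  -- good points are thick
  have hsub : S ⊆ (Finset.Icc 1 G).filter fun x : ℕ =>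
      |(Yd w K μ x t).re - σ * (α * L / Real.pi)| ≤ μ * L := by
    intro x hx
    rw [hS, Finset.mem_filter] at hx
    rw [Finset.mem_filter]
    refine ⟨hx.1, ?_⟩
    rw [Yd_sum hw0 (by linarith) hμ hn]
    have h1 : |(∑ j : Fin n, Yj w K μ x j t) - n * m| ≤ n * (2 * Real.sqrt L) := by
      have e1 : (∑ j : Fin n, Yj w K μ x j t) - n * m = ∑ j : Fin n, (Yj w K μ x j t - m) := by
        rw [Finset.sum_sub_distrib, Finset.sum_const, Finset.card_univ, Fintype.card_fin, nsmul_eq_mul]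
      rw [e1]
      refine (Finset.abs_sum_le_sum_abs _ _).trans ?_
      calc _ ≤ ∑ _j : Fin n, 2 * Real.sqrt L := Finset.sum_le_sum fun j _ => hx.2 j
        _ = _ := by rw [Finset.sum_const, Finset.card_univ, Fintype.card_fin, nsmul_eq_mul]
    have h2 : (n : ℝ) * m - σ * (α * L / Real.pi) = -(σ * (2 * μ * α * L / Real.pi)) := by
      rw [hm]
      have : (n : ℝ) * μ = 1 - 2 * μ := by linarith
      calc (n : ℝ) * (σ * (α * μ * L / Real.pi)) - σ * (α * L / Real.pi) =
          σ * α * L / Real.pi * (n * μ) - σ * (α * L / Real.pi) := by ring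
        _ = _ := by rw [this]; ring
    have h3 : |(n : ℝ) * m - σ * (α * L / Real.pi)| ≤ 2 / 3 * (μ * L) := by
      rw [h2, abs_neg, abs_mul, hσ, one_mul, abs_of_nonneg (by positivity), div_le_iff₀ hpi]
      have h4 : 0 ≤ μ * L := by positivity
      calc 2 * μ * α * L = 2 * (μ * L) * α := by ring
        _ ≤ 2 * (μ * L) * 1 := mul_le_mul_of_nonneg_left hα1 (by positivity)
        _ = 2 / 3 * (μ * L) * 3 := by ring
        _ ≤ _ := mul_le_mul_of_nonneg_left hpi3.le (by positivity)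
    have h5 : (n : ℝ) * (2 * Real.sqrt L) ≤ 1 / 3 * (μ * L) := by
      have h6 : 6 * n ≤ μ * Real.sqrt L := by
        have h7 : (6 * (n : ℝ) / μ) ^ 2 ≤ L := by
          refine le_trans (le_of_eq ?_) g1
          ring
        have h8 := Real.le_sqrt_of_sq_le h7
        rw [div_le_iff₀ hμ] at h8
        linarith
      have h9 := Real.sq_sqrt hL0
      have h10 := Real.sqrt_nonneg L
      have h11 := mul_le_mul_of_nonneg_right h6 h10
      have e2 : μ * Real.sqrt L * Real.sqrt L = μ * L := by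
        rw [mul_assoc, ← sq, h9]
      rw [e2] at h11
      linarith
    have h6 := abs_sub_le (∑ j : Fin n, Yj w K μ x j t) (n * m) (σ * (α * L / Real.pi))
    linarith
  have hfin := Finset.card_le_card hsub
  have hfin' : ((S.card : ℕ) : ℝ) ≤ ((((Finset.Icc 1 G).filter fun x : ℕ =>
      |(Yd w K μ x t).re - σ * (α * L / Real.pi)| ≤ μ * L).card : ℕ) : ℝ) := by exact_mod_cast hfin
  linarith

end Pool.Agent.Q278.MX
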